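import Pool.Agent.P.MP_3e99c6_gt.SK.Act0

/-! The infinitesimal action on tensors. -/

set_option linter.unusedSectionVars false

namespace Pool.Agent.P.MP_3e99c6_gt.G

open Finset

variable {ι A : Type} [Fintype ι] [DecidableEq ι] [CommRing A]

variable (γ : ι → ι → A) (ks : List Bool) (S S' : List ι → A) (l : List ι)

theorem dact_add : dact γ ks (fun l => S l + S' l) l = dact γ ks S l + dact γ ks S' l := by
  induction ks generalizing S S' l with
  | nil => simp [dact]
  | cons k ks ih =>
    cases l with
    | nil => simp [dact]
    | cons i l =>
      simp only [dact, mul_add, sum_add_distrib, ih]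
      ring

theorem dact_mul (a : A) : dact γ ks (fun l => a * S l) l = a * dact γ ks S l := by
  induction ks generalizing S l with
  | nil => simp [dact]
  | cons k ks ih =>
    cases l with
    | nil => simp [dact]
    | cons i l =>
      simp only [dact, ih, mul_add, mul_sum]
      congr 1
      exact sum_congr rfl fun x _ => by ring

theorem dact_zero : dact γ ks (fun _ => (0 : A)) l = 0 := by
  induction ks generalizing l with
  | nil => simp [dact]
  | cons k ks ih =>
    cases l with
    | nil => simp [dact]
    | cons i l =>
      simp only [dact, ih, mul_zero, sum_const_zero, add_zero]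

theorem dact_sum {κ : Type} (s : Finset κ) (T : κ → List ι → A) :
    dact γ ks (fun l => ∑ x ∈ s, T x l) l = ∑ x ∈ s, dact γ ks (T x) l := by
  classical
  induction s using Finset.induction_on with
  | empty => simpa using dact_zero γ ks l
  | insert a s ha ih => simp only [sum_insert ha, dact_add, ih]

theorem dact_congr (h : ∀ l' : List ι, l'.length = l.length → S l' = S' l') :
    dact γ ks S l = dact γ ks S' l := by
  induction ks generalizing S S' l with
  | nil => simp [dact]
  | cons k ks ih =>
    cases l with
    | nil => simp [dact]
    | cons i l =>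
      simp only [dact]
      rw [ih (fun l' => S (i :: l')) (fun l' => S' (i :: l')) l fun l' hl => h _ (by simp [hl])]
      congr 1
      exact sum_congr rfl fun x _ => by rw [h _ (by simp)]

theorem dact_add_left (γ' : ι → ι → A) :
    dact (fun i x => γ i x + γ' i x) ks S l = dact γ ks S l + dact γ' ks S l := by
  induction ks generalizing S l with
  | nil => simp [dact]
  | cons k ks ih =>
    cases l with
    | nil => simp [dact]
    | cons i l =>
      simp only [dact, ih]
      cases k <;> simp only [cond_true, cond_false, neg_add, add_mul, sum_add_distrib] <;> ring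

theorem dact_mul_left (a : A) : dact (fun i x => a * γ i x) ks S l = a * dact γ ks S l := by
  induction ks generalizing S l with
  | nil => simp [dact]
  | cons k ks ih =>
    cases l with
    | nil => simp [dact]
    | cons i l =>
      simp only [dact, ih, mul_add, mul_sum]
      congr 1
      refine sum_congr rfl fun x _ => ?_
      cases k <;> simp only [cond_true, cond_false] <;> ring

theorem ActB_zero : dact (fun _ _ => (0 : A)) ks S l = 0 := by
  simpa using dact_mul_left (fun _ _ => (0 : A)) ks S l 0

theorem dact_sum_left {κ : Type} (s : Finset κ) (δ : κ → ι → ι → A) :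
    dact (fun i x => ∑ q ∈ s, δ q i x) ks S l = ∑ q ∈ s, dact (δ q) ks S l := by
  classical
  induction s using Finset.induction_on with
  | empty => simpa using ActB_zero ks S l
  | insert a s ha ih => simp only [sum_insert ha, dact_add_left, ih]

theorem dact_not : dact γ (ks.map not) S l = dact (fun i x => -γ x i) ks S l := by
  induction ks generalizing S l with
  | nil => simp [dact]
  | cons k ks ih =>
    cases l with
    | nil => simp [dact]
    | cons i l =>
      simp only [List.map_cons, dact, ih]
      cases k <;> simp

theorem map_dact {B : Type} [CommRing B] (φ : A →+* B) :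
    φ (dact γ ks S l) = dact (fun i x => φ (γ i x)) ks (fun l => φ (S l)) l := by
  induction ks generalizing S l with
  | nil => simp [dact]
  | cons k ks ih =>
    cases l with
    | nil => simp [dact]
    | cons i l =>
      simp only [dact, map_add, map_sum, map_mul]
      rw [ih]
      cases k <;> simp

theorem ActB_short {α : Type} (p : ℕ) (l : List α) (h : l.length ≤ p + 1) : swapAt p l = l := by
  induction p generalizing l with
  | zero =>
    rcases l with _ | ⟨a, _ | ⟨b, l⟩⟩
    · rfl
    · rfl
    · simp at h
  | succ p ih =>
    cases l with
    | nil => rfl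
    | cons a l => simp only [swapAt, ih l (by simpa using h)]

theorem dact_swap (p : ℕ) (e : A) (hk : swapAt p ks = ks) (hp : p + 1 < ks.length)
    (h : ∀ l, S (swapAt p l) = e * S l) : dact γ ks S (swapAt p l) = e * dact γ ks S l := by
  by_cases hl : l.length ≤ p + 1
  · rw [ActB_short p l hl, ← dact_mul]
    exact dact_congr γ ks _ _ l fun l' hl' => by rw [← h, ActB_short p l' (hl' ▸ hl)]
  induction p generalizing ks S l with
  | zero =>
    obtain _ | ⟨k, _ | ⟨k', ks⟩⟩ := ks
    · simp at hp
    · simp at hp
    obtain _ | ⟨i, _ | ⟨j, l⟩⟩ := l
    · simp at hl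
    · simp at hl
    obtain rfl : k' = k := by
      simp only [swapAt, List.cons.injEq] at hk
      exact hk.1
    have h' : ∀ a b l, S (a :: b :: l) = e * S (b :: a :: l) := fun a b l => h (b :: a :: l)
    simp only [swapAt, dact, mul_add, mul_sum]
    rw [← dact_mul, add_left_comm]
    congr 1
    · exact sum_congr rfl fun x _ => by rw [h' j x]; ring
    congr 1
    · exact sum_congr rfl fun x _ => by rw [h' x i]; ring
    · simp only [← h']
  | succ p ih =>
    obtain _ | ⟨k, ks⟩ := ks
    · simp at hp
    obtain _ | ⟨i, l⟩ := l
    · simp at hl
    have h' : ∀ a l, S (a :: swapAt p l) = e * S (a :: l) := fun a l => h (a :: l)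
    simp only [swapAt, dact, mul_add, mul_sum]
    rw [ih ks (fun l' => S (i :: l')) l (by simpa [swapAt] using hk) (by simpa using hp) (h' i)
      (by simpa using hl)]
    congr 1
    exact sum_congr rfl fun x _ => by rw [h']; ring

theorem dact_comm (γ' : ι → ι → A) : dact γ ks (dact γ' ks S) l - dact γ' ks (dact γ ks S) l =
    dact (fun i x => ∑ y, γ' i y * γ y x - ∑ y, γ i y * γ' y x) ks S l := by
  induction ks generalizing S l with
  | nil => simp [dact]
  | cons k ks ih =>
    cases l with
    | nil => simp [dact]
    | cons i l =>
      simp only [dact, dact_add, dact_sum, dact_mul, mul_add, sum_add_distrib, ← ih]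
      have : ∑ x, (bif k then -γ i x else γ x i) *
            ∑ y, (bif k then -γ' x y else γ' y x) * S (y :: l) -
          ∑ x, (bif k then -γ' i x else γ' x i) *
            ∑ y, (bif k then -γ x y else γ y x) * S (y :: l) =
          ∑ x, (bif k then -(∑ y, γ' i y * γ y x - ∑ y, γ i y * γ' y x)
            else ∑ y, γ' x y * γ y i - ∑ y, γ x y * γ' y i) * S (x :: l) := by
        simp only [mul_sum]
        rw [sum_comm, sum_comm (f := fun x y => (bif k then -γ' i x else γ' x i) * _),
          ← sum_sub_distrib]
        refine sum_congr rfl fun x _ => ?_
        cases k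
        · simp only [cond_false, sub_mul, sum_mul]
          congr 1 <;> exact sum_congr rfl fun y _ => by ring
        · simp only [cond_true, neg_sub, sub_mul, sum_mul]
          congr 1 <;> exact sum_congr rfl fun y _ => by ring
      rw [← this]
      ring

theorem dact_zero_left : dact (fun _ _ => (0 : A)) ks S l = 0 := by
  exact ActB_zero ks S l

end Pool.Agent.P.MP_3e99c6_gt.G
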