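import Pool.Agent.P.MP_3e99c6_gt.SK.ActA
import Pool.Agent.P.MP_3e99c6_gt.SK.ActB

/-! Derivations and the action of matrices on tensors. -/

set_option linter.unusedSectionVars false

namespace Pool.Agent.P.MP_3e99c6_gt.G

open Finset

variable {ι A : Type} [Fintype ι] [DecidableEq ι] [CommRing A]

variable (g g' γ : ι → ι → A) (ks : List Bool) (S S' : List ι → A) (l : List ι)

variable [Algebra ℂ A] (D : Derivation ℂ A A)

theorem der_dact : D (dact γ ks S l) =
    dact (fun i x => D (γ i x)) ks S l + dact γ ks (fun l => D (S l)) l := by
  induction ks generalizing S l with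
  | nil => simp [dact]
  | cons k ks ih =>
    cases l with
    | nil => simp [dact]
    | cons i l =>
      simp only [dact, map_add, map_sum, ih, Derivation.leibniz, smul_eq_mul, sum_add_distrib]
      have : ∑ x, S (x :: l) * D (bif k then -γ i x else γ x i) =
          ∑ x, (bif k then -D (γ i x) else D (γ x i)) * S (x :: l) :=
        sum_congr rfl fun x _ => by cases k <;> simp [mul_comm]
      rw [this]
      ring

theorem Act_coef (γ' : ι → ι → A)
    (h : ∀ i x, D (g i x) = ∑ y, γ' i y * g y x - ∑ y, g i y * γ y x)
    (h' : ∀ x i, D (g' x i) = ∑ y, γ x y * g' y i - ∑ y, g' x y * γ' y i) (k : Bool) (i x : ι) :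
    D (bif k then g i x else g' x i) +
      ∑ y, (bif k then -γ' i y else γ' y i) * (bif k then g y x else g' x y) =
      ∑ y, (bif k then g i y else g' y i) * (bif k then -γ y x else γ x y) := by
  cases k
  · simp only [cond_false, h', mul_comm (γ' _ i), mul_comm (g' _ i)]
    ring
  · simp only [cond_true, h, neg_mul, mul_neg, sum_neg_distrib]
    ring

/-- The covariant derivative commutes with a change of frame. -/
theorem der_act (γ' : ι → ι → A)
    (h : ∀ i x, D (g i x) = ∑ y, γ' i y * g y x - ∑ y, g i y * γ y x)
    (h' : ∀ x i, D (g' x i) = ∑ y, γ x y * g' y i - ∑ y, g' x y * γ' y i) :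
    D (act g g' ks S l) + dact γ' ks (act g g' ks S) l =
      act g g' ks (fun l => D (S l) + dact γ ks S l) l := by
  induction ks generalizing S l with
  | nil => simp [dact, act]
  | cons k ks ih =>
    cases l with
    | nil => simp [dact, act]
    | cons i l =>
      have e1 : dact γ' ks (fun l' => act g g' (k :: ks) S (i :: l')) l =
          ∑ x, (bif k then g i x else g' x i) *
            dact γ' ks (act g g' ks fun l' => S (x :: l')) l := by
        simp only [act]
        rw [dact_sum]
        exact sum_congr rfl fun x _ => dact_mul _ _ _ _ _
      have e2 : ∀ x, act g g' ks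
          (fun l' => D (S (x :: l')) + dact γ (k :: ks) S (x :: l')) l =
          (D (act g g' ks (fun l' => S (x :: l')) l) +
            dact γ' ks (act g g' ks fun l' => S (x :: l')) l) +
          ∑ y, (bif k then -γ x y else γ y x) * act g g' ks (fun l' => S (y :: l')) l := by
        intro x
        rw [ih]
        have : ∑ y, (bif k then -γ x y else γ y x) * act g g' ks (fun l' => S (y :: l')) l =
            act g g' ks (fun l' => ∑ y, (bif k then -γ x y else γ y x) * S (y :: l')) l := by
          rw [act_sum]
          exact sum_congr rfl fun y _ => (act_mul _ _ _ _ _ _).symm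
        rw [this, ← act_add]
        congr 1
        funext l'
        simp only [dact]
        ring
      have e3 : ∑ x, act g g' ks (fun l' => S (x :: l')) l * D (bif k then g i x else g' x i) +
          ∑ y, (bif k then -γ' i y else γ' y i) *
            ∑ x, (bif k then g y x else g' x y) * act g g' ks (fun l' => S (x :: l')) l =
          ∑ x, (bif k then g i x else g' x i) *
            ∑ y, (bif k then -γ x y else γ y x) * act g g' ks (fun l' => S (y :: l')) l := by
        simp only [mul_sum, ← mul_assoc]
        rw [sum_comm, sum_comm (f := fun x y => (bif k then g i x else g' x i) *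
          (bif k then -γ x y else γ y x) * act g g' ks (fun l' => S (y :: l')) l),
          ← sum_add_distrib]
        refine sum_congr rfl fun x _ => ?_
        rw [← sum_mul, ← sum_mul, ← Act_coef g g' γ D γ' h h' k i x]
        ring
      rw [dact, e1]
      simp only [ActA_cons, e2, map_sum, Derivation.leibniz, smul_eq_mul, mul_add,
        sum_add_distrib]
      rw [← e3]
      ring

end Pool.Agent.P.MP_3e99c6_gt.G
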