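import Pool.Agent.P.MP_3e99c6_gt.SK.Check

/-! Tensors as functions of index lists; the action of matrices on them. -/

set_option linter.unusedSectionVars false

namespace Pool.Agent.P.MP_3e99c6_gt.G

open Finset

variable {ι A : Type} [Fintype ι] [DecidableEq ι] [CommRing A]

/-- Change of frame: lower slots (`true`) transform with `g`, upper slots with `g'`. -/
def act (g g' : ι → ι → A) : List Bool → (List ι → A) → List ι → A
  | k :: ks, S, i :: l =>
    ∑ x, (bif k then g i x else g' x i) * act g g' ks (fun l' => S (x :: l')) l
  | _, S, l => S l

/-- The infinitesimal action (connection term). -/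
def dact (γ : ι → ι → A) : List Bool → (List ι → A) → List ι → A
  | k :: ks, S, i :: l =>
    ∑ x, (bif k then -γ i x else γ x i) * S (x :: l) + dact γ ks (fun l' => S (i :: l')) l
  | _, _, _ => 0

end Pool.Agent.P.MP_3e99c6_gt.G
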