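import Pool.Agent.P.MP_3e99c6_gt.SK.Act0

/-! The action of matrices on tensors. -/

set_option linter.unusedSectionVars false

namespace Pool.Agent.P.MP_3e99c6_gt.G

open Finset

variable {ι A : Type} [Fintype ι] [DecidableEq ι] [CommRing A]

variable (g g' : ι → ι → A) (ks : List Bool) (S S' : List ι → A) (l : List ι)

theorem ActA_nil : act g g' [] S l = S l := by simp [act]

theorem ActA_nil' : act g g' ks S [] = S [] := by cases ks <;> simp [act]

theorem ActA_cons (k : Bool) (i : ι) : act g g' (k :: ks) S (i :: l) =
    ∑ x, (bif k then g i x else g' x i) * act g g' ks (fun l' => S (x :: l')) l := rfl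

theorem ActA_invol {α : Type} (p : ℕ) (l : List α) : swapAt p (swapAt p l) = l := by
  fun_induction swapAt p l with
  | case1 a b l => rfl
  | case2 p a l ih => simp [swapAt, ih]
  | case3 p l h1 h2 => rw [swapAt.eq_3 _ _ h1 h2]

theorem ActA_short {α : Type} (p : ℕ) (l : List α) (h : l.length ≤ p + 1) : swapAt p l = l := by
  fun_induction swapAt p l with
  | case1 a b l => simp at h
  | case2 p a l ih => rw [ih (by simpa using h)]
  | case3 p l h1 h2 => rfl

theorem act_add : act g g' ks (fun l => S l + S' l) l = act g g' ks S l + act g g' ks S' l := by
  induction ks generalizing S S' l with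
  | nil => simp only [ActA_nil]
  | cons k ks ih =>
    cases l with
    | nil => simp only [ActA_nil']
    | cons i l => simp only [ActA_cons, ih, mul_add, sum_add_distrib]

theorem act_mul (a : A) : act g g' ks (fun l => a * S l) l = a * act g g' ks S l := by
  induction ks generalizing S l with
  | nil => simp only [ActA_nil]
  | cons k ks ih =>
    cases l with
    | nil => simp only [ActA_nil']
    | cons i l =>
      simp only [ActA_cons, ih, mul_sum]
      exact sum_congr rfl fun x _ => mul_left_comm _ _ _

theorem act_zero : act g g' ks (fun _ => (0 : A)) l = 0 := by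
  simpa using act_mul g g' ks (fun _ => 0) l 0

theorem act_sum {κ : Type} (s : Finset κ) (T : κ → List ι → A) :
    act g g' ks (fun l => ∑ x ∈ s, T x l) l = ∑ x ∈ s, act g g' ks (T x) l := by
  classical
  induction s using Finset.induction_on with
  | empty => simpa using act_zero g g' ks l
  | insert a s ha ih => simp only [sum_insert ha, act_add, ih]

/-- `act` only looks at lists of the same length. -/
theorem act_congr (h : ∀ l' : List ι, l'.length = l.length → S l' = S' l') :
    act g g' ks S l = act g g' ks S' l := by
  induction ks generalizing S S' l with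
  | nil => simpa only [ActA_nil] using h l rfl
  | cons k ks ih =>
    cases l with
    | nil => simpa only [ActA_nil'] using h [] rfl
    | cons i l =>
      simp only [ActA_cons]
      refine sum_congr rfl fun x _ => ?_
      rw [ih (fun l' => S (x :: l')) (fun l' => S' (x :: l')) l fun l' e => h _ (by simp [e])]

theorem act_one : act (fun i x => if i = x then (1 : A) else 0) (fun x i => if x = i then 1 else 0)
    ks S l = S l := by
  induction ks generalizing S l with
  | nil => simp only [ActA_nil]
  | cons k ks ih =>
    cases l with
    | nil => simp only [ActA_nil']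
    | cons i l => cases k <;> simp [ActA_cons, ih]

theorem act_comp (f f' : ι → ι → A) : act g g' ks (act f f' ks S) l =
    act (fun i x => ∑ y, g i y * f y x) (fun x i => ∑ y, f' x y * g' y i) ks S l := by
  induction ks generalizing S l with
  | nil => simp only [ActA_nil]
  | cons k ks ih =>
    cases l with
    | nil => simp only [ActA_nil']
    | cons i l =>
      simp only [ActA_cons, act_sum, act_mul, mul_sum]
      rw [sum_comm]
      refine sum_congr rfl fun y _ => ?_
      rw [ih]
      cases k
      · simp only [cond_false, sum_mul]
        exact sum_congr rfl fun x _ => by ring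
      · simp only [cond_true, sum_mul]
        exact sum_congr rfl fun x _ => by ring

theorem act_not : act g g' (ks.map not) S l = act (fun i x => g' x i) (fun x i => g i x) ks S l := by
  induction ks generalizing S l with
  | nil => simp only [List.map_nil, ActA_nil]
  | cons k ks ih =>
    cases l with
    | nil => simp only [ActA_nil']
    | cons i l => cases k <;> simp [ActA_cons, ih]

theorem map_act {B : Type} [CommRing B] (φ : A →+* B) : φ (act g g' ks S l) =
    act (fun i x => φ (g i x)) (fun x i => φ (g' x i)) ks (fun l => φ (S l)) l := by
  induction ks generalizing S l with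
  | nil => simp only [ActA_nil]
  | cons k ks ih =>
    cases l with
    | nil => simp only [ActA_nil']
    | cons i l => cases k <;> simp [ActA_cons, ih]

theorem ActA_swapAt (p : ℕ) (hp : p + 1 < ks.length) (hl : p + 1 < l.length) :
    act g g' (swapAt p ks) (fun l => S (swapAt p l)) (swapAt p l) = act g g' ks S l := by
  induction p generalizing ks S l with
  | zero =>
    obtain _ | ⟨k, _ | ⟨k', ks⟩⟩ := ks <;> try simp at hp
    obtain _ | ⟨i, _ | ⟨j, l⟩⟩ := l <;> try simp at hl
    simp only [swapAt, ActA_cons, mul_sum]
    rw [sum_comm]
    exact sum_congr rfl fun x _ => sum_congr rfl fun y _ => mul_left_comm _ _ _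
  | succ p ih =>
    obtain _ | ⟨k, ks⟩ := ks
    · simp at hp
    obtain _ | ⟨i, l⟩ := l
    · simp at hl
    simp only [swapAt, ActA_cons]
    refine sum_congr rfl fun x _ => ?_
    rw [ih ks (fun l' => S (x :: l')) l (by simpa using hp) (by simpa using hl)]

theorem act_swap (p : ℕ) (e : A) (hk : swapAt p ks = ks) (hp : p + 1 < ks.length)
    (h : ∀ l, S (swapAt p l) = e * S l) : act g g' ks S (swapAt p l) = e * act g g' ks S l := by
  rw [← act_mul]
  by_cases hl : p + 1 < l.length
  · have := ActA_swapAt g g' ks (fun l => S (swapAt p l)) l p hp hl
    simp only [ActA_invol, hk] at this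
    simpa only [h] using this
  · rw [ActA_short p l (not_lt.1 hl)]
    exact act_congr g g' ks _ _ l fun l' e' => by
      rw [← h, ActA_short p l' (e' ▸ not_lt.1 hl)]

theorem act_swapAt (p : ℕ) (hp : p + 1 < ks.length) (hl : p + 1 < l.length) :
    act g g' (swapAt p ks) (fun l => S (swapAt p l)) (swapAt p l) = act g g' ks S l :=
  ActA_swapAt g g' ks S l p hp hl

end Pool.Agent.P.MP_3e99c6_gt.G
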