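import Pool.Agent.P.MP_3e99c6_gt.SK.Rel
import Pool.Agent.P.MP_3e99c6_gt.SK.Act

/-! Basic formulas for the Chern connection. -/

set_option linter.unusedSectionVars false

namespace Pool.Agent.P.MP_3e99c6_gt.G.HD

open Finset

variable {ι A : Type} [Fintype ι] [DecidableEq ι] [CommRing A] [Algebra ℂ A] (d : HD ι A)

theorem Bas_mul (X : Derivation ℂ A A) (M N : Matrix ι ι A) :
    (M * N).map X = M.map X * N + M * N.map X := by
  ext i j
  simp only [Matrix.map_apply, Matrix.mul_apply, Matrix.add_apply, map_sum, Derivation.leibniz,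
    smul_eq_mul, ← sum_add_distrib]
  exact sum_congr rfl fun x _ => by ring

theorem Bas_hk : Matrix.of d.h * Matrix.of d.k = 1 := by
  ext i j
  simp only [Matrix.mul_apply, Matrix.of_apply, Matrix.one_apply, d.hk]

theorem Bas_kh : Matrix.of d.k * Matrix.of d.h = 1 := by
  ext i j
  simp only [Matrix.mul_apply, Matrix.of_apply, Matrix.one_apply, d.kh]

theorem Bas_Γ (m : ι) : Matrix.of (d.Γ m) = (Matrix.of d.h).map (d.D m) * Matrix.of d.k := by
  ext i j
  simp only [Matrix.mul_apply, Matrix.of_apply, Matrix.map_apply, Γ]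

theorem Bas_k (X : Derivation ℂ A A) : (Matrix.of d.k).map X =
    -(Matrix.of d.k * (Matrix.of d.h).map X * Matrix.of d.k) := by
  have e := Bas_mul X (Matrix.of d.h) (Matrix.of d.k)
  have e0 : (1 : Matrix ι ι A).map X = 0 := by
    ext i j
    by_cases h : i = j <;> simp [h]
  rw [d.Bas_hk, e0] at e
  have e2 := congrArg (fun M => Matrix.of d.k * M) e
  simp only [Matrix.mul_zero, Matrix.mul_add, ← Matrix.mul_assoc, d.Bas_kh, Matrix.one_mul] at e2
  exact eq_neg_of_add_eq_zero_right e2.symm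

theorem Bas_h (m : ι) : (Matrix.of d.h).map (d.D m) = Matrix.of (d.Γ m) * Matrix.of d.h := by
  rw [Bas_Γ, Matrix.mul_assoc, Bas_kh, Matrix.mul_one]

theorem D_h (m i j : ι) : d.D m (d.h i j) = ∑ x, d.Γ m i x * d.h x j :=
  congrFun (congrFun (d.Bas_h m) i) j

theorem D_k (m i j : ι) : d.D m (d.k i j) = -∑ x, d.k i x * d.Γ m x j := by
  have e := d.Bas_k (d.D m)
  rw [Matrix.mul_assoc, ← Bas_Γ] at e
  exact congrFun (congrFun e i) j

theorem Db_k (m i j : ι) :
    d.Db m (d.k i j) = -∑ x, ∑ y, d.k i x * d.Db m (d.h x y) * d.k y j := by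
  have e := congrFun (congrFun (d.Bas_k (d.Db m)) i) j
  simp only [Matrix.map_apply, Matrix.of_apply, Matrix.neg_apply, Matrix.mul_apply, sum_mul] at e
  rw [e, sum_comm]

theorem h_F (m : ι) (f : A) : ∑ x, d.h x m * d.F x f = d.Db m f := by
  have e : ∀ l, ∑ x, d.h x m * (d.k l x * d.Db l f) = if l = m then d.Db l f else 0 := by
    intro l
    rw [← boole_mul, ← d.kh, sum_mul]
    exact sum_congr rfl fun x _ => by ring
  simp only [F_apply, mul_sum]
  rw [sum_comm]
  simp [e]

theorem D_F (m a : ι) (f : A) :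
    d.D m (d.F a f) = d.F a (d.D m f) - ∑ z, d.Γ m z a * d.F z f := by
  simp only [F_apply, map_sum, Derivation.leibniz, smul_eq_mul, D_k, d.DB, mul_sum, sum_add_distrib,
    mul_neg, sum_neg_distrib]
  rw [sub_eq_add_neg, sum_comm]
  congr 2
  exact sum_congr rfl fun x _ => sum_congr rfl fun y _ => by ring

theorem Bas_DΓ (X : Derivation ℂ A A) (m : ι) : (Matrix.of (d.Γ m)).map X =
    (((Matrix.of d.h).map (d.D m)).map X - (Matrix.of d.h).map (d.D m) * Matrix.of d.k *
      (Matrix.of d.h).map X) * Matrix.of d.k := by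
  rw [Bas_Γ, Bas_mul, Bas_k, Matrix.sub_mul, Matrix.mul_neg, sub_eq_add_neg]
  simp only [Matrix.mul_assoc]

theorem flat (l m i x : ι) : d.D l (d.Γ m i x) - d.D m (d.Γ l i x) =
    ∑ y, d.Γ l i y * d.Γ m y x - ∑ y, d.Γ m i y * d.Γ l y x := by
  have e0 : ((Matrix.of d.h).map (d.D m)).map (d.D l) =
      ((Matrix.of d.h).map (d.D l)).map (d.D m) := by
    ext a b
    exact d.DD _ _ _
  have e : (Matrix.of (d.Γ m)).map (d.D l) - (Matrix.of (d.Γ l)).map (d.D m) =
      Matrix.of (d.Γ l) * Matrix.of (d.Γ m) - Matrix.of (d.Γ m) * Matrix.of (d.Γ l) := by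
    rw [Bas_DΓ, Bas_DΓ, e0, Bas_Γ, Bas_Γ]
    simp only [Matrix.sub_mul, Matrix.mul_assoc]
    abel
  exact congrFun (congrFun e i) x

/-- The torsion with lowered index. -/
theorem T_h (i k l : ι) : ∑ j, d.T i k j * d.h j l = d.D i (d.h k l) - d.D k (d.h i l) := by
  simp only [T, sub_mul, sum_sub_distrib, D_h]

/-- The curvature with one lowered index. -/
theorem Db_Γ (b i k l : ι) : d.Db b (d.Γ i k l) = ∑ q, (d.D i (d.Db b (d.h k q)) -
    ∑ s, ∑ t, d.D i (d.h k s) * d.k s t * d.Db b (d.h t q)) * d.k q l := by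
  have e := congrFun (congrFun (d.Bas_DΓ (d.Db b) i) k) l
  simp only [Matrix.map_apply, Matrix.of_apply, Matrix.sub_apply, Matrix.mul_apply, ← d.DB] at e
  rw [e]
  refine sum_congr rfl fun q _ => ?_
  rw [sum_comm]
  simp only [sum_mul]

theorem Bas_prod (X : Derivation ℂ A A) (s : Finset ι) (x : ι → A) :
    X (∏ i ∈ s, x i) = ∑ i ∈ s, X (x i) * ∏ j ∈ s.erase i, x j := by
  induction s using Finset.induction_on with
  | empty => simp
  | insert a s ha ih =>
    rw [prod_insert ha, sum_insert ha, Derivation.leibniz, ih, erase_insert ha, smul_eq_mul,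
      smul_eq_mul, mul_sum, add_comm, mul_comm]
    congr 1
    refine sum_congr rfl fun i hi => ?_
    rw [erase_insert_of_ne (by rintro rfl; exact ha hi),
      prod_insert (fun h => ha (mem_of_mem_erase h))]
    ring

theorem D_det (m : ι) : d.D m (Matrix.of d.h).det = (Matrix.of d.h).det * ∑ q, d.Γ m q q := by
  have e1 : d.D m (Matrix.of d.h).det =
      ∑ i, ((Matrix.of d.h).updateRow i fun j => d.D m (d.h i j)).det := by
    simp only [Matrix.det_apply', map_sum, Derivation.leibniz, smul_eq_mul,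
      Derivation.map_intCast, mul_zero, add_zero]
    rw [sum_comm]
    refine sum_congr rfl fun σ _ => ?_
    rw [← mul_sum, Bas_prod]
    congr 1
    refine Eq.trans ?_ (Equiv.sum_comp σ _)
    refine sum_congr rfl fun i _ => ?_
    rw [← Finset.mul_prod_erase univ _ (mem_univ i), Matrix.updateRow_self]
    congr 1
    refine prod_congr rfl fun j hj => ?_
    rw [Matrix.updateRow_ne (σ.injective.ne (ne_of_mem_erase hj))]
  rw [e1, mul_sum]
  refine sum_congr rfl fun i _ => ?_
  have e2 : (fun j => d.D m (d.h i j)) = ∑ s, d.Γ m i s • Matrix.of d.h s := by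
    funext l
    simp only [Finset.sum_apply, Pi.smul_apply, Matrix.of_apply, smul_eq_mul, D_h]
  rw [e2, Matrix.det_updateRow_sum, smul_eq_mul, mul_comm]

end Pool.Agent.P.MP_3e99c6_gt.G.HD
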