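import Pool.Agent.P.MP_3e99c6_gt.SK.Bp2

/-! The vector field of a certificate is well formed. -/

set_option linter.unusedSectionVars false
set_option maxRecDepth 100000

noncomputable section

namespace Pool.Agent.P.MP_3e99c6_gt.G.Bp

theorem okY0 : vecOk Y0 = true := by decide +kernel

theorem ruY0 : rulOk okE Y0 = true := by decide +kernel

theorem okY : vecOk Y = true := okY0

end Pool.Agent.P.MP_3e99c6_gt.G.Bp
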