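import Pool.Agent.P.MP_3e99c6_gt.SK.Top
import Pool.Agent.P.MP_3e99c6_gt.SK.Bp3
import Pool.Agent.P.MP_3e99c6_gt.SK.BpC

/-! A certificate. -/

set_option linter.unusedSectionVars false
set_option maxRecDepth 100000

noncomputable section

namespace Pool.Agent.P.MP_3e99c6_gt.G.Bp

theorem total : (Nat.beq (P0 + P1 + P2)
    (N0 + N1 + N2) &&
    Nat.blt (T0 + T1 + T2) (2 ^ C.b)) = true := by decide +kernel

variable {ι A : Type} [Fintype ι] [DecidableEq ι] [CommRing A] [Algebra ℂ A] {d : HD ι A}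
  {e : A →ₐ[ℂ] ℂ} {S : ℕ → List ι → ℂ}

theorem key (H : Pt d e S) (hn : Fintype.card ι = 3) (hc : d.Curv) (hs0 : d.Bal) {c : ℝ}
    (h1 : S 1 [] = c) (h0 : 0 < c) (ρ : ℕ → ι) : Key S Y ρ := by
  have hC : Ok2 C S Complex.reAddGroupHom := H.ok2 hn _ _ _
  have h := (((chk_re hC c0 ρ).add
    (chk_re hC c1 ρ)).add
    (chk_re hC c2 ρ)).zero total
  have hs : (0 : ℝ) ≤ ((1 : ℤ) : ℝ) * c := by push_cast; linarith
  have hr := rulesE H hn hc hs0
  have hz := relE_zero H hn hc hs0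
  have y0 := re_div hr ruY0 ρ
  have i0 := re_ins relE_wf hz okI0 ρ
  have i1 := re_ins relE_wf hz okI1 ρ
  have b0 := re_blk H.cj h1 hs okB0 ρ
  have b1 := re_blk H.cj h1 hs okB1 ρ
  have b2 := re_blk H.cj h1 hs okB2 ρ
  have b3 := re_blk H.cj h1 hs okB3 ρ
  have b4 := re_blk H.cj h1 hs okB4 ρ
  have b5 := re_blk H.cj h1 hs okB5 ρ
  have b6 := re_blk H.cj h1 hs okB6 ρ
  refine ⟨4, _, by norm_num, tgt4_pos H.cj h1 (z := 533238718634496) (mul_pos (by norm_num) h0) ρ, ?_⟩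
  simp only [re_apP] at h
  rw [Y]
  push_cast at y0
  linarith

end Pool.Agent.P.MP_3e99c6_gt.G.Bp
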