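import Pool.Agent.P.MP_3e99c6_gt.SK.Wk
import Pool.Agent.P.MP_3e99c6_gt.SK.Act

/-! Contraction commutes with a change of frame. -/

set_option linter.unusedSectionVars false

namespace Pool.Agent.P.MP_3e99c6_gt.G

open Function Finset

variable {ι A : Type} [Fintype ι] [DecidableEq ι] [CommRing A] {S : ℕ → List ι → A}
  {kd : ℕ → List Bool} {fr : List ℕ} {ks : List Bool} {g g' : ι → ι → A}

/-- The action on environments indexed by slots. -/
def EquiE (g g' : ι → ι → A) (ρ : ℕ → ι) :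
    List (ℕ × Bool) → ((ℕ × Bool → ι) → A) → (ℕ × Bool → ι) → A
  | [], F, σ => F σ
  | s :: L, F, σ =>
    ∑ x, (bif s.2 then g (ρ s.1) x else g' x (ρ s.1)) * EquiE g g' ρ L F (update σ s x)

/-- The product of the factors on an environment indexed by slots. -/
def EquiQ (S : ℕ → List ι → A) (kd : ℕ → List Bool) : List Fac → (ℕ × Bool → ι) → A
  | [], _ => 1
  | f :: l, σ => S f.1 ((f.2.zip (kd f.1)).map σ) * EquiQ S kd l σ

/-- Both slots of each label. -/
def EquiP : List ℕ → List (ℕ × Bool)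
  | [] => []
  | a :: l => (a, true) :: (a, false) :: EquiP l

theorem EquiE_append (ρ : ℕ → ι) (L L' : List (ℕ × Bool)) (F : (ℕ × Bool → ι) → A)
    (σ : ℕ × Bool → ι) : EquiE g g' ρ (L ++ L') F σ = EquiE g g' ρ L (EquiE g g' ρ L' F) σ := by
  induction L generalizing σ with
  | nil => rfl
  | cons s L ih => simp [EquiE, ih]

theorem EquiE_perm (ρ : ℕ → ι) {L L' : List (ℕ × Bool)} (h : L.Perm L')
    (F : (ℕ × Bool → ι) → A) : EquiE g g' ρ L F = EquiE g g' ρ L' F := by
  induction h with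
  | nil => rfl
  | cons a _ ih => funext σ; simp [EquiE, ih]
  | swap a b l =>
    funext σ
    by_cases hab : a = b
    · rw [hab]
    · simp only [EquiE, mul_sum]
      rw [sum_comm]
      exact sum_congr rfl fun i _ => sum_congr rfl fun j _ => by
        rw [update_comm hab, mul_left_comm]
  | trans _ _ h1 h2 => exact h1.trans h2

theorem EquiE_congr (ρ : ℕ → ι) (L : List (ℕ × Bool)) {F F' : (ℕ × Bool → ι) → A}
    {σ : ℕ × Bool → ι} (h : ∀ τ, (∀ s, s ∉ L → τ s = σ s) → F τ = F' τ) :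
    EquiE g g' ρ L F σ = EquiE g g' ρ L F' σ := by
  induction L generalizing σ with
  | nil => exact h σ fun _ _ => rfl
  | cons s L ih =>
    refine sum_congr rfl fun x _ => congrArg _ (ih fun τ hτ => h τ fun s' hs' => ?_)
    rw [List.mem_cons, not_or] at hs'
    rw [hτ s' hs'.2, update_of_ne hs'.1]

theorem EquiE_mul (ρ : ℕ → ι) (L : List (ℕ × Bool)) (c : A) (F : (ℕ × Bool → ι) → A)
    (σ : ℕ × Bool → ι) : EquiE g g' ρ L (fun τ => c * F τ) σ = c * EquiE g g' ρ L F σ := by
  induction L generalizing σ with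
  | nil => rfl
  | cons s L ih => simp only [EquiE, ih, mul_sum, mul_left_comm c]

theorem EquiE_env {ρ ρ' : ℕ → ι} (L : List (ℕ × Bool)) (h : ∀ s ∈ L, ρ s.1 = ρ' s.1)
    (F : (ℕ × Bool → ι) → A) (σ : ℕ × Bool → ι) : EquiE g g' ρ L F σ = EquiE g g' ρ' L F σ := by
  induction L generalizing σ with
  | nil => rfl
  | cons s L ih =>
    simp only [EquiE, h s List.mem_cons_self, ih fun s hs => h s (List.mem_cons_of_mem _ hs)]

theorem EquiE_act (ρ : ℕ → ι) {L : List (ℕ × Bool)} (hL : L.Nodup) (T : List ι → A)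
    (σ : ℕ × Bool → ι) : EquiE g g' ρ L (fun τ => T (L.map τ)) σ =
      act g g' (L.map Prod.snd) T (L.map fun s => ρ s.1) := by
  induction L generalizing σ T with
  | nil => rfl
  | cons s L ih =>
    rw [List.nodup_cons] at hL
    simp only [EquiE, List.map_cons, act]
    refine sum_congr rfl fun x _ => congrArg _ ?_
    rw [← ih hL.2 _ (update σ s x)]
    refine EquiE_congr ρ L fun τ hτ => ?_
    rw [hτ s hL.1, update_self]

theorem Equi_fst {l : List ℕ} {k : List Bool} (h : l.length = k.length) (ρ : ℕ → ι) :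
    ((l.zip k).map fun s => ρ s.1) = l.map ρ := by
  conv_rhs => rw [← List.map_fst_zip (l₂ := k) h.le, List.map_map]
  rfl

theorem EquiE_prod (ρ : ℕ → ι) {fs : List Fac} (hl : ∀ f ∈ fs, f.2.length = (kd f.1).length)
    (hn : (slots kd fs).Nodup) (σ : ℕ × Bool → ι) :
    EquiE g g' ρ (slots kd fs) (EquiQ S kd fs) σ =
      fP (fun τ => act g g' (kd τ) (S τ)) fs ρ := by
  induction fs generalizing σ with
  | nil => rfl
  | cons f fs ih =>
    rw [slots, List.nodup_append] at hn
    obtain ⟨n1, n2, n3⟩ := hn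
    have h0 := hl f List.mem_cons_self
    have e : EquiE g g' ρ (slots kd fs) (EquiQ S kd (f :: fs)) = fun τ =>
        fP (fun τ => act g g' (kd τ) (S τ)) fs ρ * S f.1 ((f.2.zip (kd f.1)).map τ) := by
      funext τ
      rw [← ih (fun f hf => hl f (List.mem_cons_of_mem _ hf)) n2 τ, mul_comm, ← EquiE_mul]
      refine EquiE_congr ρ _ fun τ' hτ' => ?_
      rw [EquiQ, List.map_congr_left fun s hs => hτ' s fun hs' => n3 s hs s hs' rfl]
    rw [slots, EquiE_append, e, EquiE_mul, EquiE_act ρ n1, fP_cons, mul_comm,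
      List.map_snd_zip h0.ge, Equi_fst h0]

theorem EquiQ_eq {fs : List Fac} (hl : ∀ f ∈ fs, f.2.length = (kd f.1).length) {ρ : ℕ → ι}
    {σ : ℕ × Bool → ι} (h : ∀ s ∈ slots kd fs, σ s = ρ s.1) : EquiQ S kd fs σ = fP S fs ρ := by
  induction fs with
  | nil => rfl
  | cons f fs ih =>
    rw [EquiQ, fP_cons, ih (fun f hf => hl f (List.mem_cons_of_mem _ hf))
      fun s hs => h s (List.mem_append_right _ hs), ← Equi_fst (hl f List.mem_cons_self),
      List.map_congr_left fun s hs => h s (List.mem_append_left _ hs)]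

theorem Equi_sumL_congr (l : List ℕ) {f f' : (ℕ → ι) → A} {ρ : ℕ → ι}
    (h : ∀ ρ', (∀ a, a ∉ l → ρ' a = ρ a) → f ρ' = f' ρ') : sumL l f ρ = sumL l f' ρ := by
  induction l generalizing ρ with
  | nil => exact h ρ fun _ _ => rfl
  | cons b l ih =>
    refine sum_congr rfl fun x _ => ih fun τ hτ => h τ fun a ha => ?_
    rw [List.mem_cons, not_or] at ha
    rw [hτ a ha.2, update_of_ne ha.1]

theorem Equi_sumL_sum (l : List ℕ) (f : ι → (ℕ → ι) → A) (ρ : ℕ → ι) :
    sumL l (fun ρ => ∑ x, f x ρ) ρ = ∑ x, sumL l (f x) ρ := by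
  induction l generalizing ρ with
  | nil => rfl
  | cons b l ih =>
    simp only [sumL, ih]
    exact sum_comm

theorem Equi_sumL_E (l : List ℕ) (ρ : ℕ → ι) (L : List (ℕ × Bool))
    (H : (ℕ → ι) → (ℕ × Bool → ι) → A) (ρ₁ : ℕ → ι) (σ : ℕ × Bool → ι) :
    sumL l (fun ρ' => EquiE g g' ρ L (H ρ') σ) ρ₁ =
      EquiE g g' ρ L (fun τ => sumL l (fun ρ' => H ρ' τ) ρ₁) σ := by
  induction L generalizing σ with
  | nil => rfl
  | cons s L ih => simp only [EquiE, Equi_sumL_sum, sumL_mul, ih]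

theorem Equi_base (l : List ℕ) (F : (ℕ × Bool → ι) → A) (σ : ℕ × Bool → ι) (ρ ρ₁ : ℕ → ι) :
    sumL l (fun ρ' => F fun s => if s.1 ∈ l then ρ' s.1 else σ s) ρ =
      sumL l (fun ρ' => F fun s => if s.1 ∈ l then ρ' s.1 else σ s) ρ₁ := by
  refine sumL_congr (L := l) (fun ρ ρ' h => congrArg F (funext fun s => ?_)) l
    fun a ha ha' => absurd ha ha'
  split_ifs with hs
  · exact h _ hs
  · rfl

theorem Equi_contract (hg : ∀ y x, ∑ i, g' y i * g i x = if y = x then 1 else 0) {l : List ℕ}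
    (hl : l.Nodup) (F : (ℕ × Bool → ι) → A) (σ : ℕ × Bool → ι) (ρ : ℕ → ι) :
    sumL l (fun ρ' => EquiE g g' ρ' (EquiP l) F σ) ρ =
      sumL l (fun ρ' => F fun s => if s.1 ∈ l then ρ' s.1 else σ s) ρ := by
  induction l generalizing σ ρ with
  | nil => simp [sumL, EquiP, EquiE]
  | cons a l ih =>
    rw [List.nodup_cons] at hl
    obtain ⟨K, hK⟩ : ∃ K : ι → ι → A, ∀ x y, K x y = sumL l (fun ρ' => F fun s =>
        if s.1 ∈ l then ρ' s.1 else update (update σ (a, true) x) (a, false) y s) ρ :=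
      ⟨_, fun _ _ => rfl⟩
    have e1 : ∀ i, sumL l (fun ρ' => EquiE g g' ρ' (EquiP (a :: l)) F σ) (update ρ a i) =
        ∑ x, ∑ y, g' y i * g i x * K x y := fun i => by
      rw [Equi_sumL_congr l (f' := fun ρ' => ∑ x, ∑ y, g' y i * g i x *
        EquiE g g' ρ' (EquiP l) F (update (update σ (a, true) x) (a, false) y))]
      · simp only [Equi_sumL_sum, sumL_mul, ih hl.2, hK, Equi_base l F _ (update ρ a i) ρ]
      · intro ρ' h
        simp only [EquiP, EquiE, cond_true, cond_false, h a hl.1, update_self, mul_sum]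
        exact sum_congr rfl fun x _ => sum_congr rfl fun y _ => by ring
    simp only [sumL, e1]
    rw [sum_comm]
    refine sum_congr rfl fun x _ => ?_
    rw [sum_comm]
    simp only [← sum_mul, hg, ite_mul, one_mul, zero_mul, sum_ite_eq', mem_univ, if_true]
    rw [hK, Equi_base l F _ ρ (update ρ a x)]
    refine Equi_sumL_congr l fun ρ' h => congrArg F (funext fun s => ?_)
    obtain ⟨b, k⟩ := s
    by_cases hb : b ∈ l
    · simp [hb]
    · by_cases hba : b = a
      · subst hba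
        cases k <;> simp [hb, h b hb]
      · simp [hb, hba]

theorem EquiP_perm (l : List ℕ) : (l.map (·, true) ++ l.map (·, false)).Perm (EquiP l) := by
  induction l with
  | nil => exact .refl _
  | cons a l ih => exact (List.perm_middle.trans (ih.cons _)).cons _

theorem EquiP_mem {l : List ℕ} {s : ℕ × Bool} (h : s ∈ EquiP l) : s.1 ∈ l := by
  have := (EquiP_perm l).symm.subset h
  simp only [List.mem_append, List.mem_map] at this
  rcases this with ⟨a, ha, rfl⟩ | ⟨a, ha, rfl⟩ <;> exact ha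

theorem EquiP_nodup {l : List ℕ} (h : l.Nodup) : (EquiP l).Nodup := by
  induction l with
  | nil => exact List.nodup_nil
  | cons a l ih =>
    rw [List.nodup_cons] at h
    simp only [EquiP, List.nodup_cons, List.mem_cons, not_or]
    exact ⟨⟨by simp, fun h' => h.1 (EquiP_mem h')⟩, fun h' => h.1 (EquiP_mem h'), ih h.2⟩

theorem Equi_setL {fr : List ℕ} (hn : fr.Nodup) {ks : List Bool} (τ : ℕ × Bool → ι) (ρ : ℕ → ι)
    {s : ℕ × Bool} (hs : s ∈ fr.zip ks) : setL fr ((fr.zip ks).map τ) ρ s.1 = τ s := by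
  induction fr generalizing ks with
  | nil => simp at hs
  | cons a fr ih =>
    cases ks with
    | nil => simp at hs
    | cons k ks =>
      rw [List.nodup_cons] at hn
      simp only [List.zip_cons_cons, List.map_cons, setL]
      rcases List.mem_cons.1 hs with rfl | hs'
      · exact update_self ..
      · rw [update_of_ne, ih hn.2 hs']
        intro e
        exact hn.1 (e ▸ (List.of_mem_zip hs').1)

theorem ev_act (hg : ∀ y x, ∑ i, g' y i * g i x = if y = x then 1 else 0) {t : Tm}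
    (h : wk kd fr ks t = true) (ρ : ℕ → ι) : t.ev (fun τ => act g g' (kd τ) (S τ)) ρ =
      act g g' ks (fun l => t.ev S (setL fr l ρ)) (fr.map ρ) := by
  simp only [wk, Bool.and_eq_true, List.all_eq_true, beq_iff_eq, decide_eq_true_eq,
    List.isPerm_iff, List.nodup_append] at h
  obtain ⟨⟨⟨h1, h2⟩, n1, n2, n3⟩, h4⟩ := h
  have hp : (slots kd t.fs).Perm (fr.zip ks ++ EquiP t.ds) :=
    h4.trans (((EquiP_perm _).append_right _).trans List.perm_append_comm)
  have hz : ∀ s ∈ fr.zip ks, s.1 ∉ t.ds := fun s hs h' => n3 _ h' _ (List.of_mem_zip hs).1 rfl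
  have z1 : (fr.zip ks).Nodup := List.Nodup.of_map Prod.fst (by rwa [List.map_fst_zip h2.le])
  have hn : (slots kd t.fs).Nodup := hp.nodup_iff.2 (List.nodup_append.2
    ⟨z1, EquiP_nodup n1, fun s hs s' hs' e => hz s hs (e ▸ EquiP_mem hs')⟩)
  simp only [Tm.ev, act_mul]
  congr 1
  rw [Equi_sumL_congr t.ds (f' := fun ρ' => EquiE g g' ρ (fr.zip ks)
    (EquiE g g' ρ' (EquiP t.ds) (EquiQ S kd t.fs)) fun s => ρ s.1), Equi_sumL_E]
  · have e := EquiE_act (g := g) (g' := g') ρ z1
      (fun l => sumL t.ds (fP S t.fs) (setL fr l ρ)) fun s => ρ s.1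
    rw [List.map_snd_zip h2.ge, Equi_fst h2] at e
    rw [← e]
    congr 1
    funext τ
    rw [Equi_contract hg n1, Equi_base _ _ _ ρ (setL fr ((fr.zip ks).map τ) ρ)]
    refine Equi_sumL_congr _ fun ρ' h => EquiQ_eq h1 fun s hs => ?_
    split_ifs with hd
    · rfl
    · rcases List.mem_append.1 (hp.subset hs) with hs | hs
      · rw [h _ hd, Equi_setL n2 τ ρ hs]
      · exact absurd (EquiP_mem hs) hd
  · intro ρ' h
    rw [← EquiE_prod ρ' h1 hn fun s => ρ s.1, EquiE_perm ρ' hp, EquiE_append]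
    exact EquiE_env _ (fun s hs => h _ (hz s hs)) _ _

theorem evP_act (hg : ∀ y x, ∑ i, g' y i * g i x = if y = x then 1 else 0) {p : Poly}
    (h : p.all (wk kd fr ks) = true) (ρ : ℕ → ι) : ev (fun τ => act g g' (kd τ) (S τ)) p ρ =
      act g g' ks (fun l => ev S p (setL fr l ρ)) (fr.map ρ) := by
  induction p with
  | nil => simp [act_zero]
  | cons t p ih =>
    simp only [List.all_cons, Bool.and_eq_true] at h
    simp only [ev_cons, act_add, ev_act hg h.1, ih h.2]

theorem rel_act (hg : ∀ y x, ∑ i, g' y i * g i x = if y = x then 1 else 0) {p : Poly}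
    (h : p.all (wk kd fr ks) = true) (h0 : ∀ ρ, ev S p ρ = 0) (ρ : ℕ → ι) :
    ev (fun τ => act g g' (kd τ) (S τ)) p ρ = 0 := by
  simp [evP_act hg h, h0, act_zero]

end Pool.Agent.P.MP_3e99c6_gt.G
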