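import Pool.Agent.P.MP_3e99c6_gt.SK.Wk
import Pool.Agent.P.MP_3e99c6_gt.SK.Act
import Pool.Agent.P.MP_3e99c6_gt.SK.Equi

/-! The Leibniz rule for contraction graphs. -/

set_option linter.unusedSectionVars false

namespace Pool.Agent.P.MP_3e99c6_gt.G

open Function Finset

variable {ι A : Type} [Fintype ι] [DecidableEq ι] [CommRing A] [Algebra ℂ A] {S : ℕ → List ι → A}
  {kd : ℕ → List Bool} {fr : List ℕ} {ks : List Bool} {o : ℕ → ℕ} {a : ℕ} {D : ι → Derivation ℂ A A}
  {γ : ι → ι → ι → A}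

open TrivSqZeroExt in
theorem act_dual (c : ι → ι → A) (ks : List Bool) (T : List ι → A) (l : List ι) :
    act (fun i x => (inl (if i = x then 1 else 0) + inr (-c i x) : DualNumber A))
      (fun i x => inl (if i = x then 1 else 0) + inr (c i x)) ks (fun l => inl (T l)) l =
      inl (T l) + inr (dact c ks T l) := by
  induction ks generalizing T l with
  | nil => simp [act, dact]
  | cons k ks ih =>
    cases l with
    | nil => simp [act, dact]
    | cons i l =>
      simp only [act, dact, ih]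
      cases k <;> ext <;>
        simp [fst_sum, snd_sum, Finset.sum_add_distrib, mul_comm, add_comm]

theorem fst_fP (U : ℕ → List ι → DualNumber A) (fs : List Fac) (ρ : ℕ → ι) :
    (fP U fs ρ).fst = fP (fun τ l => (U τ l).fst) fs ρ := by
  induction fs with
  | nil => simp
  | cons f l ih => simp [fP_cons, ih]

theorem snd_fP (U : ℕ → List ι → DualNumber A) (fs : List Fac) (ρ : ℕ → ι) :
    (fP U fs ρ).snd = ((splits fs).map fun p =>
      fP (fun τ l => (U τ l).fst) p.2 ρ * (U p.1.1 (p.1.2.map ρ)).snd).sum := by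
  induction fs with
  | nil => simp [splits]
  | cons f l ih =>
    simp only [fP_cons, DualNumber.snd_mul, ih, fst_fP, splits, List.map_cons, List.sum_cons,
      List.map_map, comp_def, mul_assoc, List.sum_map_mul_left]
    ring

theorem der_fP (d : Derivation ℂ A A) (fs : List Fac) (ρ : ℕ → ι) :
    d (fP S fs ρ) = ((splits fs).map fun p => fP S p.2 ρ * d (S p.1.1 (p.1.2.map ρ))).sum := by
  induction fs with
  | nil => simp [splits]
  | cons f l ih =>
    simp only [fP_cons, Derivation.leibniz, smul_eq_mul, ih, splits, List.map_cons, List.sum_cons,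
      List.map_map, comp_def, mul_assoc, List.sum_map_mul_left]
    ring

theorem sumL_fix {l : List ℕ} (ha : a ∉ l) (F : ι → (ℕ → ι) → A) (ρ : ℕ → ι) :
    sumL l (fun ρ' => F (ρ' a) ρ') ρ = sumL l (F (ρ a)) ρ := by
  induction l generalizing ρ with
  | nil => rfl
  | cons b l ih =>
    simp only [List.mem_cons, not_or] at ha
    simp only [sumL, ih ha.2, update_of_ne ha.1]

open TrivSqZeroExt in
theorem dact_ev (c : ι → ι → A) {t : Tm} (h : wk kd fr ks t = true) (ρ : ℕ → ι) :
    t.c * sumL t.ds (fun ρ => ((splits t.fs).map fun p =>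
      fP S p.2 ρ * dact c (kd p.1.1) (S p.1.1) (p.1.2.map ρ)).sum) ρ =
      dact c ks (fun l => t.ev S (setL fr l ρ)) (fr.map ρ) := by
  have h1 := ev_act (S := fun τ l => (inl (S τ l) : DualNumber A))
    (g := fun i x => (inl (if i = x then 1 else 0) + inr (-c i x) : DualNumber A))
    (g' := fun i x => inl (if i = x then 1 else 0) + inr (c i x)) (fun y x => by
      ext <;> by_cases e : y = x <;> simp [fst_sum, snd_sum, Finset.sum_add_distrib, e]) h ρ
  have h2 : ∀ ρ, t.ev (fun τ l => (inl (S τ l) : DualNumber A)) ρ = inl (t.ev S ρ) := by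
    intro ρ
    have := map_ev (inlHom A A) S [t] ρ
    simpa [ev_cons] using this.symm
  have h3 : ∀ τ, act (fun i x => (inl (if i = x then 1 else 0) + inr (-c i x) : DualNumber A))
      (fun i x => inl (if i = x then 1 else 0) + inr (c i x)) (kd τ) (fun l => inl (S τ l)) =
      fun l => inl (S τ l) + inr (dact c (kd τ) (S τ) l) := fun τ => funext (act_dual c _ _)
  simp only [h2, h3, act_dual] at h1
  have h4 := congrArg TrivSqZeroExt.snd h1
  have h5 := map_sumL (sndHom A A).toAddMonoidHom t.ds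
    (fP (fun τ l => (inl (S τ l) + inr (dact c (kd τ) (S τ) l) : DualNumber A)) t.fs) ρ
  simp only [LinearMap.toAddMonoidHom_coe, sndHom_apply, snd_fP] at h5
  simp only [Tm.ev, DualNumber.snd_mul, h5] at h4
  simpa [Tm.ev] using h4

theorem ev_dT {t : Tm} (h : wk kd fr ks t = true) (ha : a ∉ t.ds)
    (hS : ∀ τ m l, S (o τ) (m :: l) = D m (S τ l) + dact (γ m) (kd τ) (S τ) l) (ρ : ℕ → ι) :
    ev S (dT o a t) ρ = D (ρ a) (t.ev S ρ) +
      dact (γ (ρ a)) ks (fun l => t.ev S (setL fr l ρ)) (fr.map ρ) := by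
  have h5 := map_sumL (D (ρ a)).toLinearMap.toAddMonoidHom t.ds (fP S t.fs) ρ
  simp only [LinearMap.toAddMonoidHom_coe, Derivation.coeFn_coe, der_fP] at h5
  rw [← dact_ev (γ (ρ a)) h, Tm.ev, ← zsmul_eq_mul, map_zsmul, zsmul_eq_mul, h5, ← mul_add,
    ← sumL_add]
  simp only [← List.sum_map_add, ← mul_add]
  rw [sumL_list, ← List.sum_map_mul_left, dT, ev, List.map_map]
  congr 1
  refine List.map_congr_left fun p _ => ?_
  simp only [comp_apply, Tm.ev]
  congr 1
  rw [← sumL_fix ha fun m ρ => fP S p.2 ρ *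
    (D m (S p.1.1 (p.1.2.map ρ)) + dact (γ m) (kd p.1.1) (S p.1.1) (p.1.2.map ρ))]
  congr 1
  funext ρ
  simp [fP_append, fP_cons, hS]

theorem ev_dP {p : Poly} (h : p.all (wk kd fr ks) = true) (ha : ∀ t ∈ p, a ∉ t.ds)
    (hS : ∀ τ m l, S (o τ) (m :: l) = D m (S τ l) + dact (γ m) (kd τ) (S τ) l) (ρ : ℕ → ι) :
    ev S (dP o a p) ρ = D (ρ a) (ev S p ρ) +
      dact (γ (ρ a)) ks (fun l => ev S p (setL fr l ρ)) (fr.map ρ) := by
  induction p with
  | nil => simp [dP, dact_zero]
  | cons t p ih =>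
    simp only [List.all_cons, Bool.and_eq_true] at h
    have ih' := ih h.2 fun t ht => ha t (by simp [ht])
    rw [dP] at ih'
    simp only [dP, List.flatMap_cons, ev_append, ev_cons, dact_add, map_add, ih',
      ev_dT h.1 (ha t (by simp)) hS]
    ring

theorem rel_dP {p : Poly} (h : p.all (wk kd fr ks) = true) (ha : ∀ t ∈ p, a ∉ t.ds)
    (hS : ∀ τ m l, S (o τ) (m :: l) = D m (S τ l) + dact (γ m) (kd τ) (S τ) l)
    (h0 : ∀ ρ, ev S p ρ = 0) (ρ : ℕ → ι) : ev S (dP o a p) ρ = 0 := by
  simp [ev_dP h ha hS, h0, dact_zero]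

end Pool.Agent.P.MP_3e99c6_gt.G
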