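import Pool.Agent.P.MP_3e99c6_gt.SK.Rel
import Pool.Agent.P.MP_3e99c6_gt.SK.Act

/-! Slot symmetries of the tensors. -/

set_option linter.unusedSectionVars false

namespace Pool.Agent.P.MP_3e99c6_gt.G.HD

open Finset

variable {ι A : Type} [Fintype ι] [DecidableEq ι] [CommRing A] [Algebra ℂ A] (d : HD ι A)

theorem Symm_t2 (f : ι → ι → A) (l : List ι) (h : l.length ≠ 2) : t2 f l = 0 := by
  match l, h with
  | [], _ => rfl
  | [_], _ => rfl
  | [_, _], h => exact absurd rfl h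
  | _ :: _ :: _ :: _, _ => rfl

theorem Symm_t3 (f : ι → ι → ι → A) (l : List ι) (h : l.length ≠ 3) : t3 f l = 0 := by
  match l, h with
  | [], _ => rfl
  | [_], _ => rfl
  | [_, _], _ => rfl
  | [_, _, _], h => exact absurd rfl h
  | _ :: _ :: _ :: _ :: _, _ => rfl

theorem Symm_t4 (f : ι → ι → ι → ι → A) (l : List ι) (h : l.length ≠ 4) : t4 f l = 0 := by
  match l, h with
  | [], _ => rfl
  | [_], _ => rfl
  | [_, _], _ => rfl
  | [_, _, _], _ => rfl
  | [_, _, _, _], h => exact absurd rfl h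
  | _ :: _ :: _ :: _ :: _ :: _, _ => rfl

theorem att_len (τ : ℕ) (l : List ι) (h : l.length ≠ (kd τ).length) : d.att τ l = 0 := by
  induction τ using atom_ind generalizing l with
  | h0 τ hτ =>
    rw [d.att_lt hτ]
    interval_cases τ
    · exact Symm_t2 _ l h
    · exact if_neg fun e => h (by rw [e]; rfl)
    · exact Symm_t3 _ l h
    · exact Symm_t3 _ l h
    · exact Symm_t4 _ l h
    · exact Symm_t4 _ l h
    · exact Symm_t4 _ l h
    · exact Symm_t4 _ l h
    all_goals rfl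
  | h1 τ ih =>
    rw [att_uD]
    rw [kd_uD] at h
    cases l with
    | nil => rfl
    | cons m l =>
      have h' : l.length ≠ (kd τ).length := fun e => h (by simp [e])
      rw [cov, ih l h', map_zero, zero_add,
        dact_congr _ _ _ (fun _ => 0) l fun l' e => ih l' (e ▸ h'), dact_zero]
  | h2 τ ih =>
    rw [att_uF]
    rw [kd_uF] at h
    cases l with
    | nil => rfl
    | cons m l => rw [bar, ih l fun e => h (by simp [e]), map_zero]

theorem Symm_sF {P : ℕ → ℕ → Bool → Prop} {s : ℕ → Option (ℕ × Bool)}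
    (h0 : ∀ τ < 16, ∀ q, s τ = some q → P τ q.1 q.2)
    (h1 : ∀ τ p b, P τ p b → P (uD τ) (p + 1) b) (h2 : ∀ τ p b, P τ p b → P (uF τ) (p + 1) b)
    (f o τ : ℕ) (q : ℕ × Bool) (h : sF s f o τ = some q) : ∃ p, q.1 = p + o ∧ P τ p q.2 := by
  induction f generalizing o τ with
  | zero => exact absurd h (by simp [sF])
  | succ f ih =>
    rw [sF] at h
    cases e : Nat.ble 16 τ with
    | true =>
      rw [e] at h
      obtain ⟨p, e1, hp⟩ := ih _ _ h
      have := Nat.le_of_ble_eq_true e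
      refine ⟨p + 1, by omega, ?_⟩
      rcases Nat.mod_two_eq_zero_or_one τ with e2 | e2
      · have e3 : τ = uD ((τ - 16) / 2) := by unfold uD; omega
        rw [e3]
        exact h1 _ _ _ hp
      · have e3 : τ = uF ((τ - 16) / 2) := by unfold uF; omega
        rw [e3]
        exact h2 _ _ _ hp
    | false =>
      rw [e] at h
      have hτ : τ < 16 := by
        by_contra hτ
        rw [Nat.ble_eq_true_of_le (not_lt.mp hτ)] at e
        exact absurd e (by simp)
      cases e2 : s τ with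
      | none => simp [e2] at h
      | some q' =>
        simp only [e2, cond_false, Option.some.injEq] at h
        subst h
        exact ⟨q'.1, rfl, h0 τ hτ q' e2⟩

/-- The kinds of the two slots agree. -/
def Symm_K (τ p : ℕ) : Prop := swapAt p (kd τ) = kd τ ∧ p + 1 < (kd τ).length

theorem Symm_KD {τ p : ℕ} (h : Symm_K τ p) : Symm_K (uD τ) (p + 1) := by
  rw [Symm_K, kd_uD, swapAt, h.1]
  exact ⟨rfl, Nat.succ_lt_succ h.2⟩

theorem Symm_KF {τ p : ℕ} (h : Symm_K τ p) : Symm_K (uF τ) (p + 1) := by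
  rw [Symm_K, kd_uF, swapAt, h.1]
  exact ⟨rfl, Nat.succ_lt_succ h.2⟩

theorem Symm_s10 {τ : ℕ} (hτ : τ < 16) {q : ℕ × Bool} (h : s10 τ = some q) :
    q = (0, true) ∧ (τ = 2 ∨ τ = 3 ∨ τ = 4 ∨ τ = 5 ∨ τ = 6) := by
  interval_cases τ <;> cases h <;> simp

theorem Symm_s20 {τ : ℕ} (hτ : τ < 16) {q : ℕ × Bool} (h : s20 τ = some q) :
    (q = (2, false) ∧ (τ = 4 ∨ τ = 5)) ∨ (q = (2, true) ∧ τ = 6) := by
  interval_cases τ <;> cases h <;> decide

theorem Symm_K1 (τ : ℕ) (hτ : τ < 16) (q : ℕ × Bool) (h : s10 τ = some q) : Symm_K τ q.1 := by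
  obtain ⟨rfl, rfl | rfl | rfl | rfl | rfl⟩ := Symm_s10 hτ h <;> exact ⟨rfl, by decide⟩

theorem Symm_K2 (τ : ℕ) (hτ : τ < 16) (q : ℕ × Bool) (h : s20 τ = some q) : Symm_K τ q.1 := by
  obtain ⟨rfl, rfl | rfl⟩ | ⟨rfl, rfl⟩ := Symm_s20 hτ h <;> exact ⟨rfl, by decide⟩

theorem s1_kd {τ : ℕ} {q : ℕ × Bool} (h : s1 τ = some q) :
    swapAt q.1 (kd τ) = kd τ ∧ q.1 + 1 < (kd τ).length := by
  obtain ⟨p, e, hp⟩ := Symm_sF (P := fun τ p _ => Symm_K τ p) Symm_K1 (fun _ _ _ => Symm_KD)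
    (fun _ _ _ => Symm_KF) 4 0 τ q h
  rw [e]
  exact hp

theorem s2_kd {τ : ℕ} {q : ℕ × Bool} (h : s2 τ = some q) :
    swapAt q.1 (kd τ) = kd τ ∧ q.1 + 1 < (kd τ).length := by
  obtain ⟨p, e, hp⟩ := Symm_sF (P := fun τ p _ => Symm_K τ p) Symm_K2 (fun _ _ _ => Symm_KD)
    (fun _ _ _ => Symm_KF) 4 0 τ q h
  rw [e]
  exact hp

theorem Symm_der (D : Derivation ℂ A A) (b : Bool) (x : A) : D (sg A b * x) = sg A b * D x := by
  cases b <;> simp [sg]

theorem Symm_sym {s : ℕ → Option (ℕ × Bool)} (hK : ∀ τ < 16, ∀ q, s τ = some q → Symm_K τ q.1)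
    (h0 : ∀ τ < 16, ∀ q, s τ = some q → ∀ l, d.at0 τ (swapAt q.1 l) = sg A q.2 * d.at0 τ l) :
    Sym (sF s 4 0) d.att := by
  intro τ q h
  obtain ⟨p, e, hp⟩ := Symm_sF
    (P := fun τ p b => Symm_K τ p ∧ ∀ l, d.att τ (swapAt p l) = sg A b * d.att τ l)
    (fun τ hτ q h => ⟨hK τ hτ q h, by rw [d.att_lt hτ]; exact h0 τ hτ q h⟩)
    (fun τ p b h => ⟨Symm_KD h.1, fun l => by
      rw [att_uD]
      cases l with
      | nil => exact (mul_zero _).symm
      | cons m l =>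
        rw [swapAt, cov, cov, h.2, Symm_der, dact_swap _ _ _ l p _ h.1.1 h.1.2 h.2, mul_add]⟩)
    (fun τ p b h => ⟨Symm_KF h.1, fun l => by
      rw [att_uF]
      cases l with
      | nil => exact (mul_zero _).symm
      | cons m l => rw [swapAt, bar, bar, h.2, Symm_der]⟩) 4 0 τ q h
  rw [e]
  exact hp.2

theorem Symm_t3s {f : ι → ι → ι → A} {e : A} (h : ∀ a b c, f b a c = e * f a b c) (l : List ι) :
    t3 f (swapAt 0 l) = e * t3 f l := by
  match l with
  | [] => exact (mul_zero _).symm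
  | [_] => exact (mul_zero _).symm
  | [_, _] => exact (mul_zero _).symm
  | [a, b, c] => exact h a b c
  | _ :: _ :: _ :: _ :: _ => exact (mul_zero _).symm

theorem Symm_t4s {f : ι → ι → ι → ι → A} {e : A} (h : ∀ a b c x, f b a c x = e * f a b c x)
    (l : List ι) : t4 f (swapAt 0 l) = e * t4 f l := by
  match l with
  | [] => exact (mul_zero _).symm
  | [_] => exact (mul_zero _).symm
  | [_, _] => exact (mul_zero _).symm
  | [_, _, _] => exact (mul_zero _).symm
  | [a, b, c, x] => exact h a b c x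
  | _ :: _ :: _ :: _ :: _ :: _ => exact (mul_zero _).symm

theorem Symm_t4s' {f : ι → ι → ι → ι → A} {e : A} (h : ∀ a b c x, f a b x c = e * f a b c x)
    (l : List ι) : t4 f (swapAt 2 l) = e * t4 f l := by
  match l with
  | [] => exact (mul_zero _).symm
  | [_] => exact (mul_zero _).symm
  | [_, _] => exact (mul_zero _).symm
  | [_, _, _] => exact (mul_zero _).symm
  | [a, b, c, x] => exact h a b c x
  | _ :: _ :: _ :: _ :: _ :: _ => exact (mul_zero _).symm

theorem Symm_T (i k j : ι) : d.T k i j = -1 * d.T i k j := by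
  rw [T, T]; ring

theorem Symm_Tb (a b i : ι) : d.Tb b a i = -1 * d.Tb a b i := by
  rw [Tb, Tb, sum_comm, mul_sum]
  refine sum_congr rfl fun j _ => ?_
  rw [mul_sum]
  refine sum_congr rfl fun l _ => ?_
  ring

theorem Symm_Ab (m j l i : ι) : d.Ab m l j i = -1 * d.Ab m j l i := by
  have h := dact_swap (d.Γ m) [false, false, true] (t3 d.Tb) [j, l, i] 0 (-1) rfl (by decide)
    (Symm_t3s d.Symm_Tb)
  have h2 : d.D m (d.Tb l j i) = -1 * d.D m (d.Tb j l i) := by
    rw [d.Symm_Tb j l i]; simp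
  show d.D m (d.Tb l j i) + dact (d.Γ m) [false, false, true] (t3 d.Tb) (swapAt 0 [j, l, i]) =
    -1 * (d.D m (d.Tb j l i) + dact (d.Γ m) [false, false, true] (t3 d.Tb) [j, l, i])
  rw [h, h2, mul_add]

theorem Symm_FT (a i k j : ι) : d.F a (d.T k i j) = -1 * d.F a (d.T i k j) := by
  rw [d.Symm_T i k j]; simp

theorem sym1 : Sym s1 d.att := by
  refine d.Symm_sym Symm_K1 fun τ hτ q h => ?_
  obtain ⟨rfl, rfl | rfl | rfl | rfl | rfl⟩ := Symm_s10 hτ h
  · exact Symm_t3s d.Symm_T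
  · exact Symm_t3s d.Symm_Tb
  · refine Symm_t4s (f := d.P) (e := -1) fun a b c x => ?_
    rw [P, P, d.Symm_FT x a b, d.Symm_FT c a b, ← mul_add, mul_smul_comm]
  · refine Symm_t4s (f := d.Pb) (e := -1) fun a b c x => ?_
    rw [Pb, Pb, d.Symm_Ab x a b, d.Symm_Ab c a b, ← mul_add, mul_smul_comm]
  · refine Symm_t4s (f := d.K) (e := -1) fun a b c x => ?_
    rw [K, K, d.Symm_FT x a b, d.Symm_FT c a b, ← mul_sub, mul_smul_comm]

theorem sym2 : Sym s2 d.att := by
  refine d.Symm_sym Symm_K2 fun τ hτ q h => ?_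
  obtain ⟨rfl, rfl | rfl⟩ | ⟨rfl, rfl⟩ := Symm_s20 hτ h
  · refine Symm_t4s' (f := d.P) (e := 1) fun a b c x => ?_
    rw [P, P, one_mul, add_comm]
  · refine Symm_t4s' (f := d.Pb) (e := 1) fun a b c x => ?_
    rw [Pb, Pb, one_mul, add_comm]
  · refine Symm_t4s' (f := d.K) (e := -1) fun a b c x => ?_
    rw [K, K, neg_one_mul, ← smul_neg, neg_sub]

theorem att_delta (i j : ι) : d.att 0 [i, j] = if i = j then 1 else 0 := by
  rw [d.att_lt (by norm_num)]
  rfl

theorem ok_ring {n : ℕ} (hn : Fintype.card ι = n) : Ok (cfgR n) d.att (AddMonoidHom.id A) := by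
  refine ⟨hn, d.att_delta, d.sym1, d.sym2, fun ds fs ρ => ?_, fun x hx => ?_⟩
  · show _root_.id (sumL ds (fP d.att (fs.map id)) ρ) = _
    rw [List.map_id]
    rfl
  · rw [← two_smul ℂ x] at hx
    rw [← one_smul ℂ x, ← inv_mul_cancel₀ (two_ne_zero' ℂ), mul_smul, hx, smul_zero]

end Pool.Agent.P.MP_3e99c6_gt.G.HD
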