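import Pool.Agent.P.MP_3e99c6_gt.SK.Ddi
import Pool.Agent.P.MP_3e99c6_gt.SK.Leib
import Pool.Agent.P.MP_3e99c6_gt.SK.Symm

/-! Derivatives of relations. -/

set_option linter.unusedSectionVars false

namespace Pool.Agent.P.MP_3e99c6_gt.G

variable {ι A : Type} [Fintype ι] [DecidableEq ι] [CommRing A]

theorem ZL.nil {S : ℕ → List ι → A} : ∀ p ∈ ([] : List Poly), Zr S p := fun _ h => by simp at h

theorem ZL.cons {S : ℕ → List ι → A} {q : Poly} {l : List Poly} (h : Zr S q)
    (h' : ∀ p ∈ l, Zr S p) : ∀ p ∈ q :: l, Zr S p := List.forall_mem_cons.2 ⟨h, h'⟩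

/-- Well-formed, and the label `a` is not summed. -/
def wkD (ks : List Bool) (p : Poly) : Bool :=
  p.all (wk kd (List.range ks.length) ks) && p.all fun t => !mem ks.length t.ds

theorem rule_ev {S : ℕ → List ι → A} {z : ℤ} {τ r : ℕ} {p : Poly}
    (h : Zr S (⟨-z, [], [(τ, List.range r)]⟩ :: p)) (ρ : ℕ → ι) :
    ev S p ρ = z * S τ ((List.range r).map ρ) := by
  have e := h ρ
  simp only [ev_cons, Tm.ev, sumL, fP_cons, fP_nil, Int.cast_neg] at e
  linear_combination e

variable [Algebra ℂ A] (d : HD ι A)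

theorem wkD_not {ks : List Bool} {p : Poly} (h : wkD ks p = true) :
    p.all (wk kd (List.range ks.length) ks) = true ∧ ∀ t ∈ p, ks.length ∉ t.ds := by
  rw [wkD, Bool.and_eq_true] at h
  refine ⟨h.1, fun t ht hm => ?_⟩
  have e := List.all_eq_true.1 h.2 t ht
  rw [mem_iff.2 hm] at e
  simp at e

theorem HD.zD {p : Poly} (ks : List Bool) (h0 : Zr d.att p) (h : wkD ks p = true) :
    Zr d.att (dP uD ks.length p) :=
  rel_dP (D := d.D) (γ := d.Γ) (wkD_not h).1 (wkD_not h).2 (fun τ m l => by rw [d.att_uD]; rfl) h0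

theorem HD.zF {p : Poly} (ks : List Bool) (h0 : Zr d.att p) (h : wkD ks p = true) :
    Zr d.att (dP uF ks.length p) :=
  rel_dP (D := d.F) (γ := fun _ _ _ => 0) (wkD_not h).1 (wkD_not h).2
    (fun τ m l => by rw [d.att_uF, dact_zero_left, add_zero]; rfl) h0

end Pool.Agent.P.MP_3e99c6_gt.G
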