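import Pool.Agent.P.MP_3e99c6_gt.SK.Fast

/-! Specification of the fast normaliser. -/

set_option linter.unusedSectionVars false

noncomputable section

namespace Pool.Agent.P.MP_3e99c6_gt.G

open Function

/-- The digits of one factor are appended to a number. -/
def encF (h : ℕ) (f : Fac) : ℕ := f.2.foldl (fun h a => h * 128 + a) (h * 16384 + f.1)

/-- The key of a normal form with summed labels `1, …, c - 1`. -/
def enc (x : ℕ × List Fac) : ℕ := x.2.foldl encF 1 * 128 + x.1

/-- All digits are in the allowed range. -/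
def Valid (x : ℕ × List Fac) : Prop :=
  x.1 < 128 ∧ ∀ f ∈ x.2, f.1 < 128 ∧ ∀ a ∈ f.2, 0 < a ∧ a < 128

/-- The digit of the label `a` is `127` only for labels in `ds`, and `0` otherwise. -/
def Msk (m : ℕ) (ds : List ℕ) : Prop := ∀ a, dg m (7 * a) = 0 ∨ dg m (7 * a) = 127 ∧ a ∈ ds

variable {ι A B : Type} [Fintype ι] [DecidableEq ι] [CommRing A] [AddCommGroup B]

open Classical in
/-- The value of a key. -/
def kv (S : ℕ → List ι → A) (φ : A →+ B) (ρ : ℕ → ι) (key : ℕ) : B :=
  if h : ∃ x, Valid x ∧ enc x = key then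
    φ (sumL (List.range' 1 (h.choose.1 - 1)) (fP S h.choose.2) ρ) else 0

/-- The slot symmetries listed in a table hold. -/
def Sym2 (tab : ℕ) (S : ℕ → List ι → A) : Prop :=
  ∀ τ d l, (tab >>> (4 * τ)) % 16 = d + 1 → S τ (swapAt (d / 2) l) = (-1) ^ d * S τ l

/-- The hypotheses under which the fast normaliser is sound. -/
structure Ok2 (C : Cf2) (S : ℕ → List ι → A) (φ : A →+ B) : Prop where
  card : Fintype.card ι = C.n
  delta : ∀ i j, S 0 [i, j] = if i = j then 1 else 0
  s1 : Sym2 C.t1 S
  s2 : Sym2 C.t2 S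
  cj : ∀ ds fs ρ, φ (sumL ds (fP S (fs.map cj2)) ρ) = φ (sumL ds (fP S fs) ρ)
  two : ∀ x : B, x + x = 0 → x = 0

/-- `x` is a combination of the `v i` whose coefficients are recorded in `P - N`. -/
def Rep (b : ℕ) (v : ℕ → B) (x : B) (P N T : ℕ) : Prop :=
  ∃ L : List (ℕ × ℤ), (L.map fun y => y.2 • v y.1).sum = x ∧
    (L.map fun y => y.2 * 2 ^ (b * y.1)).sum = (P : ℤ) - N ∧ (L.map fun y => y.2.natAbs).sum ≤ T

/-- The table of the first slot symmetry. -/
def tb1 : ℕ := 0x6666666666666666666600000000000000000000000000444444444400000000000002222200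

/-- The table of the second slot symmetry. -/
def tb2 : ℕ := 0xaaaa999999990000000000000000000000000000000000887777000000000000000006550000

end Pool.Agent.P.MP_3e99c6_gt.G
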