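import Mathlib

/-! Unitary frames. -/

open scoped ComplexConjugate ComplexOrder

namespace Pool.Agent.P.MP_3e99c6_gt.G

variable {ι : Type} [Fintype ι] [DecidableEq ι]

theorem exists_frame {H : Matrix ι ι ℂ} (hH : H.PosDef) : ∃ u : ι → ι → ℂ,
    ∀ i j, ∑ x, ∑ y, u i x * H x y * conj (u j y) = if i = j then 1 else 0 := by
  open scoped MatrixOrder in
  obtain ⟨B, hB, rfl⟩ := CStarAlgebra.isStrictlyPositive_iff_eq_star_mul_self.mp
    hH.isStrictlyPositive
  obtain ⟨C, hC⟩ := hB.exists_right_inv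
  have h1 : star C * (star B * B) * C = 1 := by
    rw [← mul_assoc, ← star_mul, hC, star_one, one_mul, hC]
  refine ⟨fun i x => star C i x, fun i j => ?_⟩
  have h2 := congrFun (congrFun h1 i) j
  rw [Matrix.mul_apply, Matrix.one_apply] at h2
  rw [← h2, Finset.sum_comm]
  refine Finset.sum_congr rfl fun y _ => ?_
  rw [Matrix.mul_apply, Finset.sum_mul]
  refine Finset.sum_congr rfl fun x _ => ?_
  simp [Matrix.star_apply]

end Pool.Agent.P.MP_3e99c6_gt.G
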