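import Pool.Agent.P.MP_3e99c6_gt.SK.Conj
import Pool.Agent.P.MP_3e99c6_gt.SK.Symm
import Pool.Agent.P.MP_3e99c6_gt.SK.Equi
import Pool.Agent.P.MP_3e99c6_gt.SK.Frm

/-! The tensors at a point, in a unitary frame. -/

set_option linter.unusedSectionVars false

open scoped ComplexConjugate ComplexOrder

noncomputable section

namespace Pool.Agent.P.MP_3e99c6_gt.G

open Finset

/-- All tensors of the term are built from the first seven basic tensors. -/
def gd (t : Tm) : Bool := t.fs.all fun f => good 4 f.1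

variable {ι A : Type} [Fintype ι] [DecidableEq ι] [CommRing A] [Algebra ℂ A]

/-- The properties of the components of the tensors in a unitary frame. -/
structure Pt (d : HD ι A) (e : A →ₐ[ℂ] ℂ) (S : ℕ → List ι → ℂ) : Prop where
  delta : ∀ i j, S 0 [i, j] = if i = j then 1 else 0
  c : S 1 [] = d.c
  s1 : Sym s1 S
  s2 : Sym s2 S
  cj : ∀ τ l, S (cjL τ l).1 (cjL τ l).2 = conj (S τ l)
  rel : ∀ (p : Poly) (fr : List ℕ) (ks : List Bool), p.all (wk kd fr ks) = true →
    p.all gd = true → Zr d.att p → Zr S p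
  val : ∀ p : Poly, p.all (wk kd [] []) = true → p.all gd = true → ∀ ρ,
    ev S p ρ = e (ev d.att p ρ)
  tor : (∀ i k j, S 2 [i, k, j] = 0) → ∀ i k j, e (d.T i k j) = 0

theorem pt_swapAt_swapAt {α : Type} (p : ℕ) (l : List α) : swapAt p (swapAt p l) = l := by
  fun_induction swapAt p l with
  | case1 => rfl
  | case2 p a l ih => simp [swapAt, ih]
  | case3 p l h1 h2 =>
    match p, l with
    | 0, [] => rfl
    | 0, [_] => rfl
    | 0, a :: b :: l => exact (h1 a b l rfl rfl).elim
    | _ + 1, [] => rfl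
    | p + 1, a :: l => exact (h2 p a l rfl rfl).elim

theorem pt_cjL_ge {α : Type} {τ : ℕ} (h : 16 ≤ τ) (m : α) (l : List α) : cjL τ (m :: l) =
    (2 * (cjL ((τ - 16) / 2) l).1 + (17 - τ % 2), m :: (cjL ((τ - 16) / 2) l).2) := by
  rw [cjL, Nat.ble_eq_true_of_le h, cond_true]

theorem pt_cjL_uD {α : Type} (τ : ℕ) (m : α) (l : List α) :
    cjL (uD τ) (m :: l) = (uF (cjL τ l).1, m :: (cjL τ l).2) := by
  have e2 : (2 * τ + 16) % 2 = 0 := by omega
  have e3 : (2 * τ + 16 - 16) / 2 = τ := by omega
  rw [pt_cjL_ge (by unfold uD; omega), uD, e2, e3, uF]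

theorem pt_cjL_uF {α : Type} (τ : ℕ) (m : α) (l : List α) :
    cjL (uF τ) (m :: l) = (uD (cjL τ l).1, m :: (cjL τ l).2) := by
  have e2 : (2 * τ + 17) % 2 = 1 := by omega
  have e3 : (2 * τ + 17 - 16) / 2 = τ := by omega
  rw [pt_cjL_ge (by unfold uF; omega), uF, e2, e3, uD]

theorem pt_good_uD (f τ : ℕ) : good (f + 1) (uD τ) = good f τ := by
  have e : Nat.ble 16 (2 * τ + 16) = true := Nat.ble_eq_true_of_le (by omega)
  have e3 : (2 * τ + 16 - 16) / 2 = τ := by omega
  rw [good, uD, e, e3, cond_true]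

theorem pt_good_uF (f τ : ℕ) : good (f + 1) (uF τ) = good f τ := by
  have e : Nat.ble 16 (2 * τ + 17) = true := Nat.ble_eq_true_of_le (by omega)
  have e3 : (2 * τ + 17 - 16) / 2 = τ := by omega
  rw [good, uF, e, e3, cond_true]

theorem pt_atom_cases (τ : ℕ) : τ < 16 ∨ (∃ s, τ = uD s) ∨ ∃ s, τ = uF s :=
  atom_ind (p := fun τ => τ < 16 ∨ (∃ s, τ = uD s) ∨ ∃ s, τ = uF s) (fun _ h => Or.inl h)
    (fun s _ => Or.inr (Or.inl ⟨s, rfl⟩)) (fun s _ => Or.inr (Or.inr ⟨s, rfl⟩)) τ

theorem pt_cjL_map {α β : Type} (ρ : α → β) (τ : ℕ) (l : List α) :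
    cjL τ (l.map ρ) = ((cjL τ l).1, (cjL τ l).2.map ρ) := by
  induction l generalizing τ with
  | nil => rfl
  | cons m l ih =>
    rcases pt_atom_cases τ with h | ⟨s, rfl⟩ | ⟨s, rfl⟩
    · interval_cases τ <;> simp [cjL, Nat.ble, Nat.beq, map_swapAt]
    · simp [pt_cjL_uD, ih]
    · simp [pt_cjL_uF, ih]

theorem pt_cjL_len {α : Type} (τ : ℕ) (l : List α) : (cjL τ l).2.length = l.length := by
  have sw : ∀ (p : ℕ) (l : List α), (swapAt p l).length = l.length := by
    intro p l
    fun_induction swapAt p l with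
    | case1 => rfl
    | case2 p a l ih => simp [ih]
    | case3 => rfl
  induction l generalizing τ with
  | nil => rfl
  | cons m l ih =>
    rcases pt_atom_cases τ with h | ⟨s, rfl⟩ | ⟨s, rfl⟩
    · interval_cases τ <;> simp [cjL, Nat.ble, Nat.beq, sw]
    · simp [pt_cjL_uD, ih]
    · simp [pt_cjL_uF, ih]

theorem pt_cjL_fst {α : Type} (τ : ℕ) {l l' : List α} (h : l'.length = l.length) :
    (cjL τ l').1 = (cjL τ l).1 := by
  have e : l'.map (fun _ => ()) = l.map fun _ => () := by simp [List.map_const', h]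
  have e1 := congrArg Prod.fst (pt_cjL_map (fun _ => ()) τ l)
  have e2 := congrArg Prod.fst (pt_cjL_map (fun _ => ()) τ l')
  rw [e] at e2
  exact e2.symm.trans e1

theorem pt_good_cjL {α : Type} (f τ : ℕ) (l : List α) : good f (cjL τ l).1 = good f τ := by
  induction l generalizing f τ with
  | nil => rfl
  | cons m l ih =>
    cases f with
    | zero => rfl
    | succ f =>
      rcases pt_atom_cases τ with h | ⟨s, rfl⟩ | ⟨s, rfl⟩
      · interval_cases τ <;> rfl
      · rw [pt_cjL_uD, pt_good_uF, pt_good_uD, ih]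
      · rw [pt_cjL_uF, pt_good_uF, pt_good_uD, ih]

theorem pt_kd_cjL {α : Type} (τ : ℕ) (l : List α) : (kd (cjL τ l).1).length = (kd τ).length := by
  induction l generalizing τ with
  | nil => rfl
  | cons m l ih =>
    rcases pt_atom_cases τ with h | ⟨s, rfl⟩ | ⟨s, rfl⟩
    · interval_cases τ <;> rfl
    · simp [pt_cjL_uD, kd_uD, kd_uF, ih]
    · simp [pt_cjL_uF, kd_uD, kd_uF, ih]

theorem pt_act_nil {B : Type} [CommRing B] (g g' : ι → ι → B) (ks : List Bool) (T : List ι → B) :
    act g g' ks T [] = T [] := by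
  cases ks <;> rfl

theorem pt_act_sw {B : Type} [CommRing B] (g g' : ι → ι → B) (ks : List Bool) (T : List ι → B)
    (l : List ι) (p : ℕ) (hp : p + 1 < ks.length) (hl : p + 1 < l.length) :
    act g g' ks (fun l => T (swapAt p l)) l = act g g' (swapAt p ks) T (swapAt p l) := by
  rw [← act_swapAt g g' ks _ l p hp hl]
  simp only [pt_swapAt_swapAt]

theorem pt_act_cjL {B : Type} [CommRing B] (g g' : ι → ι → B) {f τ : ℕ} (hτ : good f τ = true)
    (T : List ι → B) (l : List ι) (hl : l.length = (kd τ).length) :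
    act g g' ((kd τ).map not) (fun l => T (cjL τ l).2) l =
      act g g' (kd (cjL τ l).1) T (cjL τ l).2 := by
  induction l generalizing f τ T with
  | nil => rw [pt_act_nil]; exact (pt_act_nil _ _ _ _).symm
  | cons m l ih =>
    cases f with
    | zero => simp [good] at hτ
    | succ f =>
      rcases pt_atom_cases τ with h | ⟨s, rfl⟩ | ⟨s, rfl⟩
      · have id2 : ∀ τ, 2 ≤ τ → τ ≤ 5 → ∀ l : List ι, (cjL τ l).2 = l := by
          intro τ h1 h2 l
          cases l with
          | nil => rfl
          | cons a l => interval_cases τ <;> rfl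
        have h6 : τ ≤ 6 := by
          by_contra h6
          have h7 : 7 ≤ τ := by omega
          interval_cases τ <;> simp [good, Nat.ble] at hτ
        interval_cases τ
        · have e : ∀ l : List ι, (cjL 0 l).2 = swapAt 0 l := fun l => by cases l <;> rfl
          simp only [e]
          rw [pt_act_sw g g' _ T _ 0 (by decide) (by rw [hl]; decide)]
          rfl
        · simp [kd, kdF, kd0, Nat.ble] at hl
        · simp only [id2 2 (by omega) (by omega)]; rfl
        · simp only [id2 3 (by omega) (by omega)]; rfl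
        · simp only [id2 4 (by omega) (by omega)]; rfl
        · simp only [id2 5 (by omega) (by omega)]; rfl
        · have e : ∀ l : List ι, (cjL 6 l).2 = swapAt 1 (swapAt 0 (swapAt 2 (swapAt 1 l))) :=
            fun l => by cases l <;> rfl
          simp only [e]
          obtain ⟨a, b, c, rfl⟩ : ∃ a b c, l = [a, b, c] := by
            have h3 : l.length = 3 := Nat.succ_injective hl
            exact List.length_eq_three.1 h3
          rw [pt_act_sw g g' _ (fun l => T (swapAt 1 (swapAt 0 (swapAt 2 l)))) _ 1 (by decide)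
              (by simp),
            pt_act_sw g g' _ (fun l => T (swapAt 1 (swapAt 0 l))) _ 2 (by decide) (by simp [swapAt]),
            pt_act_sw g g' _ (fun l => T (swapAt 1 l)) _ 0 (by decide) (by simp [swapAt]),
            pt_act_sw g g' _ T _ 1 (by decide) (by simp [swapAt])]
          rfl
      · rw [pt_good_uD] at hτ
        rw [kd_uD] at hl
        simp only [pt_cjL_uD, kd_uD, kd_uF, List.map_cons, act, Bool.not_true]
        exact Finset.sum_congr rfl fun x _ => by
          rw [ih hτ (fun l' => T (x :: l')) (Nat.succ_injective hl)]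
      · rw [pt_good_uF] at hτ
        rw [kd_uF] at hl
        simp only [pt_cjL_uF, kd_uD, kd_uF, List.map_cons, act, Bool.not_false]
        exact Finset.sum_congr rfl fun x _ => by
          rw [ih hτ (fun l' => T (x :: l')) (Nat.succ_injective hl)]

theorem pt_map_sg {B C : Type} [CommRing B] [CommRing C] (φ : B →+* C) (b : Bool) :
    φ (sg B b) = sg C b := by
  cases b <;> simp [sg]

theorem exists_pt {d : HD ι A} {σ : A →+* A} (hσ : d.St σ) (e : A →ₐ[ℂ] ℂ)
    (he : ∀ x, e (σ x) = conj (e x)) (hp : (Matrix.of fun i j => e (d.h i j)).PosDef) :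
    ∃ S, Pt d e S := by
  obtain ⟨u, hu⟩ := exists_frame hp
  simp only [Matrix.of_apply] at hu
  obtain ⟨u', hu'⟩ : ∃ u' : ι → ι → ℂ, ∀ x i, u' x i = ∑ y, e (d.h x y) * conj (u i y) :=
    ⟨_, fun _ _ => rfl⟩
  have h1 : ∀ i j, ∑ x, u i x * u' x j = if i = j then 1 else 0 := fun i j => by
    rw [← hu i j]
    simp only [hu', Finset.mul_sum, mul_assoc]
  have h2 : ∀ y x, ∑ i, u' y i * u i x = if y = x then 1 else 0 := by
    have m1 : Matrix.of u * Matrix.of u' = 1 := by
      ext i j
      simpa [Matrix.mul_apply, Matrix.one_apply] using h1 i j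
    have m2 : Matrix.of u' * Matrix.of u = 1 := mul_eq_one_comm.1 m1
    intro y x
    simpa [Matrix.mul_apply, Matrix.one_apply] using (Matrix.ext_iff.2 m2) y x
  have h3 : ∀ x i, ∑ y, e (d.k y x) * conj (u' y i) = u i x := by
    intro x i
    have e1 : ∀ z, ∑ y, e (d.h z y) * e (d.k y x) = if z = x then 1 else 0 := fun z => by
      have := congrArg e (d.hk z x)
      rw [map_sum] at this
      simp only [map_mul] at this
      rw [this]
      split_ifs <;> simp
    simp only [hu', map_sum, map_mul, Complex.conj_conj, ← he, hσ.h, Finset.mul_sum]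
    rw [Finset.sum_comm]
    have e2 : ∀ z, ∑ y, e (d.k y x) * (e (d.h z y) * u i z) =
        (if z = x then 1 else 0) * u i z := fun z => by
      rw [← e1, Finset.sum_mul]
      exact Finset.sum_congr rfl fun y _ => by ring
    simp [e2]
  obtain ⟨S, hS⟩ : ∃ S : ℕ → List ι → ℂ, ∀ τ, S τ = bif good 4 τ then
      act u u' (kd τ) (fun l => e (d.att τ l)) else fun _ => 0 := ⟨_, fun _ => rfl⟩
  have hg : ∀ τ, good 4 τ = true → S τ = act u u' (kd τ) fun l => e (d.att τ l) := fun τ h => by
    rw [hS, h, cond_true]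
  have hb : ∀ τ, good 4 τ = false → S τ = fun _ => 0 := fun τ h => by rw [hS, h, cond_false]
  have hz : ∀ τ l, l.length ≠ (kd τ).length → S τ l = 0 := by
    intro τ l hl
    cases h : good 4 τ with
    | false => rw [hb τ h]
    | true =>
      rw [hg τ h, act_congr u u' _ _ (fun _ => 0) l fun l' hl' => by
        rw [d.att_len τ l' (by rwa [hl']), map_zero], act_zero]
  have sy : ∀ s : ℕ → Option (ℕ × Bool), Sym s d.att →
      (∀ τ q, s τ = some q → swapAt q.1 (kd τ) = kd τ ∧ q.1 + 1 < (kd τ).length) → Sym s S := by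
    intro s hs hk τ q hq l
    cases h : good 4 τ with
    | false => simp [hb τ h]
    | true =>
      rw [hg τ h]
      refine act_swap u u' _ _ l q.1 _ (hk τ q hq).1 (hk τ q hq).2 fun l => ?_
      rw [hs τ q hq l, map_mul]
      exact congrArg (· * _) (pt_map_sg (e : A →+* ℂ) q.2)
  have evS : ∀ p : Poly, p.all gd = true → ∀ ρ,
      ev S p ρ = ev (fun τ => act u u' (kd τ) fun l => e (d.att τ l)) p ρ := by
    intro p hp ρ
    refine ev_congr (fun t ht f hf => hg _ ?_) ρ
    simp only [gd, List.all_eq_true] at hp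
    exact hp t ht f hf
  have mev : ∀ (p : Poly) ρ, ev (fun τ l => e (d.att τ l)) p ρ = e (ev d.att p ρ) :=
    fun p ρ => (map_ev (e : A →+* ℂ) d.att p ρ).symm
  refine ⟨S, fun i j => ?_, ?_, sy s1 d.sym1 fun _ _ => HD.s1_kd, sy s2 d.sym2 fun _ _ => HD.s2_kd,
    fun τ l => ?_, fun p fr ks hw hp h0 ρ => ?_, fun p hw hp ρ => ?_, fun h0 i k j => ?_⟩
  · rw [hg 0 rfl, ← h1 i j]
    change ∑ x, u i x * ∑ y, u' y j * e (d.att 0 [x, y]) = _
    simp [d.att_delta, apply_ite e]
  · rw [hg 1 rfl, pt_act_nil, d.att_lt (by omega)]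
    simp [HD.at0]
  · cases h : good 4 τ with
    | false => rw [hb τ h, hb _ (by rw [pt_good_cjL, h]), map_zero]
    | true =>
      by_cases hl : l.length = (kd τ).length
      · rw [hg τ h, hg _ (by rw [pt_good_cjL, h]), ← pt_act_cjL u u' h _ l hl, map_act, act_not]
        have e1 : ∀ l' : List ι, l'.length = l.length → conj (e (d.att τ l')) =
            act (fun i x => e (d.h x i)) (fun x i => e (d.k i x)) (kd τ)
              (fun l' => e (d.att (cjL τ l).1 (cjL τ l').2)) l' := by
          intro l' hl'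
          rw [← he, hσ.att h l' (hl'.trans hl), act_not]
          refine (map_act _ _ _ _ _ (e : A →+* ℂ)).trans ?_
          refine act_congr _ _ _ _ _ _ fun l2 hl2 => ?_
          rw [pt_cjL_fst τ (hl2.trans hl')]
          rfl
        rw [act_congr _ _ _ _ _ l e1, act_comp]
        congr 1
        · funext i x
          rw [hu']
          exact Finset.sum_congr rfl fun y _ => mul_comm _ _
        · funext x i
          exact (h3 x i).symm
      · rw [hz τ l hl, hz _ _ (by rwa [pt_cjL_len, pt_kd_cjL]), map_zero]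
  · rw [evS p hp]
    exact rel_act (S := fun τ l => e (d.att τ l)) h2 hw (fun ρ => by rw [mev, h0, map_zero]) ρ
  · rw [evS p hp, evP_act (S := fun τ l => e (d.att τ l)) h2 hw, List.map_nil, pt_act_nil, mev]
    rfl
  · have e1 := act_comp u' u (kd 2) (fun l => e (d.att 2 l)) [i, k, j] u u'
    simp only [h2] at e1
    rw [act_one, ← hg 2 rfl, act_congr u' u _ _ (fun _ => 0) _ fun l hl => ?_, act_zero,
      d.att_lt (by omega)] at e1
    · exact e1.symm
    · obtain ⟨a, b, c, rfl⟩ := List.length_eq_three.1 hl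
      exact h0 a b c

theorem Pt.ok {d : HD ι A} {e : A →ₐ[ℂ] ℂ} {S : ℕ → List ι → ℂ} (H : Pt d e S) {n : ℕ}
    (hn : Fintype.card ι = n) : Ok (cfgP n) S Complex.reAddGroupHom := by
  refine ⟨hn, H.delta, H.s1, H.s2, fun ds fs ρ => ?_, fun x hx => by linarith⟩
  have e1 : fP S (fs.map (cfgP n).cj) = fun ρ => (starRingEnd ℂ).toAddMonoidHom (fP S fs ρ) := by
    funext ρ
    change _ = conj (fP S fs ρ)
    induction fs with
    | nil => simp
    | cons f fs ih =>
      rw [List.map_cons, fP_cons, fP_cons, map_mul, ih, ← H.cj, pt_cjL_map]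
      rfl
  rw [e1, ← map_sumL]
  exact Complex.conj_re _

end Pool.Agent.P.MP_3e99c6_gt.G
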