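import Pool.Agent.P.MP_3e99c6_gt.SK.Gen
import Pool.Agent.P.MP_3e99c6_gt.SK.Fs0
import Pool.Agent.P.MP_3e99c6_gt.SK.Pt

/-! The fast generating functions give the same values. -/

set_option linter.unusedSectionVars false

noncomputable section

namespace Pool.Agent.P.MP_3e99c6_gt.G

open Function

variable {ι A : Type} [Fintype ι] [DecidableEq ι] [CommRing A] (S : ℕ → List ι → A)

theorem genp_nthN (l : List ℕ) (i : ℕ) : nthN l i = l.getD i 0 := by
  induction l generalizing i with
  | nil => rfl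
  | cons a l ih =>
    cases i with
    | zero => rfl
    | succ i => exact ih i

theorem genp_nthP (l : List Poly) (i : ℕ) : nthP l i = l.getD i [] := by
  induction l generalizing i with
  | nil => rfl
  | cons a l ih =>
    cases i with
    | zero => rfl
    | succ i => exact ih i

theorem genp_sh2 (ext : List ℕ) (l : ℕ) : sh2 ext l = sh ext l := by
  have e : sh2 ext l = Bool.rec (nthN ext l) (l + 32) (Nat.ble 10 l) := rfl
  rw [e, sh, genp_nthN]
  cases Nat.ble 10 l <;> rfl

theorem genp_mpN (ext l r : List ℕ) : mpN ext l r = l.map (sh ext) ++ r := by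
  induction l with
  | nil => rfl
  | cons a l ih =>
    have e : mpN ext (a :: l) r = sh2 ext a :: mpN ext l r := rfl
    rw [e, ih, genp_sh2]
    rfl

theorem genp_mpF (ext : List ℕ) (l r : List Fac) : mpF ext l r = l.map (mapF (sh ext)) ++ r := by
  induction l with
  | nil => rfl
  | cons a l ih =>
    have e : mpF ext (a :: l) r = (a.1, mpN ext a.2 []) :: mpF ext l r := rfl
    rw [e, ih, genp_mpN, List.append_nil]
    rfl

theorem genp_apF (l r : List Fac) : apF l r = l ++ r := by
  induction l with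
  | nil => rfl
  | cons a l ih =>
    have e : apF (a :: l) r = a :: apF l r := rfl
    rw [e, ih]
    rfl

theorem ev_relI2 (E : Poly) (c : ℤ) (ds : List ℕ) (fs : List Fac) (ext : List ℕ) (rest : Poly)
    (ρ : ℕ → ι) : ev S (relI2 E c ds fs ext rest) ρ =
      ev S (relI E ⟨c, ds, fs⟩ ext) ρ + ev S rest ρ := by
  induction E with
  | nil => simp only [relI, List.map_nil, ev_nil, zero_add]; rfl
  | cons r E ih =>
    have e : relI2 (r :: E) c ds fs ext rest =
        ⟨c * r.c, mpN ext r.ds ds, mpF ext r.fs fs⟩ :: relI2 E c ds fs ext rest := rfl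
    have e' : relI (r :: E) ⟨c, ds, fs⟩ ext = ⟨c * r.c, ds ++ r.ds.map (sh ext),
        fs ++ r.fs.map (mapF (sh ext))⟩ :: relI E ⟨c, ds, fs⟩ ext := rfl
    rw [e, e', ev_cons, ev_cons, ih, add_assoc, genp_mpN, genp_mpF]
    congr 1
    simp only [Tm.ev]
    rw [sumL_perm List.perm_append_comm, fP_perm S List.perm_append_comm]

theorem ev_insts2 (rels : List Poly) (L : List Ins) (ρ : ℕ → ι) :
    ev S (insts2 rels L) ρ = ev S (insts rels L) ρ := by
  induction L with
  | nil => rfl
  | cons x L ih =>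
    have e : insts2 rels (x :: L) =
        relI2 (nthP rels x.1) x.2.1.c x.2.1.ds x.2.1.fs x.2.2 (insts2 rels L) := rfl
    rw [e, ev_relI2, ih, genp_nthP, insts, insts, List.flatMap_cons, ev_append]

theorem genp_perm (E : Poly) (c : ℤ) (ds : List ℕ) {fs fs' : List Fac} (h : fs.Perm fs')
    (ext : List ℕ) (ρ : ℕ → ι) :
    ev S (relI E ⟨c, ds, fs⟩ ext) ρ = ev S (relI E ⟨c, ds, fs'⟩ ext) ρ := by
  simp only [relI, ev, List.map_map]
  congr 1
  refine List.map_congr_left fun r _ => ?_
  simp only [comp_apply, mulT, Tm.ev]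
  rw [fP_perm S (h.append_right _)]

theorem genp_sm0 (E : Poly) (c : ℤ) (ds : List ℕ) (fs : List Fac) (ext : List ℕ) :
    (relI E ⟨c, ds, fs⟩ ext).map sm0 = relI E ⟨c, 0 :: ds, fs⟩ ext := by
  simp only [relI, List.map_map]
  rfl

theorem genp_ex2 (rules : ℕ → Poly) (c : ℤ) (ds : List ℕ) (rest : Poly) (fs pre : List Fac)
    (ρ : ℕ → ι) : ev S (ex2 rules c ds rest fs pre) ρ =
      ((splits fs).map fun p => ev S (relI (rules p.1.1) ⟨c, ds, pre ++ p.2⟩ (0 :: p.1.2)) ρ).sum +
        ev S rest ρ := by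
  induction fs generalizing pre with
  | nil => simp only [splits, List.map_nil, List.sum_nil, zero_add]; rfl
  | cons f l ih =>
    have e : ex2 rules c ds rest (f :: l) pre =
        relI2 (rules f.1) c ds (apF pre l) (0 :: f.2) (ex2 rules c ds rest l (f :: pre)) := rfl
    rw [e, ev_relI2, ih, genp_apF, splits, List.map_cons, List.sum_cons, List.map_map, add_assoc]
    congr 3
    refine List.map_congr_left fun p _ => ?_
    exact genp_perm S _ c ds List.perm_middle.symm _ ρ

theorem ev_divE2 (rules : ℕ → Poly) (z : ℤ) (Y : Poly) (ρ : ℕ → ι) :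
    ev S (divE2 rules z Y) ρ = ev S (divE rules z Y) ρ := by
  induction Y with
  | nil => rfl
  | cons t Y ih =>
    have e : divE2 rules z (t :: Y) =
        eta z t :: ex2 rules t.c (0 :: t.ds) (divE2 rules z Y) t.fs [] := rfl
    rw [e, ev_cons, genp_ex2, ih, divE, divE, List.flatMap_cons, List.cons_append, ev_cons,
      ev_append, exD, List.map_flatMap]
    simp only [List.nil_append, genp_sm0, ev_flatMap]

theorem genp_pair_rest (r : List ℕ) (cf : List Fac) (z : ℤ) (w v rest : Poly) (ρ : ℕ → ι) :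
    ev S (pair2 r cf z w v rest) ρ = (w.map fun t => ev S (relI v
      ⟨z * t.c, r.map (sh (List.range 10)) ++ t.ds, cf ++ t.fs⟩ (List.range 10)) ρ).sum +
        ev S rest ρ := by
  induction w with
  | nil => simp only [List.map_nil, List.sum_nil, zero_add]; rfl
  | cons t w ih =>
    have e : pair2 r cf z (t :: w) v rest = relI2 v (z * t.c) (mpN (List.range 10) r t.ds)
        (apF cf t.fs) (List.range 10) (pair2 r cf z w v rest) := rfl
    rw [e, ev_relI2, ih, genp_mpN, genp_apF, List.map_cons, List.sum_cons, add_assoc]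

theorem genp_row_rest (r : List ℕ) (cf : List Fac) (s : ℤ) (w rest : Poly) (q : List ℤ)
    (vs : List Poly) (ρ : ℕ → ι) :
    ev S (row2 r cf s w rest q vs) ρ = ev S (row2 r cf s w [] q vs) ρ + ev S rest ρ := by
  induction q generalizing vs with
  | nil => exact (zero_add _).symm
  | cons z q ih =>
    cases vs with
    | nil => exact (zero_add _).symm
    | cons v vs =>
      have e : ∀ rest, row2 r cf s w rest (z :: q) (v :: vs) =
          pair2 r cf (s * z) w (cjP v) (row2 r cf s w rest q vs) := fun _ => rfl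
      rw [e, e, genp_pair_rest, genp_pair_rest, ih, add_assoc]

theorem genp_gram_nil (r : List ℕ) (cf : List Fac) (s : ℤ) (n : ℕ) (ws : List Poly) :
    gram2 r cf s n [] ws = [] := by
  cases n <;> rfl

theorem genp_gram_nil' (r : List ℕ) (cf : List Fac) (s : ℤ) (n : ℕ) (Q : List (List ℤ)) :
    gram2 r cf s n Q [] = [] := by
  cases n with
  | zero => rfl
  | succ n => cases Q <;> rfl

theorem genp_gram_add (r : List ℕ) (cf : List Fac) (s : ℤ) (n m : ℕ) (Q : List (List ℤ))
    (ws : List Poly) (ρ : ℕ → ι) : ev S (gram2 r cf s (n + m) Q ws) ρ =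
      ev S (gram2 r cf s n Q ws) ρ + ev S (gram2 r cf s m (Q.drop n) (ws.drop n)) ρ := by
  induction n generalizing Q ws with
  | zero => rw [Nat.zero_add]; exact (zero_add _).symm
  | succ n ih =>
    cases Q with
    | nil => simp only [List.drop_nil, genp_gram_nil, ev_nil, add_zero]
    | cons q Q =>
      cases ws with
      | nil => simp only [List.drop_nil, genp_gram_nil', ev_nil, add_zero]
      | cons w ws =>
        have e : ∀ n, gram2 r cf s (n + 1) (q :: Q) (w :: ws) =
            row2 r cf s w (gram2 r cf s n Q ws) q (w :: ws) := fun _ => rfl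
        rw [Nat.add_right_comm, e, e, genp_row_rest, ih, genp_row_rest S r cf s w (gram2 r cf s n Q ws),
          add_assoc, List.drop_succ_cons, List.drop_succ_cons]

theorem ev_part_add (s : ℤ) (b : Blk) (a n m : ℕ) (ρ : ℕ → ι) :
    ev S (b.part s a (n + m)) ρ = ev S (b.part s a n) ρ + ev S (b.part s (a + n) m) ρ := by
  unfold Blk.part
  cases b.cf
  · simp only [genp_gram_add, List.drop_drop]
  · simp only [genp_gram_add, List.drop_drop]

theorem genp_range {r : ℕ} (hr : r ≤ 10) :
    (List.range r).map (sh (List.range 10)) = List.range r := by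
  interval_cases r <;> rfl

theorem genp_row {r : ℕ} (hr : r ≤ 10) (cf : List Fac) (s : ℤ) (w : Poly) (q : List ℤ)
    (vs : List Poly) (ρ : ℕ → ι) :
    ev S (row2 (List.range r) cf s w [] q vs) ρ = ev S (rowP r cf s w q vs) ρ := by
  induction q generalizing vs with
  | nil => rfl
  | cons z q ih =>
    cases vs with
    | nil => rfl
    | cons v vs =>
      have e : row2 (List.range r) cf s w [] (z :: q) (v :: vs) = pair2 (List.range r) cf (s * z) w
          (cjP v) (row2 (List.range r) cf s w [] q vs) := rfl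
      rw [e, genp_pair_rest, ih, rowP, ev_append, pairP, ev_flatMap, genp_range hr]

theorem genp_gram {r : ℕ} (hr : r ≤ 10) (cf : List Fac) (s : ℤ) {n : ℕ} {Q : List (List ℤ)}
    (hn : Q.length ≤ n) (ws : List Poly) (ρ : ℕ → ι) :
    ev S (gram2 (List.range r) cf s n Q ws) ρ = ev S (gramP r cf s Q ws) ρ := by
  induction Q generalizing n ws with
  | nil => rw [genp_gram_nil]; rfl
  | cons q Q ih =>
    cases ws with
    | nil => rw [genp_gram_nil']; rfl
    | cons w ws =>
      obtain ⟨n, rfl⟩ : ∃ k, n = k + 1 := ⟨n - 1, by simp only [List.length_cons] at hn; omega⟩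
      have e : gram2 (List.range r) cf s (n + 1) (q :: Q) (w :: ws) =
          row2 (List.range r) cf s w (gram2 (List.range r) cf s n Q ws) q (w :: ws) := rfl
      rw [e, genp_row_rest, genp_row S hr, ih (Nat.le_of_succ_le_succ hn), gramP, ev_append]

theorem ev_part_all (s : ℤ) {b : Blk} (h : b.ok = true) {n : ℕ} (hn : b.Q.length ≤ n)
    (ρ : ℕ → ι) : ev S (b.part s 0 n) ρ = ev S (b.poly s) ρ := by
  simp only [Blk.ok, Bool.and_eq_true, Nat.ble_eq] at h
  have hr := h.1.1.1
  unfold Blk.part Blk.poly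
  cases b.cf
  · exact genp_gram S hr _ _ hn _ ρ
  · exact genp_gram S hr _ _ hn _ ρ

theorem cj2_eq (f : Fac) : cj2 f = cjL f.1 f.2 := by
  obtain ⟨τ, l⟩ := f
  have e : cj2 (τ, l) = Bool.rec (cjL τ l) (List.rec (τ, l) (fun _ _ _ => (Nat.xor τ 1, l)) l)
      (Nat.beq ((τ + 2) / 4) 1) := rfl
  rw [e]
  cases h : Nat.beq ((τ + 2) / 4) 1 with
  | false => rfl
  | true =>
    have h1 := Nat.eq_of_beq_eq_true h
    have h2 : 2 ≤ τ := by omega
    have h5 : τ ≤ 5 := by omega
    cases l with
    | nil => rfl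
    | cons a l =>
      have e1 : Nat.xor τ 1 = τ + 1 - 2 * (τ % 2) := by
        interval_cases τ <;> decide +kernel
      change (Nat.xor τ 1, a :: l) = cjL τ (a :: l)
      rw [e1]
      interval_cases τ <;> rfl

theorem genp_sym2 {s : ℕ → Option (ℕ × Bool)} (h : Sym s S) {tab : ℕ} (h1 : tab >>> 512 = 0)
    (h2 : ∀ τ < 128, (tab >>> (4 * τ)) % 16 = 0 ∨ s τ =
      some (((tab >>> (4 * τ)) % 16 - 1) / 2, Nat.beq (((tab >>> (4 * τ)) % 16 - 1) % 2) 1)) :
    Sym2 tab S := by
  intro τ d l hd
  by_cases hτ : τ < 128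
  · rcases h2 τ hτ with h3 | h3
    · omega
    · rw [hd, Nat.add_sub_cancel] at h3
      rw [h τ _ h3 l]
      congr 1
      rcases Nat.mod_two_eq_zero_or_one d with h4 | h4
      · rw [h4, (Nat.even_iff.2 h4).neg_one_pow]; rfl
      · rw [h4, (Nat.odd_iff.2 h4).neg_one_pow]; rfl
  · obtain ⟨k, hk⟩ : ∃ k, 4 * τ = 512 + k := ⟨4 * τ - 512, by omega⟩
    rw [hk, Nat.shiftRight_add, h1, Nat.zero_shiftRight] at hd
    omega

theorem sym2_tb1 (h : Sym s1 S) : Sym2 tb1 S := by
  exact genp_sym2 S h (by decide +kernel) (by decide +kernel)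

theorem sym2_tb2 (h : Sym s2 S) : Sym2 tb2 S := by
  exact genp_sym2 S h (by decide +kernel) (by decide +kernel)

theorem Pt.ok2 [Algebra ℂ A] {d : HD ι A} {e : A →ₐ[ℂ] ℂ} {S : ℕ → List ι → ℂ} (H : Pt d e S)
    {n : ℕ} (hn : Fintype.card ι = n) (tab top b : ℕ) :
    Ok2 ⟨n, tb1, tb2, tab, top, b⟩ S Complex.reAddGroupHom := by
  have h := H.ok hn
  refine ⟨hn, H.delta, sym2_tb1 S H.s1, sym2_tb2 S H.s2, fun ds fs ρ => ?_, fun x hx => by linarith⟩
  have e : cj2 = (cfgP n).cj := funext cj2_eq
  rw [e]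
  exact h.cj ds fs ρ

end Pool.Agent.P.MP_3e99c6_gt.G
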