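import Mathlib

/-! A check that a real quadratic form, given by its upper triangle, is nonnegative. -/

open scoped ComplexConjugate

namespace Pool.Agent.P.MP_3e99c6_gt.G

/-- One row of the form. -/
noncomputable def qrow (x : ℂ) : List ℚ → List ℂ → ℝ
  | q :: qs, y :: ys => q * (x * conj y).re + qrow x qs ys
  | _, _ => 0

/-- The form `∑_{a ≤ b} q a b * re (x a * conj (x b))`; row `a` starts at the diagonal. -/
noncomputable def quad : List (List ℚ) → List ℂ → ℝ
  | r :: Q, x :: xs => qrow x r (x :: xs) + quad Q xs
  | _, _ => 0

/-- The Schur complement. -/
def schur (a : ℚ) : List ℚ → List (List ℚ) → List (List ℚ)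
  | r :: rs, (q :: qs) :: Q =>
    ((q - r * r / (4 * a)) :: List.zipWith (fun q' r' => q' - r / (2 * a) * r') qs rs) ::
      schur a rs Q
  | _, _ => []

/-- Row `a` has the right length. -/
def shape : List (List ℚ) → Bool
  | [] => true
  | r :: Q => Nat.beq r.length (Q.length + 1) && shape Q

/-- All pivots are positive, or zero with a zero row. -/
def piv : ℕ → List (List ℚ) → Bool
  | _, [] => true
  | f + 1, (a :: r) :: Q =>
    bif decide (a = 0) then r.all (fun x => decide (x = 0)) && piv f Q
    else decide (0 < a) && piv f (schur a r Q)
  | _, _ => false

/-- The check. -/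
def psd (Q : List (List ℤ)) : Bool :=
  shape (Q.map (List.map Int.cast)) && piv Q.length (Q.map (List.map Int.cast))

/-- The linear form with the given coefficients. -/
noncomputable def Psd_lin : List ℚ → List ℂ → ℂ
  | q :: qs, y :: ys => q * y + Psd_lin qs ys
  | _, _ => 0

theorem Psd_qrow (x : ℂ) (r : List ℚ) (ys : List ℂ) :
    qrow x r ys = (x * conj (Psd_lin r ys)).re := by
  induction r generalizing ys with
  | nil => simp [qrow, Psd_lin]
  | cons q qs ih =>
    cases ys with
    | nil => simp [qrow, Psd_lin]
    | cons y ys =>
      simp only [qrow, Psd_lin, ih, map_add, map_mul, mul_add, Complex.add_re, map_ratCast]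
      congr 1
      rw [mul_left_comm, ← Complex.ofReal_ratCast, Complex.re_ofReal_mul]

theorem Psd_zip (c : ℚ) (qs rs : List ℚ) (ys : List ℂ) (h : qs.length = rs.length) :
    Psd_lin (List.zipWith (fun q' r' => q' - c * r') qs rs) ys =
      Psd_lin qs ys - c * Psd_lin rs ys := by
  induction qs generalizing rs ys with
  | nil =>
    cases rs with
    | nil => simp [Psd_lin]
    | cons _ _ => simp at h
  | cons q qs ih =>
    cases rs with
    | nil => simp at h
    | cons r rs =>
      cases ys with
      | nil => simp [Psd_lin]
      | cons y ys =>
        simp only [List.zipWith_cons_cons, Psd_lin, ih rs ys (by simpa using h)]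
        push_cast
        ring

theorem Psd_shape {r : List ℚ} {Q : List (List ℚ)} :
    shape (r :: Q) = true ↔ r.length = Q.length + 1 ∧ shape Q = true := by
  simp [shape]

theorem Psd_schur (a : ℚ) (ha : a ≠ 0) (Q : List (List ℚ)) (r : List ℚ) (hQ : shape Q = true)
    (hr : r.length = Q.length) : shape (schur a r Q) = true ∧ (schur a r Q).length = Q.length ∧
      ∀ xs : List ℂ, quad (schur a r Q) xs =
        quad Q xs - Complex.normSq (Psd_lin r xs) / (4 * a) := by
  induction Q generalizing r with
  | nil =>
    obtain rfl : r = [] := List.length_eq_zero_iff.mp hr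
    simp [schur, shape, quad, Psd_lin]
  | cons row Q ih =>
    obtain ⟨h1, h2⟩ := Psd_shape.mp hQ
    cases r with
    | nil => simp at hr
    | cons r rs =>
      cases row with
      | nil => simp at h1
      | cons q qs =>
        have e1 : rs.length = Q.length := by simpa using hr
        have e2 : qs.length = Q.length := by simpa using h1
        obtain ⟨i1, i2, i3⟩ := ih rs h2 e1
        refine ⟨?_, ?_, fun xs => ?_⟩
        · rw [schur, Psd_shape]
          simp [i1, i2, e1, e2]
        · simp [schur, i2]
        · cases xs with
          | nil => simp [schur, quad, Psd_lin]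
          | cons x xs =>
            have ha' : (a : ℝ) ≠ 0 := by exact_mod_cast ha
            simp only [schur, quad, qrow, i3]
            rw [Psd_qrow, Psd_qrow, Psd_zip _ _ _ _ (e2.trans e1.symm), Psd_lin]
            generalize Psd_lin qs xs = u
            generalize Psd_lin rs xs = v
            rw [← Complex.ofReal_ratCast, ← Complex.ofReal_ratCast]
            simp only [Complex.normSq_apply, Complex.mul_re, Complex.mul_im, Complex.add_re,
              Complex.add_im, Complex.sub_re, Complex.sub_im, Complex.conj_re, Complex.conj_im,
              Complex.ofReal_re, Complex.ofReal_im]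
            push_cast
            field_simp
            ring

theorem Psd_piv (f : ℕ) (Q : List (List ℚ)) (hQ : shape Q = true) (hp : piv f Q = true)
    (xs : List ℂ) : 0 ≤ quad Q xs := by
  induction f generalizing Q xs with
  | zero =>
    cases Q with
    | nil => simp [quad]
    | cons _ _ => simp [piv] at hp
  | succ f ih =>
    cases Q with
    | nil => simp [quad]
    | cons row Q =>
      cases row with
      | nil => simp [piv] at hp
      | cons a r =>
        cases xs with
        | nil => simp [quad]
        | cons x xs =>
          obtain ⟨h1, h2⟩ := Psd_shape.mp hQ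
          by_cases h0 : a = 0
          · simp only [piv, h0, decide_true, cond_true, Bool.and_eq_true, List.all_eq_true,
              decide_eq_true_eq] at hp
            have e : ∀ (r : List ℚ) (ys : List ℂ), (∀ q ∈ r, q = 0) → qrow x r ys = 0 := by
              intro r
              induction r with
              | nil => intro ys _; simp [qrow]
              | cons q r ih =>
                intro ys h
                cases ys with
                | nil => simp [qrow]
                | cons y ys =>
                  simp [qrow, h q (by simp), ih ys fun q hq => h q (by simp [hq])]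
            simpa [quad, qrow, h0, e r xs hp.1] using ih _ h2 hp.2 xs
          simp only [piv, h0, decide_false, cond_false, Bool.and_eq_true, decide_eq_true_eq] at hp
          obtain ⟨i1, -, i3⟩ := Psd_schur a hp.1.ne' Q r h2 (by simpa using h1)
          have h3 := ih _ i1 hp.2 xs
          rw [i3] at h3
          have ha : (0 : ℝ) < a := by exact_mod_cast hp.1
          simp only [quad, qrow]
          rw [Psd_qrow]
          generalize Psd_lin r xs = v at h3 ⊢
          have h4 : (a : ℝ) * (x * conj x).re + (x * conj v).re + Complex.normSq v / (4 * a) =
              ((2 * a * x.re + v.re) ^ 2 + (2 * a * x.im + v.im) ^ 2) / (4 * a) := by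
            simp only [Complex.normSq_apply, Complex.mul_re, Complex.conj_re, Complex.conj_im]
            field_simp
            ring
          have h5 : 0 ≤ ((2 * a * x.re + v.re) ^ 2 + (2 * a * x.im + v.im) ^ 2) / (4 * (a : ℝ)) := by
            positivity
          linarith

theorem psd_sound {Q : List (List ℤ)} (h : psd Q = true) (xs : List ℂ)
    (hx : xs.length = Q.length) : 0 ≤ quad (Q.map (List.map Int.cast)) xs := by
  simp only [psd, Bool.and_eq_true] at h
  exact Psd_piv _ _ h.1 h.2 xs

end Pool.Agent.P.MP_3e99c6_gt.G
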