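import Pool.Agent.P.MP_3e99c6_gt.SK.Rel
import Pool.Agent.P.MP_3e99c6_gt.SK.Psd

/-! Sums of squares of tensors. -/

set_option linter.unusedSectionVars false

open scoped ComplexConjugate

namespace Pool.Agent.P.MP_3e99c6_gt.G

/-- The conjugate polynomial. -/
def cjP (p : Poly) : Poly := p.map fun t => ⟨t.c, t.ds, t.fs.map fun f => cjL f.1 f.2⟩

/-- The inner product of `w` with a tensor whose conjugate is `v`, times `z` and the factors
`cf`; the labels below `r` are summed. -/
def pairP (r : ℕ) (cf : List Fac) (z : ℤ) (w v : Poly) : Poly :=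
  w.flatMap fun t => relI v ⟨z * t.c, List.range r ++ t.ds, cf ++ t.fs⟩ (List.range 10)

/-- One row of a quadratic form. -/
def rowP (r : ℕ) (cf : List Fac) (s : ℤ) (w : Poly) : List ℤ → List Poly → Poly
  | z :: zs, v :: vs => pairP r cf (s * z) w (cjP v) ++ rowP r cf s w zs vs
  | _, _ => []

/-- A quadratic form in the tensors `ws`. -/
def gramP (r : ℕ) (cf : List Fac) (s : ℤ) : List (List ℤ) → List Poly → Poly
  | q :: Q, w :: ws => rowP r cf s w q (w :: ws) ++ gramP r cf s Q ws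
  | _, _ => []

/-- A block: number of free labels, whether the constant is a factor, the form, the tensors. -/
structure Blk where
  r : ℕ
  cf : Bool
  Q : List (List ℤ)
  ws : List Poly

/-- The polynomial of a block; `s` is the sign of the constant. -/
def Blk.poly (s : ℤ) (b : Blk) : Poly :=
  bif b.cf then gramP b.r [(1, [])] s b.Q b.ws else gramP b.r [] 1 b.Q b.ws

/-- The conditions on a block. -/
def Blk.ok (b : Blk) : Bool :=
  Nat.ble b.r 10 && psd b.Q && Nat.beq b.ws.length b.Q.length &&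
    b.ws.all fun w => w.all fun t => wf t && bd (labs t.fs)

variable {ι : Type} [Fintype ι] [DecidableEq ι] {S : ℕ → List ι → ℂ}

theorem swapAt_perm {α : Type} (p : ℕ) (l : List α) : (swapAt p l).Perm l := by
  fun_induction swapAt p l with
  | case1 a b l => exact List.Perm.swap _ _ _
  | case2 p a l ih => exact ih.cons a
  | case3 => rfl

theorem cjL_perm {α : Type} (τ : ℕ) (l : List α) : (cjL τ l).2.Perm l := by
  induction l generalizing τ with
  | nil => rfl
  | cons m l ih =>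
    simp only [cjL]
    cases Nat.ble 16 τ
    · cases Nat.ble 7 τ
      · cases Nat.beq τ 6
        · cases Nat.ble τ 1
          · rfl
          · exact swapAt_perm _ _
        · exact (swapAt_perm _ _).trans ((swapAt_perm _ _).trans
            ((swapAt_perm _ _).trans (swapAt_perm _ _)))
      · rfl
    · exact (ih _).cons m

theorem cjL_map {α β : Type} (g : α → β) (τ : ℕ) (l : List α) :
    cjL τ (l.map g) = ((cjL τ l).1, (cjL τ l).2.map g) := by
  induction l generalizing τ with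
  | nil => rfl
  | cons m l ih =>
    simp only [List.map_cons, cjL]
    cases Nat.ble 16 τ
    · cases Nat.ble 7 τ
      · cases Nat.beq τ 6
        · cases Nat.ble τ 1
          · rfl
          · simp only [cond_false, cond_true, map_swapAt, List.map_cons]
        · simp only [cond_false, cond_true, map_swapAt, List.map_cons]
      · rfl
    · simp only [cond_true, ih, List.map_cons]

theorem fP_cj (hcj : ∀ τ l, S (cjL τ l).1 (cjL τ l).2 = conj (S τ l)) (fs : List Fac)
    (ρ : ℕ → ι) : fP S (fs.map fun f => cjL f.1 f.2) ρ = conj (fP S fs ρ) := by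
  induction fs with
  | nil => simp
  | cons f l ih =>
    rw [List.map_cons, fP_cons, fP_cons, ih, map_mul, ← hcj, cjL_map]

theorem ev_cjP (hcj : ∀ τ l, S (cjL τ l).1 (cjL τ l).2 = conj (S τ l)) (v : Poly)
    (ρ : ℕ → ι) : ev S (cjP v) ρ = conj (ev S v ρ) := by
  induction v with
  | nil => simp [cjP]
  | cons t v ih =>
    have e : cjP (t :: v) = ⟨t.c, t.ds, t.fs.map fun f => cjL f.1 f.2⟩ :: cjP v := rfl
    rw [e, ev_cons, ev_cons, ih, map_add]
    congr 1
    have h := map_sumL (starRingEnd ℂ).toAddMonoidHom t.ds (fP S t.fs) ρ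
    simp only [RingHom.toAddMonoidHom_eq_coe, AddMonoidHom.coe_coe] at h
    simp only [Tm.ev, map_mul, map_intCast, h]
    congr 2
    funext ρ
    exact fP_cj hcj _ _

theorem wf_cjP {v : Poly} (h : v.all wf = true) : (cjP v).all wf = true := by
  simp only [cjP, List.all_eq_true, List.mem_map] at h ⊢
  rintro _ ⟨t, ht, rfl⟩
  have := h t ht
  simp only [wf, Bool.and_eq_true, List.all_eq_true, decide_eq_true_eq] at this ⊢
  refine ⟨this.1, fun a ha => this.2 a ?_⟩
  obtain ⟨f, hf, ha⟩ := mem_labs.1 ha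
  obtain ⟨f', hf', rfl⟩ := List.mem_map.1 hf
  exact mem_labs.2 ⟨f', hf', (cjL_perm _ _).mem_iff.1 ha⟩

theorem dep_ev {v : Poly} (h : v.all wf = true) : Dep (ev S v) (List.range 10) := by
  intro ρ ρ' hρ
  unfold ev
  congr 1
  refine List.map_congr_left fun t ht => ?_
  have := List.all_eq_true.1 h t ht
  simp only [wf, Bool.and_eq_true, List.all_eq_true, decide_eq_true_eq] at this
  simp only [Tm.ev]
  congr 1
  exact sumL_congr (dep_fP t.fs) _ fun a ha hd =>
    hρ a (List.mem_range.2 ((this.2 a ha).resolve_right hd))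

theorem labs_append (l l' : List Fac) : labs (l ++ l') = labs l ++ labs l' := by
  induction l with
  | nil => rfl
  | cons f l ih => simp [labs, ih]

theorem ev_pairP {r : ℕ} {cf : List Fac} (hcf : labs cf = []) {κ : ℂ} (hκ : ∀ ρ, fP S cf ρ = κ)
    (z : ℤ) {w v : Poly} (hw : (w.all fun t => wf t && bd (labs t.fs)) = true)
    (hv : v.all wf = true) (ρ : ℕ → ι) :
    ev S (pairP r cf z w v) ρ =
      z * κ * sumL (List.range r) (fun ρ => ev S w ρ * ev S v ρ) ρ := by
  have e0 : ∀ ρ : ℕ → ι, (ev S v fun l => ρ ((List.range 10).getD l 0)) = ev S v ρ := by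
    intro ρ
    refine dep_ev hv _ _ fun a ha => ?_
    have ha' : a < (List.range 10).length := by simpa using ha
    rw [List.getD_eq_getElem _ _ ha', List.getElem_range]
  have e1 : (fun ρ => ev S w ρ * ev S v ρ) =
      fun ρ => (w.map fun t => t.ev S ρ * ev S v ρ).sum := by
    funext ρ
    rw [List.sum_map_mul_right]; rfl
  rw [pairP, ev_flatMap, e1, sumL_list, ← List.sum_map_mul_left]
  congr 1
  refine List.map_congr_left fun t ht => ?_
  have h := List.all_eq_true.1 hw t ht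
  rw [Bool.and_eq_true] at h
  have h1 := h.1
  simp only [wf, Bool.and_eq_true, List.all_eq_true, decide_eq_true_eq] at h1
  rw [relI_ev hv (by simpa only [labs_append, hcf, List.nil_append] using h.2) (by decide)]
  simp only [e0, sumL_append, fP_append, hκ, Int.cast_mul]
  have e2 : sumL t.ds (fun ρ => κ * fP S t.fs ρ * ev S v ρ) =
      fun ρ => κ * (ev S v ρ * sumL t.ds (fP S t.fs) ρ) := by
    funext ρ
    rw [← sumL_pull (dep_ev hv) _ _ fun a ha hb => ?_, ← sumL_mul]
    · congr 1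
      funext ρ
      ring
    · have := h1.1 a ha
      have := List.mem_range.1 hb
      omega
  have e3 : (fun ρ => t.ev S ρ * ev S v ρ) =
      fun ρ => (t.c : ℂ) * (ev S v ρ * sumL t.ds (fP S t.fs) ρ) := by
    funext ρ
    simp only [Tm.ev]
    ring
  rw [e2, e3, sumL_mul, sumL_mul]
  ring

theorem re_sumL (l : List ℕ) (f : (ℕ → ι) → ℂ) (ρ : ℕ → ι) :
    (sumL l f ρ).re = sumL l (fun ρ => (f ρ).re) ρ :=
  map_sumL Complex.reAddGroupHom l f ρ

theorem sumL_nonneg (l : List ℕ) {f : (ℕ → ι) → ℝ} (h : ∀ ρ, 0 ≤ f ρ) (ρ : ℕ → ι) :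
    0 ≤ sumL l f ρ := by
  induction l generalizing ρ with
  | nil => exact h ρ
  | cons a l ih => exact Finset.sum_nonneg fun i _ => ih _

theorem re_rowP (hcj : ∀ τ l, S (cjL τ l).1 (cjL τ l).2 = conj (S τ l)) {r : ℕ} {cf : List Fac}
    (hcf : labs cf = []) {κ : ℝ} (hκ : ∀ ρ, fP S cf ρ = κ) (s : ℤ) {w : Poly}
    (hw : (w.all fun t => wf t && bd (labs t.fs)) = true) (zs : List ℤ) {vs : List Poly}
    (hv : ∀ v ∈ vs, v.all wf = true) (ρ : ℕ → ι) :
    (ev S (rowP r cf s w zs vs) ρ).re = s * κ * sumL (List.range r)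
      (fun ρ => qrow (ev S w ρ) (zs.map Int.cast) (vs.map fun v => ev S v ρ)) ρ := by
  induction zs generalizing vs with
  | nil => simp [rowP, qrow, sumL_zero]
  | cons z zs ih =>
    cases vs with
    | nil => simp [rowP, qrow, sumL_zero]
    | cons v vs =>
      simp only [rowP, List.map_cons, qrow, ev_append, Complex.add_re, sumL_add, sumL_mul,
        ih fun v hv' => hv v (List.mem_cons_of_mem _ hv'),
        ev_pairP hcf hκ _ hw (wf_cjP (hv v List.mem_cons_self)), ev_cjP hcj]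
      have : (((s * z : ℤ) : ℂ) * (κ : ℂ)) = ((s * z * κ : ℝ) : ℂ) := by push_cast; ring
      rw [this, Complex.re_ofReal_mul, re_sumL]
      push_cast
      ring

theorem re_gramP (hcj : ∀ τ l, S (cjL τ l).1 (cjL τ l).2 = conj (S τ l)) {r : ℕ} {cf : List Fac}
    (hcf : labs cf = []) {κ : ℝ} (hκ : ∀ ρ, fP S cf ρ = κ) (s : ℤ) (Q : List (List ℤ))
    {ws : List Poly} (hw : ∀ w ∈ ws, (w.all fun t => wf t && bd (labs t.fs)) = true)
    (ρ : ℕ → ι) :
    (ev S (gramP r cf s Q ws) ρ).re = s * κ * sumL (List.range r)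
      (fun ρ => quad (Q.map (List.map Int.cast)) (ws.map fun v => ev S v ρ)) ρ := by
  induction Q generalizing ws with
  | nil => simp [gramP, quad, sumL_zero]
  | cons q Q ih =>
    cases ws with
    | nil => simp [gramP, quad, sumL_zero]
    | cons w ws =>
      have hv : ∀ v ∈ w :: ws, v.all wf = true := fun v hv => by
        have := hw v hv
        simp only [List.all_eq_true, Bool.and_eq_true] at this ⊢
        exact fun t ht => (this t ht).1
      rw [gramP, ev_append, Complex.add_re, ih fun v hv' => hw v (List.mem_cons_of_mem _ hv'),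
        re_rowP hcj hcf hκ s (hw w List.mem_cons_self) q hv]
      simp only [List.map_cons, quad, sumL_add]
      ring

theorem Blk.nonneg (hcj : ∀ τ l, S (cjL τ l).1 (cjL τ l).2 = conj (S τ l)) {c : ℝ}
    (hc : S 1 [] = c) {s : ℤ} (hs : 0 ≤ s * c) {b : Blk} (h : b.ok = true) (ρ : ℕ → ι) :
    0 ≤ (ev S (b.poly s) ρ).re := by
  simp only [Blk.ok, Bool.and_eq_true, Nat.beq_eq] at h
  obtain ⟨⟨⟨-, hq⟩, hl⟩, hw⟩ := h
  have hw' := List.all_eq_true.1 hw
  have hn := sumL_nonneg (List.range b.r) (f := fun ρ : ℕ → ι =>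
    quad (b.Q.map (List.map Int.cast)) (b.ws.map fun v => ev S v ρ))
    (fun ρ => psd_sound hq _ (by simpa using hl)) ρ
  unfold Blk.poly
  cases b.cf
  · rw [cond_false, re_gramP hcj (κ := 1) rfl (fun _ => by simp) 1 b.Q hw']
    simpa using hn
  · rw [cond_true, re_gramP hcj (κ := c) rfl (fun _ => by simp [fP, hc]) s b.Q hw']
    exact mul_nonneg hs hn

/-- The square norm of the torsion, times `z` and the square of the constant. -/
def tgt2 (z : ℤ) : Poly := [⟨z, [10, 11, 12], [(1, []), (1, []), (2, [10, 11, 12]), (3, [10, 11, 12])]⟩]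

/-- The fourth power of the norm of the torsion, times `z` and the constant. -/
def tgt4 (z : ℤ) : Poly := [⟨z, [10, 11, 12, 13, 14, 15],
  [(1, []), (2, [10, 11, 12]), (2, [13, 14, 15]), (3, [10, 11, 12]), (3, [13, 14, 15])]⟩]

theorem s3_mul (hcj : ∀ τ l, S (cjL τ l).1 (cjL τ l).2 = conj (S τ l)) (i k j : ι) :
    S 2 [i, k, j] * S 3 [i, k, j] = (Complex.normSq (S 2 [i, k, j]) : ℂ) := by
  have : S 3 [i, k, j] = conj (S 2 [i, k, j]) := hcj 2 [i, k, j]
  rw [this, Complex.mul_conj]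

theorem nrm_nonneg : 0 ≤ ∑ i, ∑ k, ∑ j, Complex.normSq (S 2 [i, k, j]) :=
  Finset.sum_nonneg fun _ _ => Finset.sum_nonneg fun _ _ => Finset.sum_nonneg fun _ _ =>
    Complex.normSq_nonneg _

theorem nrm_zero (h : ∑ i, ∑ k, ∑ j, Complex.normSq (S 2 [i, k, j]) = 0) (i k j : ι) :
    S 2 [i, k, j] = 0 := by
  have h1 := (Finset.sum_eq_zero_iff_of_nonneg fun _ _ => Finset.sum_nonneg fun _ _ =>
    Finset.sum_nonneg fun _ _ => Complex.normSq_nonneg _).1 h i (Finset.mem_univ _)
  have h2 := (Finset.sum_eq_zero_iff_of_nonneg fun _ _ =>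
    Finset.sum_nonneg fun _ _ => Complex.normSq_nonneg _).1 h1 k (Finset.mem_univ _)
  exact Complex.normSq_eq_zero.1 ((Finset.sum_eq_zero_iff_of_nonneg fun _ _ =>
    Complex.normSq_nonneg _).1 h2 j (Finset.mem_univ _))

theorem tgt2_pos (hcj : ∀ τ l, S (cjL τ l).1 (cjL τ l).2 = conj (S τ l)) {c : ℝ}
    (hc : S 1 [] = c) (h0 : c ≠ 0) {z : ℤ} (hz : 0 < z) (ρ : ℕ → ι) :
    0 ≤ (ev S (tgt2 z) ρ).re ∧ ((ev S (tgt2 z) ρ).re = 0 → ∀ i k j, S 2 [i, k, j] = 0) := by
  have e : ev S (tgt2 z) ρ =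
      ((z * c ^ 2 * ∑ i, ∑ k, ∑ j, Complex.normSq (S 2 [i, k, j]) : ℝ) : ℂ) := by
    simp [tgt2, ev, Tm.ev, sumL, fP, Function.update, hc, s3_mul hcj, Finset.mul_sum]
    refine Finset.sum_congr rfl fun i _ => Finset.sum_congr rfl fun k _ =>
      Finset.sum_congr rfl fun j _ => ?_
    ring
  have hp : (0 : ℝ) < z * c ^ 2 := mul_pos (by exact_mod_cast hz) (by positivity)
  rw [e, Complex.ofReal_re]
  exact ⟨mul_nonneg hp.le nrm_nonneg, fun h => nrm_zero ((mul_eq_zero.1 h).resolve_left hp.ne')⟩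

theorem tgt4_pos (hcj : ∀ τ l, S (cjL τ l).1 (cjL τ l).2 = conj (S τ l)) {c : ℝ}
    (hc : S 1 [] = c) {z : ℤ} (hz : 0 < z * c) (ρ : ℕ → ι) :
    0 ≤ (ev S (tgt4 z) ρ).re ∧ ((ev S (tgt4 z) ρ).re = 0 → ∀ i k j, S 2 [i, k, j] = 0) := by
  have e1 : ∀ i k j i' k' j' : ι, S 2 [i, k, j] * (S 2 [i', k', j'] * (S 3 [i, k, j] *
      S 3 [i', k', j'])) = (Complex.normSq (S 2 [i, k, j]) : ℂ) *
        (Complex.normSq (S 2 [i', k', j']) : ℂ) := fun i k j i' k' j' => by
    rw [← s3_mul hcj, ← s3_mul hcj]; ring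
  have e : ev S (tgt4 z) ρ =
      ((z * c * ((∑ i, ∑ k, ∑ j, Complex.normSq (S 2 [i, k, j])) *
        ∑ i, ∑ k, ∑ j, Complex.normSq (S 2 [i, k, j])) : ℝ) : ℂ) := by
    simp [tgt4, ev, Tm.ev, sumL, fP, Function.update, hc, e1, ← Finset.mul_sum,
      ← Finset.sum_mul, mul_assoc]
  rw [e, Complex.ofReal_re]
  exact ⟨mul_nonneg hz.le (mul_self_nonneg _),
    fun h => nrm_zero (mul_self_eq_zero.1 ((mul_eq_zero.1 h).resolve_left hz.ne'))⟩

end Pool.Agent.P.MP_3e99c6_gt.G
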