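import Pool.Agent.P.MP_3e99c6_gt.SK.Rul1
import Pool.Agent.P.MP_3e99c6_gt.SK.Pt
import Pool.Agent.P.MP_3e99c6_gt.SK.Sos

/-! Transport of relations to a point. -/

set_option linter.unusedSectionVars false

namespace Pool.Agent.P.MP_3e99c6_gt.G

variable {ι A : Type} [Fintype ι] [DecidableEq ι] [CommRing A] [Algebra ℂ A] {d : HD ι A}
  {e : A →ₐ[ℂ] ℂ} {S : ℕ → List ι → ℂ}

theorem Pt.tp (H : Pt d e S) {p : Poly} (ks : List Bool) (h0 : Zr d.att p)
    (h : (p.all (wk kd (List.range ks.length) ks) && p.all gd) = true) : Zr S p := by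
  rw [Bool.and_eq_true] at h
  exact H.rel p _ _ h.1 h.2 h0

theorem Pt.cjz (H : Pt d e S) {p : Poly} (h0 : Zr S p) : Zr S (cjP p) := fun ρ => by
  rw [ev_cjP H.cj, h0, map_zero]

theorem Pt.okR (H : Pt d e S) {n : ℕ} (hn : Fintype.card ι = n) :
    Ok (cfgR n) S (AddMonoidHom.id ℂ) where
  card := hn
  delta := H.delta
  s1 := H.s1
  s2 := H.s2
  cj ds fs ρ := by simp [cfgR]
  two x h := by linear_combination h / 2

end Pool.Agent.P.MP_3e99c6_gt.G
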