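import Pool.Agent.P.MP_3e99c6_gt.SK.FsC
import Pool.Agent.P.MP_3e99c6_gt.SK.GenP
import Pool.Agent.P.MP_3e99c6_gt.SK.PtR
import Pool.Agent.P.MP_3e99c6_gt.SK.Der

/-! The pieces of a certificate. -/

set_option linter.unusedSectionVars false

open scoped ComplexConjugate

noncomputable section

namespace Pool.Agent.P.MP_3e99c6_gt.G

/-- Concatenation. -/
def apP (l r : Poly) : Poly := List.rec r (fun t _ ih => t :: ih) l

/-- A list of terms. -/
def dcP (l : List ℕ) : Poly := List.rec [] (fun x _ ih => dcT x :: ih) l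

/-- A list of instances. -/
def dcJ (l : List ℕ) : List Ins := List.rec [] (fun x _ ih => dcI x :: ih) l

/-- A list of monomials; the last `16` bits are ignored. -/
def dcW (l : List ℕ) : List Poly :=
  List.rec [] (fun x _ ih => [dcT (Nat.shiftRight x (nat_lit 16))] :: ih) l

/-- A block whose tensors are monomials. -/
def dcB (r : ℕ) (cf : Bool) (Q ms : List ℕ) : Blk := ⟨r, cf, dcQ Q, dcW ms⟩

/-- The rules are available for all factors. -/
def rulOk (ok : ℕ → ℕ → Bool) (Y : Poly) : Bool :=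
  Y.all b41 && Y.all fun t => t.fs.all fun f => ok f.1 f.2.length

/-- The conditions on the vector field. -/
def vecOk (Y : Poly) : Bool :=
  Y.all (wk kd [0] [false]) && Y.all b41 && Y.all gd &&
    ((divP Y).all (wk kd [] []) && (divP Y).all gd)

variable {ι A : Type} [Fintype ι] [DecidableEq ι] [CommRing A] [Algebra ℂ A] {d : HD ι A}
  {e : A →ₐ[ℂ] ℂ} {S : ℕ → List ι → ℂ}

theorem apP_eq (l r : Poly) : apP l r = l ++ r := by
  induction l with
  | nil => rfl
  | cons t l ih => exact congrArg (t :: ·) ih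

theorem re_apP (l r : Poly) (ρ : ℕ → ι) :
    (ev S (apP l r) ρ).re = (ev S l ρ).re + (ev S r ρ).re := by
  rw [apP_eq, ev_append, Complex.add_re]

theorem divP_apP (l r : Poly) : divP (apP l r) = apP (divP l) (divP r) := by
  rw [apP_eq, apP_eq, divP, List.flatMap_append]; rfl

theorem vecOk_apP {l r : Poly} (h : vecOk l = true) (h' : vecOk r = true) :
    vecOk (apP l r) = true := by
  simp only [vecOk, divP_apP] at h h' ⊢
  simp only [apP_eq, List.all_append, Bool.and_eq_true] at h h' ⊢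
  tauto

theorem chk_re {C : Cf2} (H : Ok2 C S Complex.reAddGroupHom) {p : Poly} {ws zs : List ℕ}
    {P N T : ℕ} (h : chk2 C p ws zs P N T = true) (ρ : ℕ → ι) :
    Rep C.b (fun i => kv S Complex.reAddGroupHom ρ (C.key i)) (ev S p ρ).re P N T :=
  chk2_sound H h ρ

theorem re_ins {rels : List Poly} (hw : rels.all (fun p => p.all wf) = true)
    (h0 : ∀ p ∈ rels, Zr S p) {L : List Ins} (hL : insOk L = true) (ρ : ℕ → ι) :
    (ev S (insts2 rels L) ρ).re = 0 := by
  rw [ev_insts2, insts_zero hw h0 hL ρ, Complex.zero_re]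

/-- The rules compute the derivatives. -/
def Rules (S : ℕ → List ι → ℂ) (ok : ℕ → ℕ → Bool) (rules : ℕ → Poly) (z : ℤ) : Prop :=
  ∀ τ r, ok τ r = true → (rules τ).all wf = true ∧
    ∀ ρ, ev S (rules τ) ρ = z * S (uD τ) ((List.range (r + 1)).map ρ)

theorem re_div {ok : ℕ → ℕ → Bool} {rules : ℕ → Poly} {z : ℤ} (hr : Rules S ok rules z)
    {Y : Poly} (h : rulOk ok Y = true) (ρ : ℕ → ι) :
    (ev S (divE2 rules z Y) ρ).re = z * (ev S (divP Y) ρ).re := by
  simp only [rulOk, Bool.and_eq_true] at h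
  have h2 : ∀ t ∈ Y, ∀ f ∈ t.fs, ok f.1 f.2.length = true := fun t ht f hf =>
    List.all_eq_true.1 (List.all_eq_true.1 h.2 t ht) f hf
  rw [ev_divE2, divE_ev h.1 (fun t ht f hf => (hr _ _ (h2 t ht f hf)).1)
    (fun t ht f hf => (hr _ _ (h2 t ht f hf)).2), ← Complex.ofReal_intCast, Complex.re_ofReal_mul]

theorem re_part (s : ℤ) (b : Blk) {a n m k a' : ℕ} (h1 : n + m = k) (h2 : a + n = a')
    (ρ : ℕ → ι) :
    (ev S (b.part s a k) ρ).re = (ev S (b.part s a n) ρ).re + (ev S (b.part s a' m) ρ).re := by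
  rw [← h1, ← h2, ev_part_add, Complex.add_re]

theorem re_blk (hcj : ∀ τ l, S (cjL τ l).1 (cjL τ l).2 = conj (S τ l)) {c : ℝ}
    (hc : S 1 [] = c) {s : ℤ} (hs : 0 ≤ s * c) {b : Blk} {n : ℕ}
    (h : (b.ok && Nat.ble b.Q.length n) = true) (ρ : ℕ → ι) : 0 ≤ (ev S (b.part s 0 n) ρ).re := by
  rw [Bool.and_eq_true, Nat.ble_eq] at h
  rw [ev_part_all S s h.1 h.2]
  exact Blk.nonneg hcj hc hs h.1 ρ

theorem Pt.fin (H : Pt d e S) {Y : Poly} (hY : vecOk Y = true) (ρ : ℕ → ι) {x : ℝ} {z : ℝ}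
    (hz : 0 < z) (hx : 0 ≤ x ∧ (x = 0 → ∀ i k j, S 2 [i, k, j] = 0))
    (h : z * (ev S (divP Y) ρ).re + x ≤ 0) : (e (ev d.att (divP Y) ρ)).re ≤ 0 ∧
      ((e (ev d.att (divP Y) ρ)).re = 0 → ∀ i k j, e (d.T i k j) = 0) := by
  simp only [vecOk, Bool.and_eq_true] at hY
  rw [← H.val _ hY.2.1 hY.2.2]
  refine ⟨?_, fun h0 => H.tor (hx.2 ?_)⟩
  · by_contra h1
    have := mul_pos hz (not_le.1 h1)
    linarith [hx.1]
  · rw [h0] at h
    linarith [hx.1]

end Pool.Agent.P.MP_3e99c6_gt.G
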