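import Pool.Agent.P.MP_3e99c6_gt.SK.Chart
import Pool.Agent.P.MP_3e99c6_gt.SK.Bas

/-! The balanced condition in a chart. -/

open scoped ContDiff Topology ComplexConjugate
open Complex Filter TopologicalSpace Finset

noncomputable section

namespace Pool.Agent.P.MP_3e99c6_gt.G

section alg
variable {X : Type}

/-- Complex extension in one slot. -/
def ChBal_x (φ : X → ℂ) (p : X × X) : ℂ := φ p.1 + I * φ p.2

/-- The alternating sum of three terms. -/
def ChBal_d (w : X → X → X → ℂ) (a b c : X) : ℂ := w a b c - w b a c + w c a b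

/-- The product of a two-form and a three-form. -/
def ChBal_w (o : X → X → ℂ) (t : X → X → X → ℂ) (a b c e f : X) : ℂ :=
  o a b * t c e f - o a c * t b e f + o a e * t b c f - o a f * t b c e + o b c * t a e f -
    o b e * t a c f + o b f * t a c e + o c e * t a b f - o c f * t a b e + o e f * t a b c

theorem ChBal_ext (o : X → X → ℂ) (t : X → X → X → ℂ) (h : ∀ a b c e f, ChBal_w o t a b c e f = 0)
    (a b c e f : X × X) :
    ChBal_w (fun p q => ChBal_x (fun x => ChBal_x (o x) q) p)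
      (fun p q r => ChBal_x (fun x => ChBal_x (fun y => ChBal_x (t x y) r) q) p) a b c e f = 0 := by
  have : ChBal_x (fun a => ChBal_x (fun b => ChBal_x (fun c => ChBal_x (fun e => ChBal_x
      (fun f => ChBal_w o t a b c e f) f) e) c) b) a = 0 := by simp [ChBal_x, h]
  rw [← this]
  simp only [ChBal_x, ChBal_w]
  ring

end alg

section pt
variable {n : ℕ} {β : Bil n} (h : ∀ v w, β (I • v) (I • w) = β v w)
include h

theorem ChBal_hh (a b : V n) :
    ChBal_x (fun x => ChBal_x (fun y => (β (I • x) y : ℂ)) (b, -(I • b))) (a, -(I • a)) = 0 := by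
  simp only [ChBal_x, smul_neg, II_smul, neg_neg, map_neg, h, cx_left h a b]
  push_cast
  linear_combination -(β a (I • b) : ℂ) * I_mul_I

theorem ChBal_bb (a b : V n) :
    ChBal_x (fun x => ChBal_x (fun y => (β (I • x) y : ℂ)) (b, I • b)) (a, I • a) = 0 := by
  simp only [ChBal_x, II_smul, map_neg, neg_apply, h, cx_left h a b]
  push_cast
  linear_combination -(β a (I • b) : ℂ) * I_mul_I

theorem ChBal_hb (a b : V n) :
    ChBal_x (fun x => ChBal_x (fun y => (β (I • x) y : ℂ)) (b, I • b)) (a, -(I • a)) =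
      2 * I * H β a b := by
  simp only [ChBal_x, smul_neg, II_smul, neg_neg, h, cx_left h a b, H]
  push_cast
  linear_combination -(β a (I • b) : ℂ) * I_mul_I

omit h in
theorem ChBal_three {B : V n →L[ℝ] Bil n} (hB : ∀ u v w, B u (I • v) (I • w) = B u v w)
    (a b c : V n) :
    ChBal_x (fun x => ChBal_x (fun y => ChBal_x
      (ChBal_d (fun u v w => (B u (I • v) w : ℂ)) x y) (c, I • c)) (b, -(I • b))) (a, -(I • a)) =
      4 * I * (pz (fun β => H β b c) a B - pz (fun β => H β a c) b B) := by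
  have e1 := ChBal_hb (hB a) b c
  have e2 := ChBal_hb (hB (I • a)) b c
  have e3 := ChBal_hb (hB b) a c
  have e4 := ChBal_hb (hB (I • b)) a c
  have e5 := ChBal_hh (hB c) a b
  have e6 := ChBal_hh (hB (I • c)) a b
  simp only [ChBal_x, ChBal_d, pz, map_neg, neg_apply, ofReal_neg] at e1 e2 e3 e4 e5 e6 ⊢
  linear_combination e1 - I * e2 - e3 + I * e4 + e5 + I * e6

end pt

section ring
variable {ι A : Type} [Fintype ι] [DecidableEq ι] [CommRing A] [Algebra ℂ A] (d : HD ι A)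

theorem ChBal_T (i k j : ι) :
    d.T i k j = ∑ l, (d.D i (d.h k l) - d.D k (d.h i l)) * d.k l j := by
  simp only [HD.T, HD.Γ, sub_mul, sum_sub_distrib]

theorem ChBal_st {σ : A →+* A} (hσ : d.St σ) (i j : ι) : σ (d.k i j) = d.k j i := by
  have h1 : ∀ m, ∑ l, d.h l m * σ (d.k l j) = if m = j then 1 else 0 := fun m => by
    have := congrArg σ (d.hk m j)
    simpa only [map_sum, map_mul, hσ.h, apply_ite σ, map_one, map_zero] using this
  calc σ (d.k i j) = ∑ l, (∑ m, d.h l m * d.k m i) * σ (d.k l j) := by simp [d.hk]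
    _ = ∑ m, d.k m i * ∑ l, d.h l m * σ (d.k l j) := by
        simp only [sum_mul, mul_sum]
        rw [sum_comm]
        exact sum_congr rfl fun _ _ => sum_congr rfl fun _ _ => by ring
    _ = d.k j i := by simp [h1]

theorem ChBal_conj {σ : A →+* A} (hσ : d.St σ) (h : ∀ i, ∑ q, d.T i q q = 0) : d.Bal := by
  refine ⟨h, fun a => ?_⟩
  have h1 : ∀ j, ∑ q, ∑ l, d.k l q * (d.Db j (d.h q l) - d.Db l (d.h q j)) = 0 := fun j => by
    have := congrArg σ (h j)
    simp only [ChBal_T, map_sum, map_mul, map_sub, hσ.D, hσ.h, ChBal_st d hσ, map_zero] at this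
    rw [sum_comm, ← this]
    exact sum_congr rfl fun _ _ => sum_congr rfl fun _ _ => mul_comm _ _
  calc ∑ q, d.Tb a q q
      = ∑ j, d.k j a * ∑ q, ∑ l, d.k l q * (d.Db j (d.h q l) - d.Db l (d.h q j)) := by
        simp only [HD.Tb, mul_sum, mul_assoc]
        rw [sum_comm]
    _ = 0 := by simp [h1]

end ring

theorem ChBal_trace {A : Type} [CommRing A] [Algebra ℂ A] (d : HD (Fin 3) A)
    (h : ∀ a b, d.h 0 a * (d.D 1 (d.h 2 b) - d.D 2 (d.h 1 b)) -
      d.h 0 b * (d.D 1 (d.h 2 a) - d.D 2 (d.h 1 a)) -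
      d.h 1 a * (d.D 0 (d.h 2 b) - d.D 2 (d.h 0 b)) +
      d.h 1 b * (d.D 0 (d.h 2 a) - d.D 2 (d.h 0 a)) +
      d.h 2 a * (d.D 0 (d.h 1 b) - d.D 1 (d.h 0 b)) -
      d.h 2 b * (d.D 0 (d.h 1 a) - d.D 1 (d.h 0 a)) = 0) (i : Fin 3) : ∑ q, d.T i q q = 0 := by
  have key : ∀ x y, (∑ l, d.h 0 l * d.k l x) * d.T 1 2 y - (∑ l, d.h 0 l * d.k l y) * d.T 1 2 x -
      (∑ l, d.h 1 l * d.k l x) * d.T 0 2 y + (∑ l, d.h 1 l * d.k l y) * d.T 0 2 x +
      (∑ l, d.h 2 l * d.k l x) * d.T 0 1 y - (∑ l, d.h 2 l * d.k l y) * d.T 0 1 x = 0 := by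
    intro x y
    simp only [ChBal_T, Fin.sum_univ_three]
    linear_combination d.k 0 x * d.k 0 y * h 0 0 + d.k 0 x * d.k 1 y * h 0 1 +
      d.k 0 x * d.k 2 y * h 0 2 + d.k 1 x * d.k 0 y * h 1 0 + d.k 1 x * d.k 1 y * h 1 1 +
      d.k 1 x * d.k 2 y * h 1 2 + d.k 2 x * d.k 0 y * h 2 0 + d.k 2 x * d.k 1 y * h 2 1 +
      d.k 2 x * d.k 2 y * h 2 2
  have k1 := key 1 2
  have k2 := key 0 2
  have k3 := key 0 1
  simp only [d.hk] at k1 k2 k3
  simp [HD.T] at k1 k2 k3
  fin_cases i <;> simp only [Fin.sum_univ_three, HD.T, Fin.zero_eta, Fin.mk_one, Fin.reduceFinMk]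
  · linear_combination -k1
  · linear_combination k2
  · linear_combination -k3

variable {U : Opens (V 3)} {G : V 3 → Bil 3}

theorem ChBal_real {n : ℕ} {G : V n → Bil n} {y : V n} (hG : DifferentiableAt ℝ G y)
    (a b c e f : V n) : (S.dOmegaSq G y a b c e f : ℂ) =
      ChBal_w (fun v w => (G y (I • v) w : ℂ))
        (ChBal_d fun u v w => (fderiv ℝ G y u (I • v) w : ℂ)) a b c e f := by
  have hd : ∀ v w, DifferentiableAt ℝ (fun z => G z v w) y := fun v w =>
    (hG.clm_apply (differentiableAt_const _)).clm_apply (differentiableAt_const _)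
  have e1 : ∀ a b c e u, S.dR (S.omegaSq G a b c e) y u =
      G y (I • a) b * fderiv ℝ G y u (I • c) e + G y (I • c) e * fderiv ℝ G y u (I • a) b -
      (G y (I • a) c * fderiv ℝ G y u (I • b) e + G y (I • b) e * fderiv ℝ G y u (I • a) c) +
      (G y (I • a) e * fderiv ℝ G y u (I • b) c + G y (I • b) c * fderiv ℝ G y u (I • a) e) := by
    intro a b c e u
    have : S.omegaSq G a b c e = fun z => G z (I • a) b * G z (I • c) e -
        G z (I • a) c * G z (I • b) e + G z (I • a) e * G z (I • b) c := rfl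
    rw [S.dR, this, fderiv_fun_add (((hd _ _).fun_mul (hd _ _)).fun_sub ((hd _ _).fun_mul (hd _ _)))
      ((hd _ _).fun_mul (hd _ _)), fderiv_fun_sub ((hd _ _).fun_mul (hd _ _))
      ((hd _ _).fun_mul (hd _ _)), fderiv_fun_mul (hd _ _) (hd _ _),
      fderiv_fun_mul (hd _ _) (hd _ _), fderiv_fun_mul (hd _ _) (hd _ _)]
    simp only [add_apply, sub_apply, smul_apply, smul_eq_mul, fderiv_app hG]
  simp only [S.dOmegaSq, e1, ChBal_w, ChBal_d]
  push_cast
  ring

theorem hd_bal (hG : HermOn G U) (c : ℝ)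
    (h : ∀ y ∈ U, ∀ a b c e f, S.dOmegaSq G y a b c e f = 0) : (hd hG c).Bal := by
  refine ChBal_conj _ (hd_st hG c) (ChBal_trace _ fun a b => FS_ext fun y hy => ?_)
  have h1 := ChBal_ext _ _ (fun a b c e f => by
    rw [← ChBal_real (hG.diff hy), h y hy, ofReal_zero]) (bs 0, -(I • bs 0)) (bs 1, -(I • bs 1))
    (bs 2, -(I • bs 2)) (bs a, I • bs a) (bs b, I • bs b)
  simp only [ChBal_w, ChBal_hh (hG.cx y hy), ChBal_bb (hG.cx y hy), ChBal_hb (hG.cx y hy),
    ChBal_three (hG.cx1 hy)] at h1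
  simp only [map_sub, map_add, map_mul, map_zero, ev_h, ev_Dh]
  refine mul_left_cancel₀ (a := 2 * I * (4 * I)) (by simp) ?_
  linear_combination h1

end Pool.Agent.P.MP_3e99c6_gt.G
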