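import Pool.Agent.P.MP_3e99c6_gt.SK.Chart

/-! Holomorphic changes of charts. -/

open scoped ContDiff Topology ComplexConjugate
open Complex Filter TopologicalSpace Finset

noncomputable section

namespace Pool.Agent.P.MP_3e99c6_gt.G

variable {n : ℕ} {U U' : Opens (V n)} {G G' : V n → Bil n}

theorem chg_sum (v : V n) : v = ∑ x, v x • bs x := by
  funext j
  simp [bs, Finset.sum_apply, Pi.single_apply]

theorem chg_dz_sum (f : V n → ℂ) (p v : V n) : dz v f p = ∑ x, v x * dz (bs x) f p := by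
  let L : V n →ₗ[ℂ] ℂ :=
    { toFun := fun t => dz t f p
      map_add' := fun a b => by simp only [dz, smul_add, map_add]; ring
      map_smul' := fun s a => by
        have e : I • s • a = s.re • I • a + s.im • (-a) := by
          rw [smul_comm, smul_split s, II_smul]
        simp only [dz, RingHom.id_apply, smul_eq_mul]
        rw [e, smul_split s a]
        simp only [map_add, map_smul, map_neg, real_smul]
        conv_rhs => rw [← re_add_im s]
        linear_combination (s.im * fderiv ℝ f p (I • a) / 2) * I_mul_I }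
  have e : L v = L (∑ x, v x • bs x) := congrArg L (chg_sum v)
  rw [map_sum] at e
  exact e.trans (sum_congr rfl fun x _ => by rw [map_smul]; rfl)

theorem chg_dzb_sum (f : V n → ℂ) (p v : V n) : dzb v f p = ∑ x, conj (v x) * dzb (bs x) f p := by
  let L : V n →ₛₗ[starRingEnd ℂ] ℂ :=
    { toFun := fun t => dzb t f p
      map_add' := fun a b => by simp only [dzb, smul_add, map_add]; ring
      map_smul' := fun s a => by
        have e : I • s • a = s.re • I • a + s.im • (-a) := by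
          rw [smul_comm, smul_split s, II_smul]
        have e' : conj s = s.re - s.im * I := Complex.ext (by simp) (by simp)
        simp only [dzb, smul_eq_mul]
        rw [e, smul_split s a, e']
        simp only [map_add, map_smul, map_neg, real_smul]
        linear_combination (s.im * fderiv ℝ f p (I • a) / 2) * I_mul_I }
  have e : L v = L (∑ x, v x • bs x) := congrArg L (chg_sum v)
  rw [map_sum] at e
  exact e.trans (sum_congr rfl fun x _ => by rw [map_smulₛₗ]; rfl)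

theorem chg_cd {E : Type} [NormedAddCommGroup E] [NormedSpace ℂ E] {F : V n → E} {y : V n}
    (hF : ContDiffAt ℂ ω F y) : ContDiffAt ℝ ∞ F y :=
  (hF.restrict_scalars ℝ).of_le le_top

theorem chg_fd {E : Type} [NormedAddCommGroup E] [NormedSpace ℂ E] {F : V n → E} {y : V n}
    (hF : DifferentiableAt ℂ F y) (t : V n) : fderiv ℝ F y t = fderiv ℂ F y t := by
  rw [hF.fderiv_restrictScalars ℝ]
  rfl

theorem chg_dz_hol {F : V n → ℂ} {y : V n} (hF : DifferentiableAt ℂ F y) (t : V n) :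
    dz t F y = fderiv ℂ F y t := by
  rw [dz, chg_fd hF, chg_fd hF, map_smul, smul_eq_mul]
  linear_combination (-fderiv ℂ F y t / 2) * I_mul_I

theorem chg_dzb_hol {F : V n → ℂ} {y : V n} (hF : DifferentiableAt ℂ F y) (t : V n) :
    dzb t F y = 0 := by
  rw [dzb, chg_fd hF, chg_fd hF, map_smul, smul_eq_mul]
  linear_combination (fderiv ℂ F y t / 2) * I_mul_I

theorem chg_chain {f : V n → ℂ} {ψ : V n → V n} {y : V n} (hf : DifferentiableAt ℝ f (ψ y))
    (hψ : DifferentiableAt ℂ ψ y) (t : V n) :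
    fderiv ℝ (fun z => f (ψ z)) y t = fderiv ℝ f (ψ y) (fderiv ℂ ψ y t) := by
  rw [← chg_fd hψ]
  exact congrArg (fun T : V n →L[ℝ] ℂ => T t) (fderiv_comp y hf (hψ.restrictScalars ℝ))

theorem chg_entry {ψ : V n → V n} {y : V n} (hψ : ContDiffAt ℂ ω ψ y) (v : V n) (x : Fin n) :
    ContDiffAt ℂ ω (fun z => fderiv ℂ ψ z v x) y :=
  contDiffAt_pi.1 ((hψ.fderiv_right (m := ω) le_rfl).clm_apply contDiffAt_const) x

theorem chg_second {ψ : V n → V n} {y : V n} (hψ : ContDiffAt ℂ ω ψ y) (v t : V n) (x : Fin n) :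
    fderiv ℂ (fun z => fderiv ℂ ψ z v x) y t = fderiv ℂ (fderiv ℂ ψ) y t v x := by
  have hd : DifferentiableAt ℂ (fderiv ℂ ψ) y :=
    (hψ.fderiv_right (m := ω) le_rfl).differentiableAt (by simp)
  let L : (V n →L[ℂ] V n) →L[ℂ] ℂ :=
    (ContinuousLinearMap.proj x).comp (ContinuousLinearMap.apply ℂ (V n) v)
  exact congrArg (fun T : V n →L[ℂ] ℂ => T t) (L.hasFDerivAt.comp y hd.hasFDerivAt).fderiv

theorem chg_det {β β' : Bil n} (hβ : Hm β) (A : V n →L[ℂ] V n)
    (hA : ∀ a b, β a b = β' (A a) (A b)) : (Matrix.of fun i x => A (bs i) x).det ≠ 0 := by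
  intro h0
  obtain ⟨v, hv, e⟩ := Matrix.exists_vecMul_eq_zero_iff.2 h0
  have e1 : A v = 0 := by
    rw [← e]
    conv_lhs => rw [chg_sum v, map_sum]
    funext x
    simp [Finset.sum_apply, Matrix.vecMul, dotProduct]
  refine hv (hβ.eq_zero ?_)
  rw [hA, e1, map_zero]

/-- Pull-back of functions. -/
def chgPull {ψ : V n → V n} (hψ : ∀ y ∈ U, ContDiffAt ℂ ω ψ y) (hm : ∀ y ∈ U, ψ y ∈ U') :
    FS U' →ₐ[ℂ] FS U where
  toFun f := mkF (fun y => fn f (ψ y)) fun y hy => (fn_cd f (hm y hy)).comp y (chg_cd (hψ y hy))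
  map_one' := FS_ext fun y hy => by rw [evF_mkF, ← evF_fn _ (hm y hy), map_one, map_one]
  map_mul' f g := FS_ext fun y hy => by
    rw [map_mul, evF_mkF, evF_mkF, evF_mkF, ← evF_fn _ (hm y hy), ← evF_fn _ (hm y hy),
      ← evF_fn _ (hm y hy), map_mul]
  map_zero' := FS_ext fun y hy => by rw [evF_mkF, ← evF_fn _ (hm y hy), map_zero, map_zero]
  map_add' f g := FS_ext fun y hy => by
    rw [map_add, evF_mkF, evF_mkF, evF_mkF, ← evF_fn _ (hm y hy), ← evF_fn _ (hm y hy),
      ← evF_fn _ (hm y hy), map_add]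
  commutes' z := FS_ext fun y hy => by
    rw [evF_mkF, ← evF_fn _ (hm y hy), AlgHom.commutes, AlgHom.commutes]

theorem chg_ev {ψ : V n → V n} (hψ : ∀ y ∈ U, ContDiffAt ℂ ω ψ y) (hm : ∀ y ∈ U, ψ y ∈ U')
    {y : V n} (hy : y ∈ U) (f : FS U') :
    evF y hy (chgPull hψ hm f) = evF (ψ y) (hm y hy) f := (evF_fn f (hm y hy)).symm

theorem chg_fderiv {ψ : V n → V n} (hψ : ∀ y ∈ U, ContDiffAt ℂ ω ψ y) (hm : ∀ y ∈ U, ψ y ∈ U')
    {y : V n} (hy : y ∈ U) (f : FS U') (t : V n) :
    fderiv ℝ (fn (chgPull hψ hm f)) y t = fderiv ℝ (fn f) (ψ y) (fderiv ℂ ψ y t) := by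
  have e : fn (chgPull hψ hm f) =ᶠ[𝓝 y] fun z => fn f (ψ z) := fn_ev (fun _ _ => rfl) hy
  rw [e.fderiv_eq]
  exact chg_chain ((fn_cd f (hm y hy)).differentiableAt (by simp))
    ((hψ y hy).differentiableAt (by simp)) t

theorem chg_stst (f : FS U) : stF (stF f) = f :=
  FS_ext fun y hy => by rw [evF_stF, evF_stF, conj_conj]

theorem hd_chg (hG : HermOn G U) (hG' : HermOn G' U') (c : ℝ) {ψ : V n → V n}
    (hψ : ∀ y ∈ U, ContDiffAt ℂ ω ψ y) (hm : ∀ y ∈ U, ψ y ∈ U')
    (h : ∀ y ∈ U, ∀ a b, G y a b = G' (ψ y) (fderiv ℂ ψ y a) (fderiv ℂ ψ y b)) :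
    ∃ (φ : FS U' →ₐ[ℂ] FS U) (g g' gb gb' : Fin n → Fin n → FS U),
      HD.Chg (hd hG c) (hd hG' c) φ g g' gb gb' ∧
      (∀ y (hy : y ∈ U) f, evF y hy (φ f) = evF (ψ y) (hm y hy) f) ∧
      ∀ y (hy : y ∈ U) i x, evF y hy (g i x) = fderiv ℂ ψ y (bs i) x := by
  let M : V n → Matrix (Fin n) (Fin n) ℂ := fun y => Matrix.of fun i x => fderiv ℂ ψ y (bs i) x
  have hM0 : ∀ y ∈ U, (M y).det ≠ 0 := fun y hy => chg_det (hG.hm hy) _ (h y hy)
  let g : Fin n → Fin n → FS U := fun i x =>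
    mkF (fun y => fderiv ℂ ψ y (bs i) x) fun y hy => chg_cd (chg_entry (hψ y hy) _ _)
  let g' : Fin n → Fin n → FS U := fun i x =>
    mkF (fun y => (M y)⁻¹ i x) fun y hy =>
      cd_inv (A := M) (fun a b => chg_cd (chg_entry (hψ y hy) (bs a) b)) (hM0 y hy) i x
  have eg : ∀ y (hy : y ∈ U) i x, evF y hy (g i x) = fderiv ℂ ψ y (bs i) x := fun _ _ _ _ => rfl
  have fg : ∀ y (hy : y ∈ U) i x, fn (g i x) =ᶠ[𝓝 y] fun z => fderiv ℂ ψ z (bs i) x :=
    fun _ hy _ _ => fn_mkF _ _ hy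
  have dg : ∀ y (hy : y ∈ U) i x, DifferentiableAt ℂ (fun z => fderiv ℂ ψ z (bs i) x) y :=
    fun y hy i x => (chg_entry (hψ y hy) _ _).differentiableAt (by simp)
  have g1 : ∀ y x, ∑ i, g' y i * g i x = if y = x then 1 else 0 := fun a b =>
    FS_ext fun y hy => by
      rw [map_sum, apply_ite (evF y hy), map_one, map_zero]
      have e := congrFun (congrFun (Matrix.nonsing_inv_mul (M y) (hM0 y hy).isUnit) a) b
      rw [Matrix.one_apply] at e
      exact e
  have g2 : ∀ i j, ∑ x, g i x * g' x j = if i = j then 1 else 0 := fun a b =>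
    FS_ext fun y hy => by
      rw [map_sum, apply_ite (evF y hy), map_one, map_zero]
      have e := congrFun (congrFun (Matrix.mul_nonsing_inv (M y) (hM0 y hy).isUnit) a) b
      rw [Matrix.one_apply] at e
      exact e
  have hol : ∀ m i x, DbF (bs m) (g i x) = 0 := fun m i x => FS_ext fun y hy => by
    rw [evF_DbF, map_zero, dzb, (fg y hy i x).fderiv_eq]
    exact chg_dzb_hol (dg y hy i x) _
  have sym : ∀ m i x, DF (bs m) (g i x) = DF (bs i) (g m x) := fun m i x =>
    FS_ext fun y hy => by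
      rw [evF_DF, evF_DF, dz, dz, (fg y hy i x).fderiv_eq, (fg y hy m x).fderiv_eq]
      refine (chg_dz_hol (dg y hy i x) _).trans (Eq.trans ?_ (chg_dz_hol (dg y hy m x) _).symm)
      rw [chg_second (hψ y hy), chg_second (hψ y hy),
        (hψ y hy).isSymmSndFDerivAt_of_omega (bs m) (bs i)]
  refine ⟨chgPull hψ hm, g, g', fun i x => stF (g i x), fun i x => stF (g' i x),
    ⟨rfl, fun i j => FS_ext fun y hy => ?_, fun m f => FS_ext fun y hy => ?_,
      fun m f => FS_ext fun y hy => ?_, g1, g2, fun a b => ?_, fun a b => ?_, hol,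
      fun m i x => ?_, sym, fun m i x => ?_⟩, fun y hy f => chg_ev hψ hm hy f, eg⟩
  · have e : H (G y) (bs i) (bs j) =
        H (G' (ψ y)) (fderiv ℂ ψ y (bs i)) (fderiv ℂ ψ y (bs j)) := by
      simp only [H, h y hy, map_smul]
    simp only [map_sum, map_mul, evF_stF, chg_ev, ev_h, eg]
    rw [e, H_expand (hG'.hm (hm y hy)).cx]
    refine sum_congr rfl fun a _ => ?_
    rw [(hG'.hm (hm y hy)).expand_right, mul_sum]
    exact sum_congr rfl fun b _ => (mul_assoc _ _ _).symm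
  · have e : evF y hy (DF (bs m) (chgPull hψ hm f)) =
        dz (fderiv ℂ ψ y (bs m)) (fn f) (ψ y) := by
      rw [evF_DF, dz, dz, chg_fderiv hψ hm hy, chg_fderiv hψ hm hy, map_smul]
    refine e.trans ((chg_dz_sum _ _ _).trans ?_)
    rw [map_sum]
    refine sum_congr rfl fun a _ => ?_
    rw [map_mul, chg_ev, eg]
    exact congrArg _ (evF_DF _ _ _).symm
  · have e : evF y hy (DbF (bs m) (chgPull hψ hm f)) =
        dzb (fderiv ℂ ψ y (bs m)) (fn f) (ψ y) := by
      rw [evF_DbF, dzb, dzb, chg_fderiv hψ hm hy, chg_fderiv hψ hm hy, map_smul]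
    refine e.trans ((chg_dzb_sum _ _ _).trans ?_)
    rw [map_sum]
    refine sum_congr rfl fun a _ => ?_
    rw [map_mul, chg_ev, evF_stF, eg]
    exact congrArg _ (evF_DbF _ _ _).symm
  · simp only [← map_mul, ← map_sum, g1]
    rw [apply_ite stF, map_one, map_zero]
  · simp only [← map_mul, ← map_sum, g2]
    rw [apply_ite stF, map_one, map_zero]
  · show DF (bs m) (stF (g i x)) = 0
    rw [← chg_stst (DF _ _), stF_DF, chg_stst, hol, map_zero]
  · show DbF (bs m) (stF (g i x)) = DbF (bs i) (stF (g m x))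
    rw [← stF_DF, ← stF_DF, sym]

end Pool.Agent.P.MP_3e99c6_gt.G
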