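import Pool.Agent.P.MP_3e99c6_gt.SK.Chart

/-! The curvature hypothesis in a chart. -/

open scoped ContDiff Topology ComplexConjugate
open Complex Filter TopologicalSpace Finset

set_option maxSynthPendingDepth 3

noncomputable section

namespace Pool.Agent.P.MP_3e99c6_gt.G

variable {n : ℕ} {U : Opens (V n)} {G : V n → Bil n}

theorem ChCurv_point {β : Bil n} (h : Hm β) {B1 : V n →L[ℝ] Bil n}
    (y1 : ∀ u v w, B1 u v w = B1 u w v) (c1 : ∀ u v w, B1 u (I • v) (I • w) = B1 u v w)
    {B2 : V n →L[ℝ] V n →L[ℝ] Bil n} (s2 : ∀ t u, B2 t u = B2 u t)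
    (y2 : ∀ t u v w, B2 t u v w = B2 t u w v)
    (c2 : ∀ t u v w, B2 t u (I • v) (I • w) = B2 t u v w) {α : ℝ}
    (hv : ∀ v, ∃ σ τ, (∀ w, β σ w = B1 v v w + B1 (I • v) v (I • w)) ∧
      (∀ w, β τ w = B1 v v w - B1 (I • v) v (I • w) - B1 w v v) ∧
      -(B2 v v v v + B2 (I • v) (I • v) v v) + β σ σ - β τ τ = 2 * α * β v v ^ 2)
    (Ψ : V n → V n → V n → V n → ℂ)
    (hΨ : ∀ a b c d, Ψ a b c d = -pz (pb (fun β => H β c d) b) a B2 +
      ∑ q, ∑ p, pz (fun β => H β c (bs q)) a B1 * (hM β)⁻¹ q p * pb (fun β => H β (bs p) d) b B1 -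
      ∑ q, ∑ p, (pz (fun β => H β a b) (bs p) B1 - pz (fun β => H β (bs p) b) a B1) *
        (hM β)⁻¹ q p * (pb (fun β => H β c d) (bs q) B1 - pb (fun β => H β c (bs q)) d B1) -
      (α : ℂ) / 2 * H β a b * H β c d) (a b c d : V n) :
    Ψ a b c d + Ψ c b a d + Ψ a d c b + Ψ c d a b = 0 := by
  have zl : ∀ x x' z t, pz (fun β => H β (x + x') z) t B1 =
      pz (fun β => H β x z) t B1 + pz (fun β => H β x' z) t B1 := fun x x' z t => by
    simp only [pz, H_add_left]; ring
  have zr : ∀ x z z' t, pz (fun β => H β x (z + z')) t B1 =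
      pz (fun β => H β x z) t B1 + pz (fun β => H β x z') t B1 := fun x z z' t => by
    simp only [pz, H_add_right]; ring
  have bl : ∀ x x' z t, pb (fun β => H β (x + x') z) t B1 =
      pb (fun β => H β x z) t B1 + pb (fun β => H β x' z) t B1 := fun x x' z t => by
    simp only [pb, H_add_left]; ring
  have br : ∀ x z z' t, pb (fun β => H β x (z + z')) t B1 =
      pb (fun β => H β x z) t B1 + pb (fun β => H β x z') t B1 := fun x z z' t => by
    simp only [pb, H_add_right]; ring
  have zl' : ∀ x z t, pz (fun β => H β (I • x) z) t B1 = I * pz (fun β => H β x z) t B1 :=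
    fun x z t => by simp only [pz, H_I_left (c1 _)]; ring
  have zr' : ∀ x z t, pz (fun β => H β x (I • z)) t B1 = -I * pz (fun β => H β x z) t B1 :=
    fun x z t => by simp only [pz, H_I_right]; ring
  have bl' : ∀ x z t, pb (fun β => H β (I • x) z) t B1 = I * pb (fun β => H β x z) t B1 :=
    fun x z t => by simp only [pb, H_I_left (c1 _)]; ring
  have br' : ∀ x z t, pb (fun β => H β x (I • z)) t B1 = -I * pb (fun β => H β x z) t B1 :=
    fun x z t => by simp only [pb, H_I_right]; ring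
  have m1 : ∀ s x y z : ℂ, x * y * (s * z) = s * (x * y * z) := fun s x y z => by ring
  have m2 : ∀ s x y z : ℂ, s * x * y * z = s * (x * y * z) := fun s x y z => by ring
  have ad : ∀ x y z w : ℂ, x + y - (z + w) = x - z + (y - w) := fun x y z w => by ring
  refine polar Ψ ?_ ?_ ?_ ?_ ?_ ?_ ?_ ?_ ?_ a b c d
  · intro a a' b c d
    simp only [hΨ, pz_add (pb_lin (H_lin _ _) _), pz_add (H_lin _ _), zl, ad, add_mul,
      sum_add_distrib]
    simp only [H_add_left]
    ring
  · intro a b b' c d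
    simp only [hΨ, pb_add (H_lin _ _), zr, ad, add_mul, mul_add, sum_add_distrib]
    simp only [pz, pb_add (H_lin _ _), H_add_right]
    ring
  · intro a b c c' d
    simp only [hΨ, zl, bl, ad, add_mul, mul_add, sum_add_distrib]
    simp only [pz, pb, H_add_left]
    ring
  · intro a b c d d'
    simp only [hΨ, br, pb_add (H_lin _ _), ad, mul_add, sum_add_distrib]
    simp only [pz, pb, H_add_right]
    ring
  · intro a b c d
    simp only [hΨ, pz_I (pb_lin (H_lin _ _) _), pz_I (H_lin _ _), zl', ← mul_sub, m2 I,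
      ← mul_sum]
    simp only [H_I_left h.cx]
    ring
  · intro a b c d
    simp only [hΨ, pb_I (H_lin _ _), zr', ← mul_sub, m1 (-I), m2 (-I), ← mul_sum]
    simp only [pz, pb_I (H_lin _ _), H_I_right]
    ring
  · intro a b c d
    simp only [hΨ, zl', bl', ← mul_sub, m1 I, m2 I, ← mul_sum]
    simp only [pz, pb, H_I_left (c2 _ _), H_I_left h.cx]
    ring
  · intro a b c d
    simp only [hΨ, br', pb_I (H_lin _ _), ← mul_sub, m1 (-I), ← mul_sum]
    simp only [pz, pb, H_I_right]
    ring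
  · intro v
    obtain ⟨σ, τ, hσ, hτ, e0⟩ := hv v
    replace e0 := congrArg (fun x : ℝ => (x : ℂ)) e0
    have cj : ∀ u a b, conj (H (B1 u) a b) = H (B1 u) b a := fun u a b => by
      simp only [H, map_add, map_mul, conj_ofReal, conj_I]
      rw [y1 u b a, y1 u b (I • a), cx_left (c1 u)]
      push_cast; ring
    have cz : ∀ t a b, conj (pz (fun β => H β a b) t B1) = pb (fun β => H β b a) t B1 :=
      fun t a b => by
        simp only [pz, pb, map_div₀, map_sub, map_mul, cj, conj_I, map_ofNat]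
        ring
    have cb : ∀ t a b, conj (pb (fun β => H β a b) t B1) = pz (fun β => H β b a) t B1 :=
      fun t a b => by rw [← cz, conj_conj]
    have z1 : ∀ u, B1 u v (I • v) = 0 := fun u => by
      linarith [cx_left (c1 u) v v, y1 u (I • v) v]
    have e1 : ∀ w, pz (fun β => H β v w) v B1 = H β σ w / 2 := fun w => by
      simp only [pz, H, hσ, II_smul, map_neg]
      push_cast
      linear_combination -(B1 (I • v) v (I • w) : ℂ) / 2 * I_mul_I
    have e2 : ∀ w, pb (fun β => H β w v) v B1 = H β w σ / 2 := fun w => by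
      rw [← cz, e1, map_div₀, h.conj_H, map_ofNat]
    have f1 : ∀ w, pb (fun β => H β v v) w B1 - pb (fun β => H β v w) v B1 = -(H β τ w / 2) :=
      fun w => by
        simp only [pb, H, hτ, II_smul, map_neg, z1]
        push_cast
        linear_combination -(B1 (I • v) v (I • w) : ℂ) / 2 * I_mul_I
    have f2 : ∀ w, pz (fun β => H β v v) w B1 - pz (fun β => H β w v) v B1 = -(H β w τ / 2) :=
      fun w => by rw [← cb, ← cb, ← map_sub, f1, map_neg, map_div₀, h.conj_H, map_ofNat]
    have e3 : ∑ q, ∑ p, H β σ (bs q) / 2 * (hM β)⁻¹ q p * (H β (bs p) σ / 2) = β σ σ / 4 := by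
      rw [← h.H_self, ← h.quad, sum_div]
      refine sum_congr rfl fun q _ => ?_
      rw [sum_div]
      exact sum_congr rfl fun p _ => by ring
    have f3 : ∑ q, ∑ p, -(H β (bs p) τ / 2) * (hM β)⁻¹ q p * -(H β τ (bs q) / 2) = β τ τ / 4 := by
      rw [← h.H_self, ← h.quad, sum_div]
      refine sum_congr rfl fun q _ => ?_
      rw [sum_div]
      exact sum_congr rfl fun p _ => by ring
    have e4 : ∀ t u, H (B2 t u) v v = B2 t u v v := fun t u => by
      have e : B2 t u v (I • v) = 0 := by linarith [cx_left (c2 t u) v v, y2 t u (I • v) v]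
      simp [H, e]
    simp only [hΨ, e1, e2, e3, f1, f2, f3]
    simp only [pz, pb, e4, h.H_self, s2 (I • v) v]
    push_cast at e0
    linear_combination e0 / 4 + (B2 (I • v) (I • v) v v : ℂ) / 4 * I_mul_I

theorem hd_curv (hG : HermOn G U) {c : ℝ} {Γ : V n → Chr n} (hB : IsBismut G Γ U)
    (hc : ∀ y ∈ U, ∀ v, G y (curv Γ y v (I • v) (I • v)) v = c * G y v v ^ 2) :
    (hd hG c).Curv := by
  intro i j k l
  refine FS_ext fun y hy => ?_
  have y2 : ∀ t u a b, fderiv ℝ (fderiv ℝ G) y t u a b = fderiv ℝ (fderiv ℝ G) y t u b a := by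
    intro t u a b
    rw [← fderiv_app3 (hG.diff2 hy), ← fderiv_app3 (hG.diff2 hy)]
    congr 1
    exact Filter.EventuallyEq.fderiv_eq
      (eventually_of_mem (hG.op.mem_nhds hy) fun z hz => hG.symm1 hz u a b)
  have key := ChCurv_point (hG.hm hy) (hG.symm1 hy) (hG.cx1 hy) (hG.symm2 hy) y2 (hG.cx2 hy)
    (α := c) (fun v => ?_) _ (fun _ _ _ _ => rfl) (bs i) (bs j) (bs k) (bs l)
  · simp only [HD.Ψ, map_add, map_sub, map_neg, map_sum, map_mul, map_zero, AlgHom.commutes,
      ev_DDbh, ev_Dh, ev_Dbh, ev_h, ev_k]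
    exact key
  · have t : ∀ w, G y (Γ y v v + I • Γ y (I • v) v) w = fderiv ℝ G y v v w -
        fderiv ℝ G y (I • v) v (I • w) - fderiv ℝ G y w v v := fun w => by
      rw [hG.tau_eq hB hy, dOmega, II_smul, hG.cx1 hy, map_neg, neg_apply,
        hG.symm1 hy (I • v) (I • w)]
      ring
    refine ⟨Γ y v v - I • Γ y (I • v) v, Γ y v v + I • Γ y (I • v) v, fun w => ?_, t, ?_⟩
    · have e1 := t w
      have e2 := hG.a_eq hB hy v w
      simp only [map_add, map_sub, add_apply, sub_apply] at e1 ⊢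
      linarith
    · have e1 := hG.hsc_eq hB hy v
      rw [hc y hy, cx_left (hG.cx y hy)] at e1
      simp only [map_add, map_sub, add_apply, sub_apply]
      linarith [hG.symm y hy (Γ y v v) (I • Γ y (I • v) v)]

end Pool.Agent.P.MP_3e99c6_gt.G
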