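import Pool.Agent.P.MP_3e99c6_gt.SK.Chart
import Pool.Agent.P.MP_3e99c6_gt.SK.Bas

/-! The pluriclosed condition and the Kaehler condition in a chart. -/

open scoped ContDiff Topology ComplexConjugate
open Complex Filter TopologicalSpace Finset

set_option maxSynthPendingDepth 3

noncomputable section

namespace Pool.Agent.P.MP_3e99c6_gt.G

variable {n : ℕ} {U : Opens (V n)} {G : V n → Bil n}

/-- One term of the pluriclosed condition in terms of the second jet. -/
def sktPhi (B : V n →L[ℝ] V n →L[ℝ] Bil n) (a b c e : V n) : ℝ :=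
  B a (I • b) (I • I • c) (I • e) + B a (I • c) (I • I • e) (I • b) +
    B a (I • e) (I • I • b) (I • c)

theorem skt_alg {B : V n →L[ℝ] V n →L[ℝ] Bil n} (s2 : ∀ t u, B t u = B u t)
    (y2 : ∀ t u v w, B t u v w = B t u w v) (c2 : ∀ t u v w, B t u (I • v) (I • w) = B t u v w)
    (W : ∀ a b c e, sktPhi B a b c e - sktPhi B b a c e + sktPhi B c a b e - sktPhi B e a b c = 0)
    (a b c e : V n) :
    pz (pb (fun β => H β c e) b) a B - pz (pb (fun β => H β a e) b) c B -
      pz (pb (fun β => H β c b) e) a B + pz (pb (fun β => H β a b) e) c B = 0 := by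
  have k1 : ∀ t u v w, B t u (I • v) w = -B t u v (I • w) := fun t u => cx_left (c2 t u)
  have k2 : ∀ t u v w, B t u w (I • v) = -B t u v (I • w) := fun t u v w => by rw [y2, k1]
  have w0000 := W a b c e
  have w0001 := W a b c (I • e)
  have w0010 := W a b (I • c) e
  have w0011 := W a b (I • c) (I • e)
  have w0100 := W a (I • b) c e
  have w0101 := W a (I • b) c (I • e)
  have w0110 := W a (I • b) (I • c) e
  have w0111 := W a (I • b) (I • c) (I • e)
  have w1000 := W (I • a) b c e
  have w1001 := W (I • a) b c (I • e)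
  have w1010 := W (I • a) b (I • c) e
  have w1011 := W (I • a) b (I • c) (I • e)
  have w1100 := W (I • a) (I • b) c e
  have w1101 := W (I • a) (I • b) c (I • e)
  have w1110 := W (I • a) (I • b) (I • c) e
  have w1111 := W (I • a) (I • b) (I • c) (I • e)
  simp only [sktPhi, pz, pb, H, II_smul, smul_neg, map_neg, neg_apply, neg_neg, k1,
    y2 _ _ c a, k2 _ _ a c, y2 _ _ e a, k2 _ _ a e, y2 _ _ c b,
    k2 _ _ b c, y2 _ _ e b, k2 _ _ b e, s2 b a, s2 b (I • a),
    s2 (I • b) a, s2 (I • b) (I • a), s2 c a, s2 c (I • a), s2 (I • c) a, s2 (I • c) (I • a),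
    s2 e a, s2 e (I • a), s2 (I • e) a, s2 (I • e) (I • a), s2 c b, s2 c (I • b), s2 (I • c) b,
    s2 (I • c) (I • b), s2 e b, s2 e (I • b), s2 (I • e) b, s2 (I • e) (I • b), s2 e c,
    s2 e (I • c), s2 (I • e) c, s2 (I • e) (I • c)]
    at w0000 w0001 w0010 w0011 w0100 w0101 w0110 w0111 
      w1000 w1001 w1010 w1011 w1100 w1101 w1110 w1111 ⊢
  obtain ⟨g, hf⟩ : ∃ g : V n → V n → V n → V n → ℝ, ∀ t u v w, B t u v w = g t u v w :=
    ⟨_, fun _ _ _ _ => rfl⟩
  simp only [hf] at w0000 w0001 w0010 w0011 w0100 w0101 w0110 w0111 w1000 w1001 w1010 w1011 ⊢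
  simp only [hf] at w1100 w1101 w1110 w1111
  clear W k1 k2 s2 y2 c2 hf
  generalize I • a = a' at *
  generalize I • b = b' at *
  generalize I • c = c' at *
  generalize I • e = e' at *
  refine Complex.ext ?_ ?_
  · simp only [add_re, sub_re, div_ofNat_re, div_ofNat_im, mul_re, mul_im, I_re, I_im, ofReal_re,
      ofReal_im, add_im, ofReal_neg, neg_re, neg_im, zero_re]
    linear_combination (w0000 + w0011 - w0101 + w0110 + w1001 - w1010 + w1100 + w1111) / 16
  · simp only [add_re, div_ofNat_re, div_ofNat_im, mul_re, mul_im, I_re, I_im, ofReal_re,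
      ofReal_im, add_im, sub_im, ofReal_neg, neg_re, neg_im, zero_im]
    linear_combination (w0001 - w0010 + w0100 + w0111 - w1000 - w1011 + w1101 - w1110) / 16

theorem dR_dc (hG : HermOn G U) {y : V n} (hy : y ∈ U) (a b c e : V n) :
    S.dR (S.dcOmega G b c e) y a = sktPhi (fderiv ℝ (fderiv ℝ G) y) a b c e := by
  have hd : ∀ t u v : V n, DifferentiableAt ℝ (fun z => fderiv ℝ G z t u v) y := fun t u v =>
    (((hG.diff2 hy).clm_apply (differentiableAt_const _)).clm_apply
      (differentiableAt_const _)).clm_apply (differentiableAt_const _)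
  have e0 : S.dcOmega G b c e = fun z => fderiv ℝ G z (I • b) (I • I • c) (I • e) +
      fderiv ℝ G z (I • c) (I • I • e) (I • b) + fderiv ℝ G z (I • e) (I • I • b) (I • c) := rfl
  rw [S.dR, e0, fderiv_fun_add ((hd _ _ _).fun_add (hd _ _ _)) (hd _ _ _),
    fderiv_fun_add (hd _ _ _) (hd _ _ _), add_apply, add_apply, fderiv_app3 (hG.diff2 hy),
    fderiv_app3 (hG.diff2 hy), fderiv_app3 (hG.diff2 hy), sktPhi]

theorem hd_skt (hG : HermOn G U) (c : ℝ) (h : ∀ y ∈ U, ∀ a b c e, S.ddcOmega G y a b c e = 0) :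
    (hd hG c).SKT := by
  refine fun i j k l => FS_ext fun y hy => ?_
  rw [map_add, map_sub, map_sub, map_zero, ev_DDbh, ev_DDbh, ev_DDbh, ev_DDbh]
  refine skt_alg (hG.symm2 hy) (fun t u v w => ?_) (hG.cx2 hy) (fun a b c e => ?_) _ _ _ _
  · rw [← fderiv_app3 (hG.diff2 hy), ← fderiv_app3 (hG.diff2 hy)]
    congr 1
    exact Filter.EventuallyEq.fderiv_eq
      (eventually_of_mem (hG.op.mem_nhds hy) fun z hz => hG.symm1 hz u v w)
  · rw [← dR_dc hG hy, ← dR_dc hG hy, ← dR_dc hG hy, ← dR_dc hG hy]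
    exact h y hy a b c e

theorem zero_of_bs {f : V n → ℂ} (ha : ∀ a b, f (a + b) = f a + f b)
    (hr : ∀ (r : ℝ) a, f (r • a) = r * f a) {s : ℂ} (hI : ∀ a, f (I • a) = s * f a)
    (h : ∀ i, f (bs i) = 0) (a : V n) : f a = 0 := by
  have h0 : f 0 = 0 := by simpa using hr 0 0
  induction a using Pi.single_induction with
  | zero => exact h0
  | add a b h1 h2 => rw [ha, h1, h2, add_zero]
  | single i z =>
    have e : (Pi.single i z : V n) = z • bs i := by rw [bs, ← Pi.single_smul, smul_eq_mul, mul_one]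
    rw [e, smul_split, ha, hr, hr, hI, h, mul_zero, mul_zero, mul_zero, add_zero]

theorem kaehler_alg {B : V n →L[ℝ] Bil n} (y1 : ∀ t v w, B t v w = B t w v)
    (c1 : ∀ t v w, B t (I • v) (I • w) = B t v w)
    (h : ∀ i k l, pz (fun β => H β (bs k) (bs l)) (bs i) B - pz (fun β => H β (bs i) (bs l)) (bs k) B = 0)
    (u v w : V n) : B u (I • v) w + B v (I • w) u + B w (I • u) v = 0 := by
  have k1 : ∀ t v w, B t (I • v) w = -B t v (I • w) := fun t => cx_left (c1 t)
  have k2 : ∀ t v w, B t w (I • v) = -B t v (I • w) := fun t v w => by rw [y1, k1]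
  let f : V n → V n → V n → ℂ := fun t a b =>
    pz (fun β => H β a b) t B - pz (fun β => H β t b) a B
  have sc : ∀ (r : ℝ) (x : V n), I • r • x = r • I • x := fun r x => smul_comm _ _ _
  have h1 : ∀ i k b, f (bs i) (bs k) b = 0 := fun i k => zero_of_bs (s := -I)
    (fun a b => by simp only [f, pz, H_add_right]; ring)
    (fun r a => by simp only [f, pz, H, sc, map_smul, smul_eq_mul]; push_cast; ring)
    (fun a => by simp only [f, pz, H_I_right]; ring) (h i k)
  have h2 : ∀ i b a, f (bs i) a b = 0 := fun i b => zero_of_bs (f := fun a => f (bs i) a b) (s := I)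
    (fun a a' => by simp only [f, pz_add (H_lin _ _)]; simp only [pz, H_add_left]; ring)
    (fun r a => by simp only [f, pz, H, sc, map_smul, smul_apply, smul_eq_mul]; push_cast; ring)
    (fun a => by simp only [f, pz_I (H_lin _ _)]; simp only [pz, H_I_left (c1 _)]; ring)
    fun k => h1 i k b
  have h3 : ∀ a b t, f t a b = 0 := fun a b => zero_of_bs (f := fun t => f t a b) (s := I)
    (fun a a' => by simp only [f, pz_add (H_lin _ _)]; simp only [pz, H_add_left]; ring)
    (fun r a => by simp only [f, pz, H, sc, map_smul, smul_apply, smul_eq_mul]; push_cast; ring)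
    (fun a => by simp only [f, pz_I (H_lin _ _)]; simp only [pz, H_I_left (c1 _)]; ring)
    fun i => h2 i b a
  have r : ∀ t a b, B t a b + B (I • t) a (I • b) = B a t b + B (I • a) t (I • b) := fun t a b => by
    have e := congrArg Complex.re (h3 a b t)
    simp only [f, pz, H, add_re, sub_re, div_ofNat_re, mul_re, mul_im, I_re, I_im, ofReal_re,
      ofReal_im, add_im, zero_re] at e
    linarith
  obtain ⟨g, hf⟩ : ∃ g : V n → V n → V n → ℝ, ∀ t v w, B t v w = g t v w := ⟨_, fun _ _ _ => rfl⟩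
  have r0000 := r u v w
  have r0001 := r u v (I • w)
  have r0010 := r u (I • v) w
  have r0011 := r u (I • v) (I • w)
  have r0100 := r (I • u) v w
  have r0101 := r (I • u) v (I • w)
  have r0110 := r (I • u) (I • v) w
  have r0111 := r (I • u) (I • v) (I • w)
  have r1000 := r v w u
  have r1001 := r v w (I • u)
  have r1010 := r v (I • w) u
  have r1011 := r v (I • w) (I • u)
  have r1100 := r (I • v) w u
  have r1101 := r (I • v) w (I • u)
  have r1110 := r (I • v) (I • w) u
  have r1111 := r (I • v) (I • w) (I • u)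
  have r2000 := r w u v
  have r2001 := r w u (I • v)
  have r2010 := r w (I • u) v
  have r2011 := r w (I • u) (I • v)
  have r2100 := r (I • w) u v
  have r2101 := r (I • w) u (I • v)
  have r2110 := r (I • w) (I • u) v
  have r2111 := r (I • w) (I • u) (I • v)
  simp only [II_smul, map_neg, neg_apply, neg_neg, k1, y1 _ v u, y1 _ w u, y1 _ w v, k2 _ u v,
    k2 _ u w, k2 _ v w, smul_neg, hf]
    at r0000 r0001 r0010 r0011 r0100 r0101 r0110 r0111
      r1000 r1001 r1010 r1011 r1100 r1101 r1110 r1111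
      r2000 r2001 r2010 r2011 r2100 r2101 r2110 r2111 ⊢
  linarith

theorem hd_kaehler (hG : HermOn G U) (c : ℝ) {y : V n} (hy : y ∈ U)
    (h : ∀ i k j, evF y hy ((hd hG c).T i k j) = 0) (u v w : V n) : dOmega G y u v w = 0 := by
  refine kaehler_alg (hG.symm1 hy) (hG.cx1 hy) (fun i k l => ?_) u v w
  rw [← ev_Dh hG c hy, ← ev_Dh hG c hy, ← map_sub, ← HD.T_h, map_sum]
  exact sum_eq_zero fun j _ => by rw [map_mul, h, zero_mul]

end Pool.Agent.P.MP_3e99c6_gt.G
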