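import Pool.Agent.P.MP_3e99c6_gt.SK.Rel

/-! Conjugations and changes of coordinates. -/

namespace Pool.Agent.P.MP_3e99c6_gt.G.HD

open Finset

variable {ι A A' : Type} [Fintype ι] [DecidableEq ι] [CommRing A] [Algebra ℂ A] [CommRing A']
  [Algebra ℂ A']

/-- A conjugation compatible with the data. -/
structure St (d : HD ι A) (σ : A →+* A) : Prop where
  inv : ∀ x, σ (σ x) = x
  alg : ∀ z : ℂ, σ (algebraMap ℂ A z) = algebraMap ℂ A (starRingEnd ℂ z)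
  c : starRingEnd ℂ d.c = d.c
  h : ∀ i j, σ (d.h i j) = d.h j i
  D : ∀ m x, σ (d.D m x) = d.Db m (σ x)

/-- A holomorphic change of coordinates with Jacobian matrix `g`. -/
structure Chg (d : HD ι A) (d' : HD ι A') (φ : A' →ₐ[ℂ] A) (g g' gb gb' : ι → ι → A) : Prop where
  c : d.c = d'.c
  h : ∀ i j, d.h i j = ∑ x, ∑ y, g i x * gb j y * φ (d'.h x y)
  D : ∀ m f, d.D m (φ f) = ∑ x, g m x * φ (d'.D x f)
  Db : ∀ m f, d.Db m (φ f) = ∑ x, gb m x * φ (d'.Db x f)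
  g1 : ∀ y x, ∑ i, g' y i * g i x = if y = x then 1 else 0
  g2 : ∀ i j, ∑ x, g i x * g' x j = if i = j then 1 else 0
  b1 : ∀ y x, ∑ i, gb' y i * gb i x = if y = x then 1 else 0
  b2 : ∀ i j, ∑ x, gb i x * gb' x j = if i = j then 1 else 0
  hol : ∀ m i x, d.Db m (g i x) = 0
  holb : ∀ m i x, d.D m (gb i x) = 0
  sym : ∀ m i x, d.D m (g i x) = d.D i (g m x)
  symb : ∀ m i x, d.Db m (gb i x) = d.Db i (gb m x)

end Pool.Agent.P.MP_3e99c6_gt.G.HD
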