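import Pool.Agent.P.MP_3e99c6_gt.SK.Fun
import Pool.Agent.P.MP_3e99c6_gt.SK.Str
import Pool.Agent.P.MP_3e99c6_gt.SDefs2

/-! The Hermitian data of a metric on an open set. -/

open scoped ContDiff Topology ComplexConjugate ComplexOrder
open Complex Filter TopologicalSpace Finset

noncomputable section

namespace Pool.Agent.P.MP_3e99c6_gt.G

variable {n : ℕ} {U : Opens (V n)} {G : V n → Bil n}

/-- The Hermitian data of a metric. -/
def hd (hG : HermOn G U) (c : ℝ) : HD (Fin n) (FS U) where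
  h i j := mkF (fun y => H (G y) (bs i) (bs j)) fun _ hy => contDiffAt_lin (H_lin _ _) (hG.at' hy)
  k i j := mkF (fun y => (hM (G y))⁻¹ i j) fun _ hy =>
    cd_inv (fun _ _ => contDiffAt_lin (H_lin _ _) (hG.at' hy)) (hG.hm hy).det_ne i j
  D i := DF (bs i)
  Db i := DbF (bs i)
  c := c / 2
  hk i m := FS_ext fun y hy => by
    rw [map_sum, apply_ite (evF y hy), map_one, map_zero]
    exact (hG.hm hy).mul_inv i m
  kh i m := FS_ext fun y hy => by
    rw [map_sum, apply_ite (evF y hy), map_one, map_zero]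
    exact (hG.hm hy).inv_mul i m
  DD _ _ := DF_DF _ _
  BB _ _ := DbF_DbF _ _
  DB _ _ := DF_DbF _ _

variable (hG : HermOn G U) (c : ℝ) {y : V n}

theorem ev_h (hy : y ∈ U) (i j : Fin n) : evF y hy ((hd hG c).h i j) = H (G y) (bs i) (bs j) := rfl

theorem ev_k (hy : y ∈ U) (i j : Fin n) : evF y hy ((hd hG c).k i j) = (hM (G y))⁻¹ i j := rfl

theorem fn_h (hy : y ∈ U) (i j : Fin n) :
    fn ((hd hG c).h i j) =ᶠ[𝓝 y] fun y => H (G y) (bs i) (bs j) := fn_mkF _ _ hy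

theorem ev_det (hy : y ∈ U) : evF y hy (Matrix.of (hd hG c).h).det = (hM (G y)).det :=
  (evF y hy).map_det (Matrix.of (hd hG c).h)

theorem hd_pos (hy : y ∈ U) : (Matrix.of fun i j => evF y hy ((hd hG c).h i j)).PosDef :=
  (hG.hm hy).posDef

theorem hd_st : (hd hG c).St stF where
  inv x := FS_ext fun y hy => by rw [evF_stF, evF_stF, conj_conj]
  alg z := FS_ext fun y hy => by rw [evF_stF, AlgHom.commutes, AlgHom.commutes]; rfl
  c := by simp [hd, map_ofNat]
  h i j := FS_ext fun y hy => by rw [evF_stF, ev_h, ev_h, (hG.hm hy).conj_H]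
  D m x := stF_DF _ _

theorem ev_Dh (hy : y ∈ U) (m i j : Fin n) : evF y hy ((hd hG c).D m ((hd hG c).h i j)) =
    pz (fun β => H β (bs i) (bs j)) (bs m) (fderiv ℝ G y) := by
  rw [← dz_lin (H_lin _ _) (hG.diff hy), dz, ← (fn_h hG c hy i j).fderiv_eq]
  exact evF_DF _ _ hy

theorem ev_Dbh (hy : y ∈ U) (m i j : Fin n) : evF y hy ((hd hG c).Db m ((hd hG c).h i j)) =
    pb (fun β => H β (bs i) (bs j)) (bs m) (fderiv ℝ G y) := by
  rw [← dzb_lin (H_lin _ _) (hG.diff hy), dzb, ← (fn_h hG c hy i j).fderiv_eq]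
  exact evF_DbF _ _ hy

theorem ev_DDbh (hy : y ∈ U) (a b i j : Fin n) :
    evF y hy ((hd hG c).D a ((hd hG c).Db b ((hd hG c).h i j))) =
      pz (pb (fun β => H β (bs i) (bs j)) (bs b)) (bs a) (fderiv ℝ (fderiv ℝ G) y) := by
  have e : fn ((hd hG c).Db b ((hd hG c).h i j)) =ᶠ[𝓝 y]
      dzb (bs b) fun y => H (G y) (bs i) (bs j) := fn_ev (fun z hz => by
    rw [ev_Dbh]
    exact (dzb_lin (H_lin _ _) (hG.diff hz) _).symm) hy
  rw [← dz_dzb_lin (H_lin _ _) (hG.at' hy), dz, ← e.fderiv_eq]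
  exact evF_DF _ _ hy

end Pool.Agent.P.MP_3e99c6_gt.G
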