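import Pool.Agent.P.MP_3e99c6_gt.SK.Graph

/-! A verified normaliser for contraction graphs. -/

set_option linter.unusedSectionVars false
set_option linter.unusedSimpArgs false

namespace Pool.Agent.P.MP_3e99c6_gt.G

open Function

/-- Membership test. -/
def mem (a : ℕ) : List ℕ → Bool
  | [] => false
  | b :: l => bif Nat.beq a b then true else mem a l

/-- Removal of the first occurrence. -/
def era (a : ℕ) : List ℕ → List ℕ
  | [] => []
  | b :: l => bif Nat.beq a b then l else b :: era a l

/-- A chain of substitutions. -/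
def app : List (ℕ × ℕ) → ℕ → ℕ
  | [], l => l
  | p :: r, l => bif Nat.beq l p.1 then app r p.2 else app r l

/-- Elimination of the Kronecker symbols (tensor number `0`). -/
def elim : List Fac → List ℕ → List (ℕ × ℕ) → List Fac → List ℕ × List Fac
  | [], ds, s, acc => (ds, acc.map (mapF (app s)))
  | (0, [x, y]) :: l, ds, s, acc =>
    bif Nat.beq (app s x) (app s y) then elim l ds s acc else
    bif mem (app s y) ds then elim l (era (app s y) ds) (s ++ [(app s y, app s x)]) acc else
    bif mem (app s x) ds then elim l (era (app s x) ds) (s ++ [(app s x, app s y)]) acc else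
    elim l ds s ((0, [x, y]) :: acc)
  | f :: l, ds, s, acc => elim l ds s (f :: acc)

/-- The factor at a position, and the others. -/
def ext1 : ℕ → Fac → List Fac → Fac × List Fac
  | i + 1, f, g :: l => ((ext1 i g l).1, f :: (ext1 i g l).2)
  | _, f, l => (f, l)

/-- Exchange of two neighbouring entries. -/
def swapAt {α : Type} : ℕ → List α → List α
  | 0, a :: b :: l => b :: a :: l
  | p + 1, a :: l => a :: swapAt p l
  | _, l => l

/-- An optional use of a slot symmetry. -/
def flp (o : Option (ℕ × Bool)) (b : ℕ) (x : Bool × Fac) : Bool × Fac :=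
  match o, b with
  | some q, 1 => (xor x.1 q.2, x.2.1, swapAt q.1 x.2.2)
  | _, _ => x

/-- The data of a normaliser: dimension, number of free labels, slot symmetries, conjugation. -/
structure Cfg where
  n : ℕ
  F : ℕ
  s1 : ℕ → Option (ℕ × Bool)
  s2 : ℕ → Option (ℕ × Bool)
  cj : Fac → Fac

variable (C : Cfg)

/-- Reordering of the factors and of their slots. -/
def arr : ℕ → ℕ → List Fac → Bool × List Fac
  | k + 1, w, f :: l =>
    let p := ext1 (w % 8) f l
    let r := arr k (w / 32) p.2
    let x := flp (C.s2 p.1.1) (w / 16 % 2) (flp (C.s1 p.1.1) (w / 8 % 2) (r.1, p.1))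
    (x.1, x.2 :: r.2)
  | _, _, l => (false, l)

/-- The labels from `F` on, without repetition. -/
def dd' (F : ℕ) : List ℕ → List ℕ → List ℕ
  | [], acc => acc
  | a :: l, acc =>
    bif Nat.ble F a then (bif mem a acc then dd' F l acc else dd' F l (a :: acc)) else dd' F l acc

/-- The labels from `F` on, without repetition. -/
def dd (F : ℕ) (l : List ℕ) : List ℕ := dd' F l []

/-- Position in a list, shifted. -/
def idx (a : ℕ) : List ℕ → ℕ → ℕ
  | [], k => k
  | b :: l, k => bif Nat.beq a b then k else idx a l (k + 1)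

/-- The canonical renaming. -/
def ren (F : ℕ) (inv : List ℕ) (a : ℕ) : ℕ := bif Nat.ble F a then idx a inv F else a

/-- Removal of all entries of the first list, if they occur. -/
def eraL : List ℕ → List ℕ → Option (List ℕ)
  | [], ds => some ds
  | a :: l, ds => bif mem a ds then eraL l (era a ds) else none

/-- The normal form of a term: coefficient, number of summed labels, factors. -/
def nf (t : Tm) (w : ℕ) : Option (ℤ × ℕ × List Fac) :=
  let e := elim t.fs t.ds [] []
  let r := arr C 8 (w / 2) (bif Nat.beq (w % 2) 1 then e.2.map C.cj else e.2)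
  let inv := dd C.F (labs r.2)
  match eraL inv e.1 with
  | none => none
  | some rest =>
    bif rest.all (fun a => Nat.ble C.F a && !mem a inv) then
      some ((bif r.1 then -t.c else t.c) * (C.n : ℤ) ^ rest.length, inv.length,
        r.2.map (mapF (ren C.F inv)))
    else none

/-- Search trees of normal forms. -/
inductive Tr where
  | nil : Tr
  | node : Tr → ℕ → ℕ → List Fac → ℤ → Tr → Tr

/-- Equality test for lists of numbers. -/
def eqN : List ℕ → List ℕ → Bool
  | [], [] => true
  | a :: l, b :: m => bif Nat.beq a b then eqN l m else false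
  | _, _ => false

/-- Equality test for lists of factors. -/
def eqF : List Fac → List Fac → Bool
  | [], [] => true
  | a :: l, b :: m => bif Nat.beq a.1 b.1 then (bif eqN a.2 b.2 then eqF l m else false) else false
  | _, _ => false

/-- A hash value. -/
def hsh : List Fac → ℕ → ℕ
  | [], h => h * 1234567891 % 2305843009213693951
  | f :: l, h => hsh l (f.2.foldl (fun h a => h * 64 + a) (h * 128 + f.1))

/-- Insertion. -/
def Tr.ins (h k : ℕ) (fs : List Fac) (c : ℤ) : Tr → Tr
  | .nil => .node .nil h k fs c .nil
  | .node l h' k' fs' c' r =>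
    bif Nat.blt h h' then .node (l.ins h k fs c) h' k' fs' c' r else
    bif Nat.beq h h' && Nat.beq k k' && eqF fs fs' then .node l h' k' fs' (c + c') r else
    .node l h' k' fs' c' (r.ins h k fs c)

/-- All coefficients vanish. -/
def Tr.zero : Tr → Bool
  | .nil => true
  | .node l _ _ _ c r => l.zero && (c == 0) && r.zero

/-- One term is added to the tree. -/
def step (t : Tm) (w : ℕ) (tr : Tr) : Option Tr :=
  match nf C t (w % 4398046511104) with
  | none => none
  | some x =>
    match w / 4398046511104 with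
    | 0 => some (tr.ins (hsh x.2.2 1) x.2.1 x.2.2 x.1)
    | w' + 1 =>
      match nf C t w' with
      | none => none
      | some y => bif Nat.beq x.2.1 y.2.1 && eqF x.2.2 y.2.2 && (x.1 + y.1 == 0) then some tr else none

/-- All terms are added; the hints are packed in blocks of `84` bits below a leading one. -/
def run : Poly → ℕ → List ℕ → Tr → Bool
  | [], _, _, tr => tr.zero
  | t :: p, cur, ws, tr =>
    bif Nat.ble cur 1 then
      match ws with
      | [] => false
      | w :: ws =>
        match step C t (w % 19342813113834066795298816) tr with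
        | none => false
        | some tr => run p (w / 19342813113834066795298816) ws tr
    else
      match step C t (cur % 19342813113834066795298816) tr with
      | none => false
      | some tr => run p (cur / 19342813113834066795298816) ws tr

/-- The check that a polynomial normalises to zero. -/
def chk (p : Poly) (ws : List ℕ) : Bool := run C p 0 ws .nil

theorem beq_false {a b : ℕ} (h : Nat.beq a b = false) : a ≠ b := Nat.ne_of_beq_eq_false h

theorem mem_iff {a : ℕ} {l : List ℕ} : mem a l = true ↔ a ∈ l := by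
  induction l with
  | nil => simp [mem]
  | cons b l ih =>
    cases h : Nat.beq a b with
    | true => simp [mem, h, Nat.eq_of_beq_eq_true h]
    | false => simp [mem, h, ih, beq_false h]

theorem era_perm {a : ℕ} {l : List ℕ} (h : a ∈ l) : l.Perm (a :: era a l) := by
  induction l with
  | nil => simp at h
  | cons b l ih =>
    cases e : Nat.beq a b with
    | true => simp [era, e, Nat.eq_of_beq_eq_true e]
    | false =>
      simp only [era, e, cond_false]
      exact ((ih (by simpa [beq_false e] using h)).cons b).trans (List.Perm.swap _ _ _)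

theorem app_append (s : List (ℕ × ℕ)) (y x l : ℕ) :
    app (s ++ [(y, x)]) l = if app s l = y then x else app s l := by
  induction s generalizing l with
  | nil =>
    cases e : Nat.beq l y with
    | true => simp [app, e, Nat.eq_of_beq_eq_true e]
    | false => simp [app, e, beq_false e]
  | cons p r ih => cases e : Nat.beq l p.1 <;> simp [app, e, ih]

variable {ι A : Type} [Fintype ι] [DecidableEq ι] [CommRing A] {S : ℕ → List ι → A}

theorem sumL_delta {ds : List ℕ} {x y : ℕ} (hy : y ∈ ds) (hxy : x ≠ y) (g : (ℕ → ι) → A)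
    (ρ : ℕ → ι) : sumL ds (fun ρ => (if ρ x = ρ y then 1 else 0) * g ρ) ρ =
      sumL (era y ds) (fun ρ => g (update ρ y (ρ x))) ρ := by
  rw [sumL_perm ((era_perm hy).trans (List.perm_append_singleton _ _).symm), sumL_append]
  congr 1
  funext ρ
  simp [sumL, update_of_ne hxy]

theorem elim_ev (hδ : ∀ i j, S 0 [i, j] = if i = j then 1 else 0) (l : List Fac) (ds : List ℕ)
    (s : List (ℕ × ℕ)) (acc : List Fac) (ρ : ℕ → ι) :
    sumL (elim l ds s acc).1 (fP S (elim l ds s acc).2) ρ =
      sumL ds (fun ρ => fP S (l ++ acc) (ρ ∘ app s)) ρ := by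
  have up : ∀ (s : List (ℕ × ℕ)) (y x : ℕ) (ρ : ℕ → ι),
      ρ ∘ app (s ++ [(y, x)]) = update ρ y (ρ x) ∘ app s := by
    intro s y x ρ
    funext l
    simp only [comp_apply, app_append]
    split_ifs with h
    · simp [h]
    · rw [update_of_ne h]
  have e0 : ∀ (x y : ℕ) (l acc : List Fac) (s : List (ℕ × ℕ)) (ρ : ℕ → ι),
      fP S ((0, [x, y]) :: l ++ acc) (ρ ∘ app s) =
        (if ρ (app s x) = ρ (app s y) then 1 else 0) * fP S (l ++ acc) (ρ ∘ app s) := by
    intro x y l acc s ρ
    simp [fP_cons, hδ]
  fun_induction elim l ds s acc with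
  | case1 ds s acc =>
    simp only [List.nil_append]
    congr 1
    funext ρ
    exact fP_map S _ _ _
  | case2 x y l ds s acc h1 ih => simp only [ih, e0, Nat.eq_of_beq_eq_true h1, if_true, one_mul]
  | case3 x y l ds s acc h1 h2 ih =>
    simp only [ih, e0, up]
    exact (sumL_delta (mem_iff.1 h2) (beq_false h1) (fun ρ => fP S (l ++ acc) (ρ ∘ app s)) ρ).symm
  | case4 x y l ds s acc h1 h2 h3 ih =>
    simp only [ih, e0, up]
    rw [← sumL_delta (mem_iff.1 h3) (beq_false h1).symm fun ρ => fP S (l ++ acc) (ρ ∘ app s)]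
    simp only [eq_comm]
  | case5 x y l ds s acc h1 h2 h3 ih =>
    rw [ih]
    exact congrFun (congrArg _ (funext fun ρ => congrFun (fP_perm S List.perm_middle) _)) _
  | case6 f l ds s acc _ ih =>
    rw [ih]
    exact congrFun (congrArg _ (funext fun ρ => congrFun (fP_perm S List.perm_middle) _)) _

theorem ext1_perm (i : ℕ) (f : Fac) (l : List Fac) :
    (f :: l).Perm ((ext1 i f l).1 :: (ext1 i f l).2) := by
  fun_induction ext1 i f l with
  | case1 i f g l ih => exact (ih.cons f).trans (List.Perm.swap _ _ _)
  | case2 => rfl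

theorem map_swapAt {α β : Type} (g : α → β) (p : ℕ) (l : List α) :
    (swapAt p l).map g = swapAt p (l.map g) := by
  fun_induction swapAt p l with
  | case1 => rfl
  | case2 p a l ih => simp [swapAt, ih]
  | case3 p l h1 h2 =>
    match p, l with
    | 0, [] => rfl
    | 0, [_] => rfl
    | 0, a :: b :: l => exact (h1 a b l rfl rfl).elim
    | _ + 1, [] => rfl
    | p + 1, a :: l => exact (h2 p a l rfl rfl).elim

/-- The sign. -/
def sg (A : Type) [CommRing A] (b : Bool) : A := bif b then -1 else 1

theorem sg_xor (a b : Bool) : sg A (xor a b) = sg A a * sg A b := by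
  cases a <;> cases b <;> simp [sg]

theorem sg_sq (a : Bool) : sg A a * sg A a = 1 := by cases a <;> simp [sg]

/-- The listed slot symmetries hold. -/
def Sym (s : ℕ → Option (ℕ × Bool)) (S : ℕ → List ι → A) : Prop :=
  ∀ τ q, s τ = some q → ∀ l, S τ (swapAt q.1 l) = sg A q.2 * S τ l

theorem flp_ev {s : ℕ → Option (ℕ × Bool)} (hs : Sym s S) (b : ℕ) (x : Bool × Fac) (ρ : ℕ → ι) :
    (flp (s x.2.1) b x).2.1 = x.2.1 ∧
      sg A (flp (s x.2.1) b x).1 * S x.2.1 ((flp (s x.2.1) b x).2.2.map ρ) =
        sg A x.1 * S x.2.1 (x.2.2.map ρ) := by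
  unfold flp
  split
  · rename_i q h
    refine ⟨rfl, ?_⟩
    simp only [map_swapAt, hs _ q h, sg_xor]
    linear_combination (sg A x.1 * S x.2.1 (x.2.2.map ρ)) * sg_sq (A := A) q.2
  · exact ⟨rfl, rfl⟩

theorem arr_ev (h1 : Sym C.s1 S) (h2 : Sym C.s2 S) (k w : ℕ) (l : List Fac) (ρ : ℕ → ι) :
    fP S l ρ = sg A (arr C k w l).1 * fP S (arr C k w l).2 ρ := by
  fun_induction arr C k w l with
  | case1 k w f l p r x ih =>
    have a := flp_ev h1 (w / 8 % 2) (r.1, p.1) ρ
    have b := flp_ev h2 (w / 16 % 2) (flp (C.s1 p.1.1) (w / 8 % 2) (r.1, p.1)) ρ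
    simp only [a.1] at b
    rw [fP_perm S (ext1_perm (w % 8) f l), fP_cons, fP_cons, ih, ← mul_assoc (sg A x.1), b.1,
      b.2, a.2]
    ring
  | case2 => simp [sg]

theorem mem_dd' {F a : ℕ} {l acc : List ℕ} : a ∈ dd' F l acc ↔ F ≤ a ∧ a ∈ l ∨ a ∈ acc := by
  fun_induction dd' F l acc with
  | case1 => simp
  | case2 b l acc h1 h2 ih =>
    have := mem_iff.1 h2
    rw [ih, List.mem_cons]
    grind
  | case3 b l acc h1 h2 ih =>
    have := Nat.le_of_ble_eq_true h1
    rw [ih, List.mem_cons, List.mem_cons]
    grind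
  | case4 b l acc h1 ih =>
    have : ¬ F ≤ b := by rw [← Nat.ble_eq, h1]; simp
    rw [ih, List.mem_cons]
    grind

theorem mem_dd {F a : ℕ} {l : List ℕ} : a ∈ dd F l ↔ F ≤ a ∧ a ∈ l := by simp [dd, mem_dd']

theorem nodup_dd' (F : ℕ) (l : List ℕ) {acc : List ℕ} (h : acc.Nodup) : (dd' F l acc).Nodup := by
  fun_induction dd' F l acc with
  | case1 => exact h
  | case2 b l acc h1 h2 ih => exact ih h
  | case3 b l acc h1 h2 ih => exact ih (List.nodup_cons.2 ⟨by rw [← mem_iff, h2]; simp, h⟩)
  | case4 b l acc h1 ih => exact ih h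

theorem nodup_dd (F : ℕ) (l : List ℕ) : (dd F l).Nodup := nodup_dd' F l List.nodup_nil

theorem idx_ge (a : ℕ) (l : List ℕ) (k : ℕ) : k ≤ idx a l k := by
  induction l generalizing k with
  | nil => rfl
  | cons b l ih =>
    cases h : Nat.beq a b <;> simp only [idx, h, cond_true, cond_false, le_refl]
    exact (Nat.le_succ k).trans (ih _)

theorem map_idx {l : List ℕ} (h : l.Nodup) (k : ℕ) :
    l.map (fun a => idx a l k) = List.range' k l.length := by
  induction l generalizing k with
  | nil => rfl
  | cons b l ih =>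
    rw [List.nodup_cons] at h
    rw [List.map_cons, List.length_cons, List.range'_succ, ← ih h.2]
    congr 1
    · simp [idx]
    · refine List.map_congr_left fun a ha => ?_
      have : Nat.beq a b = false := by
        rw [← Bool.not_eq_true, Nat.beq_eq]
        rintro rfl
        exact h.1 ha
      simp [idx, this]

theorem eraL_perm {l ds rest : List ℕ} (h : eraL l ds = some rest) : ds.Perm (l ++ rest) := by
  induction l generalizing ds with
  | nil => simp_all [eraL]
  | cons a l ih =>
    cases e : mem a ds with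
    | false => simp [eraL, e] at h
    | true =>
      simp only [eraL, e, cond_true] at h
      exact (era_perm (mem_iff.1 e)).trans ((ih h).cons a)

/-- The value of a normal form. -/
def nv (S : ℕ → List ι → A) (F k : ℕ) (fs : List Fac) (ρ : ℕ → ι) : A :=
  sumL (List.range' F k) (fP S fs) ρ

theorem ren_ev (F : ℕ) (fs : List Fac) (ρ : ℕ → ι) :
    sumL (dd F (labs fs)) (fP S fs) ρ =
      nv S F (dd F (labs fs)).length (fs.map (mapF (ren F (dd F (labs fs))))) ρ := by
  set inv := dd F (labs fs) with hinv
  have hge : ∀ a ∈ inv, ren F inv a = idx a inv F := fun a ha => by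
    simp [ren, Nat.ble_eq_true_of_le (mem_dd.1 ha).1]
  have hlt : ∀ a, a < F → ren F inv a = a := fun a ha => by
    have : Nat.ble F a = false := by rw [← Bool.not_eq_true, Nat.ble_eq]; omega
    simp [ren, this]
  have e : inv.map (ren F inv) = List.range' F inv.length := by
    rw [← map_idx (nodup_dd F _)]
    exact List.map_congr_left hge
  have inj : ∀ a ∈ inv, ∀ b ∈ inv, ren F inv b = ren F inv a → b = a := fun a ha b hb h =>
    List.inj_on_of_nodup_map (by rw [e]; exact List.nodup_range') hb ha h
  have e2 : fP S (fs.map (mapF (ren F inv))) = fun ρ => fP S fs (ρ ∘ ren F inv) :=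
    funext fun ρ => fP_map S _ _ ρ
  rw [nv, ← e, e2, sumL_map (dep_fP fs) _ _ _ inj]
  · refine sumL_congr (dep_fP fs) _ fun a ha hn => ?_
    rw [comp_apply, hlt a (not_le.1 fun h => hn (mem_dd.2 ⟨h, ha⟩))]
  · intro a ha b hb h
    by_cases hF : F ≤ b
    · exact inj a ha b (mem_dd.2 ⟨hF, hb⟩) h
    · rw [hlt b (not_le.1 hF), hge a ha] at h
      have := idx_ge a inv F
      omega

/-- The hypotheses under which the normaliser is sound. -/
structure Ok {B : Type} [AddCommGroup B] (S : ℕ → List ι → A) (φ : A →+ B) : Prop where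
  card : Fintype.card ι = C.n
  delta : ∀ i j, S 0 [i, j] = if i = j then 1 else 0
  s1 : Sym C.s1 S
  s2 : Sym C.s2 S
  cj : ∀ ds fs ρ, φ (sumL ds (fP S (fs.map C.cj)) ρ) = φ (sumL ds (fP S fs) ρ)
  two : ∀ x : B, x + x = 0 → x = 0

variable {C} {B : Type} [AddCommGroup B] {φ : A →+ B} (H : Ok C S φ)
include H

theorem nf_ev {t : Tm} {w : ℕ} {x : ℤ × ℕ × List Fac} (h : nf C t w = some x) (ρ : ℕ → ι) :
    φ (t.ev S ρ) = x.1 • φ (nv S C.F x.2.1 x.2.2 ρ) := by
  unfold nf at h
  simp only at h
  set e := elim t.fs t.ds [] []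
  set l := bif Nat.beq (w % 2) 1 then e.2.map C.cj else e.2 with hl
  set r := arr C 8 (w / 2) l
  split at h
  · simp at h
  rename_i rest hr
  cases hb : rest.all (fun a => Nat.ble C.F a && !mem a (dd C.F (labs r.2))) with
  | false => simp [hb] at h
  | true =>
    simp only [hb, cond_true, Option.some.injEq] at h
    subst h
    simp only [List.all_eq_true, Bool.and_eq_true, Nat.ble_eq, Bool.not_eq_true',
      ← Bool.not_eq_true, mem_iff] at hb
    have e1 : sumL t.ds (fP S t.fs) ρ = sumL e.1 (fP S e.2) ρ := by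
      rw [elim_ev H.delta]
      simp [app, comp_def]
    have e2 : φ (sumL e.1 (fP S e.2) ρ) = φ (sumL e.1 (fP S l) ρ) := by
      rw [hl]
      cases Nat.beq (w % 2) 1
      · rfl
      · exact (H.cj _ _ _).symm
    have e3 : fP S l = fun ρ => sg A r.1 * fP S r.2 ρ := funext (arr_ev C H.s1 H.s2 _ _ _)
    have e4 : sumL rest (fP S r.2) = fun ρ => (C.n : A) ^ rest.length * fP S r.2 ρ := by
      funext ρ
      rw [sumL_unused (dep_fP _) _ fun a ha hm => (hb a ha).2 (mem_dd.2 ⟨(hb a ha).1, hm⟩), H.card]
    rw [Tm.ev, ← zsmul_eq_mul, map_zsmul, e1, e2, e3, sumL_mul, sumL_perm (eraL_perm hr),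
      sumL_append, e4, sumL_mul, ren_ev, ← map_zsmul, ← map_zsmul]
    congr 1
    cases r.1 <;> simp [sg, mul_assoc]

omit H in
theorem eqN_eq {l m : List ℕ} (h : eqN l m = true) : l = m := by
  fun_induction eqN l m with
  | case1 => rfl
  | case2 a l b m e ih => rw [Nat.eq_of_beq_eq_true e, ih h]
  | case3 => simp at h
  | case4 => simp at h

omit H in
theorem eqF_eq {l m : List Fac} (h : eqF l m = true) : l = m := by
  fun_induction eqF l m with
  | case1 => rfl
  | case2 a l b m e e' ih => rw [Prod.ext (Nat.eq_of_beq_eq_true e) (eqN_eq e'), ih h]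
  | case3 => simp at h
  | case4 => simp at h
  | case5 => simp at h

/-- The value of a tree. -/
def Tr.val (v : ℕ → List Fac → B) : Tr → B
  | .nil => 0
  | .node l _ k fs c r => l.val v + c • v k fs + r.val v

omit H in
theorem val_ins (v : ℕ → List Fac → B) (h k : ℕ) (fs : List Fac) (c : ℤ) (tr : Tr) :
    (tr.ins h k fs c).val v = c • v k fs + tr.val v := by
  induction tr with
  | nil => simp [Tr.ins, Tr.val]
  | node l h' k' fs' c' r i1 i2 =>
    cases e : Nat.blt h h' with
    | true => simp only [Tr.ins, e, cond_true, Tr.val, i1]; abel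
    | false =>
      cases e' : (Nat.beq h h' && Nat.beq k k' && eqF fs fs') with
      | false => simp only [Tr.ins, e, e', cond_false, Tr.val, i2]; abel
      | true =>
        simp only [Tr.ins, e, e', cond_false, cond_true, Tr.val]
        simp only [Bool.and_eq_true, Nat.beq_eq] at e'
        rw [e'.1.2, eqF_eq e'.2, add_smul]
        abel

omit H in
theorem val_zero (v : ℕ → List Fac → B) {tr : Tr} (h : tr.zero = true) : tr.val v = 0 := by
  induction tr with
  | nil => rfl
  | node l h' k' fs' c' r i1 i2 =>
    simp only [Tr.zero, Bool.and_eq_true, beq_iff_eq] at h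
    simp [Tr.val, i1 h.1.1, i2 h.2, h.1.2]

theorem step_ev {t : Tm} {w : ℕ} {tr tr' : Tr} (h : step C t w tr = some tr') (ρ : ℕ → ι) :
    tr'.val (fun k fs => φ (nv S C.F k fs ρ)) =
      φ (t.ev S ρ) + tr.val fun k fs => φ (nv S C.F k fs ρ) := by
  unfold step at h
  split at h
  · simp at h
  rename_i x hx
  split at h
  · rw [← Option.some.inj h, val_ins, nf_ev H hx]
  split at h
  · simp at h
  rename_i y hy
  cases e : (Nat.beq x.2.1 y.2.1 && eqF x.2.2 y.2.2 && (x.1 + y.1 == 0)) with
  | false => simp [e] at h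
  | true =>
    simp only [e, cond_true, Option.some.injEq] at h
    simp only [Bool.and_eq_true, Nat.beq_eq, beq_iff_eq] at e
    have a := nf_ev H hx ρ
    have b := nf_ev H hy ρ
    rw [← e.1.1, ← eqF_eq e.1.2] at b
    rw [h, H.two (φ (t.ev S ρ)), zero_add]
    nth_rewrite 1 [a]
    rw [b, ← add_smul, e.2, zero_smul]

theorem run_ev {p : Poly} {cur : ℕ} {ws : List ℕ} {tr : Tr} (h : run C p cur ws tr = true)
    (ρ : ℕ → ι) : φ (ev S p ρ) + tr.val (fun k fs => φ (nv S C.F k fs ρ)) = 0 := by
  induction p generalizing cur ws tr with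
  | nil => simpa using val_zero _ h
  | cons t p ih =>
    have key : ∀ {w c ws tr'}, step C t w tr = some tr' → run C p c ws tr' = true →
        φ (ev S (t :: p) ρ) + tr.val (fun k fs => φ (nv S C.F k fs ρ)) = 0 := by
      intro w c ws tr' h1 h2
      rw [← ih h2, step_ev H h1, ev_cons, map_add]
      abel
    unfold run at h
    cases e : Nat.ble cur 1 <;> simp only [e, cond_true, cond_false] at h
    · split at h
      · simp at h
      · exact key ‹_› h
    · split at h
      · simp at h
      · split at h
        · simp at h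
        · exact key ‹_› h

theorem chk_sound {p : Poly} {ws : List ℕ} (h : chk C p ws = true) (ρ : ℕ → ι) :
    φ (ev S p ρ) = 0 := by
  simpa [Tr.val] using run_ev H h ρ

end Pool.Agent.P.MP_3e99c6_gt.G
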