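import Pool.Agent.P.MP_3e99c6_gt.SK.Bas
import Pool.Agent.P.MP_3e99c6_gt.SK.Symm
import Pool.Agent.P.MP_3e99c6_gt.SK.Str

/-! Holomorphic changes of coordinates. -/

set_option linter.unusedSectionVars false

namespace Pool.Agent.P.MP_3e99c6_gt.G.HD

open Finset Matrix

variable {ι A A' : Type} [Fintype ι] [DecidableEq ι] [CommRing A] [Algebra ℂ A] [CommRing A']
  [Algebra ℂ A']

variable {d : HD ι A} {d' : HD ι A'} {φ : A' →ₐ[ℂ] A} {g g' gb gb' : ι → ι → A}

theorem chg_one {a b : ι → ι → A} (h : ∀ y x, ∑ i, a y i * b i x = if y = x then 1 else 0) :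
    (of a : Matrix ι ι A) * of b = 1 := by
  ext i j; simp [mul_apply, h, one_apply]

/-- The entrywise derivative of a matrix. -/
def chgD (D : Derivation ℂ A A) (M : Matrix ι ι A) : Matrix ι ι A := of fun i j => D (M i j)

theorem chgD_mul (D : Derivation ℂ A A) (M N : Matrix ι ι A) :
    chgD D (M * N) = chgD D M * N + M * chgD D N := by
  ext i j
  simp only [chgD, of_apply, mul_apply, map_sum, Derivation.leibniz, smul_eq_mul, Matrix.add_apply,
    ← sum_add_distrib]
  exact sum_congr rfl fun _ _ => by ring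

theorem chgD_one (D : Derivation ℂ A A) : chgD D (1 : Matrix ι ι A) = 0 := by
  ext i j; by_cases h : i = j <;> simp [chgD, one_apply, h]

theorem chgD_inv (D : Derivation ℂ A A) {M N : Matrix ι ι A} (h : N * M = 1) (h' : M * N = 1) :
    chgD D N = -(N * chgD D M * N) := by
  have e := chgD_mul D N M
  rw [h, chgD_one] at e
  have e2 : chgD D N * M = -(N * chgD D M) := eq_neg_of_add_eq_zero_left e.symm
  calc chgD D N = chgD D N * M * N := by rw [Matrix.mul_assoc, h', Matrix.mul_one]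
    _ = _ := by rw [e2, Matrix.neg_mul]

theorem chg_hk : (of fun i j => φ (d'.h i j) : Matrix ι ι A) * of (fun i j => φ (d'.k i j)) = 1 :=
  chg_one fun y x => by
    simp only [← map_mul, ← map_sum, d'.hk]; split_ifs <;> simp

namespace Chg

variable (H : Chg d d' φ g g' gb gb')
include H

theorem h_mat : (of d.h : Matrix ι ι A) = of g * of (fun i j => φ (d'.h i j)) * (of gb)ᵀ := by
  ext i j
  simp only [of_apply, H.h, mul_apply, transpose_apply, sum_mul]
  rw [sum_comm]
  exact sum_congr rfl fun _ _ => sum_congr rfl fun _ _ => by ring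

theorem bb : (of gb : Matrix ι ι A)ᵀ * (of gb')ᵀ = 1 := by
  rw [← transpose_mul, chg_one H.b1, transpose_one]

theorem k_mat : (of d.k : Matrix ι ι A) = (of gb')ᵀ * of (fun i j => φ (d'.k i j)) * of g' := by
  have e : (of d.h : Matrix ι ι A) * ((of gb')ᵀ * of (fun i j => φ (d'.k i j)) * of g') = 1 := by
    rw [H.h_mat]
    calc _ = of g * (of (fun i j => φ (d'.h i j)) * (((of gb)ᵀ * (of gb')ᵀ) *
        of (fun i j => φ (d'.k i j)))) * of g' := by simp only [Matrix.mul_assoc]
      _ = 1 := by rw [H.bb, Matrix.one_mul, chg_hk, Matrix.mul_one, chg_one H.g2]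
  calc (of d.k : Matrix ι ι A) = of d.k * 1 := (Matrix.mul_one _).symm
    _ = _ := by rw [← e, ← Matrix.mul_assoc, chg_one d.kh, Matrix.one_mul]

theorem bk_mat : (of gb : Matrix ι ι A)ᵀ * of d.k = of (fun i j => φ (d'.k i j)) * of g' := by
  rw [H.k_mat, ← Matrix.mul_assoc, ← Matrix.mul_assoc, H.bb, Matrix.one_mul]

theorem bk (u a : ι) : ∑ j, gb j u * d.k j a = ∑ z, φ (d'.k u z) * g' z a := by
  simpa [mul_apply] using congrFun (congrFun H.bk_mat u) a

theorem F_eq (a : ι) (f : A') : d.F a (φ f) = ∑ z, g' z a * φ (d'.F z f) := by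
  simp only [F_apply, H.Db, map_sum, map_mul, mul_sum]
  rw [sum_comm]
  conv_rhs => rw [sum_comm]
  refine sum_congr rfl fun x _ => ?_
  have e := congrArg (· * φ (d'.Db x f)) (H.bk x a)
  simp only [sum_mul] at e
  calc _ = ∑ j, gb j x * d.k j a * φ (d'.Db x f) := sum_congr rfl fun _ _ => by ring
    _ = _ := e.trans (sum_congr rfl fun _ _ => by ring)

theorem F_g (a i x : ι) : d.F a (g i x) = 0 := by simp [F_apply, H.hol]

theorem F_g' (a i x : ι) : d.F a (g' i x) = 0 := by
  have e := chgD_inv (d.F a) (chg_one H.g1) (chg_one H.g2)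
  have e0 : chgD (d.F a) (of g : Matrix ι ι A) = 0 := by ext i j; simp [chgD, H.F_g]
  rw [e0, Matrix.mul_zero, Matrix.zero_mul, neg_zero] at e
  simpa [chgD] using congrFun (congrFun e i) x

theorem Γ_mat (m : ι) : (of (d.Γ m) : Matrix ι ι A) = chgD (d.D m) (of g) * of g' +
    of g * of (fun i x => ∑ u, g m u * φ (d'.Γ u i x)) * of g' := by
  have e1 : (of (d.Γ m) : Matrix ι ι A) = chgD (d.D m) (of d.h) * of d.k := by
    ext i j; simp [Γ, chgD, mul_apply]
  have e2 : chgD (d.D m) (of gb : Matrix ι ι A)ᵀ = 0 := by ext i j; simp [chgD, H.holb]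
  have e3 : chgD (d.D m) (of (fun i j => φ (d'.h i j))) * of (fun i j => φ (d'.k i j)) =
      (of (fun i x => ∑ u, g m u * φ (d'.Γ u i x)) : Matrix ι ι A) := by
    ext i j
    simp only [chgD, mul_apply, of_apply, H.D, Γ, map_sum, map_mul, sum_mul, mul_sum]
    rw [sum_comm]
    exact sum_congr rfl fun _ _ => sum_congr rfl fun _ _ => by ring
  rw [e1, H.h_mat, chgD_mul, e2, Matrix.mul_zero, add_zero, Matrix.mul_assoc, H.bk_mat, chgD_mul,
    Matrix.add_mul, Matrix.mul_assoc, ← Matrix.mul_assoc (of fun i j => φ (d'.h i j)), chg_hk,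
    Matrix.one_mul, ← e3]
  simp only [Matrix.mul_assoc]

theorem cov_eq {ks : List Bool} {S : List ι → A} {S' : List ι → A'}
    (h : ∀ l, S l = act g g' ks (fun l => φ (S' l)) l) (l : List ι) :
    d.cov ks S l = act g g' (true :: ks) (fun l => φ (d'.cov ks S' l)) l := by
  obtain rfl : S = act g g' ks fun l => φ (S' l) := funext h
  cases l with
  | nil => simp [cov, act]
  | cons m l =>
    have e1 : chgD (d.D m) (of g : Matrix ι ι A) = of (d.Γ m) * of g -
        of g * of (fun i x => ∑ u, g m u * φ (d'.Γ u i x)) := by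
      rw [H.Γ_mat, Matrix.add_mul, Matrix.mul_assoc, Matrix.mul_assoc, chg_one H.g1]; simp
    have e2 : chgD (d.D m) (of g' : Matrix ι ι A) =
        of (fun i x => ∑ u, g m u * φ (d'.Γ u i x)) * of g' - of g' * of (d.Γ m) := by
      rw [chgD_inv _ (chg_one H.g1) (chg_one H.g2), H.Γ_mat, Matrix.mul_add, ← Matrix.mul_assoc,
        ← Matrix.mul_assoc, ← Matrix.mul_assoc, chg_one H.g1]; simp
    rw [cov, der_act g g' (fun i x => ∑ u, g m u * φ (d'.Γ u i x)) ks _ l (d.D m) (d.Γ m)
      (fun i x => by simpa [chgD, mul_apply] using congrFun (congrFun e1 i) x)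
      (fun i x => by simpa [chgD, mul_apply] using congrFun (congrFun e2 i) x)]
    simp only [act, cond_true, ← act_mul, ← act_sum]
    congr 1
    funext l
    rw [dact_sum_left, H.D, ← sum_add_distrib]
    refine sum_congr rfl fun u _ => ?_
    rw [dact_mul_left, cov, map_add, mul_add]
    congr 2
    exact (map_dact _ _ _ _ (φ : A' →+* A)).symm

theorem bar_eq {ks : List Bool} {S : List ι → A} {S' : List ι → A'}
    (h : ∀ l, S l = act g g' ks (fun l => φ (S' l)) l) (l : List ι) :
    d.bar S l = act g g' (false :: ks) (fun l => φ (d'.bar S' l)) l := by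
  obtain rfl : S = act g g' ks fun l => φ (S' l) := funext h
  cases l with
  | nil => simp [bar, act]
  | cons m l =>
    have e := der_act g g' (fun _ _ => 0) ks (fun l => φ (S' l)) l (d.F m) (fun _ _ => 0)
      (fun i x => by simp [H.F_g]) (fun i x => by simp [H.F_g'])
    simp only [dact_zero_left, add_zero] at e
    rw [bar, e]
    simp only [act, cond_false, ← act_mul, ← act_sum, bar, H.F_eq]

theorem T_eq (i k j : ι) :
    d.T i k j = ∑ x, g i x * ∑ y, g k y * ∑ z, g' z j * φ (d'.T x y z) := by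
  have e : ∀ m i x, d.Γ m i x = ∑ z, d.D m (g i z) * g' z x +
      ∑ u, g m u * ∑ v, g i v * ∑ w, g' w x * φ (d'.Γ u v w) := fun m i x => by
    have e := congrFun (congrFun (H.Γ_mat m) i) x
    simp only [of_apply, Matrix.add_apply, mul_apply, chgD, sum_mul, mul_sum] at e ⊢
    rw [e]
    congr 1
    rw [sum_comm]
    conv_rhs => rw [sum_comm]
    refine sum_congr rfl fun v _ => ?_
    rw [sum_comm]
    exact sum_congr rfl fun _ _ => sum_congr rfl fun _ _ => by ring
  simp only [T, e, H.sym i k, map_sub, mul_sub, sum_sub_distrib, add_sub_add_left_eq_sub]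
  congr 1
  simp only [mul_sum]
  rw [sum_comm]
  exact sum_congr rfl fun _ _ => sum_congr rfl fun _ _ => sum_congr rfl fun _ _ => by ring

theorem Tb_eq (a b i : ι) :
    d.Tb a b i = ∑ p, g' p a * ∑ q, g' q b * ∑ x, g i x * φ (d'.Tb p q x) := by
  let W : Matrix ι ι A := of fun j l => d.Db j (d.h i l) - d.Db l (d.h i j)
  let W' : ι → Matrix ι ι A := fun x => of fun j l => φ (d'.Db j (d'.h x l) - d'.Db l (d'.h x j))
  let K' : Matrix ι ι A := of fun i j => φ (d'.k i j)
  have e0 : ∀ j l, d.Db j (d.h i l) = ∑ x, g i x * (∑ y, d.Db j (gb l y) * φ (d'.h x y) +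
      ∑ y, (∑ u, gb j u * φ (d'.Db u (d'.h x y))) * gb l y) := fun j l => by
    simp only [H.h, map_sum, Derivation.leibniz, H.hol, H.Db, smul_eq_mul, mul_add, mul_sum,
      ← sum_add_distrib]
    exact sum_congr rfl fun _ _ => sum_congr rfl fun _ _ => by rw [← mul_sum]; ring
  have e1 : W = ∑ x, g i x • (of gb * W' x * (of gb)ᵀ) := by
    ext j l
    simp only [W, W', of_apply, e0, Matrix.sum_apply, Matrix.smul_apply, smul_eq_mul, mul_apply,
      transpose_apply, ← sum_sub_distrib, ← mul_sub, H.symb j l, add_sub_add_left_eq_sub]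
    refine sum_congr rfl fun x _ => ?_
    simp only [map_sub, mul_sub, sum_sub_distrib, sub_mul, sum_mul]
    congr 2
    rw [sum_comm]
    exact sum_congr rfl fun _ _ => sum_congr rfl fun _ _ => by ring
  have e2 : ∀ x, (of fun p q => φ (d'.Tb p q x) : Matrix ι ι A) = K'ᵀ * W' x * K' := fun x => by
    ext p q
    simp only [K', W', Tb, of_apply, mul_apply, transpose_apply, map_sum, map_mul, sum_mul]
    rw [sum_comm]
    exact sum_congr rfl fun _ _ => sum_congr rfl fun _ _ => by ring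
  have e3 : d.Tb a b i = ((of d.k)ᵀ * W * of d.k) a b := by
    simp only [W, Tb, of_apply, mul_apply, transpose_apply, sum_mul]
    rw [sum_comm]
    exact sum_congr rfl fun _ _ => sum_congr rfl fun _ _ => by ring
  have e4 : ∀ x, (of d.k)ᵀ * (of gb * W' x * (of gb)ᵀ) * of d.k =
      (of g')ᵀ * (of fun p q => φ (d'.Tb p q x)) * of g' := fun x => by
    calc _ = ((of gb)ᵀ * of d.k)ᵀ * W' x * ((of gb)ᵀ * of d.k) := by
          simp only [transpose_mul, transpose_transpose, Matrix.mul_assoc]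
      _ = _ := by rw [H.bk_mat, e2]; simp only [K', transpose_mul, Matrix.mul_assoc]
  rw [e3, e1, Matrix.mul_sum, Matrix.sum_mul]
  simp only [Matrix.mul_smul, Matrix.smul_mul, e4, Matrix.sum_apply, Matrix.smul_apply, smul_eq_mul,
    mul_apply, transpose_apply, of_apply, sum_mul, mul_sum]
  rw [sum_comm]
  conv_rhs => rw [sum_comm]
  refine sum_congr rfl fun q _ => ?_
  rw [sum_comm]
  exact sum_congr rfl fun _ _ => sum_congr rfl fun _ _ => by ring

end Chg

/-- A fourfold weighted sum. -/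
def chgQ (c1 c2 c3 c4 : ι → A) (f : ι → ι → ι → ι → A) : A :=
  ∑ x, c1 x * ∑ y, c2 y * ∑ z, c3 z * ∑ w, c4 w * f x y z w

theorem chgQ_prod (c1 c2 c3 c4 : ι → A) (f : ι → ι → ι → ι → A) : chgQ c1 c2 c3 c4 f =
    ∑ p : ι × ι × ι × ι, c1 p.1 * c2 p.2.1 * c3 p.2.2.1 * c4 p.2.2.2 *
      f p.1 p.2.1 p.2.2.1 p.2.2.2 := by
  simp only [chgQ, Fintype.sum_prod_type, mul_sum, mul_assoc]

theorem chgQ_rot (c1 c2 c3 c4 : ι → A) (f : ι → ι → ι → ι → A) :
    chgQ c4 c1 c2 c3 f = chgQ c1 c2 c3 c4 fun x y z w => f w x y z := by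
  rw [chgQ_prod, chgQ_prod]
  exact Fintype.sum_equiv ⟨fun p => (p.2.1, p.2.2.1, p.2.2.2, p.1),
    fun p => (p.2.2.2, p.1, p.2.1, p.2.2.1), fun _ => rfl, fun _ => rfl⟩ _ _ fun _ => by
      simp only [Equiv.coe_fn_mk]; ring

theorem chgQ_swap (c1 c2 c3 c4 : ι → A) (f : ι → ι → ι → ι → A) :
    chgQ c1 c2 c4 c3 f = chgQ c1 c2 c3 c4 fun x y z w => f x y w z := by
  rw [chgQ_prod, chgQ_prod]
  exact Fintype.sum_equiv ⟨fun p => (p.1, p.2.1, p.2.2.2, p.2.2.1),
    fun p => (p.1, p.2.1, p.2.2.2, p.2.2.1), fun _ => rfl, fun _ => rfl⟩ _ _ fun _ => by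
      simp only [Equiv.coe_fn_mk]; ring

theorem chgQ_lin (c1 c2 c3 c4 : ι → A) (f f' : ι → ι → ι → ι → A) (a b : A) :
    chgQ c1 c2 c3 c4 (fun x y z w => a * f x y z w + b * f' x y z w) =
      a * chgQ c1 c2 c3 c4 f + b * chgQ c1 c2 c3 c4 f' := by
  simp only [chgQ_prod, mul_sum, ← sum_add_distrib]
  exact sum_congr rfl fun _ _ => by ring

theorem chg_len {τ : ℕ} (h : ∀ l : List ι, l.length = (kd τ).length →
    d.att τ l = act g g' (kd τ) (fun l => φ (d'.att τ l)) l) (l : List ι) :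
    d.att τ l = act g g' (kd τ) (fun l => φ (d'.att τ l)) l := by
  by_cases e : l.length = (kd τ).length
  · exact h l e
  · rw [att_len _ _ _ e, act_congr g g' _ _ (fun _ => 0) l fun l' hl => by
      rw [att_len _ _ _ (hl ▸ e), map_zero], act_zero]

theorem Chg.att2 (H : Chg d d' φ g g' gb gb') (l : List ι) :
    d.att 2 l = act g g' (kd 2) (fun l => φ (d'.att 2 l)) l := by
  refine chg_len (fun l hl => ?_) l
  obtain ⟨i, k, j, rfl⟩ := List.length_eq_three.1 hl
  simp only [att_lt _ (show 2 < 16 by omega)]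
  exact H.T_eq i k j

theorem Chg.att3 (H : Chg d d' φ g g' gb gb') (l : List ι) :
    d.att 3 l = act g g' (kd 3) (fun l => φ (d'.att 3 l)) l := by
  refine chg_len (fun l hl => ?_) l
  obtain ⟨i, k, j, rfl⟩ := List.length_eq_three.1 hl
  simp only [att_lt _ (show 3 < 16 by omega)]
  exact H.Tb_eq i k j

theorem Chg.FT (H : Chg d d' φ g g' gb gb') (i k j l : ι) : d.F l (d.T i k j) =
    chgQ (g i) (g k) (g' · j) (g' · l) fun x y z w => φ (d'.F w (d'.T x y z)) := by
  have e := H.bar_eq H.att2 [l, i, k, j]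
  simp only [att_lt _ (show 2 < 16 by omega)] at e
  exact e.trans (chgQ_rot (g i) (g k) (g' · j) (g' · l) fun w x y z => φ (d'.F w (d'.T x y z)))

theorem Chg.Ab_eq (H : Chg d d' φ g g' gb gb') (m j l i : ι) : d.Ab m j l i =
    chgQ (g' · j) (g' · l) (g i) (g m) fun x y z w => φ (d'.Ab w x y z) := by
  have e := H.cov_eq H.att3 [m, j, l, i]
  simp only [att_lt _ (show 3 < 16 by omega)] at e
  exact e.trans (chgQ_rot (g' · j) (g' · l) (g i) (g m) fun w x y z => φ (d'.Ab w x y z))

theorem chg_four {l : List ι} (h : l.length = 4) : ∃ a b c e, l = [a, b, c, e] := by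
  match l, h with
  | [a, b, c, e], _ => exact ⟨a, b, c, e, rfl⟩

theorem Chg.att0 (H : Chg d d' φ g g' gb gb') {τ : ℕ} (hτ : τ ≤ 6) (l : List ι) :
    d.att τ l = act g g' (kd τ) (fun l => φ (d'.att τ l)) l := by
  refine chg_len (fun l hl => ?_) l
  have hs : ∀ (x : A'), φ ((1 / 2 : ℂ) • x) = algebraMap ℂ A (1 / 2) * φ x := fun x => by
    rw [map_smul, Algebra.smul_def]
  interval_cases τ
  · obtain ⟨i, j, rfl⟩ := List.length_eq_two.1 hl
    simp only [att_lt _ (show 0 < 16 by omega)]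
    change (if i = j then (1 : A) else 0) =
      ∑ x, g i x * ∑ y, g' y j * φ (if x = y then 1 else 0)
    simp [apply_ite φ, H.g2]
  · obtain rfl := List.length_eq_zero_iff.1 hl
    simp only [att_lt _ (show 1 < 16 by omega)]
    change d.at0 1 [] = φ (d'.at0 1 [])
    simp [at0, H.c]
  · exact H.att2 l
  · exact H.att3 l
  · obtain ⟨i, k, j, m, rfl⟩ := chg_four hl
    simp only [att_lt _ (show 4 < 16 by omega)]
    change d.P i k j m = chgQ (g i) (g k) (g' · j) (g' · m) fun x y z w => φ (d'.P x y z w)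
    simp only [P, hs, map_add, mul_add, chgQ_lin]
    rw [H.FT, H.FT, chgQ_swap (g i) (g k) (g' · j) (g' · m), Algebra.smul_def, mul_add]
  · obtain ⟨i, k, j, m, rfl⟩ := chg_four hl
    simp only [att_lt _ (show 5 < 16 by omega)]
    change d.Pb i k j m = chgQ (g' · i) (g' · k) (g j) (g m) fun x y z w => φ (d'.Pb x y z w)
    simp only [Pb, hs, map_add, mul_add, chgQ_lin]
    rw [H.Ab_eq, H.Ab_eq j, chgQ_swap (g' · i) (g' · k) (g j) (g m), Algebra.smul_def, mul_add]
  · obtain ⟨i, k, j, m, rfl⟩ := chg_four hl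
    simp only [att_lt _ (show 6 < 16 by omega)]
    change d.K i k j m = chgQ (g i) (g k) (g' · j) (g' · m) fun x y z w => φ (d'.K x y z w)
    simp only [K, hs, map_sub, mul_sub]
    simp only [sub_eq_add_neg, ← neg_mul, chgQ_lin]
    rw [H.FT, H.FT, chgQ_swap (g i) (g k) (g' · j) (g' · m), Algebra.smul_def]
    ring

theorem Chg.att (H : Chg d d' φ g g' gb gb') {f τ : ℕ} (hτ : good f τ = true) (l : List ι) :
    d.att τ l = act g g' (kd τ) (fun l => φ (d'.att τ l)) l := by
  induction f generalizing τ l with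
  | zero => simp [good] at hτ
  | succ f ih =>
    rw [good] at hτ
    cases e : Nat.ble 16 τ with
    | false =>
      rw [e, cond_false] at hτ
      exact H.att0 (Nat.le_of_ble_eq_true hτ) l
    | true =>
      rw [e, cond_true] at hτ
      have h16 := Nat.le_of_ble_eq_true e
      have ih' := fun l => ih hτ l
      generalize hσ : (τ - 16) / 2 = σ at ih'
      rcases Nat.mod_two_eq_zero_or_one τ with e2 | e2
      · obtain rfl : τ = uD σ := by unfold uD; omega
        simp only [att_uD, kd_uD]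
        exact H.cov_eq ih' l
      · obtain rfl : τ = uF σ := by unfold uF; omega
        simp only [att_uF, kd_uF]
        exact H.bar_eq ih' l

end Pool.Agent.P.MP_3e99c6_gt.G.HD
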