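import Pool.Agent.P.MP_3e99c6_gt.SK.Bas

/-! Commutators of covariant derivatives. -/

set_option linter.unusedSectionVars false

namespace Pool.Agent.P.MP_3e99c6_gt.G.HD

open Finset

variable {ι A : Type} [Fintype ι] [DecidableEq ι] [CommRing A] [Algebra ℂ A] (d : HD ι A)

theorem cov_cov (ks : List Bool) (S : List ι → A) (l m : ι) (r : List ι) :
    d.cov (true :: ks) (d.cov ks S) (l :: m :: r) =
      d.D l (d.D m (S r)) + dact (fun i x => d.D l (d.Γ m i x)) ks S r +
        dact (d.Γ m) ks (fun r => d.D l (S r)) r - ∑ x, d.Γ l m x * d.cov ks S (x :: r) +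
        dact (d.Γ l) ks (fun r => d.D m (S r)) r + dact (d.Γ l) ks (dact (d.Γ m) ks S) r := by
  have e1 : d.cov (true :: ks) (d.cov ks S) (l :: m :: r) =
      d.D l (d.D m (S r) + dact (d.Γ m) ks S r) + (∑ x, -d.Γ l m x * d.cov ks S (x :: r) +
        dact (d.Γ l) ks (fun r => d.D m (S r) + dact (d.Γ m) ks S r) r) := rfl
  rw [e1, map_add, der_dact, dact_add]
  simp only [neg_mul, Finset.sum_neg_distrib]
  ring

theorem com (ks : List Bool) (S : List ι → A) (l m : ι) (r : List ι) :
    d.cov (true :: ks) (d.cov ks S) (l :: m :: r) - d.cov (true :: ks) (d.cov ks S) (m :: l :: r) +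
      ∑ q, d.T l m q * d.cov ks S (q :: r) = 0 := by
  have h1 := dact_comm (d.Γ l) ks S r (d.Γ m)
  have h2 : dact (fun i x => d.D l (d.Γ m i x)) ks S r +
      dact (fun i x => ∑ y, d.Γ m i y * d.Γ l y x - ∑ y, d.Γ l i y * d.Γ m y x) ks S r =
      dact (fun i x => d.D m (d.Γ l i x)) ks S r := by
    rw [← dact_add_left]
    congr 1
    funext i x
    linear_combination d.flat l m i x
  have h3 : ∑ q, d.T l m q * d.cov ks S (q :: r) =
      ∑ x, d.Γ l m x * d.cov ks S (x :: r) - ∑ x, d.Γ m l x * d.cov ks S (x :: r) := by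
    simp only [T, sub_mul, Finset.sum_sub_distrib]
  rw [cov_cov, cov_cov, h3, d.DD l m]
  linear_combination h1 + h2

theorem mix (ks : List Bool) (S : List ι → A) (m a : ι) (r : List ι) :
    d.cov (false :: ks) (d.bar S) (m :: a :: r) - d.bar (d.cov ks S) (a :: m :: r) =
      dact (d.R m a) ks S r := by
  have e1 : d.cov (false :: ks) (d.bar S) (m :: a :: r) =
      d.D m (d.F a (S r)) + (∑ x, d.Γ m x a * d.F x (S r) +
        dact (d.Γ m) ks (fun r => d.F a (S r)) r) := rfl
  have e2 : d.bar (d.cov ks S) (a :: m :: r) = d.F a (d.D m (S r) + dact (d.Γ m) ks S r) := rfl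
  have e3 : d.R m a = fun i x => (-1 : A) * d.F a (d.Γ m i x) := by
    funext i x
    rw [R, neg_one_mul]
  rw [e1, e2, e3, dact_mul_left, map_add, der_dact, D_F]
  ring

end Pool.Agent.P.MP_3e99c6_gt.G.HD
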