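import Pool.Agent.P.MP_3e99c6_gt.SK.Bas

/-! The basic relations hold, part two. -/

set_option linter.unusedSectionVars false

namespace Pool.Agent.P.MP_3e99c6_gt.G.HD

open Finset

variable {ι A : Type} [Fintype ι] [DecidableEq ι] [CommRing A] [Algebra ℂ A] (d : HD ι A)

/-- The lowered curvature. -/
noncomputable def Z2_E (i k j q : ι) : A :=
  d.D i (d.Db j (d.h k q)) - ∑ t, d.Γ i k t * d.Db j (d.h t q)

theorem Z2_R (i a k l : ι) : d.R i a k l = -∑ j, ∑ q, d.k j a * d.k q l * d.Z2_E i k j q := by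
  rw [R, F_apply]
  congr 1
  refine sum_congr rfl fun j _ => ?_
  rw [Db_Γ, mul_sum]
  refine sum_congr rfl fun q _ => ?_
  have e : ∑ s, ∑ t, d.D i (d.h k s) * d.k s t * d.Db j (d.h t q) =
      ∑ t, d.Γ i k t * d.Db j (d.h t q) := by
    rw [sum_comm]
    exact sum_congr rfl fun t _ => by rw [Γ, sum_mul]
  rw [e, Z2_E]
  ring

theorem Z2_DTb (i a l k : ι) : d.D i (d.Tb a l k) =
    ∑ j, ∑ q, d.k j a * d.k q l * (d.D i (d.Db j (d.h k q)) - d.D i (d.Db q (d.h k j))) -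
      ∑ x, d.Γ i x a * d.Tb x l k - ∑ x, d.Γ i x l * d.Tb a x k := by
  have e1 : ∑ x, d.Γ i x a * d.Tb x l k = ∑ j, ∑ q, (∑ x, d.k j x * d.Γ i x a) * d.k q l *
      (d.Db j (d.h k q) - d.Db q (d.h k j)) := by
    simp only [Tb, mul_sum, sum_mul]
    rw [sum_comm]
    refine sum_congr rfl fun j _ => ?_
    rw [sum_comm]
    exact sum_congr rfl fun q _ => sum_congr rfl fun x _ => by ring
  have e2 : ∑ x, d.Γ i x l * d.Tb a x k = ∑ j, ∑ q, d.k j a * (∑ x, d.k q x * d.Γ i x l) *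
      (d.Db j (d.h k q) - d.Db q (d.h k j)) := by
    simp only [Tb, mul_sum, sum_mul]
    rw [sum_comm]
    refine sum_congr rfl fun j _ => ?_
    rw [sum_comm]
    exact sum_congr rfl fun q _ => sum_congr rfl fun x _ => by ring
  rw [e1, e2, Tb, map_sum, ← sum_sub_distrib, ← sum_sub_distrib]
  refine sum_congr rfl fun j _ => ?_
  rw [map_sum, ← sum_sub_distrib, ← sum_sub_distrib]
  refine sum_congr rfl fun q _ => ?_
  simp only [Derivation.leibniz, smul_eq_mul, map_sub, D_k]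
  ring

theorem Z2_cTb (i a l k : ι) : d.att 22 [i, a, l, k] =
    ∑ j, ∑ q, d.k j a * d.k q l * (d.Z2_E i k j q - d.Z2_E i k q j) := by
  have e0 : d.att 22 [i, a, l, k] = d.D i (d.Tb a l k) + (∑ x, d.Γ i x a * d.Tb x l k +
      (∑ x, d.Γ i x l * d.Tb a x k + (∑ x, -d.Γ i k x * d.Tb a l x + 0))) := by
    rw [show (22 : ℕ) = uD 3 from rfl, att_uD, att_lt _ (by norm_num)]
    rfl
  have e1 : ∑ x, -d.Γ i k x * d.Tb a l x = -∑ j, ∑ q, d.k j a * d.k q l *
      (∑ t, d.Γ i k t * d.Db j (d.h t q) - ∑ t, d.Γ i k t * d.Db q (d.h t j)) := by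
    simp only [Tb, mul_sum, ← sum_sub_distrib, ← sum_neg_distrib]
    rw [sum_comm]
    refine sum_congr rfl fun j _ => ?_
    rw [sum_comm]
    exact sum_congr rfl fun q _ => sum_congr rfl fun x _ => by ring
  have e2 : ∑ j, ∑ q, d.k j a * d.k q l * (d.Z2_E i k j q - d.Z2_E i k q j) =
      ∑ j, ∑ q, d.k j a * d.k q l * (d.D i (d.Db j (d.h k q)) - d.D i (d.Db q (d.h k j))) -
      ∑ j, ∑ q, d.k j a * d.k q l *
      (∑ t, d.Γ i k t * d.Db j (d.h t q) - ∑ t, d.Γ i k t * d.Db q (d.h t j)) := by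
    rw [← sum_sub_distrib]
    refine sum_congr rfl fun j _ => ?_
    rw [← sum_sub_distrib]
    refine sum_congr rfl fun q _ => ?_
    simp only [Z2_E]
    ring
  rw [e0, e1, e2, Z2_DTb]
  ring

theorem zRB : Zr d.att rRB := by
  intro ρ
  have e7 : ∀ i a k l, d.att 7 [i, a, k, l] = d.R i a k l := fun i a k l => by
    rw [att_lt _ (by norm_num)]; rfl
  have e : d.R (ρ 0) (ρ 3) (ρ 2) (ρ 1) =
      -∑ j, ∑ q, d.k j (ρ 1) * d.k q (ρ 3) * d.Z2_E (ρ 0) (ρ 2) q j := by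
    rw [Z2_R, sum_comm]
    congr 1
    exact sum_congr rfl fun j _ => sum_congr rfl fun q _ => by ring
  simp only [rRB, ev_cons, ev_nil, Tm.ev, sumL, fP_cons, fP_nil, List.map_cons, List.map_nil, e7,
    Z2_cTb, e]
  rw [Z2_R]
  simp only [mul_sub, sum_sub_distrib]
  push_cast
  ring

theorem Z2_cR (m i a k l : ι) : d.att 30 [m, i, a, k, l] = -d.F a (d.D m (d.Γ i k l)) -
    ∑ x, d.Γ m i x * d.R x a k l - ∑ x, d.Γ m k x * d.R i a x l + ∑ x, d.Γ m x l * d.R i a k x := by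
  have e0 : d.att 30 [m, i, a, k, l] = d.D m (d.R i a k l) + (∑ x, -d.Γ m i x * d.R x a k l +
      (∑ x, d.Γ m x a * d.R i x k l + (∑ x, -d.Γ m k x * d.R i a x l +
        (∑ x, d.Γ m x l * d.R i a k x + 0)))) := by
    rw [show (30 : ℕ) = uD 7 from rfl, att_uD, att_lt _ (by norm_num)]
    rfl
  have e1 : d.D m (d.R i a k l) = -d.F a (d.D m (d.Γ i k l)) - ∑ x, d.Γ m x a * d.R i x k l := by
    simp only [R, map_neg, D_F, mul_neg, sum_neg_distrib]
    ring
  rw [e0, e1]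
  simp only [neg_mul, sum_neg_distrib]
  ring

theorem Z2_flat (m i a k l : ι) : d.F a (d.D m (d.Γ i k l)) - d.F a (d.D i (d.Γ m k l)) =
    (-∑ x, d.Γ m k x * d.R i a x l - ∑ x, d.Γ i x l * d.R m a k x) -
      (-∑ x, d.Γ i k x * d.R m a x l - ∑ x, d.Γ m x l * d.R i a k x) := by
  rw [← map_sub, flat, map_sub, map_sum, map_sum]
  simp only [Derivation.leibniz, smul_eq_mul, R, mul_neg, sum_neg_distrib, sum_add_distrib]
  ring

theorem zBi : Zr d.att rBi := by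
  intro ρ
  have e7 : ∀ i a k l, d.att 7 [i, a, k, l] = d.R i a k l := fun i a k l => by
    rw [att_lt _ (by norm_num)]; rfl
  have e2 : ∀ i a k, d.att 2 [i, a, k] = d.T i a k := fun i a k => by
    rw [att_lt _ (by norm_num)]; rfl
  have h := d.Z2_flat (ρ 0) (ρ 1) (ρ 2) (ρ 3) (ρ 4)
  simp only [rBi, ev_cons, ev_nil, Tm.ev, sumL, fP_cons, fP_nil, List.map_cons, List.map_nil, e7,
    e2, Z2_cR, Function.update_self, ne_eq, Function.update_of_ne, T, mul_one, sub_mul,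
    sum_sub_distrib, OfNat.zero_ne_ofNat, OfNat.one_ne_ofNat, not_false_eq_true,
    Nat.reduceEqDiff]
  push_cast
  linear_combination -h

end Pool.Agent.P.MP_3e99c6_gt.G.HD
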