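import Pool.Agent.P.MP_3e99c6_gt.SK.Z1
import Pool.Agent.P.MP_3e99c6_gt.SK.Z2
import Pool.Agent.P.MP_3e99c6_gt.SK.Symm
import Pool.Agent.P.MP_3e99c6_gt.SK.Str

/-! Complex conjugation of the tensors. -/

set_option linter.unusedSectionVars false

namespace Pool.Agent.P.MP_3e99c6_gt.G.HD

open Finset

variable {ι A : Type} [Fintype ι] [DecidableEq ι] [CommRing A] [Algebra ℂ A]

variable {d : HD ι A} {σ : A →+* A}

theorem St.db (H : d.St σ) (m : ι) (x : A) : σ (d.Db m x) = d.D m (σ x) := by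
  have e := H.D m (σ x)
  rw [H.inv] at e
  rw [← e, H.inv]

theorem St.kk (H : d.St σ) (a m : ι) : σ (d.k a m) = d.k m a := by
  have e : ∀ i, ∑ l, d.h l i * σ (d.k l m) = if i = m then 1 else 0 := by
    intro i
    have := congrArg σ (d.hk i m)
    rw [map_sum] at this
    simp only [map_mul, H.h] at this
    rw [this]
    split_ifs <;> simp
  calc σ (d.k a m) = ∑ l, (if l = a then 1 else 0) * σ (d.k l m) := by simp
    _ = ∑ l, (∑ i, d.h l i * d.k i a) * σ (d.k l m) := by simp only [d.hk]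
    _ = ∑ i, (∑ l, d.h l i * σ (d.k l m)) * d.k i a := by
        simp only [Finset.sum_mul]
        rw [Finset.sum_comm]
        exact Finset.sum_congr rfl fun _ _ => Finset.sum_congr rfl fun _ _ => by ring
    _ = d.k m a := by simp [e]

theorem St.half (H : d.St σ) (x : A) : σ ((1 / 2 : ℂ) • x) = (1 / 2 : ℂ) • σ x := by
  rw [Algebra.smul_def, Algebra.smul_def, map_mul, H.alg]
  congr 2
  rw [map_div₀, map_one]
  congr 1
  exact map_ofNat _ 2

theorem St.gam (H : d.St σ) (m i x : ι) :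
    σ (d.Γ m i x) = ∑ z, d.k x z * d.Db m (d.h z i) := by
  rw [Γ, map_sum]
  refine Finset.sum_congr rfl fun z _ => ?_
  rw [map_mul, H.D, H.h, H.kk, mul_comm]

/-- `S'` is the conjugate of `S`, after raising and lowering all indices. -/
def Cj (d : HD ι A) (σ : A →+* A) (ks : List Bool) (S S' : List ι → A) : Prop :=
  ∀ l : List ι, l.length = ks.length → σ (S l) = act d.k d.h (ks.map not) S' l

theorem map_not_not (ks : List Bool) : (ks.map not).map not = ks := by
  induction ks with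
  | nil => rfl
  | cons b ks ih => simp [ih]

theorem Cj.symm (H : d.St σ) {ks : List Bool} {S S' : List ι → A} (h : Cj d σ ks S S') :
    Cj d σ (ks.map not) S' S := by
  intro l hl
  rw [List.length_map] at hl
  have e : ∀ l' : List ι, l'.length = l.length →
      S l' = act d.h d.k ks (fun l => σ (S' l)) l' := by
    intro l' hl'
    rw [← H.inv (S l'), h l' (hl'.trans hl), map_act, act_not]
    simp only [H.h, H.kk]
  rw [map_not_not, act_congr _ _ _ _ _ _ e, act_comp]
  simp only [d.kh]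
  rw [act_one]

theorem Cj.cov (H : d.St σ) {ks : List Bool} {S S' : List ι → A} (h : Cj d σ ks S S') :
    Cj d σ (true :: ks) (d.cov ks S) (d.bar S') := by
  intro l hl
  obtain _ | ⟨m, l⟩ := l
  · simp at hl
  have hl' : l.length = ks.length := by simpa using hl
  have e1 : act d.k d.h ((true :: ks).map not) (d.bar S') (m :: l) =
      act d.k d.h (ks.map not) (fun l => d.Db m (S' l)) l := by
    have e : (fun l => d.Db m (S' l)) = fun l => ∑ x, d.h x m * d.F x (S' l) :=
      funext fun l => (d.h_F m _).symm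
    rw [e, act_sum]
    simp only [act_mul]
    rfl
  have e2 := der_act d.k d.h (fun _ _ => (0 : A)) (ks.map not) S' l (d.Db m)
    (fun i y => -∑ z, d.k i z * d.Db m (d.h z y))
    (fun i x => by
      rw [d.Db_k, Finset.sum_comm]
      simp [Finset.sum_mul])
    (fun x i => by
      have : ∑ y, d.h x y * -∑ z, d.k y z * d.Db m (d.h z i) =
          -∑ z, (∑ y, d.h x y * d.k y z) * d.Db m (d.h z i) := by
        simp only [mul_neg, Finset.sum_neg_distrib, Finset.mul_sum, Finset.sum_mul]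
        rw [Finset.sum_comm]
        simp only [mul_assoc]
      rw [this]
      simp [d.hk])
  simp only [dact_zero_left, add_zero] at e2
  rw [e1, ← e2, dact_not]
  show σ (d.D m (S l) + dact (d.Γ m) ks S l) = _
  rw [map_add, H.D, h l hl', map_dact]
  congr 1
  simp only [H.gam, neg_neg]
  exact dact_congr _ _ _ _ _ fun l' hl'' => h l' (hl''.trans hl')

theorem Cj.bar (H : d.St σ) {ks : List Bool} {S S' : List ι → A} (h : Cj d σ ks S S') :
    Cj d σ (false :: ks) (d.bar S) (d.cov (ks.map not) S') := by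
  have e := ((h.symm H).cov H).symm H
  rwa [List.map_cons, map_not_not] at e

theorem Cj.congr {ks : List Bool} {S S' S'' : List ι → A} (h : Cj d σ ks S S')
    (e : ∀ l : List ι, l.length = ks.length → S' l = S'' l) : Cj d σ ks S S'' := by
  intro l hl
  rw [h l hl]
  exact act_congr _ _ _ _ _ _ fun l' hl' => e l' (hl'.trans hl)

theorem low (d : HD ι A) (f : ι → A) (i : ι) : ∑ x, d.h x i * ∑ p, d.k p x * f p = f i := by
  have : ∑ x, d.h x i * ∑ p, d.k p x * f p = ∑ p, (∑ x, d.k p x * d.h x i) * f p := by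
    simp only [Finset.mul_sum, Finset.sum_mul]
    rw [Finset.sum_comm]
    exact Finset.sum_congr rfl fun _ _ => Finset.sum_congr rfl fun _ _ => by ring
  rw [this]
  simp [d.kh]

theorem sw (a b : ι → A) (f : ι → ι → A) :
    ∑ x, a x * ∑ y, b y * f x y = ∑ y, b y * ∑ x, a x * f x y := by
  simp only [Finset.mul_sum]
  rw [Finset.sum_comm]
  exact Finset.sum_congr rfl fun _ _ => Finset.sum_congr rfl fun _ _ => by ring

theorem len2 {l : List ι} (h : l.length = 2) : ∃ a b, l = [a, b] := List.length_eq_two.1 h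

theorem len3 {l : List ι} (h : l.length = 3) : ∃ a b c, l = [a, b, c] := List.length_eq_three.1 h

theorem len4 {l : List ι} (h : l.length = 4) : ∃ a b c e, l = [a, b, c, e] := by
  obtain _ | ⟨a, l⟩ := l
  · simp at h
  obtain ⟨b, c, e, rfl⟩ := len3 (l := l) (by simpa using h)
  exact ⟨a, b, c, e, rfl⟩

theorem cjT (H : d.St σ) : Cj d σ [true, true, false] (t3 d.T) (t3 d.Tb) := by
  intro l hl
  obtain ⟨i, k, j, rfl⟩ := len3 hl
  show σ (d.T i k j) = ∑ x, d.h x i * ∑ y, d.h y k * ∑ z, d.k j z * d.Tb x y z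
  have e : ∀ x y, ∑ z, d.k j z * d.Tb x y z = ∑ p, d.k p x * ∑ q, d.k q y *
      ∑ z, d.k j z * (d.Db p (d.h z q) - d.Db q (d.h z p)) := by
    intro x y
    have : ∀ z, d.Tb x y z = ∑ p, d.k p x * ∑ q, d.k q y *
        (d.Db p (d.h z q) - d.Db q (d.h z p)) := by
      intro z
      simp only [Tb, Finset.mul_sum, mul_assoc]
    simp only [this]
    rw [sw]
    refine Finset.sum_congr rfl fun p _ => ?_
    rw [sw]
  simp only [e]
  have e2 : ∀ x, ∑ y, d.h y k * ∑ p, d.k p x * ∑ q, d.k q y *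
      ∑ z, d.k j z * (d.Db p (d.h z q) - d.Db q (d.h z p)) =
      ∑ p, d.k p x * ∑ z, d.k j z * (d.Db p (d.h z k) - d.Db k (d.h z p)) := by
    intro x
    rw [sw]
    refine Finset.sum_congr rfl fun p _ => ?_
    rw [low d (fun q => ∑ z, d.k j z * (d.Db p (d.h z q) - d.Db q (d.h z p))) k]
  simp only [e2]
  rw [low d (fun p => ∑ z, d.k j z * (d.Db p (d.h z k) - d.Db k (d.h z p))) i, T, map_sub,
    H.gam, H.gam, ← Finset.sum_sub_distrib]
  exact Finset.sum_congr rfl fun z _ => by ring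

theorem cjF (H : d.St σ) (i k j l : ι) : σ (d.F l (d.T i k j)) =
    ∑ x, d.h x i * ∑ y, d.h y k * ∑ z, d.k j z * ∑ w, d.k l w * d.Ab w x y z := by
  have e := (cjT H).bar H [l, i, k, j] rfl
  change σ (d.F l (d.T i k j)) =
    ∑ w, d.k l w * ∑ x, d.h x i * ∑ y, d.h y k * ∑ z, d.k j z * d.Ab w x y z at e
  rw [e, sw]
  refine Finset.sum_congr rfl fun x _ => ?_
  rw [sw]
  congr 1
  refine Finset.sum_congr rfl fun y _ => ?_
  rw [sw]

theorem cjF' (H : d.St σ) (i k j l : ι) : σ (d.F j (d.T i k l)) =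
    ∑ x, d.h x i * ∑ y, d.h y k * ∑ z, d.k j z * ∑ w, d.k l w * d.Ab z x y w := by
  rw [cjF H]
  refine Finset.sum_congr rfl fun x _ => ?_
  congr 1
  refine Finset.sum_congr rfl fun y _ => ?_
  rw [sw]

theorem cjP (H : d.St σ) : Cj d σ [true, true, false, false] (t4 d.P) (t4 d.Pb) := by
  intro l hl
  obtain ⟨i, k, j, l, rfl⟩ := len4 hl
  show σ (d.P i k j l) =
    ∑ x, d.h x i * ∑ y, d.h y k * ∑ z, d.k j z * ∑ w, d.k l w * d.Pb x y z w
  rw [P, H.half, map_add, cjF H i k j l, cjF' H i k j l]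
  simp only [Pb, ← Finset.sum_add_distrib, ← mul_add, mul_smul_comm, ← Finset.smul_sum]

theorem ab_R (d : HD ι A) (m j i l : ι) : d.Ab m j l i = d.R m l i j - d.R m j i l := by
  have e := d.zRB fun n => [m, j, i, l].getD n m
  have e7 : d.att 7 = t4 d.R := d.att_lt (by norm_num)
  have e22 : d.att 22 = d.cov [false, false, true] (t3 d.Tb) := by
    have := d.att_uD 3
    rwa [d.att_lt (τ := 3) (by norm_num)] at this
  simp [ev, Tm.ev, sumL, fP, rRB, e7, e22, t4] at e
  rw [Ab]
  linear_combination e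

theorem ab_K (d : HD ι A) (i k j l : ι) :
    (1 / 2 : ℂ) • (d.Ab k j l i - d.Ab i j l k) = d.K i k j l := by
  rw [K, ab_R, ab_R]
  congr 1
  simp only [R, T, map_sub]
  ring

theorem cjK (H : d.St σ) : Cj d σ [true, true, false, false] (t4 d.K)
    (fun l => t4 d.K (swapAt 1 (swapAt 0 (swapAt 2 (swapAt 1 l))))) := by
  intro l hl
  obtain ⟨i, k, j, l, rfl⟩ := len4 hl
  show σ (d.K i k j l) =
    ∑ x, d.h x i * ∑ y, d.h y k * ∑ z, d.k j z * ∑ w, d.k l w * d.K z w x y
  rw [K, H.half, map_sub, cjF H i k j l, cjF' H i k j l]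
  simp only [← ab_K, ← Finset.sum_sub_distrib, ← mul_sub, mul_smul_comm, ← Finset.smul_sum]

/-- The statement carried through the induction. -/
def CjI (d : HD ι A) (σ : A →+* A) (τ : ℕ) : Prop :=
  ∃ (τ' : ℕ) (π : List ι → List ι),
    (∀ l : List ι, l.length = (kd τ).length → cjL τ l = (τ', π l)) ∧
    (∀ (γ : ι → ι → A) (S : List ι → A) (l : List ι), l.length = (kd τ).length →
      dact γ (kd τ') S (π l) = dact γ ((kd τ).map not) (fun l => S (π l)) l) ∧
    Cj d σ (kd τ) (d.att τ) (fun l => d.att τ' (π l))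

theorem cjI_base (H : d.St σ) {τ : ℕ} (h : τ ≤ 6) : CjI d σ τ := by
  have a0 := d.att_lt (τ := 0) (by norm_num)
  have a1 := d.att_lt (τ := 1) (by norm_num)
  have a2 := d.att_lt (τ := 2) (by norm_num)
  have a3 := d.att_lt (τ := 3) (by norm_num)
  have a4 := d.att_lt (τ := 4) (by norm_num)
  have a5 := d.att_lt (τ := 5) (by norm_num)
  have a6 := d.att_lt (τ := 6) (by norm_num)
  interval_cases τ
  · refine ⟨0, swapAt 0, fun l hl => ?_, fun γ S l hl => ?_, fun l hl => ?_⟩
    · obtain ⟨a, b, rfl⟩ := len2 hl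
      rfl
    · obtain ⟨a, b, rfl⟩ := len2 hl
      show dact γ [true, false] S [b, a] = dact γ [false, true] (fun l => S (swapAt 0 l)) [a, b]
      simp only [dact, swapAt]
      ring
    · obtain ⟨i, j, rfl⟩ := len2 hl
      rw [a0]
      show σ (if i = j then 1 else 0) =
        ∑ x, d.h x i * ∑ y, d.k j y * (if y = x then 1 else 0)
      have := d.kh j i
      simp only [mul_ite, mul_one, mul_zero, Finset.sum_ite_eq', Finset.mem_univ, if_true]
      simp only [mul_comm (d.h _ _)]
      rw [this]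
      by_cases e : i = j
      · simp [e]
      · simp [e, Ne.symm e]
  · refine ⟨1, id, fun l hl => ?_, fun γ S l hl => rfl, fun l hl => ?_⟩
    · obtain rfl := List.length_eq_zero_iff.1 hl
      rfl
    · obtain rfl := List.length_eq_zero_iff.1 hl
      rw [a1]
      show σ (if ([] : List ι) = [] then algebraMap ℂ A d.c else 0) =
        if ([] : List ι) = [] then algebraMap ℂ A d.c else 0
      rw [if_pos rfl, H.alg, H.c]
  · refine ⟨3, id, fun l hl => ?_, fun γ S l hl => rfl, ?_⟩
    · obtain ⟨a, b, c, rfl⟩ := len3 hl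
      rfl
    · rw [a2, a3]
      exact cjT H
  · refine ⟨2, id, fun l hl => ?_, fun γ S l hl => rfl, ?_⟩
    · obtain ⟨a, b, c, rfl⟩ := len3 hl
      rfl
    · rw [a2, a3]
      exact (cjT H).symm H
  · refine ⟨5, id, fun l hl => ?_, fun γ S l hl => rfl, ?_⟩
    · obtain ⟨a, b, c, e, rfl⟩ := len4 hl
      rfl
    · rw [a4, a5]
      exact cjP H
  · refine ⟨4, id, fun l hl => ?_, fun γ S l hl => rfl, ?_⟩
    · obtain ⟨a, b, c, e, rfl⟩ := len4 hl
      rfl
    · rw [a4, a5]
      exact (cjP H).symm H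
  · refine ⟨6, fun l => swapAt 1 (swapAt 0 (swapAt 2 (swapAt 1 l))), fun l hl => ?_,
      fun γ S l hl => ?_, ?_⟩
    · obtain ⟨a, b, c, e, rfl⟩ := len4 hl
      rfl
    · obtain ⟨a, b, c, e, rfl⟩ := len4 hl
      show dact γ [true, true, false, false] S [c, e, a, b] = dact γ [false, false, true, true]
        (fun l => S (swapAt 1 (swapAt 0 (swapAt 2 (swapAt 1 l))))) [a, b, c, e]
      simp only [dact, swapAt]
      ring
    · rw [a6]
      exact cjK H

/-- Apply a map to the tail of a list. -/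
def onTail (π : List ι → List ι) : List ι → List ι
  | [] => []
  | m :: l => m :: π l

theorem cjL_uD (τ : ℕ) (m : ι) (l : List ι) :
    cjL (uD τ) (m :: l) = (uF (cjL τ l).1, m :: (cjL τ l).2) := by
  have e : Nat.ble 16 (2 * τ + 16) = true := Nat.ble_eq_true_of_le (by omega)
  have e2 : (2 * τ + 16) % 2 = 0 := by omega
  have e3 : (2 * τ + 16 - 16) / 2 = τ := by omega
  rw [uD, cjL, e, e2, e3]
  rfl

theorem cjL_uF (τ : ℕ) (m : ι) (l : List ι) :
    cjL (uF τ) (m :: l) = (uD (cjL τ l).1, m :: (cjL τ l).2) := by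
  have e : Nat.ble 16 (2 * τ + 17) = true := Nat.ble_eq_true_of_le (by omega)
  have e2 : (2 * τ + 17) % 2 = 1 := by omega
  have e3 : (2 * τ + 17 - 16) / 2 = τ := by omega
  rw [uF, cjL, e, e2, e3]
  rfl

theorem CjI.uD (H : d.St σ) {τ : ℕ} (h : CjI d σ τ) : CjI d σ (uD τ) := by
  obtain ⟨τ', π, h1, h2, h3⟩ := h
  refine ⟨uF τ', onTail π, fun l hl => ?_, fun γ S l hl => ?_, ?_⟩
  · rw [kd_uD] at hl
    obtain _ | ⟨m, l⟩ := l
    · simp at hl
    rw [cjL_uD, h1 l (by simpa using hl)]
    rfl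
  · rw [kd_uD] at hl
    obtain _ | ⟨m, l⟩ := l
    · simp at hl
    rw [kd_uD, kd_uF, List.map_cons]
    simp only [onTail, dact]
    rw [h2 _ _ l (by simpa using hl)]
    rfl
  · rw [kd_uD, att_uD, att_uF]
    refine (h3.cov H).congr fun l hl => ?_
    obtain _ | ⟨m, l⟩ := l
    · rfl
    · rfl

theorem CjI.uF (H : d.St σ) {τ : ℕ} (h : CjI d σ τ) : CjI d σ (uF τ) := by
  obtain ⟨τ', π, h1, h2, h3⟩ := h
  refine ⟨G.uD τ', onTail π, fun l hl => ?_, fun γ S l hl => ?_, ?_⟩
  · rw [kd_uF] at hl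
    obtain _ | ⟨m, l⟩ := l
    · simp at hl
    rw [cjL_uF, h1 l (by simpa using hl)]
    rfl
  · rw [kd_uF] at hl
    obtain _ | ⟨m, l⟩ := l
    · simp at hl
    rw [kd_uD, kd_uF, List.map_cons]
    simp only [onTail, dact]
    rw [h2 _ _ l (by simpa using hl)]
    rfl
  · rw [kd_uF, att_uD, att_uF]
    refine (h3.bar H).congr fun l hl => ?_
    obtain _ | ⟨m, l⟩ := l
    · rfl
    · show d.D m (d.att τ' (π l)) + dact (d.Γ m) ((kd τ).map not) (fun l => d.att τ' (π l)) l =
        d.D m (d.att τ' (π l)) + dact (d.Γ m) (kd τ') (d.att τ') (π l)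
      rw [h2 _ _ l (by simpa using hl)]

theorem cjI (H : d.St σ) {f τ : ℕ} (hτ : good f τ = true) : CjI d σ τ := by
  induction f generalizing τ with
  | zero => simp [good] at hτ
  | succ f ih =>
    rw [good] at hτ
    cases e : Nat.ble 16 τ with
    | false =>
      rw [e] at hτ
      exact cjI_base H (Nat.le_of_ble_eq_true hτ)
    | true =>
      rw [e] at hτ
      have h16 := Nat.le_of_ble_eq_true e
      have := ih (τ := (τ - 16) / 2) hτ
      rcases Nat.mod_two_eq_zero_or_one τ with e2 | e2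
      · have e3 : τ = uD ((τ - 16) / 2) := by unfold uD; omega
        rw [e3]
        exact this.uD H
      · have e3 : τ = uF ((τ - 16) / 2) := by unfold uF; omega
        rw [e3]
        exact this.uF H

theorem St.att (H : d.St σ) {f τ : ℕ} (hτ : good f τ = true) (l : List ι)
    (hl : l.length = (kd τ).length) : σ (d.att τ l) =
      act d.k d.h ((kd τ).map not) (fun l => d.att (cjL τ l).1 (cjL τ l).2) l := by
  obtain ⟨τ', π, h1, -, h3⟩ := cjI H hτ
  exact h3.congr (fun l hl => by rw [h1 l hl]) l hl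

end Pool.Agent.P.MP_3e99c6_gt.G.HD
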