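import Pool.Agent.P.MP_3e99c6_gt.SK.Rel

/-! The identity that expresses that the dimension is three; linear combinations of relations. -/

set_option linter.unusedSectionVars false

namespace Pool.Agent.P.MP_3e99c6_gt.G

/-- The generalised Kronecker symbol with four pairs of indices. -/
def rDdi : Poly := [
  ⟨1, [], [(0, [0, 4]), (0, [1, 5]), (0, [2, 6]), (0, [3, 7])]⟩,
  ⟨-1, [], [(0, [0, 4]), (0, [1, 5]), (0, [2, 7]), (0, [3, 6])]⟩,
  ⟨-1, [], [(0, [0, 4]), (0, [1, 6]), (0, [2, 5]), (0, [3, 7])]⟩,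
  ⟨1, [], [(0, [0, 4]), (0, [1, 6]), (0, [2, 7]), (0, [3, 5])]⟩,
  ⟨1, [], [(0, [0, 4]), (0, [1, 7]), (0, [2, 5]), (0, [3, 6])]⟩,
  ⟨-1, [], [(0, [0, 4]), (0, [1, 7]), (0, [2, 6]), (0, [3, 5])]⟩,
  ⟨-1, [], [(0, [0, 5]), (0, [1, 4]), (0, [2, 6]), (0, [3, 7])]⟩,
  ⟨1, [], [(0, [0, 5]), (0, [1, 4]), (0, [2, 7]), (0, [3, 6])]⟩,
  ⟨1, [], [(0, [0, 5]), (0, [1, 6]), (0, [2, 4]), (0, [3, 7])]⟩,
  ⟨-1, [], [(0, [0, 5]), (0, [1, 6]), (0, [2, 7]), (0, [3, 4])]⟩,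
  ⟨-1, [], [(0, [0, 5]), (0, [1, 7]), (0, [2, 4]), (0, [3, 6])]⟩,
  ⟨1, [], [(0, [0, 5]), (0, [1, 7]), (0, [2, 6]), (0, [3, 4])]⟩,
  ⟨1, [], [(0, [0, 6]), (0, [1, 4]), (0, [2, 5]), (0, [3, 7])]⟩,
  ⟨-1, [], [(0, [0, 6]), (0, [1, 4]), (0, [2, 7]), (0, [3, 5])]⟩,
  ⟨-1, [], [(0, [0, 6]), (0, [1, 5]), (0, [2, 4]), (0, [3, 7])]⟩,
  ⟨1, [], [(0, [0, 6]), (0, [1, 5]), (0, [2, 7]), (0, [3, 4])]⟩,
  ⟨1, [], [(0, [0, 6]), (0, [1, 7]), (0, [2, 4]), (0, [3, 5])]⟩,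
  ⟨-1, [], [(0, [0, 6]), (0, [1, 7]), (0, [2, 5]), (0, [3, 4])]⟩,
  ⟨-1, [], [(0, [0, 7]), (0, [1, 4]), (0, [2, 5]), (0, [3, 6])]⟩,
  ⟨1, [], [(0, [0, 7]), (0, [1, 4]), (0, [2, 6]), (0, [3, 5])]⟩,
  ⟨1, [], [(0, [0, 7]), (0, [1, 5]), (0, [2, 4]), (0, [3, 6])]⟩,
  ⟨-1, [], [(0, [0, 7]), (0, [1, 5]), (0, [2, 6]), (0, [3, 4])]⟩,
  ⟨-1, [], [(0, [0, 7]), (0, [1, 6]), (0, [2, 4]), (0, [3, 5])]⟩,
  ⟨1, [], [(0, [0, 7]), (0, [1, 6]), (0, [2, 5]), (0, [3, 4])]⟩]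

variable {ι A : Type} [Fintype ι] [DecidableEq ι] [CommRing A] {S : ℕ → List ι → A}

theorem zDdi (hn : Fintype.card ι = 3) (hδ : ∀ i j, S 0 [i, j] = if i = j then 1 else 0) :
    Zr S rDdi := by
  intro ρ
  obtain ⟨a, b, hab, e⟩ := Fintype.exists_ne_map_eq_of_card_lt (fun i : Fin 4 => ρ i.val)
    (by rw [hn, Fintype.card_fin]; norm_num)
  have h6 : ρ 0 = ρ 1 ∨ ρ 0 = ρ 2 ∨ ρ 0 = ρ 3 ∨ ρ 1 = ρ 2 ∨ ρ 1 = ρ 3 ∨ ρ 2 = ρ 3 := by
    fin_cases a <;> fin_cases b <;> simp only [ne_eq, not_true_eq_false] at hab <;>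
      first
        | exact Or.inl e
        | exact Or.inl e.symm
        | exact Or.inr (Or.inl e)
        | exact Or.inr (Or.inl e.symm)
        | exact Or.inr (Or.inr (Or.inl e))
        | exact Or.inr (Or.inr (Or.inl e.symm))
        | exact Or.inr (Or.inr (Or.inr (Or.inl e)))
        | exact Or.inr (Or.inr (Or.inr (Or.inl e.symm)))
        | exact Or.inr (Or.inr (Or.inr (Or.inr (Or.inl e))))
        | exact Or.inr (Or.inr (Or.inr (Or.inr (Or.inl e.symm))))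
        | exact Or.inr (Or.inr (Or.inr (Or.inr (Or.inr e))))
        | exact Or.inr (Or.inr (Or.inr (Or.inr (Or.inr e.symm))))
  simp only [rDdi, ev_cons, ev_nil, Tm.ev, sumL, fP_cons, fP_nil, List.map_cons, List.map_nil,
    Int.cast_one, Int.cast_neg]
  rcases h6 with h | h | h | h | h | h <;> rw [h] <;> ring

/-- An instance of a relation: its number, the host term and the labels to be substituted. -/
abbrev Ins := ℕ × Tm × List ℕ

/-- The sum of instances of relations. -/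
def insts (rels : List Poly) (L : List Ins) : Poly :=
  L.flatMap fun x => relI (rels.getD x.1 []) x.2.1 x.2.2

/-- The labels of the instances are small. -/
def insOk (L : List Ins) : Bool := L.all fun x => bd (labs x.2.1.fs) && bd x.2.2

theorem insts_zero {rels : List Poly} (hw : rels.all (fun p => p.all wf) = true)
    (h0 : ∀ p ∈ rels, Zr S p) {L : List Ins} (hL : insOk L = true) : Zr S (insts rels L) := by
  intro ρ
  rw [insts, ev_flatMap]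
  refine List.sum_eq_zero fun y hy => ?_
  obtain ⟨x, hx, rfl⟩ := List.mem_map.1 hy
  have h1 := List.all_eq_true.1 hL x hx
  rw [Bool.and_eq_true] at h1
  by_cases h : x.1 < rels.length
  · rw [List.getD_eq_getElem _ _ h]
    exact relI_zero (List.all_eq_true.1 hw _ (List.getElem_mem h)) (h0 _ (List.getElem_mem h))
      h1.1 h1.2 ρ
  · rw [List.getD_eq_default _ _ (not_lt.1 h)]
    rfl

/-- An integer multiple. -/
def smP (z : ℤ) (p : Poly) : Poly := p.map fun t => ⟨z * t.c, t.ds, t.fs⟩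

theorem ev_smP (z : ℤ) (p : Poly) (ρ : ℕ → ι) : ev S (smP z p) ρ = z * ev S p ρ := by
  induction p with
  | nil => simp [smP]
  | cons t p ih =>
    rw [smP] at ih
    simp only [smP, List.map_cons, ev_cons, ih, Tm.ev, Int.cast_mul]
    ring

theorem derive [Algebra ℂ A] {C : Cfg} (H : Ok C S (AddMonoidHom.id A)) {rels : List Poly}
    (h0 : ∀ p ∈ rels, Zr S p) {z : ℤ} {p : Poly} {L : List Ins} {ws : List ℕ}
    (h : (rels.all (fun p => p.all wf) && insOk L && !(z == 0) &&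
      chk C (smP z p ++ insts rels L) ws) = true) : Zr S p := by
  simp only [Bool.and_eq_true, Bool.not_eq_true', beq_eq_false_iff_ne] at h
  intro ρ
  have e := chk_sound H h.2 ρ
  rw [AddMonoidHom.id_apply, ev_append, insts_zero h.1.1.1 h0 h.1.1.2, add_zero, ev_smP] at e
  have e2 : (z : A) = algebraMap ℂ A z := by simp
  have hz : (z : ℂ) ≠ 0 := by exact_mod_cast h.1.2
  rw [← one_mul (ev S p ρ), ← map_one (algebraMap ℂ A), ← inv_mul_cancel₀ hz, map_mul, mul_assoc,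
    ← e2, e, mul_zero]

end Pool.Agent.P.MP_3e99c6_gt.G
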