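import Pool.Agent.P.MP_3e99c6_gt.SK.Bas
import Pool.Agent.P.MP_3e99c6_gt.SK.Leib

/-! The divergence of a vector field given by contraction graphs. -/

set_option linter.unusedSectionVars false

namespace Pool.Agent.P.MP_3e99c6_gt.G

open Finset Function

/-- The label `0` is summed. -/
def sm0 (t : Tm) : Tm := ⟨t.c, 0 :: t.ds, t.fs⟩

/-- The torsion term of the divergence. -/
def eta (z : ℤ) (t : Tm) : Tm := ⟨z * t.c, 0 :: 41 :: t.ds, (2, [0, 41, 41]) :: t.fs⟩

/-- The divergence. -/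
def divP (Y : Poly) : Poly := Y.flatMap fun t => eta 1 t :: (dT uD 0 t).map sm0

/-- The divergence times `z`, with the derivatives replaced by the rules. -/
def divE (rules : ℕ → Poly) (z : ℤ) (Y : Poly) : Poly :=
  Y.flatMap fun t => eta z t :: (exD rules 0 t).map sm0

/-- The labels are below `41`. -/
def b41 (t : Tm) : Bool := (t.ds ++ labs t.fs).all fun a => Nat.ble a 40

variable {ι A : Type} [Fintype ι] [DecidableEq ι] [CommRing A]

theorem Div_sm0 (S : ℕ → List ι → A) (p : Poly) (ρ : ℕ → ι) :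
    ev S (p.map sm0) ρ = ∑ i, ev S p (update ρ 0 i) := by
  induction p with
  | nil => simp
  | cons t p ih =>
    simp only [List.map_cons, ev_cons, ih, sum_add_distrib, Tm.ev, sm0, sumL, mul_sum]

theorem Div_b41 {t : Tm} (h : b41 t = true) : (∀ a ∈ t.ds, a ≤ 40) ∧ ∀ a ∈ labs t.fs, a ≤ 40 := by
  simp only [b41, List.all_eq_true, Nat.ble_eq, List.mem_append] at h
  exact ⟨fun a ha => h a (Or.inl ha), fun a ha => h a (Or.inr ha)⟩

theorem Div_eta (S : ℕ → List ι → A) {t : Tm} (h0 : 0 ∉ t.ds) (hb : b41 t = true) (ρ : ℕ → ι) :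
    (eta 1 t).ev S ρ = ∑ m, (∑ q, S 2 [m, q, q]) * t.ev S (update ρ 0 m) := by
  obtain ⟨h1, h2⟩ := Div_b41 hb
  have e : fP S ((2, [0, 41, 41]) :: t.fs) =
      fun ρ => S 2 [ρ 0, ρ 41, ρ 41] * fP S t.fs ρ := funext fun ρ => fP_cons S _ _ ρ
  have hg : Dep (fun ρ : ℕ → ι => S 2 [ρ 0, ρ 41, ρ 41]) [0, 41] := fun ρ ρ' h => by
    simp only [h 0 (by simp), h 41 (by simp)]
  simp only [Tm.ev, eta, one_mul, sumL, e, mul_sum, sum_mul]
  refine sum_congr rfl fun m _ => sum_congr rfl fun q _ => ?_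
  rw [sumL_pull hg _ _ (fun a ha h => by
    have := h1 a ha
    simp only [List.mem_cons, List.not_mem_nil, or_false] at h
    rcases h with rfl | rfl
    · exact h0 ha
    · omega), sumL_congr (dep_fP t.fs) t.ds (ρ' := update ρ 0 m) fun a ha _ =>
      update_of_ne (by have := h2 a ha; omega) _ _]
  simp only [update_self, update_of_ne (show (0 : ℕ) ≠ 41 by omega)]
  ring

theorem Div_divP (S : ℕ → List ι → A) {Y : Poly} (h0 : ∀ t ∈ Y, 0 ∉ t.ds)
    (hb : Y.all b41 = true) (ρ : ℕ → ι) : ev S (divP Y) ρ =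
      ∑ m, ((∑ q, S 2 [m, q, q]) * ev S Y (update ρ 0 m) + ev S (dP uD 0 Y) (update ρ 0 m)) := by
  induction Y with
  | nil => simp [divP, dP]
  | cons t Y ih =>
    simp only [List.all_cons, Bool.and_eq_true] at hb
    have ih' := ih (fun t ht => h0 t (by simp [ht])) hb.2
    rw [divP, dP] at ih'
    simp only [divP, dP, List.flatMap_cons, List.cons_append, ev_cons, ev_append, ih', Div_sm0,
      Div_eta S (h0 t (by simp)) hb.1, ← sum_add_distrib]
    exact sum_congr rfl fun m _ => by ring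

theorem divE_ev {S : ℕ → List ι → A} {rules : ℕ → Poly} {z : ℤ} {Y : Poly}
    (hb : Y.all b41 = true) (hw : ∀ t ∈ Y, ∀ f ∈ t.fs, (rules f.1).all wf = true)
    (hr : ∀ t ∈ Y, ∀ f ∈ t.fs, ∀ ρ, ev S (rules f.1) ρ =
      z * S (uD f.1) ((List.range (f.2.length + 1)).map ρ)) (ρ : ℕ → ι) :
    ev S (divE rules z Y) ρ = z * ev S (divP Y) ρ := by
  rw [divE, divP, ev_flatMap, ev_flatMap, ← List.sum_map_mul_left]
  congr 1
  refine List.map_congr_left fun t ht => ?_
  have h1 : bd (labs t.fs) = true := by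
    simp only [bd, List.all_eq_true, Nat.ble_eq]
    exact fun a ha => ((Div_b41 (List.all_eq_true.1 hb t ht)).2 a ha).trans (by omega)
  simp only [ev_cons, Div_sm0, exD_ev (by omega : 0 < 42) h1 (hw t ht) (hr t ht), mul_add, mul_sum,
    Tm.ev, eta, one_mul, Int.cast_mul, mul_assoc]

variable [Algebra ℂ A] (d : HD ι A)

theorem div_eq {Y : Poly} (hY : Y.all (wk kd [0] [false]) = true) (hb : Y.all b41 = true)
    (ρ : ℕ → ι) : ∑ m, d.D m ((Matrix.of d.h).det * ev d.att Y (update ρ 0 m)) =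
      (Matrix.of d.h).det * ev d.att (divP Y) ρ := by
  have h0 : ∀ t ∈ Y, 0 ∉ t.ds := fun t ht h => by
    have h1 := List.all_eq_true.1 hY t ht
    simp only [wk, Bool.and_eq_true, decide_eq_true_eq] at h1
    exact (List.nodup_append.1 h1.1.2).2.2 0 h 0 (by simp) rfl
  have hS : ∀ τ m l, d.att (uD τ) (m :: l) =
      d.D m (d.att τ l) + dact (d.Γ m) (kd τ) (d.att τ) l := fun τ m l => by
    rw [d.att_uD]
    rfl
  have hT : ∀ m q, d.att 2 [m, q, q] = d.Γ m q q - d.Γ q m q := fun m q => by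
    rw [d.att_lt (by omega)]
    rfl
  have e : ∑ m, ∑ x, d.Γ m x m * ev d.att Y (update ρ 0 x) =
      ∑ m, (∑ q, d.Γ q m q) * ev d.att Y (update ρ 0 m) := by
    rw [sum_comm]
    simp only [sum_mul]
  rw [Div_divP _ h0 hb]
  simp only [ev_dP hY h0 hS, hT, List.map_cons, List.map_nil, update_self, dact, setL, cond_false,
    update_idem, add_zero, sum_add_distrib, e, sum_sub_distrib, sub_mul, Derivation.leibniz,
    smul_eq_mul, d.D_det, mul_add, mul_sub, mul_sum]
  rw [add_comm, ← add_assoc, sub_add_eq_add_sub, sub_add_cancel]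
  congr 1
  refine sum_congr rfl fun m _ => ?_
  simp only [sum_mul, mul_sum]
  exact sum_congr rfl fun q _ => by ring

end Pool.Agent.P.MP_3e99c6_gt.G
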