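import Pool.Agent.P.MP_3e99c6_gt.SK.Rel

/-! A fast normaliser for complete contractions, written with recursors. -/

noncomputable section

namespace Pool.Agent.P.MP_3e99c6_gt.G

/-- A digit of seven bits at the bit position `p`. -/
def dg (m p : ℕ) : ℕ := Nat.mod (Nat.shiftRight m p) (nat_lit 128)

/-- The digits at the summed labels are set to `127`. -/
def msk (l : List ℕ) : ℕ := List.rec (nat_lit 0)
  (fun a _ ih => Nat.lor ih (Nat.shiftLeft (nat_lit 127) (Nat.mul (nat_lit 7) a))) l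

/-- The length. -/
def len (l : List ℕ) : ℕ := List.rec (nat_lit 0) (fun _ _ ih => Nat.add ih (nat_lit 1)) l

/-- One more substitution. -/
def upd (s : ℕ → ℕ) (y x : ℕ) : ℕ → ℕ := fun l => Bool.rec (s l) x (Nat.beq (s l) y)

/-- Continuations of the elimination step. -/
abbrev KE : Type := (ℕ → ℕ) → ℕ → ℕ → List Fac → ℕ → Bool

/-- The label `y` is replaced by `x`. -/
def el3 (ih : KE) (s : ℕ → ℕ) (m n : ℕ) (acc : List Fac) (pw x y p : ℕ) : Bool :=
  Bool.rec false
    (ih (upd s y x) (Nat.xor m (Nat.shiftLeft (nat_lit 127) p)) (Nat.sub n (nat_lit 1)) acc pw)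
    (Nat.beq (dg m p) (nat_lit 127))

/-- One Kronecker symbol with substituted labels. -/
def el2 (ih : KE) (s : ℕ → ℕ) (m n : ℕ) (acc : List Fac) (pw x y : ℕ) : Bool :=
  Bool.rec (el3 ih s m n acc pw x y (Nat.mul (nat_lit 7) y)) (ih s m n acc pw) (Nat.beq x y)

/-- One Kronecker symbol. -/
def el1 (ih : KE) (s : ℕ → ℕ) (m n : ℕ) (acc : List Fac) (pw : ℕ) (l : List ℕ) : Bool :=
  List.rec false (fun x l _ => List.rec false (fun y l' _ =>
    List.rec (el2 ih s m n acc pw (s x) (s y)) (fun _ _ _ => false) l') l) l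

/-- Elimination of the Kronecker symbols. -/
def el (k : KE) (fs : List Fac) : KE :=
  List.rec k (fun f _ ih s m n acc pw =>
    Nat.rec (el1 ih s m n acc pw f.2) (fun _ _ => ih s m n (f :: acc) (Nat.add pw pw)) f.1) fs

/-- The entry at a position. -/
def nth (l : List Fac) : ℕ → Fac :=
  List.rec (fun _ => (nat_lit 0, [])) (fun f _ ih i => Nat.rec f (fun j _ => ih j) i) l

/-- Exchange of two neighbouring entries. -/
def swp (p : ℕ) : List ℕ → List ℕ :=
  Nat.rec (fun l => List.rec l (fun a l' _ => List.rec l (fun b r _ => b :: a :: r) l') l)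
    (fun _ ih l => List.rec l (fun a l' _ => a :: ih l') l) p

/-- Use of a slot symmetry from the table `tab`. -/
def fl1 (tab τ : ℕ) (l : List ℕ) (sg : ℕ) (k : List ℕ → ℕ → Bool) : Bool :=
  Nat.rec false (fun d _ => k (swp (Nat.div d (nat_lit 2)) l) (Nat.add sg d))
    (Nat.mod (Nat.shiftRight tab (Nat.mul (nat_lit 4) τ)) (nat_lit 16))

/-- An optional use of a slot symmetry. -/
def fl (tab τ b : ℕ) (k : List ℕ → ℕ → Bool) (l : List ℕ) (sg : ℕ) : Bool :=
  Nat.rec (k l sg) (fun _ _ => fl1 tab τ l sg k) b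

/-- The conjugate factor. -/
def cj2 (f : Fac) : Fac :=
  Bool.rec (cjL f.1 f.2) (List.rec f (fun _ _ _ => (Nat.xor f.1 (nat_lit 1), f.2)) f.2)
    (Nat.beq (Nat.div (Nat.add f.1 (nat_lit 2)) (nat_lit 4)) (nat_lit 1))

/-- A new label. -/
def labA (ih : ℕ → ℕ → ℕ → Bool) (m c h p : ℕ) : Bool :=
  ih (Nat.xor m (Nat.shiftLeft (Nat.xor (nat_lit 127) c) p)) (Nat.add c (nat_lit 1))
    (Nat.add (Nat.mul h (nat_lit 128)) c)

/-- An old label. -/
def labB (ih : ℕ → ℕ → ℕ → Bool) (m c h v : ℕ) : Bool :=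
  Nat.rec false (fun _ _ => ih m c (Nat.add (Nat.mul h (nat_lit 128)) v)) v

/-- One label, with its digit. -/
def lab1 (ih : ℕ → ℕ → ℕ → Bool) (m c h p v : ℕ) : Bool :=
  Bool.rec (labB ih m c h v) (labA ih m c h p) (Nat.beq v (nat_lit 127))

/-- One label. -/
def lab0 (ih : ℕ → ℕ → ℕ → Bool) (m c h p : ℕ) : Bool := lab1 ih m c h p (dg m p)

/-- Renaming of the labels of one factor. -/
def lab (s : ℕ → ℕ) (k : ℕ → ℕ → ℕ → Bool) (l : List ℕ) : ℕ → ℕ → ℕ → Bool :=
  List.rec k (fun a _ ih m c h => lab0 ih m c h (Nat.mul (nat_lit 7) (s a))) l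

/-- Continuations of the loop over the factors. -/
abbrev KL : Type := ℕ → ℕ → ℕ → ℕ → ℕ → ℕ → Bool

/-- One factor with its slots in the final order. -/
def lp2 (s : ℕ → ℕ) (ih : KL) (w um m c h : ℕ) (l : List ℕ) (sg : ℕ) : Bool :=
  lab s (ih (Nat.shiftRight w (nat_lit 5)) um sg) l m c h

/-- One factor. -/
def lp1 (t1 t2 : ℕ) (s : ℕ → ℕ) (ih : KL) (w um sg m c h τ : ℕ) (l : List ℕ) : Bool :=
  Bool.rec false
    (fl t1 τ (Nat.land w (nat_lit 8)) (fl t2 τ (Nat.land w (nat_lit 16))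
      (lp2 s ih w um m c (Nat.add (Nat.mul h (nat_lit 16384)) τ))) l sg)
    (Nat.ble τ (nat_lit 127))

/-- The choice of a factor. -/
def lp0 (t1 t2 : ℕ) (cf : Fac → Fac) (s : ℕ → ℕ) (acc : List Fac) (ih : KL)
    (w um sg m c h i : ℕ) : Bool :=
  Prod.rec (lp1 t1 t2 s ih w (Nat.lor um (Nat.shiftLeft (nat_lit 1) i)) sg m c h) (cf (nth acc i))

/-- The loop over the factors. -/
def lp (t1 t2 : ℕ) (cf : Fac → Fac) (s : ℕ → ℕ) (acc : List Fac)
    (k : ℕ → ℕ → ℕ → ℕ → Bool) (fuel : List Fac) : KL :=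
  List.rec (fun _ um sg _ c h => k um sg c h) (fun _ _ ih w um sg m c h =>
    lp0 t1 t2 cf s acc ih w um sg m c h (Nat.land w (nat_lit 7))) fuel

/-- The final tests. -/
def nf3 (k : ℕ → ℕ → ℕ → Bool) (n pw um sg c h : ℕ) : Bool :=
  Bool.rec false (Bool.rec false
    (k sg (Nat.sub (Nat.add n (nat_lit 1)) c) (Nat.add (Nat.mul h (nat_lit 128)) c))
    (Nat.ble c (nat_lit 127))) (Nat.beq (Nat.add um (nat_lit 1)) pw)

/-- The normal form: parity, number of unused labels, key. -/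
def nf2 (t1 t2 : ℕ) (t : Tm) (w : ℕ) (k : ℕ → ℕ → ℕ → Bool) : Bool :=
  el (fun s m n acc pw =>
    lp t1 t2 (Nat.rec (fun f => f) (fun _ _ => cj2) (Nat.land w (nat_lit 1))) s acc
      (nf3 k n pw)
      acc (Nat.shiftRight w (nat_lit 1)) (nat_lit 0) (nat_lit 0) m (nat_lit 1) (nat_lit 1))
    t.fs (fun l => l) (msk t.ds) (len t.ds) [] (nat_lit 1)

/-- The data of the fast check: dimension, symmetry tables, table of keys, its length, and the
width of the digits of the accumulators. -/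
structure Cf2 where
  n : ℕ
  t1 : ℕ
  t2 : ℕ
  tab : ℕ
  top : ℕ
  b : ℕ

/-- The key with a given index. -/
def Cf2.key (C : Cf2) (i : ℕ) : ℕ :=
  Nat.mod (Nat.shiftRight C.tab (Nat.mul (nat_lit 224) (Nat.sub C.top i)))
    (nat_lit 26959946667150639794667015087019630673637144422540572481103610249216)

/-- Accumulation of `a` with parity `sg` at the index `i`. -/
def accu (b i a sg P N T : ℕ) (k : ℕ → ℕ → ℕ → Bool) : Bool :=
  Bool.rec false (Nat.rec
    ((fun P' => Bool.rec false (k P' N (Nat.add T a)) (Nat.ble (nat_lit 0) P'))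
      (Nat.add P (Nat.shiftLeft a (Nat.mul b i))))
    (fun _ _ => (fun N' => Bool.rec false (k P N' (Nat.add T a)) (Nat.ble (nat_lit 0) N'))
      (Nat.add N (Nat.shiftLeft a (Nat.mul b i))))
    (Nat.land sg (nat_lit 1))) (Nat.ble (nat_lit 0) T)

/-- One term. -/
def st2 (C : Cf2) (t : Tm) (w : ℕ) (zs : List ℕ) (P N T : ℕ)
    (k : List ℕ → ℕ → ℕ → ℕ → Bool) : Bool :=
  nf2 C.t1 C.t2 t w fun sg r key => (fun i => Bool.rec
    (Bool.rec false
      (Int.rec (fun a => accu C.b i (Nat.mul a (Nat.pow C.n r)) sg P N T (k zs))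
        (fun a => accu C.b i (Nat.mul (Nat.add a (nat_lit 1)) (Nat.pow C.n r))
          (Nat.add sg (nat_lit 1)) P N T (k zs)) t.c)
      (Nat.beq key (C.key i)))
    (List.rec false (fun z zs' _ => nf2 C.t1 C.t2 t z fun sg' r' key' =>
      Bool.rec false (Bool.rec false (Nat.rec false (fun _ _ => k zs' P N T)
        (Nat.land (Nat.add sg sg') (nat_lit 1))) (Nat.beq r r')) (Nat.beq key key')) zs)
    (Nat.beq i (nat_lit 4095))) (Nat.shiftRight w (nat_lit 41))

/-- All terms; the hints are packed in blocks of `56` bits below a leading one. -/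
def run2 (C : Cf2) (P0 N0 T0 : ℕ) (p : Poly) : ℕ → List ℕ → List ℕ → ℕ → ℕ → ℕ → Bool :=
  List.rec (fun _ _ _ P N T => Bool.rec false (Bool.rec false (Nat.beq T T0) (Nat.beq N N0))
      (Nat.beq P P0))
    (fun t _ ih cur ws zs P N T => Bool.rec
      (st2 C t (Nat.mod cur (nat_lit 72057594037927936)) zs P N T
        (ih (Nat.shiftRight cur (nat_lit 56)) ws))
      (List.rec false (fun w ws' _ => st2 C t (Nat.mod w (nat_lit 72057594037927936)) zs P N T
        (ih (Nat.shiftRight w (nat_lit 56)) ws')) ws)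
      (Nat.ble cur (nat_lit 1))) p

/-- The check that the accumulators have the given values. -/
def chk2 (C : Cf2) (p : Poly) (ws zs : List ℕ) (P0 N0 T0 : ℕ) : Bool :=
  run2 C P0 N0 T0 p (nat_lit 0) ws zs (nat_lit 0) (nat_lit 0) (nat_lit 0)

/-- A list of digits in base `64`. -/
def dcL (n : ℕ) : ℕ → List ℕ :=
  Nat.rec (fun _ => []) (fun _ ih x => Nat.land x (nat_lit 63) :: ih (Nat.shiftRight x (nat_lit 6))) n

/-- A list of factors. -/
def dcF (n : ℕ) : ℕ → List Fac :=
  Nat.rec (fun _ => []) (fun _ ih x => (Nat.land x (nat_lit 127),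
    dcL (Nat.land (Nat.shiftRight x (nat_lit 7)) (nat_lit 7)) (Nat.shiftRight x (nat_lit 10))) ::
      ih (Nat.shiftRight x (Nat.add (nat_lit 10)
        (Nat.mul (nat_lit 6) (Nat.land (Nat.shiftRight x (nat_lit 7)) (nat_lit 7)))))) n

/-- An integer. -/
def dcZ (x : ℕ) : ℤ := Nat.rec (Int.ofNat (Nat.shiftRight x (nat_lit 1)))
  (fun _ _ => Int.negSucc (Nat.shiftRight x (nat_lit 1))) (Nat.land x (nat_lit 1))

/-- A term: coefficient (`96` bits), numbers of summed labels and of factors, factors. -/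
def dcT (x : ℕ) : Tm :=
  ⟨dcZ (Nat.mod x (nat_lit 79228162514264337593543950336)),
    List.range' 10 (Nat.land (Nat.shiftRight x (nat_lit 96)) (nat_lit 15)),
    dcF (Nat.land (Nat.shiftRight x (nat_lit 100)) (nat_lit 15)) (Nat.shiftRight x (nat_lit 104))⟩

/-- An instance of a relation. -/
def dcI (x : ℕ) : ℕ × Tm × List ℕ :=
  (Nat.land x (nat_lit 31), dcT (Nat.shiftRight x (nat_lit 69)),
    dcL (Nat.land (Nat.shiftRight x (nat_lit 5)) (nat_lit 15)) (Nat.shiftRight x (nat_lit 9)))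

/-- A list of integers of `96` bits. -/
def dcR (n : ℕ) : ℕ → List ℤ :=
  Nat.rec (fun _ => []) (fun _ ih x => dcZ (Nat.mod x (nat_lit 79228162514264337593543950336)) ::
    ih (Nat.shiftRight x (nat_lit 96))) n

/-- The upper triangle of a matrix. -/
def dcQ (l : List ℕ) : List (List ℤ) :=
  List.rec [] (fun x r ih => dcR (Nat.add (len r) (nat_lit 1)) x :: ih) l

end Pool.Agent.P.MP_3e99c6_gt.G
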