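import Pool.Agent.P.MP_3e99c6_gt.SK.Fs0

/-! Digits, keys and the elimination of the Kronecker symbols. -/

set_option linter.unusedSectionVars false

noncomputable section

namespace Pool.Agent.P.MP_3e99c6_gt.G

open Function

variable {ι A B : Type} [Fintype ι] [DecidableEq ι] [CommRing A] [AddCommGroup B]
  {S : ℕ → List ι → A} {φ : A →+ B}

theorem FsA_dg (m p : ℕ) : dg m p = (m >>> p) % 2 ^ 7 := rfl

theorem FsA_bit (m p i : ℕ) : (dg m p).testBit i = (decide (i < 7) && m.testBit (p + i)) := by
  rw [FsA_dg, Nat.testBit_mod_two_pow, Nat.testBit_shiftRight]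

theorem dg_lt (m p : ℕ) : dg m p < 128 := Nat.mod_lt _ (by norm_num)

theorem FsA_xor (m n p : ℕ) : dg (m ^^^ n) p = dg m p ^^^ dg n p :=
  Nat.eq_of_testBit_eq fun i => by
    simp only [FsA_bit, Nat.testBit_xor]
    cases decide (i < 7) <;> simp

theorem FsA_or (m n p : ℕ) : dg (m ||| n) p = dg m p ||| dg n p :=
  Nat.eq_of_testBit_eq fun i => by
    simp only [FsA_bit, Nat.testBit_or]
    cases decide (i < 7) <;> simp

theorem FsA_shift (x a b : ℕ) (hx : x < 128) :
    dg (x <<< (7 * a)) (7 * b) = if b = a then x else 0 := by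
  have h7 : ∀ i, 7 ≤ i → x.testBit i = false := fun i hi =>
    Nat.testBit_lt_two_pow (lt_of_lt_of_le hx (Nat.pow_le_pow_right (n := 2) (by norm_num) hi))
  refine Nat.eq_of_testBit_eq fun i => ?_
  rw [FsA_bit, Nat.testBit_shiftLeft]
  by_cases hi : i < 7
  · split_ifs with h
    · subst h
      simp [hi]
    · rcases lt_or_gt_of_ne h with h' | h'
      · have : ¬ 7 * b + i ≥ 7 * a := by omega
        simp [this]
      · rw [h7 _ (by omega)]
        simp
  · split_ifs
    · simp [hi, h7 i (not_lt.1 hi)]
    · simp [hi]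

theorem dg_xor (m x a b : ℕ) (hx : x < 128) :
    dg (m ^^^ x <<< (7 * a)) (7 * b) = if b = a then dg m (7 * b) ^^^ x else dg m (7 * b) := by
  rw [FsA_xor, FsA_shift x a b hx]
  split_ifs <;> simp

theorem msk_ok (ds : List ℕ) : Msk (msk ds) ds := by
  induction ds with
  | nil => exact fun a => Or.inl (by simp [FsA_dg, msk])
  | cons a l ih =>
    intro b
    have e : msk (a :: l) = msk l ||| 127 <<< (7 * a) := rfl
    rw [e, FsA_or, FsA_shift 127 a b (by norm_num)]
    split_ifs with h
    · refine Or.inr ⟨?_, by simp [h]⟩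
      rcases ih b with h' | h'
      · rw [h']
        rfl
      · rw [h'.1]
        rfl
    · rw [Nat.or_zero]
      exact (ih b).imp id fun h' => ⟨h'.1, List.mem_cons_of_mem _ h'.2⟩

theorem len_eq (ds : List ℕ) : len ds = ds.length := by
  induction ds with
  | nil => rfl
  | cons a l ih => exact congrArg (· + 1) ih

theorem FsA_pos (l : List ℕ) : 1 ≤ l.foldr (fun a h => h * 128 + a) 1 := by
  induction l with
  | nil => exact le_rfl
  | cons a l ih =>
    rw [List.foldr_cons]
    omega

theorem FsA_digits {l l' : List ℕ} (h : ∀ a ∈ l, a < 128) (h' : ∀ a ∈ l', a < 128)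
    (e : l.foldr (fun a h => h * 128 + a) 1 = l'.foldr (fun a h => h * 128 + a) 1) : l = l' := by
  induction l generalizing l' with
  | nil =>
    cases l' with
    | nil => rfl
    | cons b l' =>
      have := FsA_pos l'
      rw [List.foldr_nil, List.foldr_cons] at e
      omega
  | cons a l ih =>
    cases l' with
    | nil =>
      have := FsA_pos l
      rw [List.foldr_nil, List.foldr_cons] at e
      omega
    | cons b l' =>
      have h1 := h a (by simp)
      have h2 := h' b (by simp)
      rw [List.foldr_cons, List.foldr_cons] at e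
      rw [show a = b by omega, ih (l' := l') (fun x hx => h x (by simp [hx]))
        (fun x hx => h' x (by simp [hx])) (by omega)]

/-- The digits of a list of factors. -/
def FsA_flat (fs : List Fac) : List ℕ := fs.flatMap fun f => 0 :: f.1 :: f.2

theorem FsA_fold (fs : List Fac) (h : ℕ) :
    fs.foldl encF h = (FsA_flat fs).foldl (fun h a => h * 128 + a) h := by
  induction fs generalizing h with
  | nil => rfl
  | cons f fs ih =>
    rw [List.foldl_cons, ih, FsA_flat, FsA_flat, List.flatMap_cons, List.foldl_append,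
      List.foldl_cons, List.foldl_cons, encF]
    congr 2
    omega

theorem FsA_take (l : List ℕ) (h : ∀ a ∈ l, 0 < a) (fs : List Fac) :
    (l ++ FsA_flat fs).takeWhile (fun a => decide (0 < a)) = l := by
  induction l with
  | nil => cases fs <;> simp [FsA_flat]
  | cons a l ih =>
    rw [List.cons_append, List.takeWhile_cons_of_pos (by simpa using h a (by simp)),
      ih fun x hx => h x (by simp [hx])]

theorem FsA_flat_inj {fs gs : List Fac} (h : ∀ f ∈ fs, ∀ a ∈ f.2, 0 < a)
    (h' : ∀ f ∈ gs, ∀ a ∈ f.2, 0 < a) (e : FsA_flat fs = FsA_flat gs) : fs = gs := by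
  induction fs generalizing gs with
  | nil =>
    cases gs with
    | nil => rfl
    | cons g gs => simp [FsA_flat] at e
  | cons f fs ih =>
    cases gs with
    | nil => simp [FsA_flat] at e
    | cons g gs =>
      have e1 : 0 :: f.1 :: (f.2 ++ FsA_flat fs) = 0 :: g.1 :: (g.2 ++ FsA_flat gs) := e
      simp only [List.cons.injEq, true_and] at e1
      have e2 : f.2 = g.2 := by
        rw [← FsA_take f.2 (h f (by simp)) fs, e1.2, FsA_take g.2 (h' g (by simp)) gs]
      have e3 := e1.2
      rw [e2, List.append_cancel_left_eq] at e3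
      rw [Prod.ext e1.1 e2, ih (fun x hx => h x (by simp [hx]))
        (fun x hx => h' x (by simp [hx])) e3]

theorem FsA_flat_lt {x : ℕ × List Fac} (hx : Valid x) : ∀ a ∈ (FsA_flat x.2).reverse, a < 128 := by
  intro a ha
  obtain ⟨f, hf, ha⟩ := List.mem_flatMap.1 (List.mem_reverse.1 ha)
  simp only [List.mem_cons] at ha
  rcases ha with rfl | rfl | ha
  exacts [by norm_num, (hx.2 f hf).1, ((hx.2 f hf).2 a ha).2]

theorem enc_inj {x y : ℕ × List Fac} (hx : Valid x) (hy : Valid y) (h : enc x = enc y) :
    x = y := by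
  have h1 := hx.1
  have h2 := hy.1
  rw [enc, enc, FsA_fold, FsA_fold, ← List.foldr_reverse, ← List.foldr_reverse] at h
  refine Prod.ext (by omega) (FsA_flat_inj (fun f hf a ha => ((hx.2 f hf).2 a ha).1)
    (fun f hf a ha => ((hy.2 f hf).2 a ha).1) (List.reverse_injective ?_))
  exact FsA_digits (FsA_flat_lt hx) (FsA_flat_lt hy) (by omega)

theorem kv_enc {x : ℕ × List Fac} (hx : Valid x) (ρ : ℕ → ι) :
    kv S φ ρ (enc x) = φ (sumL (List.range' 1 (x.1 - 1)) (fP S x.2) ρ) := by
  have h : ∃ y, Valid y ∧ enc y = enc x := ⟨x, hx, rfl⟩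
  rw [kv, dif_pos h, enc_inj h.choose_spec.1 hx h.choose_spec.2]

theorem FsA_upd (s : ℕ → ℕ) (y x : ℕ) (ρ : ℕ → ι) :
    ρ ∘ upd s y x = update ρ y (ρ x) ∘ s := by
  funext l
  simp only [comp_apply, upd]
  cases e : Nat.beq (s l) y with
  | true => simp [Nat.eq_of_beq_eq_true e]
  | false => rw [update_of_ne (beq_false e)]

theorem el_sound (hδ : ∀ i j, S 0 [i, j] = if i = j then 1 else 0) {k : KE} {fs : List Fac}
    {s : ℕ → ℕ} {m : ℕ} {ds : List ℕ} {acc : List Fac} (hm : Msk m ds)
    (h : el k fs s m ds.length acc (2 ^ acc.length) = true) :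
    ∃ s' m' ds' acc', Msk m' ds' ∧ k s' m' (List.length ds') acc' (2 ^ List.length acc') = true ∧
      ∀ ρ, sumL ds (fun ρ => fP S (fs ++ acc) (ρ ∘ s)) ρ =
        sumL ds' (fun ρ => fP S acc' (ρ ∘ s')) ρ := by
  induction fs generalizing s m ds acc with
  | nil => exact ⟨s, m, ds, acc, hm, h, fun ρ => rfl⟩
  | cons f fs ih =>
    obtain ⟨τ, l⟩ := f
    cases τ with
    | succ τ =>
      have h1 : el k fs s m ds.length ((τ + 1, l) :: acc) (2 ^ acc.length + 2 ^ acc.length) =
        true := h
      rw [← two_mul, ← pow_succ'] at h1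
      obtain ⟨s', m', ds', acc', a1, a2, a3⟩ := ih (acc := (τ + 1, l) :: acc) hm h1
      refine ⟨s', m', ds', acc', a1, a2, fun ρ => ?_⟩
      rw [← a3, fP_perm S List.perm_middle]
      rfl
    | zero =>
      match l, h with
      | [], h => exact absurd h Bool.false_ne_true
      | [_], h => exact absurd h Bool.false_ne_true
      | _ :: _ :: _ :: _, h => exact absurd h Bool.false_ne_true
      | [x, y], h =>
        have e0 : ∀ ρ : ℕ → ι, fP S ((0, [x, y]) :: fs ++ acc) (ρ ∘ s) =
            (if ρ (s x) = ρ (s y) then 1 else 0) * fP S (fs ++ acc) (ρ ∘ s) := fun ρ => by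
          simp [fP_cons, hδ]
        have h1 : el2 (el k fs) s m ds.length acc (2 ^ acc.length) (s x) (s y) = true := h
        unfold el2 at h1
        cases e : Nat.beq (s x) (s y) with
        | true =>
          rw [e] at h1
          obtain ⟨s', m', ds', acc', a1, a2, a3⟩ := ih hm h1
          refine ⟨s', m', ds', acc', a1, a2, fun ρ => ?_⟩
          simp only [← a3, e0, Nat.eq_of_beq_eq_true e, if_true, one_mul]
        | false =>
          rw [e] at h1
          have h2 : Bool.rec false (el k fs (upd s (s y) (s x)) (m ^^^ 127 <<< (7 * s y))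
            (ds.length - 1) acc (2 ^ acc.length)) (Nat.beq (dg m (7 * s y)) 127) = true := h1
          cases e' : Nat.beq (dg m (7 * s y)) 127 with
          | false =>
            rw [e'] at h2
            exact absurd h2 Bool.false_ne_true
          | true =>
            rw [e'] at h2
            have h3 := Nat.eq_of_beq_eq_true e'
            have hy : s y ∈ ds := ((hm (s y)).resolve_left (by omega)).2
            have hp := era_perm hy
            have h4 : ds.length - 1 = (era (s y) ds).length := by
              rw [hp.length_eq]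
              rfl
            rw [h4] at h2
            have hm' : Msk (m ^^^ 127 <<< (7 * s y)) (era (s y) ds) := fun a => by
              rw [dg_xor m 127 (s y) a (by norm_num)]
              split_ifs with ha
              · rw [ha, h3]
                exact Or.inl rfl
              · exact (hm a).imp id fun h' =>
                  ⟨h'.1, (List.mem_cons.1 (hp.mem_iff.1 h'.2)).resolve_left ha⟩
            obtain ⟨s', m', ds', acc', a1, a2, a3⟩ := ih hm' h2
            refine ⟨s', m', ds', acc', a1, a2, fun ρ => ?_⟩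
            simp only [← a3, e0, FsA_upd]
            exact sumL_delta hy (beq_false e) (fun ρ => fP S (fs ++ acc) (ρ ∘ s)) ρ

end Pool.Agent.P.MP_3e99c6_gt.G
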