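import Pool.Agent.P.MP_3e99c6_gt.SK.FsA
import Pool.Agent.P.MP_3e99c6_gt.SK.Sos

/-! Soundness of the normal form. -/

set_option linter.unusedSectionVars false

noncomputable section

namespace Pool.Agent.P.MP_3e99c6_gt.G

open Function

variable {ι A B : Type} [Fintype ι] [DecidableEq ι] [CommRing A] [AddCommGroup B]
  {S : ℕ → List ι → A} {φ : A →+ B}

theorem fsb_rec {b x : Bool} (h : (Bool.rec false x b : Bool) = true) : b = true ∧ x = true := by
  cases b
  · exact absurd h (by simp)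
  · exact ⟨rfl, h⟩

theorem fsb_swp (p : ℕ) (l : List ℕ) : swp p l = swapAt p l := by
  induction p generalizing l with
  | zero =>
    match l with
    | [] => rfl
    | [_] => rfl
    | _ :: _ :: _ => rfl
  | succ p ih =>
    match l with
    | [] => rfl
    | a :: l => exact congrArg (a :: ·) (ih l)

theorem fsb_nth (l : List Fac) : (List.range l.length).map (nth l) = l := by
  induction l with
  | nil => rfl
  | cons f l ih =>
    rw [List.length_cons, List.range_succ_eq_map, List.map_cons, List.map_map]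
    exact congrArg (f :: ·) ih

theorem fsb_cj2 (s : ℕ → ℕ) (f : Fac) : cj2 (mapF s f) = mapF s (cj2 f) := by
  obtain ⟨τ, l⟩ := f
  unfold cj2 mapF
  dsimp only
  cases Nat.beq (Nat.div (Nat.add τ (nat_lit 2)) (nat_lit 4)) (nat_lit 1)
  · exact cjL_map s τ l
  · cases l <;> rfl

theorem fsb_fl {tab : ℕ} (hs : Sym2 tab S) {τ b : ℕ} {k : List ℕ → ℕ → Bool} {l : List ℕ}
    {sg : ℕ} (h : fl tab τ b k l sg = true) : ∃ l' sg', k l' sg' = true ∧
      ∀ ρ : ℕ → ι, (-1) ^ sg * S τ (l.map ρ) = (-1) ^ sg' * S τ (l'.map ρ) := by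
  cases b with
  | zero => exact ⟨l, sg, h, fun _ => rfl⟩
  | succ b =>
    change fl1 tab τ l sg k = true at h
    unfold fl1 at h
    have e : Nat.mod (Nat.shiftRight tab (Nat.mul (nat_lit 4) τ)) (nat_lit 16) =
      (tab >>> (4 * τ)) % 16 := rfl
    rw [e] at h
    cases e' : (tab >>> (4 * τ)) % 16 with
    | zero =>
      rw [e'] at h
      exact absurd h (by simp)
    | succ d =>
      rw [e'] at h
      refine ⟨swp (d / 2) l, sg + d, h, fun ρ => ?_⟩
      rw [fsb_swp, map_swapAt, hs τ d _ e', pow_add, mul_assoc, ← mul_assoc ((-1) ^ d),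
        ← mul_pow]
      simp

/-- The invariant of the renaming. -/
structure FsbInv (ds : List ℕ) (m c : ℕ) (inv : List ℕ) : Prop where
  nd : inv.Nodup
  sub : inv ⊆ ds
  len : c = inv.length + 1
  old : ∀ a ∈ inv, dg m (7 * a) = inv.idxOf a + 1
  new : ∀ a ∉ inv, dg m (7 * a) = 0 ∨ dg m (7 * a) = 127 ∧ a ∈ ds

theorem FsbInv.step {ds : List ℕ} {m c a : ℕ} {inv : List ℕ} (h : FsbInv ds m c inv)
    (hc : c ≤ 127) (ha : dg m (7 * a) = 127) :
    FsbInv ds (m ^^^ (127 ^^^ c) <<< (7 * a)) (c + 1) (inv ++ [a]) := by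
  have hn : a ∉ inv := fun hm => by
    have h1 := h.old a hm
    have h2 := List.idxOf_lt_length_of_mem hm
    have h3 := h.len
    omega
  have hx : 127 ^^^ c < 128 := Nat.xor_lt_two_pow (n := 7) (by norm_num) (by omega)
  refine ⟨List.nodup_append.2 ⟨h.nd, List.nodup_singleton a, fun x hx y hy e => hn ?_⟩,
    fun b hb => ?_, by simp [h.len], fun b hb => ?_, fun b hb => ?_⟩
  · rw [← List.mem_singleton.1 hy, ← e]
    exact hx
  · rcases List.mem_append.1 hb with hb | hb
    · exact h.sub hb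
    · rw [List.mem_singleton.1 hb]
      exact ((h.new a hn).resolve_left (by omega)).2
  · rw [dg_xor _ _ _ _ hx]
    split_ifs with e
    · rw [e, ha, ← Nat.xor_assoc, Nat.xor_self, Nat.zero_xor, List.idxOf_append_of_notMem hn,
        h.len]
      simp
    · have hb' : b ∈ inv := (List.mem_append.1 hb).resolve_right (by simpa using e)
      rw [List.idxOf_append_of_mem hb', h.old b hb']
  · rw [dg_xor _ _ _ _ hx, if_neg fun e => hb (by simp [e])]
    exact h.new b fun hb' => hb (List.mem_append_left _ hb')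

theorem fsb_lab {ds : List ℕ} {s : ℕ → ℕ} {k : ℕ → ℕ → ℕ → Bool} {l : List ℕ} {m c h : ℕ}
    (H : lab s k l m c h = true) : ∃ m' c' h', k m' c' h' = true ∧ c ≤ c' ∧
      (c' ≤ 127 → ∀ inv, FsbInv ds m c inv → ∃ ext, FsbInv ds m' c' (inv ++ ext) ∧
        (∀ a ∈ l, s a ∈ inv ++ ext) ∧ ∀ ext', h' =
          (l.map fun a => (inv ++ ext ++ ext').idxOf (s a) + 1).foldl (fun h a => h * 128 + a) h) := by
  induction l generalizing m c h with
  | nil =>
    exact ⟨m, c, h, H, le_rfl, fun _ inv hi => ⟨[], by simpa using hi, by simp, fun _ => rfl⟩⟩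
  | cons a l ih =>
    change lab1 (lab s k l) m c h (7 * s a) (dg m (7 * s a)) = true at H
    unfold lab1 at H
    cases e : Nat.beq (dg m (7 * s a)) (nat_lit 127) with
    | true =>
      rw [e] at H
      have ha : dg m (7 * s a) = 127 := Nat.eq_of_beq_eq_true e
      obtain ⟨m', c', h', h1, h2, h3⟩ :=
        ih (m := m ^^^ (127 ^^^ c) <<< (7 * s a)) (c := c + 1) (h := h * 128 + c) H
      refine ⟨m', c', h', h1, by omega, fun hc inv hi => ?_⟩
      have hs := hi.step (by omega) ha
      obtain ⟨ext, h4, h5, h6⟩ := h3 hc _ hs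
      rw [List.append_assoc] at h4 h5 h6
      refine ⟨[s a] ++ ext, h4, fun b hb => ?_, fun ext' => ?_⟩
      · rcases List.mem_cons.1 hb with rfl | hb
        · simp
        · exact h5 b hb
      · rw [List.map_cons, List.foldl_cons, h6 ext']
        congr 2
        have hn : s a ∉ inv := by
          have := hs.nd
          rw [List.nodup_append] at this
          exact fun hm => this.2.2 _ hm _ (List.mem_singleton_self _) rfl
        rw [List.append_assoc, List.idxOf_append_of_notMem hn, hi.len]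
        simp
    | false =>
      rw [e] at H
      have ha : dg m (7 * s a) ≠ 127 := Nat.ne_of_beq_eq_false e
      change labB (lab s k l) m c h (dg m (7 * s a)) = true at H
      unfold labB at H
      cases e' : dg m (7 * s a) with
      | zero =>
        rw [e'] at H
        exact absurd H (by simp)
      | succ v =>
        rw [e'] at H
        obtain ⟨m', c', h', h1, h2, h3⟩ := ih (m := m) (c := c) (h := h * 128 + (v + 1)) H
        refine ⟨m', c', h', h1, h2, fun hc inv hi => ?_⟩
        obtain ⟨ext, h4, h5, h6⟩ := h3 hc _ hi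
        have hm : s a ∈ inv := by
          by_contra hn
          rcases hi.new _ hn with h7 | h7
          · omega
          · exact ha h7.1
        refine ⟨ext, h4, fun b hb => ?_, fun ext' => ?_⟩
        · rcases List.mem_cons.1 hb with rfl | hb
          · exact List.mem_append_left _ hm
          · exact h5 b hb
        · rw [List.map_cons, List.foldl_cons, h6 ext']
          congr 2
          rw [List.append_assoc, List.idxOf_append_of_mem hm, ← hi.old _ hm, e']

theorem fsb_lp {ds : List ℕ} {t1 t2 : ℕ} (h1 : Sym2 t1 S) (h2 : Sym2 t2 S) {cf : Fac → Fac}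
    {s : ℕ → ℕ} {acc : List Fac} {k : ℕ → ℕ → ℕ → ℕ → Bool} {fuel : List Fac}
    {w um sg m c h : ℕ} (H : lp t1 t2 cf s acc k fuel w um sg m c h = true) :
    ∃ um' sg' c' h', k um' sg' c' h' = true ∧ c ≤ c' ∧ ∃ (is : List ℕ) (out : List Fac),
      is.length = fuel.length ∧ (∀ j, um'.testBit j = true → um.testBit j = true ∨ j ∈ is) ∧
      (∀ f ∈ out, f.1 < 128) ∧
      (∀ ρ, (-1) ^ sg * fP S (is.map fun i => cf (nth acc i)) ρ = (-1) ^ sg' * fP S out ρ) ∧
      (c' ≤ 127 → ∀ inv, FsbInv ds m c inv → ∃ m' ext, FsbInv ds m' c' (inv ++ ext) ∧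
        (∀ a ∈ labs out, s a ∈ inv ++ ext) ∧ ∀ ext', h' =
          (out.map (mapF fun a => (inv ++ ext ++ ext').idxOf (s a) + 1)).foldl encF h) := by
  induction fuel generalizing w um sg m c h with
  | nil =>
    exact ⟨um, sg, c, h, H, le_rfl, [], [], rfl, fun _ hj => Or.inl hj, by simp, fun _ => rfl,
      fun _ inv hi => ⟨m, [], by simpa using hi, by simp [labs], fun _ => rfl⟩⟩
  | cons f fuel ih =>
    change lp1 t1 t2 s (lp t1 t2 cf s acc k fuel) w (um ||| 1 <<< (w &&& 7)) sg m c h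
      (cf (nth acc (w &&& 7))).1 (cf (nth acc (w &&& 7))).2 = true at H
    generalize w &&& 7 = i at H
    obtain ⟨hτ, H⟩ := fsb_rec H
    obtain ⟨l1, sg1, H, e1⟩ := fsb_fl h1 H
    obtain ⟨l2, sg2, H, e2⟩ := fsb_fl h2 H
    obtain ⟨m1, c1, h1', H, hc1, hl⟩ := fsb_lab (ds := ds) H
    obtain ⟨um', sg', c', h', a1, a2, is, out, a3, a4, a5, a6, a7⟩ := ih H
    refine ⟨um', sg', c', h', a1, hc1.trans a2, i :: is, ((cf (nth acc i)).1, l2) :: out,
      by simp [a3], fun j hj => ?_, ?_, fun ρ => ?_, fun hc inv hi => ?_⟩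
    · rcases a4 j hj with h3 | h3
      · rw [Nat.testBit_or, Bool.or_eq_true, Nat.one_shiftLeft, Nat.testBit_two_pow] at h3
        rcases h3 with h3 | h3
        · exact Or.inl h3
        · exact Or.inr (by simp [(of_decide_eq_true h3).symm])
      · exact Or.inr (List.mem_cons_of_mem _ h3)
    · intro g hg
      rcases List.mem_cons.1 hg with rfl | hg
      · exact Nat.lt_succ_of_le (Nat.le_of_ble_eq_true hτ)
      · exact a5 g hg
    · rw [List.map_cons, fP_cons, fP_cons, ← mul_assoc, e1, e2, mul_right_comm, a6]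
      ring
    · obtain ⟨ext1, b1, b2, b3⟩ := hl (a2.trans hc) inv hi
      obtain ⟨m', ext2, b4, b5, b6⟩ := a7 hc _ b1
      rw [List.append_assoc] at b4 b5 b6
      refine ⟨m', ext1 ++ ext2, b4, fun a ha => ?_, fun ext' => ?_⟩
      · rcases List.mem_append.1 ha with ha | ha
        · rw [← List.append_assoc]
          exact List.mem_append_left _ (b2 a ha)
        · exact b5 a ha
      · rw [List.map_cons, List.foldl_cons, b6 ext', b3 (ext2 ++ ext')]
        simp only [List.append_assoc]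
        rfl

theorem fsb_map_idx {l : List ℕ} (h : l.Nodup) :
    l.map (fun a => l.idxOf a + 1) = List.range' 1 l.length := by
  refine List.ext_getElem (by simp) fun i h1 h2 => ?_
  simp only [List.getElem_map, List.getElem_range', h.idxOf_getElem]
  omega

theorem fsb_fin {ds inv : List ℕ} (hn : inv.Nodup) (hs : inv ⊆ ds) {fs : List Fac}
    (hf : ∀ a ∈ labs fs, a ∈ inv) (ρ : ℕ → ι) : sumL ds (fP S fs) ρ =
      (Fintype.card ι : A) ^ (ds.length - inv.length) *
        sumL (List.range' 1 inv.length) (fP S (fs.map (mapF fun a => inv.idxOf a + 1))) ρ := by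
  obtain ⟨l, hl, hl'⟩ := hn.subperm hs
  obtain ⟨rest, hr⟩ := hl'.exists_perm_append
  have hp : ds.Perm (rest ++ inv) := hr.trans ((hl.append_right rest).trans List.perm_append_comm)
  have hc : Dep (sumL inv (fP S fs)) [] := fun ρ ρ' _ =>
    sumL_congr (dep_fP fs) inv fun a ha hn => absurd (hf a ha) hn
  have inj : ∀ a ∈ inv, ∀ b ∈ inv, inv.idxOf b + 1 = inv.idxOf a + 1 → b = a :=
    fun a ha b hb h => (List.idxOf_inj hb).1 (by omega)
  have e2 : fP S (fs.map (mapF fun a => inv.idxOf a + 1)) =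
      fun ρ => fP S fs (ρ ∘ fun a => inv.idxOf a + 1) := funext fun ρ => fP_map S _ _ ρ
  rw [sumL_perm hp, sumL_append, sumL_unused hc rest (by simp), hp.length_eq, ← fsb_map_idx hn, e2,
    sumL_map (dep_fP fs) _ _ (fun a ha b hb => inj a ha b (hf b hb)) inj,
    hc ρ (ρ ∘ fun a => inv.idxOf a + 1) (by simp)]
  simp

theorem nf2_sound {C : Cf2} (H : Ok2 C S φ) {t : Tm} {w : ℕ} {k : ℕ → ℕ → ℕ → Bool}
    (h : nf2 C.t1 C.t2 t w k = true) (ρ : ℕ → ι) : ∃ sg r key, k sg r key = true ∧
      φ (sumL t.ds (fP S t.fs) ρ) = ((-1) ^ sg * (C.n : ℤ) ^ r) • kv S φ ρ key := by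
  unfold nf2 at h
  rw [len_eq] at h
  generalize hcf : (Nat.rec (fun f => f) (fun _ _ => cj2) (Nat.land w (nat_lit 1)) : Fac → Fac) = cf
    at h
  have hc1 : ∀ s f, cf (mapF s f) = mapF s (cf f) := by
    rw [← hcf]
    cases Nat.land w (nat_lit 1)
    · exact fun _ _ => rfl
    · exact fsb_cj2
  have hc2 : ∀ ds fs, φ (sumL ds (fP S (fs.map cf)) ρ) = φ (sumL ds (fP S fs) ρ) := by
    rw [← hcf]
    cases Nat.land w (nat_lit 1)
    · intro ds fs
      change φ (sumL ds (fP S (fs.map fun f => f)) ρ) = _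
      rw [List.map_id']
    · exact fun ds fs => H.cj ds fs ρ
  obtain ⟨s, m, ds, acc, hm, h, e⟩ := el_sound H.delta (acc := []) (msk_ok t.ds) h
  obtain ⟨um, sg, c, h', h, -, is, out, a3, a4, a5, a6, a7⟩ := fsb_lp (ds := ds) H.s1 H.s2 h
  obtain ⟨hu, h⟩ := fsb_rec h
  obtain ⟨hc, h⟩ := fsb_rec h
  have hu' : um + 1 = 2 ^ acc.length := Nat.eq_of_beq_eq_true hu
  have hc' : c ≤ 127 := Nat.le_of_ble_eq_true hc
  obtain ⟨m', inv, b1, b2, b3⟩ := a7 hc' [] ⟨List.nodup_nil, List.nil_subset _, rfl, by simp,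
    fun a _ => hm a⟩
  replace b3 := b3 []
  simp only [List.nil_append, List.append_nil] at b1 b2 b3
  have hp : (List.range acc.length).Perm is := by
    refine (List.nodup_range.subperm fun j hj => ?_).perm_of_length_le (by simp [a3])
    refine (a4 j ?_).resolve_left (by simp)
    rw [show um = 2 ^ acc.length - 1 by omega, Nat.testBit_two_pow_sub_one]
    simpa using hj
  have hp' : (acc.map cf).Perm (is.map fun i => cf (nth acc i)) := by
    have := (hp.map (nth acc)).map cf
    rwa [fsb_nth, List.map_map] at this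
  refine ⟨sg, ds.length + 1 - c, h' * 128 + c, h, ?_⟩
  have hv : Valid (c, out.map (mapF fun a => inv.idxOf (s a) + 1)) := by
    refine ⟨Nat.lt_succ_of_le hc', fun f hf => ?_⟩
    obtain ⟨g, hg, rfl⟩ := List.mem_map.1 hf
    refine ⟨a5 g hg, fun a ha => ?_⟩
    obtain ⟨b, hb, rfl⟩ := List.mem_map.1 ha
    have h1 := List.idxOf_lt_length_of_mem (b2 b (mem_labs.2 ⟨g, hg, hb⟩))
    have h2 := b1.len
    omega
  have e1 : h' * 128 + c = enc (c, out.map (mapF fun a => inv.idxOf (s a) + 1)) := by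
    rw [b3]
    rfl
  have e2 : (fun ρ => fP S acc (ρ ∘ s)) = fP S (acc.map (mapF s)) :=
    funext fun ρ => (fP_map S _ _ ρ).symm
  have e3 : fP S ((acc.map (mapF s)).map cf) =
      fun ρ => (-1) ^ sg * fP S (out.map (mapF s)) ρ := by
    funext ρ
    have : (acc.map (mapF s)).map cf = (acc.map cf).map (mapF s) := by
      simp only [List.map_map]
      exact List.map_congr_left fun f _ => hc1 s f
    rw [this, fP_map, fP_map, fP_perm S hp', ← a6]
    simp
  have e4 : (out.map (mapF s)).map (mapF fun a => inv.idxOf a + 1) =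
      out.map (mapF fun a => inv.idxOf (s a) + 1) := by
    simp [mapF, comp_def]
  have e5 : ∀ a ∈ labs (out.map (mapF s)), a ∈ inv := by
    intro a ha
    obtain ⟨f, hf, ha⟩ := mem_labs.1 ha
    obtain ⟨g, hg, rfl⟩ := List.mem_map.1 hf
    obtain ⟨b, hb, rfl⟩ := List.mem_map.1 ha
    exact b2 b (mem_labs.2 ⟨g, hg, hb⟩)
  have e0 : sumL t.ds (fP S t.fs) ρ = sumL ds (fun ρ => fP S acc (ρ ∘ s)) ρ := by
    rw [← e ρ, List.append_nil]
    rfl
  rw [e0, e2, ← hc2, e3, sumL_mul, fsb_fin b1.nd b1.sub e5, e4, e1, kv_enc hv, ← map_zsmul, H.card,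
    b1.len]
  congr 1
  simp [mul_assoc]

end Pool.Agent.P.MP_3e99c6_gt.G
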