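import Pool.Agent.P.MP_3e99c6_gt.SK.FsB

/-! Soundness of the fast check. -/

set_option linter.unusedSectionVars false

noncomputable section

namespace Pool.Agent.P.MP_3e99c6_gt.G

open Function

variable {ι A B : Type} [Fintype ι] [DecidableEq ι] [CommRing A] [AddCommGroup B]
  {S : ℕ → List ι → A} {φ : A →+ B}

theorem Rep.add {b : ℕ} {v : ℕ → B} {x y : B} {P N T P' N' T' : ℕ} (h : Rep b v x P N T)
    (h' : Rep b v y P' N' T') : Rep b v (x + y) (P + P') (N + N') (T + T') := by
  obtain ⟨L, h1, h2, h3⟩ := h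
  obtain ⟨L', h1', h2', h3'⟩ := h'
  refine ⟨L ++ L', ?_, ?_, ?_⟩
  · rw [List.map_append, List.sum_append, h1, h1']
  · rw [List.map_append, List.sum_append, h2, h2']
    push_cast
    ring
  · rw [List.map_append, List.sum_append]
    omega

theorem fsc_split (b K : ℕ) (v : ℕ → B) (L : List (ℕ × ℤ)) (hL : ∀ y ∈ L, y.1 < K + 1) :
    ∃ (c : ℤ) (M : List (ℕ × ℤ)), (∀ y ∈ M, y.1 < K) ∧
      (L.map fun y => y.2 • v y.1).sum = c • v 0 + (M.map fun y => y.2 • v (y.1 + 1)).sum ∧
      (L.map fun y => y.2 * 2 ^ (b * y.1)).sum =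
        c + 2 ^ b * (M.map fun y => y.2 * 2 ^ (b * y.1)).sum ∧
      c.natAbs + (M.map fun y => y.2.natAbs).sum ≤ (L.map fun y => y.2.natAbs).sum := by
  induction L with
  | nil => exact ⟨0, [], by simp, by simp, by simp, by simp⟩
  | cons y L ih =>
    obtain ⟨c, M, h0, h1, h2, h3⟩ := ih fun z hz => hL z (List.mem_cons_of_mem _ hz)
    obtain ⟨i, a⟩ := y
    have hi : i < K + 1 := hL (i, a) List.mem_cons_self
    cases i with
    | zero =>
      refine ⟨a + c, M, h0, ?_, ?_, ?_⟩
      · rw [List.map_cons, List.sum_cons, h1, add_smul, add_assoc]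
      · rw [List.map_cons, List.sum_cons, h2]
        simp only [mul_zero, pow_zero, mul_one]
        ring
      · rw [List.map_cons, List.sum_cons]
        have := Int.natAbs_add_le a c
        simp only
        omega
    | succ j =>
      refine ⟨c, (j, a) :: M, ?_, ?_, ?_, ?_⟩
      · intro z hz
        rcases List.mem_cons.1 hz with rfl | hz
        · simp only
          omega
        · exact h0 z hz
      · rw [List.map_cons, List.sum_cons, h1, List.map_cons, List.sum_cons]
        simp only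
        abel
      · rw [List.map_cons, List.sum_cons, h2, List.map_cons, List.sum_cons]
        simp only
        ring
      · rw [List.map_cons, List.sum_cons, List.map_cons, List.sum_cons]
        simp only
        omega

theorem fsc_zero (b K : ℕ) (v : ℕ → B) (L : List (ℕ × ℤ)) (hL : ∀ y ∈ L, y.1 < K)
    (h1 : (L.map fun y => y.2.natAbs).sum < 2 ^ b)
    (h2 : (L.map fun y => y.2 * 2 ^ (b * y.1)).sum = 0) :
    (L.map fun y => y.2 • v y.1).sum = 0 := by
  induction K generalizing v L with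
  | zero =>
    cases L with
    | nil => rfl
    | cons y L => exact absurd (hL y List.mem_cons_self) (Nat.not_lt_zero _)
  | succ K ih =>
    obtain ⟨c, M, g0, g1, g2, g3⟩ := fsc_split b K v L hL
    rw [h2] at g2
    have hd : (2 : ℤ) ^ b ∣ c := ⟨-(M.map fun y => y.2 * 2 ^ (b * y.1)).sum, by linarith⟩
    have hc : c = 0 := by
      refine Int.eq_zero_of_dvd_of_natAbs_lt_natAbs hd ?_
      rw [Int.natAbs_pow]
      have : (2 : ℤ).natAbs = 2 := rfl
      rw [this]
      omega
    rw [hc, zero_add] at g2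
    have hM : (M.map fun y => y.2 * 2 ^ (b * y.1)).sum = 0 :=
      (mul_eq_zero.1 g2.symm).resolve_left (by positivity)
    rw [g1, hc, zero_smul, zero_add]
    exact ih (fun i => v (i + 1)) M g0 (by omega) hM

theorem fsc_bound (L : List (ℕ × ℤ)) : ∃ K, ∀ y ∈ L, y.1 < K := by
  induction L with
  | nil => exact ⟨0, by simp⟩
  | cons y L ih =>
    obtain ⟨K, hK⟩ := ih
    refine ⟨K + y.1 + 1, fun z hz => ?_⟩
    rcases List.mem_cons.1 hz with rfl | hz
    · omega
    · have := hK z hz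
      omega

theorem Rep.zero {b : ℕ} {v : ℕ → B} {x : B} {P N T : ℕ} (h : Rep b v x P N T)
    (h0 : (Nat.beq P N && Nat.blt T (2 ^ b)) = true) : x = 0 := by
  obtain ⟨L, h1, h2, h3⟩ := h
  rw [Bool.and_eq_true, Nat.beq_eq, Nat.blt_eq] at h0
  obtain ⟨K, hK⟩ := fsc_bound L
  rw [← h1]
  exact fsc_zero b K v L hK (by omega) (by rw [h2, h0.1, sub_self])

theorem fsc_brec {x c : Bool} (h : (Bool.rec false x c : Bool) = true) : c = true ∧ x = true := by
  cases c
  · exact absurd h (by simp)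
  · exact ⟨rfl, h⟩

theorem fsc_nrec {x y : Bool} {s : ℕ}
    (h : (Nat.rec x (fun _ _ => y) (Nat.land s (nat_lit 1)) : Bool) = true) :
    Even s ∧ x = true ∨ Odd s ∧ y = true := by
  have e : Nat.land s (nat_lit 1) = s % 2 := Nat.and_one_is_mod s
  rw [e] at h
  rcases Nat.mod_two_eq_zero_or_one s with h0 | h0
  · rw [h0] at h
    exact Or.inl ⟨Nat.even_iff.2 h0, h⟩
  · rw [h0] at h
    exact Or.inr ⟨Nat.odd_iff.2 h0, h⟩

theorem accu_sound {b i a s P N T : ℕ} {k : ℕ → ℕ → ℕ → Bool} (h : accu b i a s P N T k = true)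
    {v : ℕ → B} {x : B} (hx : Rep b v x P N T) : ∃ P' N' T', k P' N' T' = true ∧
      Rep b v (x + ((-1) ^ s * (a : ℤ)) • v i) P' N' T' := by
  have e : Nat.shiftLeft a (Nat.mul b i) = a * 2 ^ (b * i) := Nat.shiftLeft_eq a (b * i)
  have h' : (Nat.rec (k (Nat.add P (Nat.shiftLeft a (Nat.mul b i))) N (Nat.add T a))
      (fun _ _ => k P (Nat.add N (Nat.shiftLeft a (Nat.mul b i))) (Nat.add T a))
      (Nat.land s (nat_lit 1)) : Bool) = true := h
  rcases fsc_nrec h' with ⟨hs, h⟩ | ⟨hs, h⟩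
  · refine ⟨_, _, _, h, ?_⟩
    rw [e]
    refine Rep.add (P' := a * 2 ^ (b * i)) (N' := 0) (T' := a) hx ⟨[(i, a)], ?_, ?_, ?_⟩
    · simp [hs.neg_one_pow]
    · simp
    · simp
  · refine ⟨_, _, _, h, ?_⟩
    rw [e]
    refine Rep.add (P' := 0) (N' := a * 2 ^ (b * i)) (T' := a) hx ⟨[(i, -a)], ?_, ?_, ?_⟩
    · simp [hs.neg_one_pow]
    · simp
    · simp

theorem fsc_ev (t : Tm) (ρ : ℕ → ι) :
    φ (t.ev S ρ) = t.c • φ (sumL t.ds (fP S t.fs) ρ) := by
  rw [Tm.ev, ← zsmul_eq_mul, map_zsmul]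

theorem st2_sound {C : Cf2} (H : Ok2 C S φ) {t : Tm} {w : ℕ} {zs : List ℕ} {P N T : ℕ}
    {k : List ℕ → ℕ → ℕ → ℕ → Bool} (h : st2 C t w zs P N T k = true) (ρ : ℕ → ι) {x : B}
    (hx : Rep C.b (fun i => kv S φ ρ (C.key i)) x P N T) : ∃ zs' P' N' T', k zs' P' N' T' = true ∧
      Rep C.b (fun i => kv S φ ρ (C.key i)) (x + φ (t.ev S ρ)) P' N' T' := by
  obtain ⟨s, r, key, h, e⟩ := nf2_sound H h ρ
  generalize Nat.shiftRight w (nat_lit 41) = i at h
  beta_reduce at h
  generalize Nat.beq i (nat_lit 4095) = c at h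
  rw [fsc_ev]
  cases c with
  | false =>
    obtain ⟨hk, h⟩ := fsc_brec h
    have hk' : key = C.key i := Nat.eq_of_beq_eq_true hk
    rw [e, hk', smul_smul]
    generalize t.c = a at h
    cases a with
    | ofNat a =>
      obtain ⟨P', N', T', g1, g2⟩ := accu_sound h hx
      refine ⟨_, _, _, _, g1, ?_⟩
      have : (Int.ofNat a) * ((-1) ^ s * (C.n : ℤ) ^ r) =
          (-1) ^ s * ((Nat.mul a (Nat.pow C.n r) : ℕ) : ℤ) := by
        show (a : ℤ) * _ = _ * ((a * C.n ^ r : ℕ) : ℤ)
        push_cast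
        ring
      rw [this]
      exact g2
    | negSucc a =>
      obtain ⟨P', N', T', g1, g2⟩ := accu_sound h hx
      refine ⟨_, _, _, _, g1, ?_⟩
      have : (Int.negSucc a) * ((-1) ^ s * (C.n : ℤ) ^ r) = (-1) ^ (Nat.add s (nat_lit 1)) *
          ((Nat.mul (Nat.add a (nat_lit 1)) (Nat.pow C.n r) : ℕ) : ℤ) := by
        show _ = (-1) ^ (s + 1) * (((a + 1) * C.n ^ r : ℕ) : ℤ)
        rw [Int.negSucc_eq]
        push_cast
        ring
      rw [this]
      exact g2
  | true =>
    cases zs with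
    | nil => exact absurd h (by simp)
    | cons z zs =>
      obtain ⟨s', r', key', h, e'⟩ := nf2_sound H h ρ
      obtain ⟨hk, h⟩ := fsc_brec h
      obtain ⟨hr, h⟩ := fsc_brec h
      have hk' : key = key' := Nat.eq_of_beq_eq_true hk
      have hr' : r = r' := Nat.eq_of_beq_eq_true hr
      rcases fsc_nrec h with ⟨_, h⟩ | ⟨hs, h⟩
      · exact absurd h (by simp)
      · refine ⟨_, _, _, _, h, ?_⟩
        have hs' : Odd (s + s') := hs
        have h0 : φ (sumL t.ds (fP S t.fs) ρ) = 0 := by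
          refine H.two _ ?_
          nth_rewrite 1 [e]
          rw [e', ← hk', ← hr', ← add_smul, ← add_mul]
          have : ((-1 : ℤ) ^ s + (-1) ^ s') = 0 := by
            rcases Nat.even_or_odd s with a | a
            · rw [a.neg_one_pow, ((Nat.odd_add'.1 hs').2 a).neg_one_pow]
              rfl
            · rw [a.neg_one_pow, ((Nat.odd_add.1 hs').1 a).neg_one_pow]
              rfl
          rw [this, zero_mul, zero_smul]
        rw [h0, smul_zero, add_zero]
        exact hx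

theorem run2_sound {C : Cf2} (H : Ok2 C S φ) {P0 N0 T0 : ℕ} (ρ : ℕ → ι) (p : Poly) :
    ∀ (cur : ℕ) (ws zs : List ℕ) (P N T : ℕ) (x : B),
      run2 C P0 N0 T0 p cur ws zs P N T = true →
      Rep C.b (fun i => kv S φ ρ (C.key i)) x P N T →
      Rep C.b (fun i => kv S φ ρ (C.key i)) (x + φ (ev S p ρ)) P0 N0 T0 := by
  induction p with
  | nil =>
    intro cur ws zs P N T x h hx
    obtain ⟨h1, h⟩ := fsc_brec h
    obtain ⟨h2, h3⟩ := fsc_brec h
    rw [ev_nil, map_zero, add_zero, ← Nat.eq_of_beq_eq_true h1, ← Nat.eq_of_beq_eq_true h2,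
      ← Nat.eq_of_beq_eq_true h3]
    exact hx
  | cons t p ih =>
    intro cur ws zs P N T x h hx
    have e : run2 C P0 N0 T0 (t :: p) cur ws zs P N T = Bool.rec
      (st2 C t (Nat.mod cur (nat_lit 72057594037927936)) zs P N T
        (run2 C P0 N0 T0 p (Nat.shiftRight cur (nat_lit 56)) ws))
      (List.rec false (fun w ws' _ => st2 C t (Nat.mod w (nat_lit 72057594037927936)) zs P N T
        (run2 C P0 N0 T0 p (Nat.shiftRight w (nat_lit 56)) ws')) ws)
      (Nat.ble cur (nat_lit 1)) := rfl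
    rw [e] at h
    rw [ev_cons, map_add, ← add_assoc]
    generalize Nat.ble cur (nat_lit 1) = c at h
    cases c with
    | false =>
      obtain ⟨zs', P', N', T', g1, g2⟩ := st2_sound H h ρ hx
      exact ih _ _ _ _ _ _ _ g1 g2
    | true =>
      cases ws with
      | nil => exact absurd h (by simp)
      | cons w ws =>
        obtain ⟨zs', P', N', T', g1, g2⟩ := st2_sound H h ρ hx
        exact ih _ _ _ _ _ _ _ g1 g2

theorem chk2_sound {C : Cf2} (H : Ok2 C S φ) {p : Poly} {ws zs : List ℕ} {P N T : ℕ}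
    (h : chk2 C p ws zs P N T = true) (ρ : ℕ → ι) :
    Rep C.b (fun i => kv S φ ρ (C.key i)) (φ (ev S p ρ)) P N T := by
  have := run2_sound H ρ p _ ws zs _ _ _ 0 h ⟨[], rfl, by simp, by simp⟩
  rwa [zero_add] at this

end Pool.Agent.P.MP_3e99c6_gt.G
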