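import Pool.Agent.P.MP_3e99c6_gt.Local

/-! The ring of smooth complex functions on an open set. -/

open scoped ContDiff Topology ComplexConjugate
open Complex Filter TopologicalSpace

noncomputable section

namespace Pool.Agent.P.MP_3e99c6_gt.G

variable {n : ℕ}

open Classical in
/-- Extension by zero. -/
def ext0 {U : Opens (V n)} (f : U → ℂ) (y : V n) : ℂ := if h : y ∈ U then f ⟨y, h⟩ else 0

theorem ext0_mem {U : Opens (V n)} (f : U → ℂ) {y : V n} (h : y ∈ U) : ext0 f y = f ⟨y, h⟩ :=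
  dif_pos h

theorem ext0_ev {U : Opens (V n)} {f : U → ℂ} {F : V n → ℂ} (hf : ∀ y : U, f y = F y) {y : V n}
    (h : y ∈ U) : ext0 f =ᶠ[𝓝 y] F :=
  eventually_of_mem (U.isOpen.mem_nhds h) fun z hz => (ext0_mem f hz).trans (hf ⟨z, hz⟩)

/-- Smooth functions on `U`. -/
def FS (U : Opens (V n)) : Subalgebra ℂ (U → ℂ) where
  carrier := {f | ∀ y ∈ U, ContDiffAt ℝ ∞ (ext0 f) y}
  mul_mem' := fun {f g} hf hg y hy => ((hf y hy).mul (hg y hy)).congr_of_eventuallyEq
    (ext0_ev (fun z => by rw [ext0_mem f z.2, ext0_mem g z.2]; rfl) hy)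
  add_mem' := fun {f g} hf hg y hy => ((hf y hy).add (hg y hy)).congr_of_eventuallyEq
    (ext0_ev (fun z => by rw [ext0_mem f z.2, ext0_mem g z.2]; rfl) hy)
  algebraMap_mem' := fun c y hy => (contDiffAt_const (c := c)).congr_of_eventuallyEq
    (ext0_ev (F := fun _ => c) (fun _ => rfl) hy)

variable {U U' : Opens (V n)}

theorem mem_FS {f : U → ℂ} : f ∈ FS U ↔ ∀ y ∈ U, ContDiffAt ℝ ∞ (ext0 f) y := Iff.rfl

/-- The underlying function. -/
def fn (f : FS U) : V n → ℂ := ext0 f.1

theorem fn_cd (f : FS U) {y : V n} (hy : y ∈ U) : ContDiffAt ℝ ∞ (fn f) y := mem_FS.1 f.2 y hy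

/-- The restriction of a smooth function. -/
def mkF (F : V n → ℂ) (hF : ∀ y ∈ U, ContDiffAt ℝ ∞ F y) : FS U :=
  ⟨fun y => F y, mem_FS.2 fun y hy =>
    (hF y hy).congr_of_eventuallyEq (ext0_ev (fun _ => rfl) hy)⟩

/-- Evaluation at a point. -/
def evF (y : V n) (hy : y ∈ U) : FS U →ₐ[ℂ] ℂ :=
  (Pi.evalAlgHom ℂ (fun _ => ℂ) (⟨y, hy⟩ : U)).comp (FS U).val

theorem evF_fn (f : FS U) {y : V n} (hy : y ∈ U) : evF y hy f = fn f y := (ext0_mem f.1 hy).symm

theorem evF_mkF (F : V n → ℂ) (hF : ∀ y ∈ U, ContDiffAt ℝ ∞ F y) {y : V n} (hy : y ∈ U) :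
    evF y hy (mkF F hF) = F y := rfl

theorem fn_mkF (F : V n → ℂ) (hF : ∀ y ∈ U, ContDiffAt ℝ ∞ F y) {y : V n} (hy : y ∈ U) :
    fn (mkF F hF) =ᶠ[𝓝 y] F := ext0_ev (fun _ => rfl) hy

theorem FS_ext {f g : FS U} (h : ∀ y (hy : y ∈ U), evF y hy f = evF y hy g) : f = g :=
  Subtype.ext (funext fun y => h y y.2)

theorem fn_ev {f : FS U} {F : V n → ℂ} (h : ∀ y (hy : y ∈ U), evF y hy f = F y) {y : V n}
    (hy : y ∈ U) : fn f =ᶠ[𝓝 y] F := ext0_ev (fun z => h z z.2) hy

/-- The directional derivative. -/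
def dFS (t : V n) : Derivation ℂ (FS U) (FS U) :=
  Derivation.mk'
    { toFun := fun f => mkF (fun y => fderiv ℝ (fn f) y t) fun y hy =>
        ((fn_cd f hy).fderiv_right (m := ∞) le_rfl).clm_apply contDiffAt_const
      map_add' := fun f g => FS_ext fun y hy => by
        have e : fn (f + g) =ᶠ[𝓝 y] fn f + fn g := fn_ev (fun z hz => by
          rw [map_add, evF_fn, evF_fn]; rfl) hy
        rw [map_add, evF_mkF, evF_mkF, evF_mkF, e.fderiv_eq,
          fderiv_add ((fn_cd f hy).differentiableAt (by simp))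
            ((fn_cd g hy).differentiableAt (by simp))]
        rfl
      map_smul' := fun c f => FS_ext fun y hy => by
        have e : fn (c • f) =ᶠ[𝓝 y] c • fn f := fn_ev (fun z hz => by
          rw [map_smul, evF_fn]; rfl) hy
        rw [RingHom.id_apply, map_smul, evF_mkF, evF_mkF, e.fderiv_eq,
          fderiv_const_smul ((fn_cd f hy).differentiableAt (by simp))]
        rfl }
    (fun f g => FS_ext fun y hy => by
      have e : fn (f * g) =ᶠ[𝓝 y] fn f * fn g := fn_ev (fun z hz => by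
        rw [map_mul, evF_fn, evF_fn]; rfl) hy
      simp only [LinearMap.coe_mk, AddHom.coe_mk, smul_eq_mul, map_add, map_mul, evF_mkF]
      rw [e.fderiv_eq, fderiv_mul ((fn_cd f hy).differentiableAt (by simp))
        ((fn_cd g hy).differentiableAt (by simp)), evF_fn, evF_fn]
      simp)

theorem evF_dFS (t : V n) (f : FS U) {y : V n} (hy : y ∈ U) :
    evF y hy (dFS t f) = fderiv ℝ (fn f) y t := rfl

/-- `∂ / ∂ z` in the direction `t`. -/
def DF (t : V n) : Derivation ℂ (FS U) (FS U) := (1 / 2 : ℂ) • (dFS t - I • dFS (I • t))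

/-- `∂ / ∂ z̄` in the direction `t`. -/
def DbF (t : V n) : Derivation ℂ (FS U) (FS U) := (1 / 2 : ℂ) • (dFS t + I • dFS (I • t))

theorem evF_DF (t : V n) (f : FS U) {y : V n} (hy : y ∈ U) :
    evF y hy (DF t f) = dz t (fn f) y := by
  simp only [DF, Derivation.smul_apply, Derivation.sub_apply, map_smul, map_sub, evF_dFS, dz,
    smul_eq_mul]
  ring

theorem evF_DbF (t : V n) (f : FS U) {y : V n} (hy : y ∈ U) :
    evF y hy (DbF t f) = dzb t (fn f) y := by
  simp only [DbF, Derivation.smul_apply, Derivation.add_apply, map_smul, map_add, evF_dFS, dzb,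
    smul_eq_mul]
  ring

theorem dFS_comm (s t : V n) (f : FS U) : dFS s (dFS t f) = dFS t (dFS s f) := by
  refine FS_ext fun y hy => ?_
  have hu := fn_cd f hy
  have hd : DifferentiableAt ℝ (fderiv ℝ (fn f)) y :=
    (hu.fderiv_right (m := 1) two_le_inf).differentiableAt (by simp)
  have h : ∀ a b : V n, evF y hy (dFS a (dFS b f)) = fderiv ℝ (fderiv ℝ (fn f)) y a b := by
    intro a b
    have e : fn (dFS b f) =ᶠ[𝓝 y] fun y => fderiv ℝ (fn f) y b := fn_ev (fun z hz => rfl) hy
    rw [evF_dFS, e.fderiv_eq, fderiv_clm_apply hd (differentiableAt_const _)]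
    simp
  rw [h, h]
  exact hu.isSymmSndFDerivAt (by simpa using two_le_inf) _ _

theorem DF_DF (s t : V n) (r : FS U) : DF s (DF t r) = DF t (DF s r) := by
  simp only [DF, Derivation.smul_apply, Derivation.sub_apply, map_sub, Derivation.map_smul,
    dFS_comm s, dFS_comm (I • s)]
  module

theorem DbF_DbF (s t : V n) (r : FS U) : DbF s (DbF t r) = DbF t (DbF s r) := by
  simp only [DbF, Derivation.smul_apply, Derivation.add_apply, map_add, Derivation.map_smul,
    dFS_comm s, dFS_comm (I • s)]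
  module

theorem DF_DbF (s t : V n) (r : FS U) : DF s (DbF t r) = DbF t (DF s r) := by
  simp only [DF, DbF, Derivation.smul_apply, Derivation.add_apply, Derivation.sub_apply, map_add,
    map_sub, Derivation.map_smul, dFS_comm s, dFS_comm (I • s)]
  module

/-- Complex conjugation. -/
def stF : FS U →+* FS U where
  toFun f := mkF (fun y => conj (fn f y)) fun y hy =>
    conjCLE.contDiff.contDiffAt.comp y (fn_cd f hy)
  map_one' := FS_ext fun y hy => by rw [evF_mkF, ← evF_fn _ hy, map_one, map_one]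
  map_mul' f g := FS_ext fun y hy => by
    rw [map_mul, evF_mkF, evF_mkF, evF_mkF, ← evF_fn _ hy, ← evF_fn _ hy, ← evF_fn _ hy, map_mul,
      map_mul]
  map_zero' := FS_ext fun y hy => by rw [evF_mkF, ← evF_fn _ hy, map_zero, map_zero]
  map_add' f g := FS_ext fun y hy => by
    rw [map_add, evF_mkF, evF_mkF, evF_mkF, ← evF_fn _ hy, ← evF_fn _ hy, ← evF_fn _ hy, map_add,
      map_add]

theorem evF_stF (f : FS U) {y : V n} (hy : y ∈ U) : evF y hy (stF f) = conj (evF y hy f) := by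
  rw [evF_fn f hy]
  rfl

theorem stF_DF (t : V n) (f : FS U) : stF (DF t f) = DbF t (stF f) := by
  refine FS_ext fun y hy => ?_
  have e : fn (stF f) =ᶠ[𝓝 y] fun y => conj (fn f y) := fn_ev (fun z hz => rfl) hy
  have e2 : ∀ u, fderiv ℝ (fun y => conj (fn f y)) y u = conj (fderiv ℝ (fn f) y u) := fun u =>
    fderiv_lin (L := fun z : ℂ => conj z) ⟨fun a b => map_add _ a b, fun r a => by simp⟩
      ((fn_cd f hy).differentiableAt (by simp)) u
  rw [evF_stF, evF_DF, evF_DbF, dz, dzb, e.fderiv_eq, e2, e2]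
  simp only [map_div₀, map_sub, map_mul, conj_I, map_ofNat]
  ring

end Pool.Agent.P.MP_3e99c6_gt.G
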