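import Pool.Agent.P.MP_3e99c6_gt.SK.Fast
import Pool.Agent.P.MP_3e99c6_gt.SK.Sos
import Pool.Agent.P.MP_3e99c6_gt.SK.Div
import Pool.Agent.P.MP_3e99c6_gt.SK.Ddi

/-! Fast versions of the functions that generate the terms. -/

noncomputable section

namespace Pool.Agent.P.MP_3e99c6_gt.G

/-- The entry at a position. -/
def nthN (l : List ℕ) : ℕ → ℕ :=
  List.rec (fun _ => nat_lit 0) (fun f _ ih i => Nat.rec f (fun j _ => ih j) i) l

/-- The entry at a position. -/
def nthP (l : List Poly) : ℕ → Poly :=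
  List.rec (fun _ => []) (fun f _ ih i => Nat.rec f (fun j _ => ih j) i) l

/-- Fast form of `sh`. -/
def sh2 (ext : List ℕ) (l : ℕ) : ℕ :=
  Bool.rec (nthN ext l) (Nat.add l (nat_lit 32)) (Nat.ble (nat_lit 10) l)

/-- Renamed labels in front of a list. -/
def mpN (ext l r : List ℕ) : List ℕ := List.rec r (fun a _ ih => sh2 ext a :: ih) l

/-- Renamed factors in front of a list. -/
def mpF (ext : List ℕ) (l r : List Fac) : List Fac :=
  List.rec r (fun f _ ih => (f.1, mpN ext f.2 []) :: ih) l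

/-- Concatenation. -/
def apF (l r : List Fac) : List Fac := List.rec r (fun f _ ih => f :: ih) l

/-- Fast form of `relI`, in front of a list. -/
def relI2 (E : Poly) (c : ℤ) (ds : List ℕ) (fs : List Fac) (ext : List ℕ) (rest : Poly) : Poly :=
  List.rec rest (fun r _ ih => ⟨Int.mul c r.c, mpN ext r.ds ds, mpF ext r.fs fs⟩ :: ih) E

/-- Fast form of `insts`. -/
def insts2 (rels : List Poly) (L : List Ins) : Poly :=
  List.rec [] (fun x _ ih => relI2 (nthP rels x.1) x.2.1.c x.2.1.ds x.2.1.fs x.2.2 ih) L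

/-- Fast form of `exD`. -/
def ex2 (rules : ℕ → Poly) (c : ℤ) (ds : List ℕ) (rest : Poly) (fs : List Fac) : List Fac → Poly :=
  List.rec (fun _ => rest) (fun f l ih pre =>
    relI2 (rules f.1) c ds (apF pre l) (nat_lit 0 :: f.2) (ih (f :: pre))) fs

/-- Fast form of `divE`. -/
def divE2 (rules : ℕ → Poly) (z : ℤ) (Y : Poly) : Poly :=
  List.rec [] (fun t _ ih => eta z t :: ex2 rules t.c (nat_lit 0 :: t.ds) ih t.fs []) Y

/-- Fast form of `pairP`. -/
def pair2 (r : List ℕ) (cf : List Fac) (z : ℤ) (w v rest : Poly) : Poly :=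
  List.rec rest (fun t _ ih => relI2 v (Int.mul z t.c) (mpN [0, 1, 2, 3, 4, 5, 6, 7, 8, 9] r t.ds)
    (apF cf t.fs) [0, 1, 2, 3, 4, 5, 6, 7, 8, 9] ih) w

/-- Fast form of `rowP`. -/
def row2 (r : List ℕ) (cf : List Fac) (s : ℤ) (w rest : Poly) (q : List ℤ) : List Poly → Poly :=
  List.rec (fun _ => rest) (fun z _ ih vs =>
    List.rec rest (fun v vs' _ => pair2 r cf (Int.mul s z) w (cjP v) (ih vs')) vs) q

/-- Fast form of the first `n` rows of `gramP`. -/
def gram2 (r : List ℕ) (cf : List Fac) (s : ℤ) (n : ℕ) : List (List ℤ) → List Poly → Poly :=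
  Nat.rec (fun _ _ => []) (fun _ ih Q ws => List.rec [] (fun q Q' _ =>
    List.rec [] (fun w ws' _ => row2 r cf s w (ih Q' ws') q ws) ws) Q) n

/-- The rows `a, …, a + n - 1` of the polynomial of a block. -/
def Blk.part (s : ℤ) (b : Blk) (a n : ℕ) : Poly :=
  Bool.rec (gram2 (List.range b.r) [] 1 n (b.Q.drop a) (b.ws.drop a))
    (gram2 (List.range b.r) [(1, [])] s n (b.Q.drop a) (b.ws.drop a)) b.cf

end Pool.Agent.P.MP_3e99c6_gt.G
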