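import Pool.Agent.P.MP_3e99c6_gt.SK.ChSkt
import Pool.Agent.P.MP_3e99c6_gt.SK.ChChg
import Pool.Agent.P.MP_3e99c6_gt.SK.Chg
import Pool.Agent.P.MP_3e99c6_gt.SK.Div
import Pool.Agent.P.MP_3e99c6_gt.SK.Pt
import Pool.Agent.P.MP_3e99c6_gt.Main

/-! From a pointwise inequality for a divergence to the Kaehler condition. -/

open scoped ContDiff Topology ComplexConjugate Manifold
open Complex Filter TopologicalSpace Finset

noncomputable section

namespace Pool.Agent.P.MP_3e99c6_gt.G

variable {n : ℕ} {M : Type*} [TopologicalSpace M] [ChartedSpace (V n) M]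

/-- The target of a chart. -/
def tg (n : ℕ) {M : Type*} [TopologicalSpace M] [ChartedSpace (V n) M] (p : M) : Opens (V n) :=
  ⟨(chartAt (V n) p).target, (chartAt (V n) p).open_target⟩

/-- The Hermitian data in a chart. -/
def hc (hC : ComplexMfd n M) {g : M → Bil n} (hg : IsHermitian g) (c : ℝ) (p : M) :
    HD (Fin n) (FS (tg n p)) := hd (U := tg n p) (hg.hermOn hC p) c

theorem ev_chg {ι A A' : Type} [Fintype ι] [DecidableEq ι] [CommRing A] [Algebra ℂ A]
    [CommRing A'] [Algebra ℂ A'] {d : HD ι A} {d' : HD ι A'} {φ : A' →ₐ[ℂ] A}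
    {g g' gb gb' : ι → ι → A} (H : HD.Chg d d' φ g g' gb gb') {Y : Poly}
    (hY : Y.all (wk kd [0] [false]) = true) (hgd : Y.all gd = true) (ρ : ℕ → ι) (x : ι) :
    ∑ m, ev d.att Y (Function.update ρ 0 m) * g m x = φ (ev d'.att Y (Function.update ρ 0 x)) := by
  have e : ∀ m, ev d.att Y (Function.update ρ 0 m) =
      ∑ z, g' z m * φ (ev d'.att Y (Function.update ρ 0 z)) := by
    intro m
    have e1 : ev d.att Y (Function.update ρ 0 m) =
        ev (fun τ => act g g' (kd τ) fun l => φ (d'.att τ l)) Y (Function.update ρ 0 m) := by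
      refine ev_congr (fun t ht f hf => funext fun l => H.att (f := 4) ?_ l) _
      simp only [gd, List.all_eq_true] at hgd
      exact hgd t ht f hf
    rw [e1, evP_act (S := fun τ l => φ (d'.att τ l)) H.g1 hY]
    simp only [List.map_cons, List.map_nil, act, setL, cond_false, Function.update_self,
      Function.update_idem]
    refine sum_congr rfl fun z _ => ?_
    congr 1
    exact (map_ev φ.toRingHom _ _ _).symm
  have e2 : ∀ z, ∑ m, g' z m * φ (ev d'.att Y (Function.update ρ 0 z)) * g m x =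
      (if z = x then 1 else 0) * φ (ev d'.att Y (Function.update ρ 0 z)) := fun z => by
    rw [← H.g1, sum_mul]
    exact sum_congr rfl fun m _ => by ring
  simp only [e, sum_mul]
  rw [sum_comm]
  simp [e2]

section chg

variable {U U' : Opens (V n)} {G G' : V n → Bil n} (hG : HermOn G U) (hG' : HermOn G' U') (c : ℝ)
  {ψ : V n → V n} (hψ : ∀ y ∈ U, ContDiffAt ℂ ω ψ y) (hm : ∀ y ∈ U, ψ y ∈ U')
  (h : ∀ y ∈ U, ∀ a b, G y a b = G' (ψ y) (fderiv ℂ ψ y a) (fderiv ℂ ψ y b))
include hψ h

theorem vec_chg {Y : Poly} (hY : Y.all (wk kd [0] [false]) = true) (hgd : Y.all gd = true)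
    (ρ : ℕ → Fin n) {y : V n} (hy : y ∈ U) :
    fderiv ℂ ψ y (fun m => evF y hy (ev (hd hG c).att Y (Function.update ρ 0 m))) =
      fun x => evF (ψ y) (hm y hy) (ev (hd hG' c).att Y (Function.update ρ 0 x)) := by
  obtain ⟨φ, g, g', gb, gb', H, h1, h2⟩ := hd_chg hG hG' c hψ hm h
  funext x
  rw [← h1 y hy, ← ev_chg H hY hgd ρ x, map_sum]
  have e : ∀ v : V n, fderiv ℂ ψ y v x = ∑ m, v m * fderiv ℂ ψ y (bs m) x := fun v => by
    have e1 : v = ∑ m, v m • bs m := by
      funext i
      simp [bs, Finset.sum_apply, Pi.single_apply]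
    conv_lhs => rw [e1]
    simp [Finset.sum_apply]
  rw [e]
  exact sum_congr rfl fun m _ => by rw [map_mul, h2]

theorem tor_chg {y : V n} (hy : y ∈ U)
    (h0 : ∀ i k j, evF (ψ y) (hm y hy) ((hd hG' c).T i k j) = 0) (i k j : Fin n) :
    evF y hy ((hd hG c).T i k j) = 0 := by
  obtain ⟨φ, g, g', gb, gb', H, h1, -⟩ := hd_chg hG hG' c hψ hm h
  have e := H.att (f := 4) (τ := 2) rfl [i, k, j]
  have e2 : kd 2 = [true, true, false] := rfl
  rw [HD.att_lt _ (by norm_num), HD.att_lt _ (by norm_num), e2] at e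
  simp only [HD.at0, t3, act] at e
  rw [e]
  simp [map_sum, h1, h0]

end chg

/-- The overlap of two charts, seen in the first one. -/
def ov (n : ℕ) {M : Type*} [TopologicalSpace M] [ChartedSpace (V n) M] (p q : M) : Opens (V n) :=
  ⟨(chartAt (V n) p).target ∩ (chartAt (V n) p).symm ⁻¹' (chartAt (V n) q).source,
    (chartAt (V n) p).isOpen_inter_preimage_symm (chartAt (V n) q).open_source⟩

theorem ov_herm (hC : ComplexMfd n M) {g : M → Bil n} (hg : IsHermitian g) (p q : M) :
    HermOn (inChart g p) (ov n p q) :=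
  (hg.hermOn hC p).mono (ov n p q).isOpen Set.inter_subset_left

theorem ov_tr (hC : ComplexMfd n M) (g : M → Bil n) (p q : M) : ∀ y ∈ ov n p q, ∀ a b,
    inChart g p y a b =
      inChart g q (tr p q y) (fderiv ℂ (tr p q) y a) (fderiv ℂ (tr p q) y b) := by
  intro y hy a b
  rw [inChart_tr hC g hy.1 hy.2, tr_fderiv hC hy.1 hy.2]
  rfl

theorem glob [T2Space M] [CompactSpace M] (hC : ComplexMfd n M) {g : M → Bil n}
    (hg : IsHermitian g) (c : ℝ) {Y : Poly} (hY : Y.all (wk kd [0] [false]) = true)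
    (hb : Y.all b41 = true) (hgd : Y.all gd = true) (ρ : ℕ → Fin n)
    (key : ∀ p y (hy : y ∈ tg n p),
      (evF y hy (ev (hc hC hg c p).att (divP Y) ρ)).re ≤ 0 ∧
      ((evF y hy (ev (hc hC hg c p).att (divP Y) ρ)).re = 0 →
        ∀ i k j, evF y hy ((hc hC hg c p).T i k j) = 0)) : IsKaehler g := by
  have hG := hg.hermOn hC
  let W : M → V n → V n := fun p y m =>
    fn ((Matrix.of (hc hC hg c p).h).det * ev (hc hC hg c p).att Y (Function.update ρ 0 m)) y
  have hW : ∀ p y (hy : y ∈ tg n p), W p y = (hM (inChart g p y)).det.re •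
      fun m => evF y hy (ev (hc hC hg c p).att Y (Function.update ρ 0 m)) := by
    intro p y hy
    funext m
    have e := ev_det (U := tg n p) (hG p) c hy
    simp only [W, Pi.smul_apply, real_smul]
    rw [← evF_fn _ hy, map_mul, ((hG p).hm hy).det_re, ← e]
    rfl
  have hdv : ∀ p y (hy : y ∈ tg n p), hdiv (W p) y =
      (hM (inChart g p y)).det.re * (evF y hy (ev (hc hC hg c p).att (divP Y) ρ)).re := by
    intro p y hy
    have e := congrArg (evF y hy) (div_eq (hc hC hg c p) hY hb ρ)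
    have e2 := ev_det (U := tg n p) (hG p) c hy
    rw [map_sum, map_mul] at e
    rw [← re_ofReal_mul, ((hG p).hm hy).det_re, ← e2, hdiv]
    congr 1
    refine Eq.trans (sum_congr rfl fun m _ => ?_) e
    exact (evF_DF (bs m) _ hy).symm
  rintro q x ⟨-, hq⟩ a b w
  obtain ⟨p, hp, h0⟩ := no_neg_div hC W (fun p y hy m => fn_cd (U := tg n p) _ hy)
    (fun p q y hy hq => by
      have e1 := vec_chg (U' := tg n p) (ov_herm hC hg p q) (hG p) c (ψ := id)
        (fun _ _ => contDiffAt_id) (fun _ hz => hz.1) (fun _ _ _ _ => by simp) hY hgd ρ ⟨hy, hq⟩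
      have e2 := vec_chg (U' := tg n q) (ov_herm hC hg p q) (hG q) c (ψ := tr p q)
        (fun _ hz => tr_cd hC hz.1 hz.2) (fun _ hz => tr_mem hz.2) (ov_tr hC g p q) hY hgd ρ
        ⟨hy, hq⟩
      rw [fderiv_id, ContinuousLinearMap.id_apply] at e1
      rw [e1] at e2
      rw [hW p y hy, hW q _ (tr_mem hq), map_smul, det_tr hC hg hy hq, mul_smul, smul_smul,
        smul_smul]
      congr 1
      rw [tr_fderiv hC hy hq]
      exact e2)
    (fun p y hy => by
      rw [hdv p y hy]
      exact mul_nonpos_of_nonneg_of_nonpos ((hG p).hm hy).det_re_pos.le (key p y hy).1) x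
  have hy := (chartAt (V n) p).map_source hp
  rw [hdv p _ hy] at h0
  have h1 := (key p _ hy).2 ((mul_eq_zero.1 h0).resolve_left ((hG p).hm hy).det_re_pos.ne')
  have hy' : chartAt (V n) q x ∈ ov n q p :=
    ⟨(chartAt (V n) q).map_source hq, by
      rw [Set.mem_preimage, (chartAt (V n) q).left_inv hq]; exact hp⟩
  refine hd_kaehler (ov_herm hC hg q p) c hy' (tor_chg (U' := tg n p) (ov_herm hC hg q p) (hG p) c
    (ψ := tr q p) (fun _ hz => tr_cd hC hz.1 hz.2) (fun _ hz => tr_mem hz.2) (ov_tr hC g q p) hy'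
    fun i k j => ?_) a b w
  have e : tr q p (chartAt (V n) q x) = chartAt (V n) p x := by
    rw [tr, (chartAt (V n) q).left_inv hq]
  have e2 : ∀ z (hz : z ∈ tg n p), z = chartAt (V n) p x →
      evF z hz ((hc hC hg c p).T i k j) = 0 := by
    rintro z hz rfl
    exact h1 i k j
  exact e2 _ _ e

end Pool.Agent.P.MP_3e99c6_gt.G
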