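import Mathlib

/-! Contraction graphs of tensors: evaluation, renaming, products. -/

set_option linter.unusedSectionVars false

namespace Pool.Agent.P.MP_3e99c6_gt.G

open Function

/-- A factor: the number of a tensor and the labels of its slots. -/
abbrev Fac := ℕ × List ℕ

/-- A term: coefficient, summed labels, factors. -/
structure Tm where
  c : ℤ
  ds : List ℕ
  fs : List Fac

/-- A sum of terms. -/
abbrev Poly := List Tm

variable {ι A : Type} [Fintype ι] [DecidableEq ι] [CommRing A]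

/-- Summation over the values of a list of labels. -/
def sumL : List ℕ → ((ℕ → ι) → A) → (ℕ → ι) → A
  | [], f, ρ => f ρ
  | a :: l, f, ρ => ∑ i, sumL l f (update ρ a i)

/-- The product of the factors. -/
def fP (S : ℕ → List ι → A) (fs : List Fac) (ρ : ℕ → ι) : A :=
  (fs.map fun f => S f.1 (f.2.map ρ)).prod

/-- The value of a term. -/
def Tm.ev (S : ℕ → List ι → A) (t : Tm) (ρ : ℕ → ι) : A := t.c * sumL t.ds (fP S t.fs) ρ

/-- The value of a sum of terms. -/
def ev (S : ℕ → List ι → A) (p : Poly) (ρ : ℕ → ι) : A := (p.map fun t => t.ev S ρ).sum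

/-- Renaming of labels. -/
def mapF (σ : ℕ → ℕ) (f : Fac) : Fac := (f.1, f.2.map σ)

/-- The labels of a list of factors. -/
def labs : List Fac → List ℕ
  | [] => []
  | f :: l => f.2 ++ labs l

variable (S : ℕ → List ι → A)

theorem mem_labs {a : ℕ} {fs : List Fac} : a ∈ labs fs ↔ ∃ f ∈ fs, a ∈ f.2 := by
  induction fs with
  | nil => simp [labs]
  | cons f l ih => simp [labs, ih]

@[simp] theorem fP_nil (ρ : ℕ → ι) : fP S [] ρ = 1 := rfl

theorem fP_cons (f : Fac) (l : List Fac) (ρ : ℕ → ι) :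
    fP S (f :: l) ρ = S f.1 (f.2.map ρ) * fP S l ρ := by simp [fP]

theorem fP_append (l l' : List Fac) (ρ : ℕ → ι) : fP S (l ++ l') ρ = fP S l ρ * fP S l' ρ := by
  simp [fP]

theorem fP_perm {l l' : List Fac} (h : l.Perm l') : fP S l = fP S l' :=
  funext fun _ => (h.map _).prod_eq

theorem fP_map (σ : ℕ → ℕ) (l : List Fac) (ρ : ℕ → ι) :
    fP S (l.map (mapF σ)) ρ = fP S l (ρ ∘ σ) := by
  simp [fP, mapF, comp_def]

theorem fP_congr {l : List Fac} {ρ ρ' : ℕ → ι} (h : ∀ a ∈ labs l, ρ a = ρ' a) :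
    fP S l ρ = fP S l ρ' := by
  unfold fP
  congr 1
  refine List.map_congr_left fun f hf => ?_
  rw [List.map_congr_left fun a ha => h a (mem_labs.2 ⟨f, hf, ha⟩)]

@[simp] theorem ev_nil (ρ : ℕ → ι) : ev S [] ρ = 0 := rfl

theorem ev_cons (t : Tm) (p : Poly) (ρ : ℕ → ι) : ev S (t :: p) ρ = t.ev S ρ + ev S p ρ := by
  simp [ev]

theorem ev_append (p q : Poly) (ρ : ℕ → ι) : ev S (p ++ q) ρ = ev S p ρ + ev S q ρ := by
  simp [ev]

theorem ev_flatMap {α : Type} (l : List α) (g : α → Poly) (ρ : ℕ → ι) :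
    ev S (l.flatMap g) ρ = (l.map fun x => ev S (g x) ρ).sum := by
  induction l with
  | nil => rfl
  | cons x l ih => simp [ev_append, ih]

variable {S}

theorem sumL_append (l l' : List ℕ) (f : (ℕ → ι) → A) (ρ : ℕ → ι) :
    sumL (l ++ l') f ρ = sumL l (sumL l' f) ρ := by
  induction l generalizing ρ with
  | nil => rfl
  | cons a l ih => simp [sumL, ih]

theorem sumL_perm {l l' : List ℕ} (h : l.Perm l') (f : (ℕ → ι) → A) : sumL l f = sumL l' f := by
  induction h with
  | nil => rfl
  | cons a _ ih => funext ρ; simp [sumL, ih]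
  | swap a b l =>
    funext ρ
    by_cases hab : a = b
    · rw [hab]
    · simp only [sumL]
      rw [Finset.sum_comm]
      exact Finset.sum_congr rfl fun i _ => Finset.sum_congr rfl fun j _ => by
        rw [update_comm hab]
  | trans _ _ h1 h2 => exact h1.trans h2

theorem sumL_add (l : List ℕ) (f g : (ℕ → ι) → A) (ρ : ℕ → ι) :
    sumL l (fun ρ => f ρ + g ρ) ρ = sumL l f ρ + sumL l g ρ := by
  induction l generalizing ρ with
  | nil => rfl
  | cons a l ih => simp [sumL, ih, Finset.sum_add_distrib]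

theorem sumL_zero (l : List ℕ) (ρ : ℕ → ι) : sumL l (fun _ => (0 : A)) ρ = 0 := by
  induction l generalizing ρ with
  | nil => rfl
  | cons a l ih => simp [sumL, ih]

theorem sumL_mul (l : List ℕ) (x : A) (f : (ℕ → ι) → A) (ρ : ℕ → ι) :
    sumL l (fun ρ => x * f ρ) ρ = x * sumL l f ρ := by
  induction l generalizing ρ with
  | nil => rfl
  | cons a l ih => simp [sumL, ih, Finset.mul_sum]

theorem sumL_list {α : Type} (l : List ℕ) (L : List α) (f : α → (ℕ → ι) → A) (ρ : ℕ → ι) :
    sumL l (fun ρ => (L.map fun x => f x ρ).sum) ρ = (L.map fun x => sumL l (f x) ρ).sum := by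
  induction L with
  | nil => simpa using sumL_zero l ρ
  | cons x L ih => simp [sumL_add, ih]

theorem map_sumL {B : Type} [CommRing B] (φ : A →+ B) (l : List ℕ) (f : (ℕ → ι) → A)
    (ρ : ℕ → ι) : φ (sumL l f ρ) = sumL l (fun ρ => φ (f ρ)) ρ := by
  induction l generalizing ρ with
  | nil => rfl
  | cons a l ih => simp [sumL, ih]

/-- `f` only depends on the labels in `L`. -/
def Dep (f : (ℕ → ι) → A) (L : List ℕ) : Prop := ∀ ρ ρ', (∀ a ∈ L, ρ a = ρ' a) → f ρ = f ρ'

theorem dep_fP (l : List Fac) : Dep (fP S l) (labs l) := fun _ _ h => fP_congr S h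

theorem sumL_congr {f : (ℕ → ι) → A} {L : List ℕ} (hf : Dep f L) (l : List ℕ) {ρ ρ' : ℕ → ι}
    (h : ∀ a ∈ L, a ∉ l → ρ a = ρ' a) : sumL l f ρ = sumL l f ρ' := by
  induction l generalizing ρ ρ' with
  | nil => exact hf _ _ fun a ha => h a ha (by simp)
  | cons b l ih =>
    refine Finset.sum_congr rfl fun i _ => ih fun a ha hl => ?_
    by_cases hab : a = b
    · simp [hab]
    · simp [update_of_ne hab, h a ha (by simp [hab, hl])]

theorem sumL_map {f : (ℕ → ι) → A} {L : List ℕ} (hf : Dep f L) (σ : ℕ → ℕ) (l : List ℕ)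
    (h : ∀ a ∈ l, ∀ b ∈ L, σ b = σ a → b = a) (h' : ∀ a ∈ l, ∀ b ∈ l, σ b = σ a → b = a)
    (ρ : ℕ → ι) : sumL (l.map σ) (fun ρ => f (ρ ∘ σ)) ρ = sumL l f (ρ ∘ σ) := by
  induction l generalizing ρ with
  | nil => rfl
  | cons a l ih =>
    refine Finset.sum_congr rfl fun i _ => ?_
    rw [ih (fun x hx => h x (by simp [hx])) fun x hx y hy => h' x (by simp [hx]) y (by simp [hy])]
    refine sumL_congr hf l fun b hb _ => ?_
    by_cases hab : b = a
    · simp [hab]
    · have : σ b ≠ σ a := fun e => hab (h a (by simp) b hb e)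
      simp [update_of_ne hab, update_of_ne this]

theorem sumL_pull {g : (ℕ → ι) → A} {L : List ℕ} (hg : Dep g L) (f : (ℕ → ι) → A) (l : List ℕ)
    (h : ∀ a ∈ l, a ∉ L) (ρ : ℕ → ι) :
    sumL l (fun ρ => g ρ * f ρ) ρ = g ρ * sumL l f ρ := by
  induction l generalizing ρ with
  | nil => rfl
  | cons a l ih =>
    simp only [sumL, Finset.mul_sum]
    refine Finset.sum_congr rfl fun i _ => ?_
    rw [ih fun x hx => h x (by simp [hx]), hg (update ρ a i) ρ fun b hb => ?_]
    exact update_of_ne (fun e : b = a => h a (by simp) (e ▸ hb)) _ _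

theorem sumL_unused {g : (ℕ → ι) → A} {L : List ℕ} (hg : Dep g L) (l : List ℕ)
    (h : ∀ a ∈ l, a ∉ L) (ρ : ℕ → ι) : sumL l g ρ = (Fintype.card ι : A) ^ l.length * g ρ := by
  induction l generalizing ρ with
  | nil => simp [sumL]
  | cons a l ih =>
    have e : ∀ i, g (update ρ a i) = g ρ := fun i => hg _ _ fun b hb =>
      update_of_ne (fun e : b = a => h a (by simp) (e ▸ hb)) _ _
    simp only [sumL, ih fun x hx => h x (by simp [hx]), e, Finset.sum_const, Finset.card_univ,
      nsmul_eq_mul, List.length_cons]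
    ring

/-- The product of two terms. -/
def mulT (t r : Tm) : Tm := ⟨t.c * r.c, t.ds ++ r.ds, t.fs ++ r.fs⟩

theorem mulT_ev (t r : Tm) (h : ∀ a ∈ r.ds, a ∉ labs t.fs) (ρ : ℕ → ι) :
    (mulT t r).ev S ρ = t.c * sumL t.ds (fun ρ => fP S t.fs ρ * r.ev S ρ) ρ := by
  have e : sumL r.ds (fP S (t.fs ++ r.fs)) = fun ρ => fP S t.fs ρ * sumL r.ds (fP S r.fs) ρ := by
    funext ρ
    rw [← sumL_pull (dep_fP t.fs) _ _ h]
    congr 1
    funext ρ
    exact fP_append S _ _ _
  simp only [mulT, Tm.ev, sumL_append, e, Int.cast_mul, mul_assoc]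
  congr 1
  rw [← sumL_mul]
  congr 1
  funext ρ
  ring

/-- Free labels are sent to `ext`, summed labels are shifted. -/
def sh (ext : List ℕ) (l : ℕ) : ℕ := bif Nat.ble 10 l then l + 32 else ext.getD l 0

/-- An instance of a term with free labels below `10`. -/
def inst (ext : List ℕ) (t : Tm) : Tm := ⟨t.c, t.ds.map (sh ext), t.fs.map (mapF (sh ext))⟩

/-- The summed labels are exactly the labels from `10` on. -/
def wf (t : Tm) : Bool :=
  t.ds.all (fun a => decide (10 ≤ a)) && (labs t.fs).all fun a => decide (a < 10 ∨ a ∈ t.ds)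

/-- All entries are below `42`. -/
def bd (l : List ℕ) : Bool := l.all fun a => Nat.ble a 41

theorem sh_ge {ext : List ℕ} {l : ℕ} (h : 10 ≤ l) : sh ext l = l + 32 := by
  simp [sh, Nat.ble_eq_true_of_le h]

theorem sh_lt {ext : List ℕ} {l : ℕ} (h : l < 10) : sh ext l = ext.getD l 0 := by
  have : Nat.ble 10 l = false := by
    rw [← Bool.not_eq_true, Nat.ble_eq]; omega
  simp [sh, this]

theorem getD_bd {ext : List ℕ} (h : bd ext = true) (l : ℕ) : ext.getD l 0 < 42 := by
  simp only [bd, List.all_eq_true, Nat.ble_eq] at h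
  by_cases hl : l < ext.length
  · rw [List.getD_eq_getElem _ _ hl]
    exact Nat.lt_succ_of_le (h _ (List.getElem_mem hl))
  · rw [List.getD_eq_default _ _ (not_lt.1 hl)]; omega

theorem inst_ev {ext : List ℕ} (he : bd ext = true) {t : Tm} (ht : wf t = true) (ρ : ℕ → ι) :
    (inst ext t).ev S ρ = t.ev S fun l => ρ (ext.getD l 0) := by
  simp only [wf, Bool.and_eq_true, List.all_eq_true, decide_eq_true_eq] at ht
  have key : ∀ a ∈ t.ds, ∀ b, sh ext b = sh ext a → b = a := by
    intro a ha b e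
    rw [sh_ge (ht.1 a ha)] at e
    have := ht.1 a ha
    by_cases hb : b < 10
    · rw [sh_lt hb] at e
      have := getD_bd he b
      omega
    · rw [sh_ge (not_lt.1 hb)] at e
      omega
  have e : fP S (t.fs.map (mapF (sh ext))) = fun ρ => fP S t.fs (ρ ∘ sh ext) :=
    funext fun ρ => fP_map S _ _ ρ
  simp only [inst, Tm.ev, e]
  rw [sumL_map (dep_fP t.fs) _ _ (fun a ha b _ => key a ha b) fun a ha b _ => key a ha b]
  congr 1
  refine sumL_congr (dep_fP t.fs) _ fun a ha hd => ?_
  rw [comp_apply, sh_lt ((ht.2 a ha).resolve_right hd)]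

/-- A polynomial with free labels, put into a host term. -/
def relI (E : Poly) (t : Tm) (ext : List ℕ) : Poly := E.map fun r => mulT t (inst ext r)

theorem relI_ev {E : Poly} (hE : E.all wf = true) {t : Tm} (ht : bd (labs t.fs) = true)
    {ext : List ℕ} (he : bd ext = true) (ρ : ℕ → ι) : ev S (relI E t ext) ρ =
      t.c * sumL t.ds (fun ρ => fP S t.fs ρ * ev S E fun l => ρ (ext.getD l 0)) ρ := by
  induction E with
  | nil => simp [relI, sumL_zero]
  | cons r E ih =>
    simp only [List.all_cons, Bool.and_eq_true] at hE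
    have hr := hE.1
    simp only [wf, Bool.and_eq_true, List.all_eq_true, decide_eq_true_eq] at hr
    simp only [bd, List.all_eq_true, Nat.ble_eq] at ht
    have ih' := ih hE.2
    simp only [relI] at ih'
    rw [relI, List.map_cons, ev_cons, ih', mulT_ev]
    · simp only [inst_ev he hE.1, ev_cons, mul_add, sumL_add]
    · intro a ha hb
      obtain ⟨b, hb', rfl⟩ := List.mem_map.1 ha
      rw [sh_ge (hr.1 b hb')] at hb
      have := ht _ hb
      have := hr.1 b hb'
      omega

theorem relI_zero {E : Poly} (hE : E.all wf = true) (h0 : ∀ ρ, ev S E ρ = 0) {t : Tm}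
    (ht : bd (labs t.fs) = true) {ext : List ℕ} (he : bd ext = true) (ρ : ℕ → ι) :
    ev S (relI E t ext) ρ = 0 := by
  simp [relI_ev hE ht he, h0, sumL_zero]

/-- Each factor with the list of the other factors. -/
def splits : List Fac → List (Fac × List Fac)
  | [] => []
  | f :: l => (f, l) :: (splits l).map fun p => (p.1, f :: p.2)

/-- The formal derivative in the direction labelled `a`; the derivative of the tensor `τ` is the
tensor `o τ`. -/
def dT (o : ℕ → ℕ) (a : ℕ) (t : Tm) : Poly :=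
  (splits t.fs).map fun p => ⟨t.c, t.ds, p.2 ++ [(o p.1.1, a :: p.1.2)]⟩

/-- The formal derivative, with the derivatives of the tensors replaced by the rules. -/
def exD (rules : ℕ → Poly) (a : ℕ) (t : Tm) : Poly :=
  (splits t.fs).flatMap fun p => relI (rules p.1.1) ⟨t.c, t.ds, p.2⟩ (a :: p.1.2)

theorem splits_perm {fs : List Fac} {p : Fac × List Fac} (h : p ∈ splits fs) :
    fs.Perm (p.1 :: p.2) := by
  induction fs generalizing p with
  | nil => simp [splits] at h
  | cons f l ih =>
    simp only [splits, List.mem_cons, List.mem_map] at h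
    rcases h with rfl | ⟨q, hq, rfl⟩
    · rfl
    · exact ((ih hq).cons f).trans (List.Perm.swap _ _ _)

theorem exD_ev {rules : ℕ → Poly} {o : ℕ → ℕ} {a : ℕ} {d : A} {t : Tm} (ha : a < 42)
    (ht : bd (labs t.fs) = true) (hw : ∀ f ∈ t.fs, (rules f.1).all wf = true)
    (hr : ∀ f ∈ t.fs, ∀ ρ, ev S (rules f.1) ρ =
      d * S (o f.1) ((List.range (f.2.length + 1)).map ρ)) (ρ : ℕ → ι) :
    ev S (exD rules a t) ρ = d * ev S (dT o a t) ρ := by
  rw [exD, ev_flatMap, dT, ev, List.map_map, ← List.sum_map_mul_left]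
  congr 1
  refine List.map_congr_left fun p hp => ?_
  have hm : ∀ f, f ∈ t.fs ↔ f ∈ p.1 :: p.2 := fun f => (splits_perm hp).mem_iff
  have h1 := (hm p.1).2 (by simp)
  simp only [bd, List.all_eq_true, Nat.ble_eq] at ht
  rw [relI_ev (hw _ h1)]
  · simp only [comp_apply, Tm.ev, hr _ h1]
    rw [mul_left_comm]
    congr 1
    rw [← sumL_mul]
    congr 1
    funext ρ
    have e : (List.range (p.1.2.length + 1)).map (fun l => ρ ((a :: p.1.2).getD l 0)) =
        (a :: p.1.2).map ρ := by
      refine List.ext_getElem (by simp) fun i h1 h2 => ?_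
      simp only [List.getElem_map, List.getElem_range]
      rw [List.getD_eq_getElem]
    rw [e, fP_append, fP_cons, fP_nil]
    ring
  · simp only [bd, List.all_eq_true, Nat.ble_eq]
    intro x hx
    obtain ⟨f, hf, hx⟩ := mem_labs.1 hx
    exact ht x (mem_labs.2 ⟨f, (hm f).2 (by simp [hf]), hx⟩)
  · simp only [bd, List.all_eq_true, Nat.ble_eq, List.mem_cons]
    rintro x (rfl | hx)
    · omega
    · exact ht x (mem_labs.2 ⟨_, h1, hx⟩)

end Pool.Agent.P.MP_3e99c6_gt.G
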