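import Pool.Agent.P.MP_3e99c6_gt.SK.Act0

/-! Hermitian data over a commutative ring with commuting derivations; the Chern connection, its
torsion and curvature, and the table of all tensors. -/

set_option linter.unusedSectionVars false
set_option linter.dupNamespace false

noncomputable section

namespace Pool.Agent.P.MP_3e99c6_gt.G

open Finset

/-- A Hermitian matrix `h` with inverse `k`, holomorphic and antiholomorphic derivations and a
constant. -/
structure HD (ι A : Type) [Fintype ι] [DecidableEq ι] [CommRing A] [Algebra ℂ A] where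
  h : ι → ι → A
  k : ι → ι → A
  D : ι → Derivation ℂ A A
  Db : ι → Derivation ℂ A A
  c : ℂ
  hk : ∀ i m, ∑ l, h i l * k l m = if i = m then 1 else 0
  kh : ∀ a j, ∑ m, k a m * h m j = if a = j then 1 else 0
  DD : ∀ a b x, D a (D b x) = D b (D a x)
  BB : ∀ a b x, Db a (Db b x) = Db b (Db a x)
  DB : ∀ a b x, D a (Db b x) = Db b (D a x)

/-- A function of two indices as a function of index lists. -/
def t2 {ι A : Type} [Zero A] (f : ι → ι → A) : List ι → A
  | [a, b] => f a b
  | _ => 0

/-- A function of three indices as a function of index lists. -/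
def t3 {ι A : Type} [Zero A] (f : ι → ι → ι → A) : List ι → A
  | [a, b, c] => f a b c
  | _ => 0

/-- A function of four indices as a function of index lists. -/
def t4 {ι A : Type} [Zero A] (f : ι → ι → ι → ι → A) : List ι → A
  | [a, b, c, d] => f a b c d
  | _ => 0

/-- The kinds of the slots of the basic tensors (`true`: lower, `false`: upper). -/
def kd0 : ℕ → List Bool
  | 0 => [true, false]
  | 2 => [true, true, false]
  | 3 => [false, false, true]
  | 4 => [true, true, false, false]
  | 5 => [false, false, true, true]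
  | 6 => [true, true, false, false]
  | 7 => [true, false, true, false]
  | _ => []

/-- The kinds of the slots, with a bound on the depth of the recursion. -/
def kdF : ℕ → ℕ → List Bool
  | 0, _ => []
  | f + 1, τ => bif Nat.ble 16 τ then Nat.beq (τ % 2) 0 :: kdF f ((τ - 16) / 2) else kd0 τ

/-- The kinds of the slots of the tensor number `τ`. -/
def kd (τ : ℕ) : List Bool := kdF (τ + 1) τ

/-- The number of the covariant derivative of type `(1,0)`. -/
def uD (τ : ℕ) : ℕ := 2 * τ + 16

/-- The number of the raised covariant derivative of type `(0,1)`. -/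
def uF (τ : ℕ) : ℕ := 2 * τ + 17

theorem kdF_eq {f f' τ : ℕ} (h : τ < f) (h' : τ < f') : kdF f τ = kdF f' τ := by
  induction f generalizing f' τ with
  | zero => omega
  | succ f ih =>
    obtain ⟨f', rfl⟩ : ∃ g, f' = g + 1 := ⟨f' - 1, by omega⟩
    simp only [kdF]
    cases e : Nat.ble 16 τ with
    | false => rfl
    | true =>
      have := Nat.le_of_ble_eq_true e
      rw [ih (f' := f') (by omega) (by omega)]

theorem kd_uD (τ : ℕ) : kd (uD τ) = true :: kd τ := by
  have e : Nat.ble 16 (2 * τ + 16) = true := Nat.ble_eq_true_of_le (by omega)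
  have e2 : (2 * τ + 16) % 2 = 0 := by omega
  have e3 : (2 * τ + 16 - 16) / 2 = τ := by omega
  rw [kd, uD, kdF, e, e2, e3, kd, kdF_eq (f' := τ + 1) (by omega) (by omega)]
  rfl

theorem kd_uF (τ : ℕ) : kd (uF τ) = false :: kd τ := by
  have e : Nat.ble 16 (2 * τ + 17) = true := Nat.ble_eq_true_of_le (by omega)
  have e2 : (2 * τ + 17) % 2 = 1 := by omega
  have e3 : (2 * τ + 17 - 16) / 2 = τ := by omega
  rw [kd, uF, kdF, e, e2, e3, kd, kdF_eq (f' := τ + 1) (by omega) (by omega)]
  rfl

/-- Induction over the numbers of the tensors. -/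
theorem atom_ind {p : ℕ → Prop} (h0 : ∀ τ < 16, p τ) (h1 : ∀ τ, p τ → p (uD τ))
    (h2 : ∀ τ, p τ → p (uF τ)) (τ : ℕ) : p τ := by
  induction τ using Nat.strong_induction_on with
  | _ τ ih =>
    by_cases h : τ < 16
    · exact h0 τ h
    · rcases Nat.mod_two_eq_zero_or_one τ with e | e
      · have : τ = uD ((τ - 16) / 2) := by unfold uD; omega
        rw [this]
        exact h1 _ (ih _ (by omega))
      · have : τ = uF ((τ - 16) / 2) := by unfold uF; omega
        rw [this]
        exact h2 _ (ih _ (by omega))

namespace HD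

variable {ι A : Type} [Fintype ι] [DecidableEq ι] [CommRing A] [Algebra ℂ A] (d : HD ι A)

/-- The Christoffel symbols of the Chern connection. -/
def Γ (m i x : ι) : A := ∑ l, d.D m (d.h i l) * d.k l x

/-- The antiholomorphic derivation with raised index. -/
def F (a : ι) : Derivation ℂ A A := ∑ l, d.k l a • d.Db l

/-- The torsion. -/
def T (i k j : ι) : A := d.Γ i k j - d.Γ k i j

/-- The conjugate torsion with raised indices. -/
def Tb (a b i : ι) : A := ∑ j, ∑ l, d.k j a * d.k l b * (d.Db j (d.h i l) - d.Db l (d.h i j))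

/-- The curvature. -/
def R (i a k l : ι) : A := -d.F a (d.Γ i k l)

/-- The covariant derivative of type `(1,0)`. -/
def cov (ks : List Bool) (S : List ι → A) : List ι → A
  | m :: l => d.D m (S l) + dact (d.Γ m) ks S l
  | [] => 0

/-- The raised covariant derivative of type `(0,1)`. -/
def bar (S : List ι → A) : List ι → A
  | a :: l => d.F a (S l)
  | [] => 0

/-- The covariant derivative of the conjugate torsion. -/
def Ab (m j l i : ι) : A := d.cov [false, false, true] (t3 d.Tb) [m, j, l, i]

/-- The symmetric part of the `(0,1)` derivative of the torsion. -/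
def P (i k j l : ι) : A := (1 / 2 : ℂ) • (d.F l (d.T i k j) + d.F j (d.T i k l))

/-- The skew part of the `(0,1)` derivative of the torsion. -/
def K (i k j l : ι) : A := (1 / 2 : ℂ) • (d.F l (d.T i k j) - d.F j (d.T i k l))

/-- The conjugate of `P`. -/
def Pb (j l i k : ι) : A := (1 / 2 : ℂ) • (d.Ab k j l i + d.Ab i j l k)

/-- The basic tensors. -/
def at0 : ℕ → List ι → A
  | 0 => t2 fun i j => if i = j then 1 else 0
  | 1 => fun l => if l = [] then algebraMap ℂ A d.c else 0
  | 2 => t3 d.T
  | 3 => t3 d.Tb
  | 4 => t4 d.P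
  | 5 => t4 d.Pb
  | 6 => t4 d.K
  | 7 => t4 d.R
  | _ => 0

/-- The table of all tensors. -/
def att (τ : ℕ) : List ι → A :=
  if τ < 16 then d.at0 τ else
  if τ % 2 = 0 then d.cov (kd ((τ - 16) / 2)) (att ((τ - 16) / 2)) else d.bar (att ((τ - 16) / 2))
decreasing_by all_goals omega

theorem att_lt {τ : ℕ} (h : τ < 16) : d.att τ = d.at0 τ := by rw [att, if_pos h]

theorem att_uD (τ : ℕ) : d.att (uD τ) = d.cov (kd τ) (d.att τ) := by
  have e3 : (2 * τ + 16 - 16) / 2 = τ := by omega
  rw [att, uD, if_neg (by omega), if_pos (by omega), e3]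

theorem att_uF (τ : ℕ) : d.att (uF τ) = d.bar (d.att τ) := by
  have e3 : (2 * τ + 17 - 16) / 2 = τ := by omega
  rw [att, uF, if_neg (by omega), if_neg (by omega), e3]

theorem F_apply (a : ι) (x : A) : d.F a x = ∑ l, d.k l a * d.Db l x := by
  have e := map_sum (Derivation.coeFnAddMonoidHom (R := ℂ) (A := A) (M := A))
    (fun l => d.k l a • d.Db l) univ
  have e2 := congrFun e x
  rw [Finset.sum_apply] at e2
  exact e2

/-- The lowered expression whose symmetrisation vanishes when the Bismut holomorphic sectional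
curvature is constant (`c` is half of the real constant). -/
def Ψ (i j k l : ι) : A :=
  -d.D i (d.Db j (d.h k l)) + ∑ q, ∑ p, d.D i (d.h k q) * d.k q p * d.Db j (d.h p l) -
    ∑ q, ∑ p, (d.D p (d.h i j) - d.D i (d.h p j)) * d.k q p * (d.Db q (d.h k l) - d.Db l (d.h k q)) -
    algebraMap ℂ A d.c * d.h i j * d.h k l

/-- Constant Bismut holomorphic sectional curvature. -/
def Curv : Prop := ∀ i j k l, d.Ψ i j k l + d.Ψ k j i l + d.Ψ i l k j + d.Ψ k l i j = 0

/-- The pluriclosed condition. -/
def SKT : Prop := ∀ i j k l, d.D i (d.Db j (d.h k l)) - d.D k (d.Db j (d.h i l)) -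
  d.D i (d.Db l (d.h k j)) + d.D k (d.Db l (d.h i j)) = 0

/-- The balanced condition. -/
def Bal : Prop := (∀ i, ∑ q, d.T i q q = 0) ∧ ∀ a, ∑ q, d.Tb a q q = 0

end HD

end Pool.Agent.P.MP_3e99c6_gt.G
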