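import Pool.Agent.P.MP_3e99c6_gt.SK.Sm
import Pool.Agent.P.MP_3e99c6_gt.SK.Sp
import Pool.Agent.P.MP_3e99c6_gt.SK.ChSkt

/-! Pluriclosed threefolds of constant nonzero Bismut holomorphic sectional curvature. -/

namespace Pool.Agent.P.MP_3e99c6_gt.G

theorem skt_main {M : Type*} [TopologicalSpace M] [ChartedSpace (V 3) M] [T2Space M]
    [CompactSpace M] (hC : ComplexMfd 3 M) {g : M → Bil 3} (hg : IsHermitian g)
    (hP : S.IsPluriclosed g) {c : ℝ} (hc0 : c ≠ 0) (hH : ConstHSC g c) : IsKaehler g := by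
  have hs : ∀ p, (hc hC hg c p).SKT := fun p =>
    hd_skt (U := tg 3 p) (hg.hermOn hC p) c (hP p)
  rcases lt_or_gt_of_ne hc0 with h | h
  · exact top hC hg hH Sm.okY fun p y hy S H hcu h1 =>
      Sm.key H (Fintype.card_fin 3) hcu (hs p) h1 (by linarith) _
  · exact top hC hg hH Sp.okY fun p y hy S H hcu h1 =>
      Sp.key H (Fintype.card_fin 3) hcu (hs p) h1 (by linarith) _

end Pool.Agent.P.MP_3e99c6_gt.G
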