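import Pool.Agent.P.MP_3e99c6_gt.SK.Wk
import Pool.Agent.P.MP_3e99c6_gt.SK.HD

/-! The basic relations between the tensors, as contraction graphs.  Numbers of the tensors:
`0` Kronecker symbol, `1` the constant, `2` torsion, `3` conjugate torsion, `4` `P`, `5` `Pb`,
`6` `K`, `7` curvature; `2 τ + 16` and `2 τ + 17` are the two covariant derivatives of `τ`. -/

namespace Pool.Agent.P.MP_3e99c6_gt.G

/-- The polynomial vanishes identically. -/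
def Zr {ι A : Type} [Fintype ι] [DecidableEq ι] [CommRing A] (S : ℕ → List ι → A) (p : Poly) :
    Prop := ∀ ρ, ev S p ρ = 0

/-- Definition of `P`. -/
def rP : Poly := [⟨2, [], [(4, [0, 1, 2, 3])]⟩, ⟨-1, [], [(21, [3, 0, 1, 2])]⟩,
  ⟨-1, [], [(21, [2, 0, 1, 3])]⟩]

/-- Definition of `K`. -/
def rK : Poly := [⟨2, [], [(6, [0, 1, 2, 3])]⟩, ⟨-1, [], [(21, [3, 0, 1, 2])]⟩,
  ⟨1, [], [(21, [2, 0, 1, 3])]⟩]

/-- Definition of `Pb`. -/
def rPb : Poly := [⟨2, [], [(5, [0, 1, 2, 3])]⟩, ⟨-1, [], [(22, [3, 0, 1, 2])]⟩,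
  ⟨-1, [], [(22, [2, 0, 1, 3])]⟩]

/-- The first Bianchi identity, part of type `(3,0)`. -/
def rCyc : Poly := [⟨1, [], [(20, [0, 1, 2, 3])]⟩, ⟨1, [], [(20, [1, 2, 0, 3])]⟩,
  ⟨1, [], [(20, [2, 0, 1, 3])]⟩, ⟨1, [10], [(2, [0, 1, 10]), (2, [10, 2, 3])]⟩,
  ⟨1, [10], [(2, [1, 2, 10]), (2, [10, 0, 3])]⟩, ⟨1, [10], [(2, [2, 0, 10]), (2, [10, 1, 3])]⟩]

/-- The first Bianchi identity, part of type `(2,1)`. -/
def rRA : Poly := [⟨1, [], [(7, [0, 1, 2, 3])]⟩, ⟨-1, [], [(7, [2, 1, 0, 3])]⟩,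
  ⟨1, [], [(21, [1, 0, 2, 3])]⟩]

/-- The first Bianchi identity, part of type `(1,2)`. -/
def rRB : Poly := [⟨1, [], [(7, [0, 1, 2, 3])]⟩, ⟨-1, [], [(7, [0, 3, 2, 1])]⟩,
  ⟨1, [], [(22, [0, 1, 3, 2])]⟩]

/-- The second Bianchi identity. -/
def rBi : Poly := [⟨1, [], [(30, [0, 1, 2, 3, 4])]⟩, ⟨-1, [], [(30, [1, 0, 2, 3, 4])]⟩,
  ⟨1, [10], [(2, [0, 1, 10]), (7, [10, 2, 3, 4])]⟩]

/-- The commutator of two covariant derivatives of type `(1,0)`. -/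
def rCom (τ r : ℕ) : Poly := [⟨1, [], [(uD (uD τ), 0 :: 1 :: List.range' 2 r)]⟩,
  ⟨-1, [], [(uD (uD τ), 1 :: 0 :: List.range' 2 r)]⟩,
  ⟨1, [10], [(2, [0, 1, 10]), (uD τ, 10 :: List.range' 2 r)]⟩]

/-- The mixed commutator on the torsion. -/
def rMixT : Poly := [⟨1, [], [(58, [0, 1, 2, 3, 4])]⟩, ⟨-1, [], [(57, [1, 0, 2, 3, 4])]⟩,
  ⟨1, [10], [(7, [0, 1, 2, 10]), (2, [10, 3, 4])]⟩, ⟨1, [10], [(7, [0, 1, 3, 10]), (2, [2, 10, 4])]⟩,
  ⟨-1, [10], [(7, [0, 1, 10, 4]), (2, [2, 3, 10])]⟩]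

/-- The mixed commutator on the conjugate torsion. -/
def rMixTb : Poly := [⟨1, [], [(62, [0, 1, 2, 3, 4])]⟩, ⟨-1, [], [(61, [1, 0, 2, 3, 4])]⟩,
  ⟨-1, [10], [(7, [0, 1, 10, 2]), (3, [10, 3, 4])]⟩, ⟨-1, [10], [(7, [0, 1, 10, 3]), (3, [2, 10, 4])]⟩,
  ⟨1, [10], [(7, [0, 1, 4, 10]), (3, [2, 3, 10])]⟩]

/-- A single tensor. -/
def rOne (τ r : ℕ) : Poly := [⟨1, [], [(τ, List.range r)]⟩]

/-- Constant Bismut holomorphic sectional curvature. -/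
def rCurv : Poly := [⟨1, [], [(7, [0, 1, 2, 3])]⟩, ⟨1, [], [(7, [2, 1, 0, 3])]⟩,
  ⟨1, [], [(7, [0, 3, 2, 1])]⟩, ⟨1, [], [(7, [2, 3, 0, 1])]⟩,
  ⟨-1, [10], [(2, [10, 0, 1]), (3, [10, 3, 2])]⟩, ⟨-1, [10], [(2, [10, 2, 1]), (3, [10, 3, 0])]⟩,
  ⟨-1, [10], [(2, [10, 0, 3]), (3, [10, 1, 2])]⟩, ⟨-1, [10], [(2, [10, 2, 3]), (3, [10, 1, 0])]⟩,
  ⟨-2, [], [(1, []), (0, [0, 1]), (0, [2, 3])]⟩, ⟨-2, [], [(1, []), (0, [0, 3]), (0, [2, 1])]⟩]

/-- The pluriclosed condition. -/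
def rSKT : Poly := [⟨2, [], [(6, [0, 1, 2, 3])]⟩, ⟨-1, [10], [(2, [0, 1, 10]), (3, [2, 3, 10])]⟩]

/-- The balanced condition. -/
def rBal : Poly := [⟨1, [10], [(2, [0, 10, 10])]⟩]

/-- The conjugate of the balanced condition. -/
def rBalb : Poly := [⟨1, [10], [(3, [0, 10, 10])]⟩]

/-- The first slot symmetry of the basic tensors. -/
def s10 (τ : ℕ) : Option (ℕ × Bool) := bif Nat.ble 2 τ && Nat.ble τ 6 then some (0, true) else none

/-- The second slot symmetry of the basic tensors. -/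
def s20 (τ : ℕ) : Option (ℕ × Bool) :=
  bif Nat.ble 4 τ && Nat.ble τ 6 then some (2, Nat.beq τ 6) else none

/-- Slot symmetries pass to the covariant derivatives. -/
def sF (s : ℕ → Option (ℕ × Bool)) : ℕ → ℕ → ℕ → Option (ℕ × Bool)
  | 0, _, _ => none
  | f + 1, o, τ => bif Nat.ble 16 τ then sF s f (o + 1) ((τ - 16) / 2) else
    match s τ with
    | some q => some (q.1 + o, q.2)
    | none => none

/-- The first slot symmetry. -/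
def s1 (τ : ℕ) : Option (ℕ × Bool) := sF s10 4 0 τ

/-- The second slot symmetry. -/
def s2 (τ : ℕ) : Option (ℕ × Bool) := sF s20 4 0 τ

/-- The number of the conjugate tensor and the order of its slots. -/
def cjL {α : Type} : ℕ → List α → ℕ × List α
  | τ, [] => (τ, [])
  | τ, m :: l =>
    bif Nat.ble 16 τ then
      (2 * (cjL ((τ - 16) / 2) l).1 + (17 - τ % 2), m :: (cjL ((τ - 16) / 2) l).2)
    else bif Nat.ble 7 τ then (τ, m :: l)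
    else bif Nat.beq τ 6 then (6, swapAt 1 (swapAt 0 (swapAt 2 (swapAt 1 (m :: l)))))
    else bif Nat.ble τ 1 then (τ, swapAt 0 (m :: l))
    else (τ + 1 - 2 * (τ % 2), m :: l)

/-- The tensors built from the first seven basic tensors. -/
def good : ℕ → ℕ → Bool
  | 0, _ => false
  | f + 1, τ => bif Nat.ble 16 τ then good f ((τ - 16) / 2) else Nat.ble τ 6

/-- The normaliser for identities with free labels. -/
def cfgR (n : ℕ) : Cfg := ⟨n, 10, s1, s2, id⟩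

/-- The normaliser for real parts of complete contractions. -/
def cfgP (n : ℕ) : Cfg := ⟨n, 0, s1, s2, fun f => cjL f.1 f.2⟩

end Pool.Agent.P.MP_3e99c6_gt.G
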