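import Pool.Agent.P.MP_3e99c6_gt.SK.Rul2

/-! Derivatives of the balanced condition. -/

set_option linter.unusedSectionVars false
set_option linter.unusedVariables false
set_option maxRecDepth 100000

namespace Pool.Agent.P.MP_3e99c6_gt.G

/-- A first derivative. -/
def rRL : Poly := [⟨1, [10], [(20, [0, 1, 10, 10])]⟩]

/-- Instances. -/
def zRL_L : List Ins := [(0, ⟨-1, [], []⟩, [1, 0])]

/-- Hints. -/
def zRL_W : List ℕ := [0x1000000000000000000000000000000000000000000]

/-- A first derivative. -/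
def rRF : Poly := [⟨1, [10], [(4, [1, 10, 0, 10])]⟩,
  ⟨-1, [10], [(6, [1, 10, 0, 10])]⟩]

/-- Instances. -/
def zRF_L : List Ins := [(0, ⟨-1, [], []⟩, [1, 0]),
  (1, ⟨-1, [10], []⟩, [0, 1, 10, 10])]

/-- Hints. -/
def zRF_W : List ℕ := [0x1000000000000000000020000000000000000000020000000000000000000000000000000000000000000000000000000000000000000000000000000000000]

/-- A second derivative. -/
def rRLL : Poly := [⟨1, [10], [(56, [0, 1, 2, 10, 10])]⟩]

/-- Instances. -/
def zRLL_L : List Ins := [(0, ⟨-1, [], []⟩, [1, 2, 0])]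

/-- Hints. -/
def zRLL_W : List ℕ := [0x1000000000000000000000000000000000000000000]

/-- A second derivative. -/
def rRFF : Poly := [⟨1, [10], [(25, [0, 2, 10, 1, 10])]⟩,
  ⟨-1, [10], [(29, [0, 2, 10, 1, 10])]⟩]

/-- Instances. -/
def zRFF_L : List Ins := [(0, ⟨-1, [], []⟩, [1, 2, 0])]

/-- Hints. -/
def zRFF_W : List ℕ := [0x1000000000000000000000000000000000000000000000000000000000000000000000000000000000000]

variable {ι A : Type} [Fintype ι] [DecidableEq ι] [CommRing A] [Algebra ℂ A] (d : HD ι A)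

theorem zRL_chk : (([dP uD 1 rBal] : List Poly).all (fun p => p.all wf) && insOk zRL_L && !((1 : ℤ) == 0) &&
    chk (cfgR 3) (smP 1 rRL ++ insts [dP uD 1 rBal] zRL_L) zRL_W) = true := by
  decide +kernel

theorem zRL (hn : Fintype.card ι = 3) (hc : d.Curv) (hb : d.Bal) : Zr d.att rRL :=
  derive (d.ok_ring hn) (ZL.cons (d.zD [true] (d.zBal hb) (by decide +kernel)) ZL.nil) zRL_chk

theorem zRF_chk : (([dP uF 1 rBal, rA] : List Poly).all (fun p => p.all wf) && insOk zRF_L && !((1 : ℤ) == 0) &&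
    chk (cfgR 3) (smP 1 rRF ++ insts [dP uF 1 rBal, rA] zRF_L) zRF_W) = true := by
  decide +kernel

theorem zRF (hn : Fintype.card ι = 3) (hc : d.Curv) (hb : d.Bal) : Zr d.att rRF :=
  derive (d.ok_ring hn) (ZL.cons (d.zF [true] (d.zBal hb) (by decide +kernel)) (ZL.cons (zA d hn hc) ZL.nil)) zRF_chk

theorem zRLL_chk : (([dP uD 2 rRL] : List Poly).all (fun p => p.all wf) && insOk zRLL_L && !((1 : ℤ) == 0) &&
    chk (cfgR 3) (smP 1 rRLL ++ insts [dP uD 2 rRL] zRLL_L) zRLL_W) = true := by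
  decide +kernel

theorem zRLL (hn : Fintype.card ι = 3) (hc : d.Curv) (hb : d.Bal) : Zr d.att rRLL :=
  derive (d.ok_ring hn) (ZL.cons (d.zD [true, true] (zRL d hn hc hb) (by decide +kernel)) ZL.nil) zRLL_chk

theorem zRFF_chk : (([dP uF 2 rRF] : List Poly).all (fun p => p.all wf) && insOk zRFF_L && !((1 : ℤ) == 0) &&
    chk (cfgR 3) (smP 1 rRFF ++ insts [dP uF 2 rRF] zRFF_L) zRFF_W) = true := by
  decide +kernel

theorem zRFF (hn : Fintype.card ι = 3) (hc : d.Curv) (hb : d.Bal) : Zr d.att rRFF :=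
  derive (d.ok_ring hn) (ZL.cons (d.zF [false, true] (zRF d hn hc hb) (by decide +kernel)) ZL.nil) zRFF_chk

end Pool.Agent.P.MP_3e99c6_gt.G
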