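import Pool.Agent.P.MP_3e99c6_gt.SK.RulS
import Pool.Agent.P.MP_3e99c6_gt.SK.Rul6
import Pool.Agent.P.MP_3e99c6_gt.SK.Rul7

/-! The rules and relations used for balanced metrics. -/

set_option linter.unusedSectionVars false

noncomputable section

namespace Pool.Agent.P.MP_3e99c6_gt.G

/-- The tensors whose derivatives are computed. -/
def okE (τ r : ℕ) : Bool := mem (8 * τ + r) [8, 19, 27, 36, 44, 52, 164, 188] && Nat.ble r 7

/-- Four times the derivatives. -/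
def rulE (τ : ℕ) : Poly :=
  bif Nat.beq τ 2 then [⟨4, [], [(20, [0, 1, 2, 3])]⟩] else
  bif Nat.beq τ 3 then smP 4 rAb.tail else
  bif Nat.beq τ 4 then rM.tail else
  bif Nat.beq τ 5 then [⟨4, [], [(26, [0, 1, 2, 3, 4])]⟩] else
  bif Nat.beq τ 6 then [⟨4, [], [(28, [0, 1, 2, 3, 4])]⟩] else
  bif Nat.beq τ 20 then [⟨4, [], [(56, [0, 1, 2, 3, 4])]⟩] else
  bif Nat.beq τ 23 then r62a.tail else []

/-- The relations. -/
def relE : List Poly := [rBal, rRL, rRF, rRLL, rRFF, rCyc, rCTb, rO, rTT, rTP, rTB, rPP, rPB, rT2,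
  rP2, rB2, rTK, rPK, rBK, rKK, rK2, rTD, rTE, rTX]

variable {ι A : Type} [Fintype ι] [DecidableEq ι] [CommRing A] [Algebra ℂ A] {d : HD ι A}
  {e : A →ₐ[ℂ] ℂ} {S : ℕ → List ι → ℂ}

theorem rulesE (H : Pt d e S) (hn : Fintype.card ι = 3) (hc : d.Curv) (_ : d.Bal) :
    Rules S okE rulE 4 := by
  intro τ r h
  simp only [okE, Bool.and_eq_true, mem_iff, Nat.ble_eq, List.mem_cons, List.not_mem_nil,
    or_false] at h
  have h' : τ = 1 ∧ r = 0 ∨ τ = 2 ∧ r = 3 ∨ τ = 3 ∧ r = 3 ∨ τ = 4 ∧ r = 4 ∨ τ = 5 ∧ r = 4 ∨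
    τ = 6 ∧ r = 4 ∨ τ = 20 ∧ r = 4 ∨ τ = 23 ∧ r = 4 := by omega
  rcases h' with ⟨rfl, rfl⟩ | ⟨rfl, rfl⟩ | ⟨rfl, rfl⟩ | ⟨rfl, rfl⟩ | ⟨rfl, rfl⟩ | ⟨rfl, rfl⟩ |
    ⟨rfl, rfl⟩ | ⟨rfl, rfl⟩
  · exact ⟨rfl, rule_c H 4⟩
  · exact ⟨by decide +kernel, rule_one 4 20 4⟩
  · refine ⟨by decide +kernel, fun ρ => ?_⟩
    have e1 := rule_ev (z := 1) (τ := 22) (r := 4) (p := rAb.tail)
      (H.tp (p := rAb) [true, false, false, true] (zAb d hn hc) (by decide +kernel)) ρ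
    change ev S (smP 4 rAb.tail) ρ = _ * S 22 _
    rw [ev_smP, e1]
    push_cast
    ring
  · exact ⟨by decide +kernel, rule_ev (z := 4) (τ := 24) (r := 5) (p := rM.tail)
      (H.tp (p := rM) [true, true, true, false, false] (zM d hn hc) (by decide +kernel))⟩
  · exact ⟨by decide +kernel, rule_one 4 26 5⟩
  · exact ⟨by decide +kernel, rule_one 4 28 5⟩
  · exact ⟨by decide +kernel, rule_one 4 56 5⟩
  · exact ⟨by decide +kernel, rule_ev (z := 4) (τ := 62) (r := 5) (p := r62a.tail) (z62a H hn hc)⟩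

theorem relE_wf : relE.all (fun p => p.all wf) = true := by decide +kernel

theorem relE_zero (H : Pt d e S) (hn : Fintype.card ι = 3) (hc : d.Curv) (hb : d.Bal) :
    ∀ p ∈ relE, Zr S p :=
  ZL.cons (H.tp [true] (d.zBal hb) (by decide +kernel)) <|
    ZL.cons (H.tp [true, true] (zRL d hn hc hb) (by decide +kernel)) <|
    ZL.cons (H.tp [false, true] (zRF d hn hc hb) (by decide +kernel)) <|
    ZL.cons (H.tp [true, true, true] (zRLL d hn hc hb) (by decide +kernel)) <|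
    ZL.cons (H.tp [false, false, true] (zRFF d hn hc hb) (by decide +kernel)) <|
    ZL.cons (H.tp [true, true, true, false] d.zCyc (by decide +kernel)) <|
    ZL.cons (H.tp [true, true, false, false, true] (zCTb d hn hc) (by decide +kernel)) <|
    ZL.cons (H.tp [true, true, true, true, false, false] (zO d hn hc) (by decide +kernel)) <|
    ZL.cons (zTT H hn) <| ZL.cons (zTP H hn) <| ZL.cons (zTB H hn) <|
    ZL.cons (zPP H hn) <| ZL.cons (zPB H hn) <| ZL.cons (zT2 H hn) <| ZL.cons (zP2 H hn) <|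
    ZL.cons (zB2 H hn) <| ZL.cons (zTK H hn) <| ZL.cons (zPK H hn) <| ZL.cons (zBK H hn) <|
    ZL.cons (zKK H hn) <| ZL.cons (zK2 H hn) <| ZL.cons (zTD H hn) <| ZL.cons (zTE H hn) <|
    ZL.cons (zTX H hn) ZL.nil

end Pool.Agent.P.MP_3e99c6_gt.G
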