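import Pool.Agent.P.MP_3e99c6_gt.SK.Cert
import Pool.Agent.P.MP_3e99c6_gt.SK.Rul5

/-! The rules and relations used for pluriclosed metrics. -/

set_option linter.unusedSectionVars false

noncomputable section

namespace Pool.Agent.P.MP_3e99c6_gt.G

/-- The tensors whose derivatives are computed. -/
def okS (τ r : ℕ) : Bool := mem (8 * τ + r) [8, 19, 27, 36, 44, 188] && Nat.ble r 7

/-- Four times the derivatives. -/
def rulS (τ : ℕ) : Poly :=
  bif Nat.beq τ 2 then [⟨4, [], [(20, [0, 1, 2, 3])]⟩] else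
  bif Nat.beq τ 3 then smP 2 rS22.tail else
  bif Nat.beq τ 4 then rS24.tail else
  bif Nat.beq τ 5 then [⟨4, [], [(26, [0, 1, 2, 3, 4])]⟩] else
  bif Nat.beq τ 23 then rS62.tail else []

/-- The relations. -/
def relS : List Poly := [rCyc, rSC, rTT, rTP, rTB, rPP, rPB, rT2, rP2, rB2]

variable {ι A : Type} [Fintype ι] [DecidableEq ι] [CommRing A] [Algebra ℂ A] {d : HD ι A}
  {e : A →ₐ[ℂ] ℂ} {S : ℕ → List ι → ℂ}

theorem rule_one (z : ℤ) (τ r : ℕ) (ρ : ℕ → ι) :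
    ev S [⟨z, [], [(τ, List.range r)]⟩] ρ = z * S τ ((List.range r).map ρ) := by
  simp [ev, Tm.ev, sumL, fP]

theorem rule_c (H : Pt d e S) (z : ℤ) (ρ : ℕ → ι) :
    ev S [] ρ = z * S 18 ((List.range 1).map ρ) := by
  have h := H.tp [true] d.z18 (by decide +kernel) ρ
  rw [rOne, rule_one] at h
  simp only [Int.cast_one, one_mul] at h
  rw [h, mul_zero]
  rfl

theorem rulesS (H : Pt d e S) (hn : Fintype.card ι = 3) (hc : d.Curv) (hs : d.SKT) :
    Rules S okS rulS 4 := by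
  intro τ r h
  simp only [okS, Bool.and_eq_true, mem_iff, Nat.ble_eq, List.mem_cons, List.not_mem_nil,
    or_false] at h
  have h' : τ = 1 ∧ r = 0 ∨ τ = 2 ∧ r = 3 ∨ τ = 3 ∧ r = 3 ∨ τ = 4 ∧ r = 4 ∨ τ = 5 ∧ r = 4 ∨
    τ = 23 ∧ r = 4 := by omega
  rcases h' with ⟨rfl, rfl⟩ | ⟨rfl, rfl⟩ | ⟨rfl, rfl⟩ | ⟨rfl, rfl⟩ | ⟨rfl, rfl⟩ | ⟨rfl, rfl⟩
  · exact ⟨rfl, rule_c H 4⟩
  · exact ⟨by decide +kernel, rule_one 4 20 4⟩
  · refine ⟨by decide +kernel, fun ρ => ?_⟩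
    have e1 := rule_ev (z := 2) (τ := 22) (r := 4) (p := rS22.tail) (zS22 H hn hc hs) ρ
    change ev S (smP 2 rS22.tail) ρ = _ * S 22 _
    rw [ev_smP, e1]
    push_cast
    ring
  · exact ⟨by decide +kernel, rule_ev (z := 4) (τ := 24) (r := 5) (p := rS24.tail) (zS24 H hn hc hs)⟩
  · exact ⟨by decide +kernel, rule_one 4 26 5⟩
  · exact ⟨by decide +kernel, rule_ev (z := 4) (τ := 62) (r := 5) (p := rS62.tail) (zS62 H hn hc hs)⟩

theorem relS_wf : relS.all (fun p => p.all wf) = true := by decide +kernel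

theorem relS_zero (H : Pt d e S) (hn : Fintype.card ι = 3) (hc : d.Curv) (hs : d.SKT) :
    ∀ p ∈ relS, Zr S p :=
  ZL.cons (H.tp [true, true, true, false] d.zCyc (by decide +kernel)) <|
    ZL.cons (zSC H hn hc hs) <| ZL.cons (zTT H hn) <| ZL.cons (zTP H hn) <| ZL.cons (zTB H hn) <|
    ZL.cons (zPP H hn) <| ZL.cons (zPB H hn) <| ZL.cons (zT2 H hn) <| ZL.cons (zP2 H hn) <|
    ZL.cons (zB2 H hn) ZL.nil

end Pool.Agent.P.MP_3e99c6_gt.G
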