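import Pool.Agent.P.MP_3e99c6_gt.SK.Sm2

/-! The vector field of a certificate is well formed. -/

set_option linter.unusedSectionVars false
set_option maxRecDepth 100000

noncomputable section

namespace Pool.Agent.P.MP_3e99c6_gt.G.Sm

theorem okY0 : vecOk Y0 = true := by decide +kernel

theorem ruY0 : rulOk okS Y0 = true := by decide +kernel

theorem okY1 : vecOk Y1 = true := by decide +kernel

theorem ruY1 : rulOk okS Y1 = true := by decide +kernel

theorem okY2 : vecOk Y2 = true := by decide +kernel

theorem ruY2 : rulOk okS Y2 = true := by decide +kernel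

theorem okY : vecOk Y = true := vecOk_apP okY0 (vecOk_apP okY1 (okY2))

end Pool.Agent.P.MP_3e99c6_gt.G.Sm
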