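import Pool.Agent.P.MP_3e99c6_gt.SK.Sm0

/-! The large blocks of a certificate are nonnegative. -/

set_option linter.unusedSectionVars false
set_option maxRecDepth 100000

noncomputable section

namespace Pool.Agent.P.MP_3e99c6_gt.G.Sm

theorem okB1 : (B1.ok && Nat.ble B1.Q.length 68) = true := by decide +kernel

end Pool.Agent.P.MP_3e99c6_gt.G.Sm
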