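import Pool.Agent.P.MP_3e99c6_gt.SK.Sm1

/-! The small blocks of a certificate are nonnegative. -/

set_option linter.unusedSectionVars false
set_option maxRecDepth 100000

noncomputable section

namespace Pool.Agent.P.MP_3e99c6_gt.G.Sm

theorem okB0 : (B0.ok && Nat.ble B0.Q.length 15) = true := by decide +kernel

theorem okB2 : (B2.ok && Nat.ble B2.Q.length 52) = true := by decide +kernel

theorem okB3 : (B3.ok && Nat.ble B3.Q.length 2) = true := by decide +kernel

theorem okB4 : (B4.ok && Nat.ble B4.Q.length 8) = true := by decide +kernel

theorem okB5 : (B5.ok && Nat.ble B5.Q.length 4) = true := by decide +kernel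

theorem okB6 : (B6.ok && Nat.ble B6.Q.length 2) = true := by decide +kernel

end Pool.Agent.P.MP_3e99c6_gt.G.Sm
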