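import Pool.Agent.P.MP_3e99c6_gt.SK.Cert
import Pool.Agent.P.MP_3e99c6_gt.SK.Glob
import Pool.Agent.P.MP_3e99c6_gt.SK.ChCurv

/-! From a certificate at every point to the global statement. -/

noncomputable section

namespace Pool.Agent.P.MP_3e99c6_gt.G

/-- The conclusion of a certificate. -/
def Key {ι : Type} [Fintype ι] [DecidableEq ι] (S : ℕ → List ι → ℂ) (Y : Poly) (ρ : ℕ → ι) :
    Prop :=
  ∃ z x : ℝ, 0 < z ∧ (0 ≤ x ∧ (x = 0 → ∀ i k j, S 2 [i, k, j] = 0)) ∧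
    z * (ev S (divP Y) ρ).re + x ≤ 0

theorem top {M : Type*} [TopologicalSpace M] [ChartedSpace (V 3) M] [T2Space M] [CompactSpace M]
    (hC : ComplexMfd 3 M) {g : M → Bil 3} (hg : IsHermitian g) {c : ℝ} (hH : ConstHSC g c)
    {Y : Poly} (hY : vecOk Y = true)
    (key : ∀ p y (hy : y ∈ tg 3 p) S, Pt (hc hC hg c p) (evF y hy) S → (hc hC hg c p).Curv →
      S 1 [] = (c / 2 : ℝ) → Key S Y fun _ => 0) : IsKaehler g := by
  have hY' := hY
  simp only [vecOk, Bool.and_eq_true] at hY'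
  refine glob hC hg c hY'.1.1.1 hY'.1.1.2 hY'.1.2 (fun _ => 0) fun p y hy => ?_
  obtain ⟨S, H⟩ := exists_pt (hd_st (U := tg 3 p) (hg.hermOn hC p) c) (evF y hy)
    (fun x => evF_stF x hy) (hd_pos (U := tg 3 p) (hg.hermOn hC p) c hy)
  obtain ⟨Γ, hB, hΓ⟩ := hH p
  obtain ⟨z, x, hz, hx, h⟩ := key p y hy S H (hd_curv (U := tg 3 p) (hg.hermOn hC p) hB hΓ)
    (by rw [H.c]; simp [hd])
  exact H.fin hY _ hz hx h

end Pool.Agent.P.MP_3e99c6_gt.G
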