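import Pool.Agent.P.MP_3e99c6_gt.SK.Act0

/-! Well-formed contraction graphs. -/

set_option linter.unusedSectionVars false

namespace Pool.Agent.P.MP_3e99c6_gt.G

open Function

/-- The slots of a list of factors: label and kind. -/
def slots (kd : ℕ → List Bool) : List Fac → List (ℕ × Bool)
  | [] => []
  | f :: l => f.2.zip (kd f.1) ++ slots kd l

/-- Every summed label occurs once in a lower and once in an upper slot; the other slots carry
the free labels `fr`, with kinds `ks`. -/
def wk (kd : ℕ → List Bool) (fr : List ℕ) (ks : List Bool) (t : Tm) : Bool :=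
  t.fs.all (fun f => f.2.length == (kd f.1).length) && fr.length == ks.length &&
    decide (t.ds ++ fr).Nodup &&
    (slots kd t.fs).isPerm (t.ds.map (·, true) ++ t.ds.map (·, false) ++ fr.zip ks)

/-- The labels `fr` get the values `l`. -/
def setL {ι : Type} : List ℕ → List ι → (ℕ → ι) → ℕ → ι
  | a :: fr, i :: l, ρ => update (setL fr l ρ) a i
  | _, _, ρ => ρ

/-- The formal derivative of a polynomial. -/
def dP (o : ℕ → ℕ) (a : ℕ) (p : Poly) : Poly := p.flatMap (dT o a)

variable {ι A : Type} [Fintype ι] [DecidableEq ι] [CommRing A]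

theorem map_ev {B : Type} [CommRing B] (φ : A →+* B) (S : ℕ → List ι → A) (p : Poly) (ρ : ℕ → ι) :
    φ (ev S p ρ) = ev (fun τ l => φ (S τ l)) p ρ := by
  induction p with
  | nil => simp
  | cons t p ih =>
    rw [ev_cons, ev_cons, map_add, ih, Tm.ev, Tm.ev, map_mul, map_intCast]
    congr 2
    refine (map_sumL φ.toAddMonoidHom _ _ _).trans ?_
    congr 1
    funext ρ
    simp [fP, map_list_prod, comp_def]

theorem ev_congr {S S' : ℕ → List ι → A} {p : Poly} (h : ∀ t ∈ p, ∀ f ∈ t.fs, S f.1 = S' f.1)
    (ρ : ℕ → ι) : ev S p ρ = ev S' p ρ := by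
  unfold ev
  congr 1
  refine List.map_congr_left fun t ht => ?_
  have e : fP S t.fs = fP S' t.fs := funext fun ρ => by
    unfold fP
    congr 1
    exact List.map_congr_left fun f hf => by rw [h t ht f hf]
  rw [Tm.ev, Tm.ev, e]

end Pool.Agent.P.MP_3e99c6_gt.G
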