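import Pool.Agent.P.MP_3e99c6_gt.SK.Com

/-! The basic relations hold, part one. -/

set_option linter.unusedSectionVars false

namespace Pool.Agent.P.MP_3e99c6_gt.G.HD

open Finset

variable {ι A : Type} [Fintype ι] [DecidableEq ι] [CommRing A] [Algebra ℂ A] (d : HD ι A)

theorem Z1_a0 : d.att 0 = t2 fun i j => if i = j then 1 else 0 := d.att_lt (by norm_num)

theorem Z1_a1 : d.att 1 = fun l => if l = [] then algebraMap ℂ A d.c else 0 :=
  d.att_lt (by norm_num)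

theorem Z1_a2 : d.att 2 = t3 d.T := d.att_lt (by norm_num)

theorem Z1_a3 : d.att 3 = t3 d.Tb := d.att_lt (by norm_num)

theorem Z1_a4 : d.att 4 = t4 d.P := d.att_lt (by norm_num)

theorem Z1_a5 : d.att 5 = t4 d.Pb := d.att_lt (by norm_num)

theorem Z1_a6 : d.att 6 = t4 d.K := d.att_lt (by norm_num)

theorem Z1_a7 : d.att 7 = t4 d.R := d.att_lt (by norm_num)

theorem Z1_a16 : d.att 16 = d.cov [true, false] (d.att 0) := d.att_uD 0

theorem Z1_a17 : d.att 17 = d.bar (d.att 0) := d.att_uF 0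

theorem Z1_a18 : d.att 18 = d.cov [] (d.att 1) := d.att_uD 1

theorem Z1_a19 : d.att 19 = d.bar (d.att 1) := d.att_uF 1

theorem Z1_a20 : d.att 20 = d.cov [true, true, false] (d.att 2) := d.att_uD 2

theorem Z1_a21 : d.att 21 = d.bar (d.att 2) := d.att_uF 2

theorem Z1_a22 : d.att 22 = d.cov [false, false, true] (d.att 3) := d.att_uD 3

theorem Z1_a23 : d.att 23 = d.bar (d.att 3) := d.att_uF 3

theorem Z1_a57 : d.att 57 = d.bar (d.att 20) := d.att_uF 20

theorem Z1_a58 : d.att 58 = d.cov [false, true, true, false] (d.att 21) := d.att_uD 21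

theorem Z1_a61 : d.att 61 = d.bar (d.att 22) := d.att_uF 22

theorem Z1_a62 : d.att 62 = d.cov [false, false, false, true] (d.att 23) := d.att_uD 23

theorem Z1_half (x : A) : 2 * (1 / 2 : ℂ) • x = x := by
  rw [two_mul, ← add_smul]
  norm_num

theorem zP : Zr d.att rP := by
  intro ρ
  have h := Z1_half (d.F (ρ 3) (d.T (ρ 0) (ρ 1) (ρ 2)) + d.F (ρ 2) (d.T (ρ 0) (ρ 1) (ρ 3)))
  simp only [rP, ev, Tm.ev, sumL, fP, List.map, List.sum_cons, List.sum_nil, List.prod_cons,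
    List.prod_nil, Z1_a4, Z1_a21, Z1_a2, t4, t3, bar, P]
  push_cast
  linear_combination h

theorem zK : Zr d.att rK := by
  intro ρ
  have h := Z1_half (d.F (ρ 3) (d.T (ρ 0) (ρ 1) (ρ 2)) - d.F (ρ 2) (d.T (ρ 0) (ρ 1) (ρ 3)))
  simp only [rK, ev, Tm.ev, sumL, fP, List.map, List.sum_cons, List.sum_nil, List.prod_cons,
    List.prod_nil, Z1_a6, Z1_a21, Z1_a2, t4, t3, bar, K]
  push_cast
  linear_combination h

theorem zPb : Zr d.att rPb := by
  intro ρ
  have h := Z1_half (d.Ab (ρ 3) (ρ 0) (ρ 1) (ρ 2) + d.Ab (ρ 2) (ρ 0) (ρ 1) (ρ 3))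
  simp only [rPb, ev, Tm.ev, sumL, fP, List.map, List.sum_cons, List.sum_nil, List.prod_cons,
    List.prod_nil, Z1_a5, Z1_a22, Z1_a3, t4, Pb]
  unfold Ab at h ⊢
  push_cast
  linear_combination h

theorem Z1_upd (ρ : ℕ → ι) (i : ι) {a : ℕ} (h : a ≠ 10) : Function.update ρ 10 i a = ρ a :=
  Function.update_of_ne h _ _

theorem Z1_cyc (a b c e : ι) :
    d.cov [true, true, false] (t3 d.T) [a, b, c, e] +
      d.cov [true, true, false] (t3 d.T) [b, c, a, e] +
      d.cov [true, true, false] (t3 d.T) [c, a, b, e] + ∑ x, d.T a b x * d.T x c e +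
      ∑ x, d.T b c x * d.T x a e + ∑ x, d.T c a x * d.T x b e = 0 := by
  have h1 := d.flat a b c e
  have h2 := d.flat b c a e
  have h3 := d.flat c a b e
  have key : ∑ x, (-d.Γ a b x * d.T x c e + -d.Γ a c x * d.T b x e + d.Γ a x e * d.T b c x +
      (-d.Γ b c x * d.T x a e + -d.Γ b a x * d.T c x e + d.Γ b x e * d.T c a x) +
      (-d.Γ c a x * d.T x b e + -d.Γ c b x * d.T a x e + d.Γ c x e * d.T a b x) +
      d.T a b x * d.T x c e + d.T b c x * d.T x a e + d.T c a x * d.T x b e +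
      (d.Γ a c x * d.Γ b x e - d.Γ b c x * d.Γ a x e) +
      (d.Γ b a x * d.Γ c x e - d.Γ c a x * d.Γ b x e) +
      (d.Γ c b x * d.Γ a x e - d.Γ a b x * d.Γ c x e)) = 0 :=
    sum_eq_zero fun x _ => by
      simp only [T]
      ring
  simp only [sum_add_distrib, sum_sub_distrib] at key
  have e1 : ∀ m i k j, d.D m (d.T i k j) = d.D m (d.Γ i k j) - d.D m (d.Γ k i j) :=
    fun m i k j => by rw [T, map_sub]
  simp only [cov, dact, t3, cond_true, cond_false, e1]
  linear_combination h1 + h2 + h3 + key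

theorem zCyc : Zr d.att rCyc := by
  intro ρ
  have h := d.Z1_cyc (ρ 0) (ρ 1) (ρ 2) (ρ 3)
  simp only [rCyc, ev, Tm.ev, sumL, fP, List.map, List.sum_cons, List.sum_nil, List.prod_cons,
    List.prod_nil, Z1_a20, Z1_a2, Function.update_self, mul_one,
    Z1_upd ρ _ (show (0 : ℕ) ≠ 10 by norm_num), Z1_upd ρ _ (show (1 : ℕ) ≠ 10 by norm_num),
    Z1_upd ρ _ (show (2 : ℕ) ≠ 10 by norm_num), Z1_upd ρ _ (show (3 : ℕ) ≠ 10 by norm_num)]
  simp only [show ∀ a b c, t3 d.T [a, b, c] = d.T a b c from fun _ _ _ => rfl]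
  push_cast
  linear_combination h

theorem zRA : Zr d.att rRA := by
  intro ρ
  simp only [rRA, ev, Tm.ev, sumL, fP, List.map, List.sum_cons, List.sum_nil, List.prod_cons,
    List.prod_nil, Z1_a7, Z1_a21, Z1_a2, t4, t3, bar, R, T, map_sub]
  push_cast
  ring

theorem zCom (τ : ℕ) {r : ℕ} (hr : r ≤ 8) : Zr d.att (rCom τ r) := by
  intro ρ
  have h := d.com (kd τ) (d.att τ) (ρ 0) (ρ 1) ((List.range' 2 r).map ρ)
  have e : ∀ i, (List.range' 2 r).map (Function.update ρ 10 i) = (List.range' 2 r).map ρ :=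
    fun i => List.map_congr_left fun a ha => Z1_upd ρ i (by
      have := (List.mem_range'_1.mp ha).2
      omega)
  simp only [rCom, ev, Tm.ev, sumL, fP, List.map_cons, List.map_nil, List.sum_cons, List.sum_nil,
    List.prod_cons, List.prod_nil, att_uD, kd_uD, Z1_a2, Function.update_self, mul_one, e,
    Z1_upd ρ _ (show (0 : ℕ) ≠ 10 by norm_num), Z1_upd ρ _ (show (1 : ℕ) ≠ 10 by norm_num)]
  simp only [show ∀ a b c, t3 d.T [a, b, c] = d.T a b c from fun _ _ _ => rfl]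
  push_cast
  linear_combination h

theorem zMixT : Zr d.att rMixT := by
  intro ρ
  have h := d.mix [true, true, false] (d.att 2) (ρ 0) (ρ 1) [ρ 2, ρ 3, ρ 4]
  simp only [dact, cond_true, cond_false, neg_mul, sum_neg_distrib] at h
  simp only [rMixT, ev, Tm.ev, sumL, fP, List.map, List.sum_cons, List.sum_nil, List.prod_cons,
    List.prod_nil, Z1_a58, Z1_a57, Z1_a21, Z1_a20, Z1_a7, t4, Function.update_self, mul_one,
    Z1_upd ρ _ (show (0 : ℕ) ≠ 10 by norm_num), Z1_upd ρ _ (show (1 : ℕ) ≠ 10 by norm_num),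
    Z1_upd ρ _ (show (2 : ℕ) ≠ 10 by norm_num), Z1_upd ρ _ (show (3 : ℕ) ≠ 10 by norm_num),
    Z1_upd ρ _ (show (4 : ℕ) ≠ 10 by norm_num)]
  push_cast
  linear_combination h

theorem zMixTb : Zr d.att rMixTb := by
  intro ρ
  have h := d.mix [false, false, true] (d.att 3) (ρ 0) (ρ 1) [ρ 2, ρ 3, ρ 4]
  simp only [dact, cond_true, cond_false, neg_mul, sum_neg_distrib] at h
  simp only [rMixTb, ev, Tm.ev, sumL, fP, List.map, List.sum_cons, List.sum_nil, List.prod_cons,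
    List.prod_nil, Z1_a62, Z1_a61, Z1_a23, Z1_a22, Z1_a7, t4, Function.update_self, mul_one,
    Z1_upd ρ _ (show (0 : ℕ) ≠ 10 by norm_num), Z1_upd ρ _ (show (1 : ℕ) ≠ 10 by norm_num),
    Z1_upd ρ _ (show (2 : ℕ) ≠ 10 by norm_num), Z1_upd ρ _ (show (3 : ℕ) ≠ 10 by norm_num),
    Z1_upd ρ _ (show (4 : ℕ) ≠ 10 by norm_num)]
  push_cast
  linear_combination h

theorem Z1_ite (D : Derivation ℂ A A) (p : Prop) [Decidable p] : D (if p then 1 else 0) = 0 := by
  split_ifs <;> simp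

theorem z16 : Zr d.att (rOne 16 3) := by
  intro ρ
  simp [rOne, ev, Tm.ev, sumL, fP, List.range_succ, Z1_a16, Z1_a0, cov, dact, t2, Z1_ite]

theorem z17 : Zr d.att (rOne 17 3) := by
  intro ρ
  simp [rOne, ev, Tm.ev, sumL, fP, List.range_succ, Z1_a17, Z1_a0, bar, t2, Z1_ite]

theorem z18 : Zr d.att (rOne 18 1) := by
  intro ρ
  simp [rOne, ev, Tm.ev, sumL, fP, List.range_succ, Z1_a18, Z1_a1, cov, dact]

theorem z19 : Zr d.att (rOne 19 1) := by
  intro ρ
  simp [rOne, ev, Tm.ev, sumL, fP, List.range_succ, Z1_a19, Z1_a1, bar]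

theorem zBal (h : d.Bal) : Zr d.att rBal := by
  intro ρ
  simpa [rBal, ev, Tm.ev, sumL, fP, Z1_a2, t3] using h.1 (ρ 0)

theorem zBalb (h : d.Bal) : Zr d.att rBalb := by
  intro ρ
  simpa [rBalb, ev, Tm.ev, sumL, fP, Z1_a3, t3] using h.2 (ρ 0)

end Pool.Agent.P.MP_3e99c6_gt.G.HD
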