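import Pool.Agent.P.MP_3e99c6_gt.SK.Bas

/-! The hypotheses with raised indices. -/

set_option linter.unusedSectionVars false

namespace Pool.Agent.P.MP_3e99c6_gt.G.HD

open Finset

variable {ι A : Type} [Fintype ι] [DecidableEq ι] [CommRing A] [Algebra ℂ A] (d : HD ι A)

theorem Z3_T (i k a : ι) :
    d.T i k a = ∑ j, (d.D i (d.h k j) - d.D k (d.h i j)) * d.k j a := by
  simp only [T, Γ, sub_mul, sum_sub_distrib]

theorem Z3_R (i a k b : ι) : d.R i a k b = ∑ j, ∑ l, d.k j a * d.k l b *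
    (-d.D i (d.Db j (d.h k l)) + ∑ q, ∑ p, d.D i (d.h k q) * d.k q p * d.Db j (d.h p l)) := by
  rw [R, F_apply, ← sum_neg_distrib]
  refine sum_congr rfl fun j _ => ?_
  rw [Db_Γ, mul_sum, ← sum_neg_distrib]
  refine sum_congr rfl fun l _ => ?_
  ring

theorem Z3_TT (i a k b : ι) : ∑ p, d.T p i a * d.Tb p b k = ∑ j, ∑ l, d.k j a * d.k l b *
    ∑ q, ∑ p, (d.D p (d.h i j) - d.D i (d.h p j)) * d.k q p *
      (d.Db q (d.h k l) - d.Db l (d.h k q)) := by
  have e : ∀ p, d.T p i a * d.Tb p b k = ∑ j, ∑ l, ∑ q, d.k j a * d.k l b *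
      ((d.D p (d.h i j) - d.D i (d.h p j)) * d.k q p * (d.Db q (d.h k l) - d.Db l (d.h k q))) := by
    intro p
    rw [Z3_T, Tb, sum_mul]
    refine sum_congr rfl fun j _ => ?_
    rw [sum_comm, mul_sum]
    refine sum_congr rfl fun l _ => ?_
    rw [mul_sum]
    refine sum_congr rfl fun q _ => ?_
    ring
  rw [sum_congr rfl fun p _ => e p, sum_comm]
  refine sum_congr rfl fun j _ => ?_
  rw [sum_comm]
  refine sum_congr rfl fun l _ => ?_
  rw [sum_comm, mul_sum]
  refine sum_congr rfl fun q _ => ?_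
  rw [mul_sum]

theorem Z3_hh (i a k b : ι) (c : A) :
    c * ((if i = a then 1 else 0) * if k = b then 1 else 0) =
      ∑ j, ∑ l, d.k j a * d.k l b * (c * d.h i j * d.h k l) := by
  rw [← d.hk i a, ← d.hk k b, sum_mul_sum, mul_sum]
  refine sum_congr rfl fun j _ => ?_
  rw [mul_sum]
  refine sum_congr rfl fun l _ => ?_
  ring

theorem Z3_psi (i a k b : ι) : ∑ j, ∑ l, d.k j a * d.k l b * d.Ψ i j k l =
    d.R i a k b - ∑ p, d.T p i a * d.Tb p b k -
      algebraMap ℂ A d.c * ((if i = a then 1 else 0) * if k = b then 1 else 0) := by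
  rw [Z3_R, Z3_TT, Z3_hh d i a k b, ← sum_sub_distrib, ← sum_sub_distrib]
  refine sum_congr rfl fun j _ => ?_
  rw [← sum_sub_distrib, ← sum_sub_distrib]
  refine sum_congr rfl fun l _ => ?_
  rw [Ψ]
  ring

theorem Z3_psi' (i a k b : ι) : ∑ j, ∑ l, d.k j a * d.k l b * d.Ψ i l k j =
    d.R i b k a - ∑ p, d.T p i b * d.Tb p a k -
      algebraMap ℂ A d.c * ((if i = b then 1 else 0) * if k = a then 1 else 0) := by
  rw [← Z3_psi, sum_comm]
  refine sum_congr rfl fun j _ => sum_congr rfl fun l _ => ?_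
  ring

theorem Z3_curv (h : d.Curv) (i a k b : ι) :
    (d.R i a k b - ∑ p, d.T p i a * d.Tb p b k -
      algebraMap ℂ A d.c * ((if i = a then 1 else 0) * if k = b then 1 else 0)) +
    (d.R k a i b - ∑ p, d.T p k a * d.Tb p b i -
      algebraMap ℂ A d.c * ((if k = a then 1 else 0) * if i = b then 1 else 0)) +
    (d.R i b k a - ∑ p, d.T p i b * d.Tb p a k -
      algebraMap ℂ A d.c * ((if i = b then 1 else 0) * if k = a then 1 else 0)) +
    (d.R k b i a - ∑ p, d.T p k b * d.Tb p a i -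
      algebraMap ℂ A d.c * ((if k = b then 1 else 0) * if i = a then 1 else 0)) = 0 := by
  rw [← Z3_psi, ← Z3_psi, ← Z3_psi', ← Z3_psi', ← sum_add_distrib, ← sum_add_distrib,
    ← sum_add_distrib]
  refine sum_eq_zero fun j _ => ?_
  rw [← sum_add_distrib, ← sum_add_distrib, ← sum_add_distrib]
  refine sum_eq_zero fun l _ => ?_
  rw [← mul_add, ← mul_add, ← mul_add, h i j k l, mul_zero]

theorem Z3_att0 : d.att 0 = t2 fun i j => if i = j then 1 else 0 := d.att_lt (by norm_num)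

theorem Z3_att1 : d.att 1 = fun l => if l = [] then algebraMap ℂ A d.c else 0 :=
  d.att_lt (by norm_num)

theorem Z3_att2 : d.att 2 = t3 d.T := d.att_lt (by norm_num)

theorem Z3_att3 : d.att 3 = t3 d.Tb := d.att_lt (by norm_num)

theorem Z3_att6 : d.att 6 = t4 d.K := d.att_lt (by norm_num)

theorem Z3_att7 : d.att 7 = t4 d.R := d.att_lt (by norm_num)

theorem zCurv (h : d.Curv) : Zr d.att rCurv := by
  intro ρ
  have e := Z3_curv d h (ρ 0) (ρ 1) (ρ 2) (ρ 3)
  simp only [rCurv, ev_cons, ev_nil, Tm.ev, sumL, fP_cons, fP_nil, List.map_cons, List.map_nil,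
    Z3_att0, Z3_att1, Z3_att2, Z3_att3, Z3_att7, t2, t3, t4, Function.update_self, mul_one,
    Function.update_of_ne (show (0 : ℕ) ≠ 10 by norm_num),
    Function.update_of_ne (show (1 : ℕ) ≠ 10 by norm_num),
    Function.update_of_ne (show (2 : ℕ) ≠ 10 by norm_num),
    Function.update_of_ne (show (3 : ℕ) ≠ 10 by norm_num), if_true]
  push_cast
  linear_combination e

theorem Z3_DbT (i k a l : ι) : d.Db l (d.T i k a) =
    ∑ j, d.k j a * d.Db l (d.D i (d.h k j) - d.D k (d.h i j)) -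
      ∑ x, d.T i k x * ∑ j, d.k j a * d.Db l (d.h x j) := by
  have e2 : ∑ x, d.T i k x * ∑ j, d.k j a * d.Db l (d.h x j) =
      ∑ y, (d.D i (d.h k y) - d.D k (d.h i y)) *
        ∑ x, ∑ j, d.k y x * d.Db l (d.h x j) * d.k j a := by
    have e3 : ∀ x, d.T i k x * ∑ j, d.k j a * d.Db l (d.h x j) =
        ∑ y, (d.D i (d.h k y) - d.D k (d.h i y)) *
          ∑ j, d.k y x * d.Db l (d.h x j) * d.k j a := by
      intro x
      rw [Z3_T, sum_mul]
      refine sum_congr rfl fun y _ => ?_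
      rw [mul_sum, mul_sum]
      refine sum_congr rfl fun j _ => ?_
      ring
    rw [sum_congr rfl fun x _ => e3 x, sum_comm]
    refine sum_congr rfl fun y _ => ?_
    rw [← mul_sum]
  rw [e2, Z3_T, map_sum, ← sum_sub_distrib]
  refine sum_congr rfl fun j _ => ?_
  rw [Derivation.leibniz, Db_k, smul_eq_mul, smul_eq_mul]
  ring

theorem Z3_FT (i k a b : ι) : d.F b (d.T i k a) =
    ∑ j, ∑ l, d.k j a * d.k l b * d.Db l (d.D i (d.h k j) - d.D k (d.h i j)) -
      ∑ x, d.T i k x * ∑ j, ∑ l, d.k j a * d.k l b * d.Db l (d.h x j) := by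
  have e1 : ∀ l, d.k l b * d.Db l (d.T i k a) =
      ∑ j, d.k j a * d.k l b * d.Db l (d.D i (d.h k j) - d.D k (d.h i j)) -
        ∑ x, d.T i k x * ∑ j, d.k j a * d.k l b * d.Db l (d.h x j) := by
    intro l
    rw [Z3_DbT, mul_sub, mul_sum, mul_sum]
    congr 1
    · exact sum_congr rfl fun j _ => by ring
    · refine sum_congr rfl fun x _ => ?_
      rw [mul_left_comm, mul_sum]
      congr 1
      exact sum_congr rfl fun j _ => by ring
  rw [F_apply, sum_congr rfl fun l _ => e1 l, sum_sub_distrib, sum_comm]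
  congr 1
  rw [sum_comm]
  refine sum_congr rfl fun x _ => ?_
  rw [← mul_sum, sum_comm]

theorem Z3_K (i k a b : ι) : 2 * d.K i k a b = d.F b (d.T i k a) - d.F a (d.T i k b) := by
  rw [K, two_mul, ← add_smul]
  norm_num

theorem Z3_skt (h : d.SKT) (i k a b : ι) : 2 * d.K i k a b = ∑ x, d.T i k x * d.Tb a b x := by
  have e1 : ∑ j, ∑ l, d.k j a * d.k l b * d.Db l (d.D i (d.h k j) - d.D k (d.h i j)) =
      ∑ j, ∑ l, d.k j b * d.k l a * d.Db l (d.D i (d.h k j) - d.D k (d.h i j)) := by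
    rw [sum_comm]
    refine sum_congr rfl fun l _ => sum_congr rfl fun j _ => ?_
    have e := h i j k l
    rw [map_sub, map_sub, ← d.DB, ← d.DB, ← d.DB, ← d.DB]
    linear_combination -(d.k j a * d.k l b) * e
  have e2 : ∀ x, d.Tb a b x = ∑ j, ∑ l, d.k j b * d.k l a * d.Db l (d.h x j) -
      ∑ j, ∑ l, d.k j a * d.k l b * d.Db l (d.h x j) := by
    intro x
    rw [sum_comm, Tb, ← sum_sub_distrib]
    refine sum_congr rfl fun j _ => ?_
    rw [← sum_sub_distrib]
    refine sum_congr rfl fun l _ => ?_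
    ring
  have e3 : ∑ x, d.T i k x * d.Tb a b x =
      ∑ x, d.T i k x * ∑ j, ∑ l, d.k j b * d.k l a * d.Db l (d.h x j) -
        ∑ x, d.T i k x * ∑ j, ∑ l, d.k j a * d.k l b * d.Db l (d.h x j) := by
    rw [← sum_sub_distrib]
    exact sum_congr rfl fun x _ => by rw [e2 x, mul_sub]
  rw [Z3_K, Z3_FT, Z3_FT, e1, e3]
  ring

theorem zSKT (h : d.SKT) : Zr d.att rSKT := by
  intro ρ
  have e := Z3_skt d h (ρ 0) (ρ 1) (ρ 2) (ρ 3)
  simp only [rSKT, ev_cons, ev_nil, Tm.ev, sumL, fP_cons, fP_nil, List.map_cons, List.map_nil,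
    Z3_att2, Z3_att3, Z3_att6, t3, t4, Function.update_self, mul_one,
    Function.update_of_ne (show (0 : ℕ) ≠ 10 by norm_num),
    Function.update_of_ne (show (1 : ℕ) ≠ 10 by norm_num),
    Function.update_of_ne (show (2 : ℕ) ≠ 10 by norm_num),
    Function.update_of_ne (show (3 : ℕ) ≠ 10 by norm_num)]
  push_cast
  linear_combination e

end Pool.Agent.P.MP_3e99c6_gt.G.HD
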